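import Mathlib

/-!
Deterministic two-head systems on inputs of the form (short word)(long unary block):
blind excursions of one head inside the short word.
-/

namespace Pool.Agent.P.MP_d0a708_lc

/-- A total deterministic two-head transition table. -/
structure Sys (Q S : Type) where
  nx : Q → S → S → Q × ℤ × ℤ
  acc : Q → Prop
  a : S
  lf : S
  rt : S
  abs : ∀ q s s', acc q → nx q s s' = (q, 0, 0)
  mv1 : ∀ q s s', -1 ≤ (nx q s s').2.1 ∧ (nx q s s').2.1 ≤ 1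
  mv2 : ∀ q s s', -1 ≤ (nx q s s').2.2 ∧ (nx q s s').2.2 ≤ 1
  lf1 : ∀ q s', 0 ≤ (nx q lf s').2.1
  lf2 : ∀ q s, 0 ≤ (nx q s lf).2.2
  rt1 : ∀ q s', (nx q rt s').2.1 ≤ 0
  rt2 : ∀ q s, (nx q s rt).2.2 ≤ 0

/-- Configuration with head `j` at `i` and the other head at `y`. -/
def cf {Q : Type} (j : Bool) (q : Q) (i y : ℤ) : Q × ℤ × ℤ := if j then (q, y, i) else (q, i, y)

lemma cf_not {Q : Type} (j : Bool) (q : Q) (i y : ℤ) : cf (!j) q y i = cf j q i y := by
  cases j <;> rfl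

@[simp] lemma cf_fst {Q : Type} (j : Bool) (q : Q) (i y : ℤ) : (cf j q i y).1 = q := by
  cases j <;> rfl

namespace Sys

variable {Q S : Type} (M : Sys Q S)

/-- The table seen from head `j`. -/
def nxj (j : Bool) (q : Q) (s s' : S) : Q × ℤ × ℤ :=
  if j then ((M.nx q s' s).1, (M.nx q s' s).2.2, (M.nx q s' s).2.1) else M.nx q s s'

lemma nxj_abs (j : Bool) {q : Q} (s s' : S) (h : M.acc q) : M.nxj j q s s' = (q, 0, 0) := by
  cases j <;> simp [nxj, M.abs q _ _ h]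

lemma nxj_mv1 (j q s s') : -1 ≤ (M.nxj j q s s').2.1 ∧ (M.nxj j q s s').2.1 ≤ 1 := by
  cases j
  · exact M.mv1 _ _ _
  · exact M.mv2 _ _ _

lemma nxj_mv2 (j q s s') : -1 ≤ (M.nxj j q s s').2.2 ∧ (M.nxj j q s s').2.2 ≤ 1 := by
  cases j
  · exact M.mv2 _ _ _
  · exact M.mv1 _ _ _

lemma nxj_lf1 (j q s') : 0 ≤ (M.nxj j q M.lf s').2.1 := by
  cases j
  · exact M.lf1 _ _
  · exact M.lf2 _ _

lemma nxj_lf2 (j q s) : 0 ≤ (M.nxj j q s M.lf).2.2 := by
  cases j
  · exact M.lf2 _ _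
  · exact M.lf1 _ _

lemma nxj_rt2 (j q s) : (M.nxj j q s M.rt).2.2 ≤ 0 := by
  cases j
  · exact M.rt2 _ _
  · exact M.rt1 _ _

/-- The tape: the short word `z` on cells `≤ l`, then `n` copies of `a`, then the end marker. -/
def sym (l : ℕ) (z : ℤ → S) (n : ℕ) (p : ℤ) : S :=
  if p ≤ l then z p else if p ≤ l + n then M.a else M.rt

/-- One step. -/
def f (l : ℕ) (z : ℤ → S) (n : ℕ) (c : Q × ℤ × ℤ) : Q × ℤ × ℤ :=
  ((M.nx c.1 (M.sym l z n c.2.1) (M.sym l z n c.2.2)).1,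
    c.2.1 + (M.nx c.1 (M.sym l z n c.2.1) (M.sym l z n c.2.2)).2.1,
    c.2.2 + (M.nx c.1 (M.sym l z n c.2.1) (M.sym l z n c.2.2)).2.2)

lemma f_cf (l z n) (j : Bool) (q : Q) (i y : ℤ) : M.f l z n (cf j q i y) =
    cf j (M.nxj j q (M.sym l z n i) (M.sym l z n y)).1
      (i + (M.nxj j q (M.sym l z n i) (M.sym l z n y)).2.1)
      (y + (M.nxj j q (M.sym l z n i) (M.sym l z n y)).2.2) := by
  cases j <;> rfl

/-- Accepting state at time `t`. -/
def AccIn (l : ℕ) (z : ℤ → S) (n : ℕ) (c : Q × ℤ × ℤ) (t : ℕ) : Prop :=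
  M.acc ((M.f l z n)^[t] c).1

/-- Acceptance from a configuration. -/
def Acc (l : ℕ) (z : ℤ → S) (n : ℕ) (c : Q × ℤ × ℤ) : Prop := ∃ t, M.AccIn l z n c t

variable {M}

lemma AccIn.succ {l z n c t} (h : M.AccIn l z n c t) : M.AccIn l z n c (t + 1) := by
  unfold AccIn at h ⊢
  rw [Function.iterate_succ_apply', f, M.abs _ _ _ h]
  exact h

lemma AccIn.mono {l z n c t u} (h : M.AccIn l z n c t) (htu : t ≤ u) : M.AccIn l z n c u := by
  induction htu with
  | refl => exact h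
  | step _ ih => exact ih.succ

lemma accIn_add {l z n c t u} : M.AccIn l z n c (t + u) ↔ M.AccIn l z n ((M.f l z n)^[u] c) t := by
  unfold AccIn
  rw [Function.iterate_add_apply]

lemma AccIn.iter {l z n c t} (h : M.AccIn l z n c t) (u : ℕ) :
    M.AccIn l z n ((M.f l z n)^[u] c) t :=
  accIn_add.1 (h.mono (Nat.le_add_right _ _))

lemma Acc.of_iter {l z n c u} (h : M.Acc l z n ((M.f l z n)^[u] c)) : M.Acc l z n c := by
  obtain ⟨t, ht⟩ := h
  exact ⟨t + u, accIn_add.2 ht⟩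

variable (M)

/-- One blind step: head `j` is inside the short word and the other head reads `a`; the last
component records the displacement of the other head. -/
def g (l : ℕ) (z : ℤ → S) (j : Bool) (b : Q × ℤ × ℤ) : Q × ℤ × ℤ :=
  if b.2.1 ≤ l then ((M.nxj j b.1 (z b.2.1) M.a).1, b.2.1 + (M.nxj j b.1 (z b.2.1) M.a).2.1,
    b.2.2 + (M.nxj j b.1 (z b.2.1) M.a).2.2) else b

/-- The blind run. -/
def bl (l : ℕ) (z : ℤ → S) (j : Bool) (q : Q) (i : ℤ) (t : ℕ) : Q × ℤ × ℤ :=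
  (M.g l z j)^[t] (q, i, 0)

lemma bl_zero (l z j q i) : M.bl l z j q i 0 = (q, i, 0) := rfl

lemma bl_succ (l z j q i t) : M.bl l z j q i (t + 1) = M.g l z j (M.bl l z j q i t) :=
  Function.iterate_succ_apply' _ _ _

lemma g_shift (l z j) (b : Q × ℤ × ℤ) (k : ℤ) :
    M.g l z j (b.1, b.2.1, b.2.2 + k) =
      ((M.g l z j b).1, (M.g l z j b).2.1, (M.g l z j b).2.2 + k) := by
  unfold g
  split_ifs with h
  · simp only [Prod.mk.injEq, true_and]
    ring
  · rfl

lemma iter_g_shift (l z j) (t : ℕ) (b : Q × ℤ × ℤ) (k : ℤ) :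
    (M.g l z j)^[t] (b.1, b.2.1, b.2.2 + k) =
      (((M.g l z j)^[t] b).1, ((M.g l z j)^[t] b).2.1, ((M.g l z j)^[t] b).2.2 + k) := by
  induction t with
  | zero => rfl
  | succ t ih => rw [Function.iterate_succ_apply', Function.iterate_succ_apply', ih, g_shift]

lemma bl_add (l z j q i) (t u : ℕ) : M.bl l z j q i (t + u) =
    ((M.bl l z j (M.bl l z j q i u).1 (M.bl l z j q i u).2.1 t).1,
     (M.bl l z j (M.bl l z j q i u).1 (M.bl l z j q i u).2.1 t).2.1,
     (M.bl l z j (M.bl l z j q i u).1 (M.bl l z j q i u).2.1 t).2.2 + (M.bl l z j q i u).2.2) := by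
  have h := M.iter_g_shift l z j t ((M.bl l z j q i u).1, (M.bl l z j q i u).2.1, 0)
    (M.bl l z j q i u).2.2
  simp only [zero_add] at h
  rw [bl, Function.iterate_add_apply]
  exact h

lemma bl_disp (l z j q i) (t : ℕ) :
    -(t : ℤ) ≤ (M.bl l z j q i t).2.2 ∧ (M.bl l z j q i t).2.2 ≤ t := by
  induction t with
  | zero => simp [bl_zero]
  | succ t ih =>
    rw [bl_succ, g]
    have := M.nxj_mv2 j (M.bl l z j q i t).1 (z (M.bl l z j q i t).2.1) M.a
    split_ifs <;> push_cast <;> omega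

lemma bl_pos {l : ℕ} {z : ℤ → S} (hz : z 0 = M.lf) (j q) {i : ℤ} (h0 : 0 ≤ i) (h1 : i ≤ l + 1)
    (t : ℕ) : 0 ≤ (M.bl l z j q i t).2.1 ∧ (M.bl l z j q i t).2.1 ≤ l + 1 := by
  induction t with
  | zero => simp [bl_zero, h0, h1]
  | succ t ih =>
    rw [bl_succ, g]
    have h2 := M.nxj_mv1 j (M.bl l z j q i t).1 (z (M.bl l z j q i t).2.1) M.a
    split_ifs with h
    · simp only
      by_cases h3 : (M.bl l z j q i t).2.1 = 0
      · have h4 := M.nxj_lf1 j (M.bl l z j q i t).1 M.a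
        rw [h3, hz] at h2 ⊢
        omega
      · omega
    · exact ih

lemma bl_exit {l : ℕ} {z : ℤ → S} {j q i} {t u : ℕ} (h : ¬ (M.bl l z j q i t).2.1 ≤ l)
    (htu : t ≤ u) : M.bl l z j q i u = M.bl l z j q i t := by
  induction htu with
  | refl => rfl
  | step _ ih => rw [bl_succ, ih, g, if_neg h]

lemma bl_acc {l : ℕ} {z : ℤ → S} {j q i} {t u : ℕ} (h : M.acc (M.bl l z j q i t).1)
    (htu : t ≤ u) : M.bl l z j q i u = M.bl l z j q i t := by
  induction htu with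
  | refl => rfl
  | step _ ih =>
    rw [bl_succ, ih, g, M.nxj_abs _ _ _ h]
    simp

/-- The real run follows the blind run while the other head stays inside the unary block. -/
lemma track {l : ℕ} {z : ℤ → S} {n : ℕ} {j q i} {y : ℤ} (t : ℕ)
    (h : ∀ u < t, (M.bl l z j q i u).2.1 ≤ l ∧ l < y + (M.bl l z j q i u).2.2 ∧
      y + (M.bl l z j q i u).2.2 ≤ l + n) :
    (M.f l z n)^[t] (cf j q i y) =
      cf j (M.bl l z j q i t).1 (M.bl l z j q i t).2.1 (y + (M.bl l z j q i t).2.2) := by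
  induction t with
  | zero => simp [bl_zero]
  | succ t ih =>
    obtain ⟨h1, h2, h3⟩ := h t (Nat.lt_succ_self t)
    rw [Function.iterate_succ_apply', ih fun u hu => h u (Nat.lt_succ_of_lt hu), f_cf, bl_succ, g,
      if_pos h1, sym, if_pos h1, sym, if_neg (by omega), if_pos h3, add_assoc]

variable [Fintype Q]

/-- Bound for preperiod plus period of a blind run. -/
def DD (Q : Type) [Fintype Q] (l : ℕ) : ℕ := Fintype.card Q * (l + 2)

lemma exists_period {l : ℕ} {z : ℤ → S} (hz : z 0 = M.lf) (j q) {i : ℤ} (h0 : 0 ≤ i)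
    (h1 : i ≤ l + 1) : ∃ (t₀ π : ℕ) (δ : ℤ), 0 < π ∧ t₀ + π ≤ DD Q l ∧ |δ| ≤ DD Q l ∧
      ∀ u r : ℕ, t₀ ≤ u → M.bl l z j q i (u + r * π) =
        ((M.bl l z j q i u).1, (M.bl l z j q i u).2.1, (M.bl l z j q i u).2.2 + r * δ) := by
  classical
  have hmap : ∀ t ∈ Finset.range (DD Q l + 1), ((M.bl l z j q i t).1, (M.bl l z j q i t).2.1) ∈
      (Finset.univ : Finset Q) ×ˢ Finset.Icc (0 : ℤ) (l + 1) := by
    intro t _
    simpa using M.bl_pos hz j q h0 h1 t
  obtain ⟨x, hx, y, hy, hne, hxy⟩ := Finset.exists_ne_map_eq_of_card_lt_of_maps_to (by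
    rw [Finset.card_product, Finset.card_range, Int.card_Icc, Finset.card_univ, DD]
    have : ((l : ℤ) + 1 + 1 - 0).toNat = l + 2 := by omega
    rw [this]
    exact Nat.lt_succ_self _) hmap
  wlog hlt : x < y generalizing x y
  · exact this y hy x hx hne.symm hxy.symm (lt_of_le_of_ne (not_lt.1 hlt) hne.symm)
  obtain ⟨π, rfl⟩ := Nat.exists_eq_add_of_lt hlt
  rw [Finset.mem_range] at hx hy
  simp only [Prod.mk.injEq] at hxy
  set δ := (M.bl l z j q i (x + π + 1)).2.2 - (M.bl l z j q i x).2.2 with hδ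
  have key : ∀ u : ℕ, x ≤ u → M.bl l z j q i (u + (π + 1)) =
      ((M.bl l z j q i u).1, (M.bl l z j q i u).2.1, (M.bl l z j q i u).2.2 + δ) := by
    intro u hu
    obtain ⟨v, rfl⟩ := Nat.exists_eq_add_of_le hu
    rw [show x + v + (π + 1) = v + (x + π + 1) by ring, bl_add, ← hxy.1, ← hxy.2, add_comm x v,
      M.bl_add l z j q i v x]
    simp only [Prod.mk.injEq, true_and, hδ]
    ring
  refine ⟨x, π + 1, δ, Nat.succ_pos _, by omega, ?_, ?_⟩
  · have h2 := M.bl_add l z j q i (π + 1) x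
    have h3 := M.bl_disp l z j (M.bl l z j q i x).1 (M.bl l z j q i x).2.1 (π + 1)
    rw [show π + 1 + x = x + π + 1 by ring] at h2
    rw [hδ, h2, abs_le]
    push_cast at h3 ⊢
    omega
  · intro u r hu
    induction r with
    | zero => simp
    | succ r ih =>
      rw [show u + (r + 1) * (π + 1) = (u + r * (π + 1)) + (π + 1) by ring, key _ (by omega), ih]
      simp only [Prod.mk.injEq, true_and]
      push_cast
      ring

open Classical in
/-- The drift of the blind run. -/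
noncomputable def drift (l : ℕ) (z : ℤ → S) (j : Bool) (q : Q) (i : ℤ) : ℤ :=
  if h : z 0 = M.lf ∧ 0 ≤ i ∧ i ≤ l + 1 then
    (M.exists_period h.1 j q h.2.1 h.2.2).choose_spec.choose_spec.choose else 0

lemma drift_spec {l : ℕ} {z : ℤ → S} (hz : z 0 = M.lf) (j q) {i : ℤ} (h0 : 0 ≤ i)
    (h1 : i ≤ l + 1) : ∃ t₀ π : ℕ, 0 < π ∧ t₀ + π ≤ DD Q l ∧ |M.drift l z j q i| ≤ DD Q l ∧
      ∀ u r : ℕ, t₀ ≤ u → M.bl l z j q i (u + r * π) = ((M.bl l z j q i u).1,
        (M.bl l z j q i u).2.1, (M.bl l z j q i u).2.2 + r * M.drift l z j q i) := by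
  rw [drift, dif_pos ⟨hz, h0, h1⟩]
  exact ⟨_, _, (M.exists_period hz j q h0 h1).choose_spec.choose_spec.choose_spec⟩

lemma abs_drift_le (l : ℕ) (z : ℤ → S) (j q) (i : ℤ) : |M.drift l z j q i| ≤ DD Q l := by
  by_cases h : z 0 = M.lf ∧ 0 ≤ i ∧ i ≤ l + 1
  · obtain ⟨_, _, _, _, h1, _⟩ := M.drift_spec h.1 j q h.2.1 h.2.2
    exact h1
  · rw [drift, dif_neg h]
    simp

/-- Every time of the blind run reduces to an early time. -/
lemma reduce {l : ℕ} {z : ℤ → S} {j q} {i : ℤ} {t₀ π : ℕ} {δ : ℤ} (hD : t₀ + π ≤ DD Q l)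
    (h : ∀ u r : ℕ, t₀ ≤ u → M.bl l z j q i (u + r * π) =
      ((M.bl l z j q i u).1, (M.bl l z j q i u).2.1, (M.bl l z j q i u).2.2 + r * δ))
    (k u : ℕ) (hu : u ≤ t₀ + k * π) : ∃ u' ≤ DD Q l, ∃ r ≤ k, M.bl l z j q i u =
      ((M.bl l z j q i u').1, (M.bl l z j q i u').2.1, (M.bl l z j q i u').2.2 + r * δ) := by
  induction k with
  | zero => exact ⟨u, by omega, 0, le_rfl, by simp⟩
  | succ k ih =>
    by_cases h1 : u ≤ t₀ + k * π
    · obtain ⟨u', hu', r, hr, h2⟩ := ih h1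
      exact ⟨u', hu', r, by omega, h2⟩
    · have h2 : (k + 1) * π = k * π + π := by ring
      refine ⟨u - k * π, by omega, k, by omega, ?_⟩
      rw [← h (u - k * π) k (by omega)]
      congr 1
      omega

lemma reduce' {l : ℕ} {z : ℤ → S} (hz : z 0 = M.lf) (j q) {i : ℤ} (h0 : 0 ≤ i) (h1 : i ≤ l + 1)
    (u : ℕ) : ∃ u' ≤ DD Q l, ∃ r : ℕ, M.bl l z j q i u = ((M.bl l z j q i u').1,
      (M.bl l z j q i u').2.1, (M.bl l z j q i u').2.2 + r * M.drift l z j q i) := by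
  obtain ⟨t₀, π, hπ, hD, -, h⟩ := M.drift_spec hz j q h0 h1
  obtain ⟨u', hu', r, -, h2⟩ := M.reduce hD h u u (by nlinarith)
  exact ⟨u', hu', r, h2⟩

lemma never_exit {l : ℕ} {z : ℤ → S} (hz : z 0 = M.lf) (j q) {i : ℤ} (h0 : 0 ≤ i) (h1 : i ≤ l + 1)
    (h : (M.bl l z j q i (DD Q l)).2.1 ≤ l) (u : ℕ) : (M.bl l z j q i u).2.1 ≤ l := by
  obtain ⟨u', hu', r, h2⟩ := M.reduce' hz j q h0 h1 u
  rw [h2]
  by_contra h3
  rw [M.bl_exit h3 hu'] at h
  exact h3 h

/-- An excursion that leaves the short word. -/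
lemma exit_run {l : ℕ} {z : ℤ → S} {n : ℕ} (hz : z 0 = M.lf) (j q) {i : ℤ} (h0 : 0 ≤ i)
    (h1 : i ≤ l + 1) (h : ¬ (M.bl l z j q i (DD Q l)).2.1 ≤ l) {y : ℤ} (hy1 : l + DD Q l < y)
    (hy2 : y + DD Q l ≤ l + n) : ∃ t, (M.f l z n)^[t] (cf j q i y) =
      cf j (M.bl l z j q i (DD Q l)).1 (l + 1) (y + (M.bl l z j q i (DD Q l)).2.2) := by
  classical
  have hex : ∃ t, ¬ (M.bl l z j q i t).2.1 ≤ l := ⟨_, h⟩
  have ht : Nat.find hex ≤ DD Q l := Nat.find_min' hex h
  have h2 := M.bl_exit (Nat.find_spec hex) ht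
  have h3 := (M.bl_pos hz j q h0 h1 (DD Q l)).2
  refine ⟨Nat.find hex, ?_⟩
  rw [M.track, ← h2, show (M.bl l z j q i (DD Q l)).2.1 = l + 1 by omega]
  intro u hu
  have h4 := M.bl_disp l z j q i u
  exact ⟨not_not.1 (Nat.find_min hex hu), by omega, by omega⟩

/-- An excursion that never leaves the short word: the other head may be moved along the drift. -/
lemma shift {l : ℕ} {z : ℤ → S} {n : ℕ} (hz : z 0 = M.lf) (j q) {i : ℤ} (h0 : 0 ≤ i)
    (h1 : i ≤ l + 1) (h : (M.bl l z j q i (DD Q l)).2.1 ≤ l) {y y' : ℤ} (hy1 : l + DD Q l < y)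
    (hy2 : y + DD Q l ≤ l + n) (hy1' : l + DD Q l < y') (hy2' : y' + DD Q l ≤ l + n)
    (hk : M.drift l z j q i = 0 ∨ ∃ k : ℕ, y' = y + k * M.drift l z j q i) :
    (∀ t, M.AccIn l z n (cf j q i y) t → M.AccIn l z n (cf j q i y') t) ∧
      (M.Acc l z n (cf j q i y') → M.Acc l z n (cf j q i y)) := by
  have hne := M.never_exit hz j q h0 h1 h
  by_cases hδ : M.drift l z j q i = 0
  · have hb : ∀ u, -(DD Q l : ℤ) ≤ (M.bl l z j q i u).2.2 ∧ (M.bl l z j q i u).2.2 ≤ DD Q l := by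
      intro u
      obtain ⟨u', hu', r, h2⟩ := M.reduce' hz j q h0 h1 u
      have h3 := M.bl_disp l z j q i u'
      rw [h2, hδ]
      simp only [mul_zero, add_zero]
      omega
    have key : ∀ x : ℤ, l + DD Q l < x → x + DD Q l ≤ l + n → ∀ t,
        M.AccIn l z n (cf j q i x) t ↔ M.acc (M.bl l z j q i t).1 := by
      intro x hx1 hx2 t
      rw [AccIn, M.track t fun u _ => ⟨hne u, by have := hb u; omega, by have := hb u; omega⟩,
        cf_fst]
    refine ⟨fun t ht => (key y' hy1' hy2' t).2 ((key y hy1 hy2 t).1 ht), ?_⟩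
    rintro ⟨t, ht⟩
    exact ⟨t, (key y hy1 hy2 t).2 ((key y' hy1' hy2' t).1 ht)⟩
  · obtain ⟨k, rfl⟩ := hk.resolve_left hδ
    obtain ⟨t₀, π, hπ, hD, -, hper⟩ := M.drift_spec hz j q h0 h1
    set δ := M.drift l z j q i with hδdef
    have e1 : (M.f l z n)^[t₀ + k * π] (cf j q i y) =
        (M.f l z n)^[t₀] (cf j q i (y + k * δ)) := by
      rw [M.track, M.track, hper t₀ k le_rfl]
      · congr 1
        ring
      · intro u hu
        have h4 := M.bl_disp l z j q i u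
        exact ⟨hne u, by omega, by omega⟩
      · intro u hu
        obtain ⟨u', hu', r, hr, h2⟩ := M.reduce hD hper k u hu.le
        have h4 := M.bl_disp l z j q i u'
        have h5 : (r : ℤ) ≤ k := by exact_mod_cast hr
        have h6 : (0 : ℤ) ≤ r := Int.natCast_nonneg r
        refine ⟨hne u, ?_, ?_⟩ <;> rw [h2] <;> simp only
        · rcases le_total 0 δ with h7 | h7 <;> nlinarith
        · rcases le_total 0 δ with h7 | h7 <;> nlinarith
    constructor
    · intro t ht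
      by_cases htk : t₀ + k * π ≤ t
      · obtain ⟨v, rfl⟩ := Nat.exists_eq_add_of_le' htk
        rw [accIn_add, e1, ← accIn_add] at ht
        exact ht.mono (by omega)
      · exfalso
        have h2 := ht.mono (not_le.1 htk).le
        rw [AccIn, e1, M.track, cf_fst] at h2
        · have h3 := M.bl_acc h2 (Nat.le_add_right t₀ (1 * π))
          rw [hper t₀ 1 le_rfl] at h3
          have h4 := congrArg (fun b => b.2.2) h3
          simp at h4
          exact hδ h4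
        · intro u hu
          have h4 := M.bl_disp l z j q i u
          exact ⟨hne u, by omega, by omega⟩
    · rintro ⟨t, ht⟩
      refine Acc.of_iter (u := t₀ + k * π) ?_
      rw [e1]
      exact ⟨t, ht.iter t₀⟩

end Sys

end Pool.Agent.P.MP_d0a708_lc
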