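import Pool.Agent.P.MP_d0a708_lc.Blind

/-!
Transfer of acceptance between two long unary blocks.
-/

namespace Pool.Agent.P.MP_d0a708_lc

/-- State, inner head, its position, side and distance of the other head. -/
abbrev Node (Q : Type) := Q × Bool × ℤ × Bool × ℤ

/-- Position at distance `d` from the left or the right end. -/
def pos (l n : ℕ) (σ : Bool) (d : ℤ) : ℤ := if σ then (l + n + 1 : ℤ) - d else d

/-- Direction away from the end. -/
def sg (σ : Bool) : ℤ := if σ then -1 else 1

lemma pos_add (l n : ℕ) (σ : Bool) (d m : ℤ) : pos l n σ d + m = pos l n σ (d + sg σ * m) := by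
  cases σ <;> simp [pos, sg]
  ring

/-- The configuration described by a node. -/
def emb {Q : Type} (l n : ℕ) (g : Node Q) : Q × ℤ × ℤ :=
  cf g.2.1 g.1 g.2.2.1 (pos l n g.2.2.2.1 g.2.2.2.2)

/-- Nodes in range. -/
def Valid {Q : Type} (l : ℕ) (r : ℤ) (g : Node Q) : Prop :=
  0 ≤ g.2.2.1 ∧ g.2.2.1 ≤ l + 1 ∧ 0 ≤ g.2.2.2.2 ∧ g.2.2.2.2 ≤ r

lemma divmod {X a : ℤ} (hX : 0 ≤ X) (ha : 0 < a) :
    ∃ k : ℕ, X = k * a + X % a ∧ 0 ≤ X % a ∧ X % a < a := by
  refine ⟨(X / a).toNat, ?_, Int.emod_nonneg _ ha.ne', Int.emod_lt_of_pos _ ha⟩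
  rw [Int.toNat_of_nonneg (Int.ediv_nonneg hX ha.le)]
  have := Int.mul_ediv_add_emod X a
  linarith

namespace Sys

variable {Q S : Type} (M : Sys Q S)

/-- Acceptance in time `t` from an optional node. -/
def AccInO (l : ℕ) (z : ℤ → S) (n : ℕ) : Option (Node Q) → ℕ → Prop
  | none, _ => True
  | some g, t => M.AccIn l z n (emb l n g) t

/-- Acceptance from an optional node. -/
def AccO (l : ℕ) (z : ℤ → S) (n : ℕ) : Option (Node Q) → Prop
  | none => True
  | some g => M.Acc l z n (emb l n g)

/-- The run from `C` is summarised by `h`. -/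
def Good (l : ℕ) (z : ℤ → S) (n : ℕ) (C : Q × ℤ × ℤ) (h : Option (Node Q)) : Prop :=
  (∀ u, M.AccIn l z n C (u + 1) → M.AccInO l z n h u) ∧ (M.AccO l z n h → M.Acc l z n C)

variable {M}

lemma Good.of_iter {l z n C h} {k : ℕ} (H : M.Good l z n ((M.f l z n)^[k] C) h) :
    M.Good l z n C h :=
  ⟨fun u hu => H.1 u (hu.iter k), fun ha => (H.2 ha).of_iter⟩

lemma good_of_step {l z n C} {g : Node Q}
    (h1 : ∀ t, M.AccIn l z n (M.f l z n C) t → M.AccIn l z n (emb l n g) t)
    (h2 : M.Acc l z n (emb l n g) → M.Acc l z n (M.f l z n C)) : M.Good l z n C (some g) :=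
  ⟨fun u hu => h1 u (accIn_add.1 hu), fun ha => Acc.of_iter (u := 1) (h2 ha)⟩

lemma f_outer {l : ℕ} (z z' : ℤ → S) (n : ℕ) {C : Q × ℤ × ℤ} (h1 : (l : ℤ) < C.2.1)
    (h2 : (l : ℤ) < C.2.2) : M.f l z' n C = M.f l z n C := by
  have e : ∀ p : ℤ, (l : ℤ) < p → M.sym l z' n p = M.sym l z n p := fun p hp => by
    simp [sym, not_le.2 hp]
  simp only [f, e _ h1, e _ h2]

lemma f_range {l : ℕ} (z : ℤ → S) (n : ℕ) {C : Q × ℤ × ℤ} (h1 : (l : ℤ) < C.2.1)
    (h1' : C.2.1 ≤ l + n + 1) (h2 : (l : ℤ) < C.2.2) (h2' : C.2.2 ≤ l + n + 1) :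
    (l ≤ (M.f l z n C).2.1 ∧ (M.f l z n C).2.1 ≤ l + n + 1) ∧
      l ≤ (M.f l z n C).2.2 ∧ (M.f l z n C).2.2 ≤ l + n + 1 := by
  have e : M.sym l z n (l + n + 1) = M.rt := by
    rw [sym, if_neg (by omega), if_neg (by omega)]
  have a1 := M.mv1 C.1 (M.sym l z n C.2.1) (M.sym l z n C.2.2)
  have a2 := M.mv2 C.1 (M.sym l z n C.2.1) (M.sym l z n C.2.2)
  simp only [f]
  refine ⟨⟨by omega, ?_⟩, by omega, ?_⟩
  · by_cases h : C.2.1 = l + n + 1
    · have := M.rt1 C.1 (M.sym l z n C.2.2)
      rw [h, e]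
      omega
    · omega
  · by_cases h : C.2.2 = l + n + 1
    · have := M.rt2 C.1 (M.sym l z n C.2.1)
      rw [h, e]
      omega
    · omega

variable [Fintype Q]

/-- The run between two visits of the short word does not depend on the word beyond its type. -/
lemma bob {l n : ℕ} (F : Set (ℤ → S)) (hF0 : ∀ z ∈ F, z 0 = M.lf)
    (hF : ∀ z ∈ F, ∀ z' ∈ F, ∀ j q, M.bl l z j q l (DD Q l) = M.bl l z' j q l (DD Q l) ∧
      M.drift l z j q l = M.drift l z' j q l) (hn : l + 3 * DD Q l + 1 ≤ n) {z : ℤ → S}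
    (hz : z ∈ F) (t : ℕ) : ∀ C : Q × ℤ × ℤ, (l : ℤ) < C.2.1 → C.2.1 ≤ l + n + 1 →
      (l : ℤ) < C.2.2 → C.2.2 ≤ l + n + 1 → M.AccIn l z n C t →
      ∃ h : Option (Node Q), (∀ g, h = some g → Valid l (l + 2 * DD Q l + 1) g) ∧
        ∀ z' ∈ F, M.Good l z' n C h := by
  induction t with
  | zero =>
    intro C _ _ _ _ ha
    exact ⟨none, by simp, fun z' _ => ⟨fun _ _ => trivial, fun _ => ⟨0, ha⟩⟩⟩
  | succ t ih =>
    intro C h1 h1' h2 h2' ha
    have ha' : M.AccIn l z n (M.f l z n C) t := accIn_add.1 ha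
    obtain ⟨⟨r1, r1'⟩, r2, r2'⟩ := f_range (M := M) z n h1 h1' h2 h2'
    have hf : ∀ z', M.f l z' n C = M.f l z n C := fun z' => f_outer z z' n h1 h2
    by_cases hout : (l : ℤ) < (M.f l z n C).2.1 ∧ (l : ℤ) < (M.f l z n C).2.2
    · obtain ⟨h, hv, hg⟩ := ih _ hout.1 r1' hout.2 r2' ha'
      refine ⟨h, hv, fun z' hz' => Good.of_iter (k := 1) ?_⟩
      rw [Function.iterate_one, hf]
      exact hg z' hz'
    obtain ⟨j, q, y, hC, hy1, hy2⟩ : ∃ j q y, M.f l z n C = cf j q l y ∧ (l : ℤ) ≤ y ∧
        y ≤ l + n + 1 := by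
      by_cases h3 : (l : ℤ) < (M.f l z n C).2.1
      · refine ⟨true, (M.f l z n C).1, (M.f l z n C).2.1, ?_, r1, r1'⟩
        have : (M.f l z n C).2.2 = l := by omega
        rw [← this]
        rfl
      · refine ⟨false, (M.f l z n C).1, (M.f l z n C).2.2, ?_, r2, r2'⟩
        have : (M.f l z n C).2.1 = l := by omega
        rw [← this]
        rfl
    have node : ∀ (σ : Bool) (d : ℤ), 0 ≤ d → d ≤ l + 2 * DD Q l + 1 →
        (∀ z' ∈ F, (∀ t, M.AccIn l z' n (cf j q l y) t →
          M.AccIn l z' n (cf j q l (pos l n σ d)) t) ∧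
          (M.Acc l z' n (cf j q l (pos l n σ d)) → M.Acc l z' n (cf j q l y))) →
        ∃ h : Option (Node Q), (∀ g, h = some g → Valid l (l + 2 * DD Q l + 1) g) ∧
          ∀ z' ∈ F, M.Good l z' n C h := by
      intro σ d hd0 hd1 H
      refine ⟨some (q, j, l, σ, d), ?_, fun z' hz' => good_of_step ?_ ?_⟩
      · rintro g hg
        obtain rfl := Option.some.inj hg
        exact ⟨by simp, by simp, hd0, hd1⟩
      · rw [hf, hC]
        exact (H z' hz').1
      · rw [hf, hC]
        exact (H z' hz').2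
    by_cases c1 : y ≤ l + 2 * DD Q l + 1
    · exact node false y (by omega) c1 fun z' _ => ⟨fun _ h => h, fun h => h⟩
    by_cases c2 : l + n + 1 - y ≤ l + 2 * DD Q l + 1
    · refine node true (l + n + 1 - y) (by omega) c2 fun z' _ => ?_
      have : pos l n true (l + n + 1 - y) = y := by simp [pos]
      rw [this]
      exact ⟨fun _ h => h, fun h => h⟩
    have hl0 : (0 : ℤ) ≤ l := Int.natCast_nonneg l
    by_cases c3 : (M.bl l z j q l (DD Q l)).2.1 ≤ l
    · have hsh : ∀ y' : ℤ, l + DD Q l < y' → y' + DD Q l ≤ l + n →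
          (M.drift l z j q l = 0 ∨ ∃ k : ℕ, y' = y + k * M.drift l z j q l) →
          ∀ z' ∈ F, (∀ t, M.AccIn l z' n (cf j q l y) t → M.AccIn l z' n (cf j q l y') t) ∧
            (M.Acc l z' n (cf j q l y') → M.Acc l z' n (cf j q l y)) := by
        intro y' e1 e2 e3 z' hz'
        obtain ⟨e4, e5⟩ := hF z hz z' hz' j q
        refine M.shift (hF0 z' hz') j q hl0 (by omega) (e4 ▸ c3) (by omega) (by omega) e1 e2 ?_
        rw [← e5]
        exact e3
      have hab := abs_le.1 (M.abs_drift_le l z j q l)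
      rcases lt_trichotomy (M.drift l z j q l) 0 with hδ | hδ | hδ
      · obtain ⟨k, hk, hr0, hr1⟩ := divmod (X := y - (l + DD Q l + 1))
          (a := -M.drift l z j q l) (by omega) (by omega)
        set r := (y - (l + DD Q l + 1)) % (-M.drift l z j q l)
        refine node false (l + DD Q l + 1 + r) (by omega) (by omega) (hsh _ ?_ ?_ (Or.inr ⟨k, ?_⟩))
          <;> simp only [pos, Bool.false_eq_true, if_false]
        · omega
        · omega
        · linarith
      · refine node false (l + DD Q l + 1) (by omega) (by omega) (hsh _ ?_ ?_ (Or.inl hδ))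
          <;> simp only [pos, Bool.false_eq_true, if_false] <;> omega
      · obtain ⟨k, hk, hr0, hr1⟩ := divmod (X := l + n + 1 - y - (l + DD Q l + 1))
          (a := M.drift l z j q l) (by omega) (by omega)
        set r := (l + n + 1 - y - (l + DD Q l + 1)) % (M.drift l z j q l)
        refine node true (l + DD Q l + 1 + r) (by omega) (by omega) (hsh _ ?_ ?_ (Or.inr ⟨k, ?_⟩))
          <;> simp only [pos, if_true]
        · omega
        · omega
        · linarith
    · have hd := M.bl_disp l z j q l (DD Q l)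
      have hex : ∀ z' ∈ F, ∃ k, (M.f l z' n)^[k] (cf j q l y) = cf j (M.bl l z j q l (DD Q l)).1
          (l + 1) (y + (M.bl l z j q l (DD Q l)).2.2) := by
        intro z' hz'
        rw [(hF z hz z' hz' j q).1] at c3 ⊢
        exact M.exit_run (hF0 z' hz') j q hl0 (by omega) c3 (by omega) (by omega)
      obtain ⟨k, hk⟩ := hex z hz
      have ha'' := ha'.iter k
      rw [hC, hk] at ha''
      obtain ⟨h, hv, hg⟩ := ih _ (by cases j <;> simp [cf] <;> omega)
        (by cases j <;> simp [cf] <;> omega) (by cases j <;> simp [cf] <;> omega)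
        (by cases j <;> simp [cf] <;> omega) ha''
      refine ⟨h, hv, fun z' hz' => ?_⟩
      obtain ⟨k', hk'⟩ := hex z' hz'
      refine Good.of_iter (k := k' + 1) ?_
      rw [Function.iterate_succ_apply, hf, hC, hk']
      exact hg z' hz'

omit [Fintype Q] in
/-- The symbol under the outer head of a node. -/
lemma sym_pos {l n n' : ℕ} (z : ℤ → S) (σ : Bool) {d : ℤ} (h0 : 0 ≤ d) (h1 : d ≤ n) (h2 : d ≤ n') :
    M.sym l z n (pos l n σ d) = M.sym l z n' (pos l n' σ d) := by
  cases σ
  · simp only [pos, sym, Bool.false_eq_true, if_false]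
    split_ifs <;> first | rfl | omega
  · simp only [pos, sym, if_true]
    split_ifs <;> first | rfl | omega

/-- Transfer of acceptance from one block length to another. -/
lemma transfer {l n n' : ℕ} {z : ℤ → S} (hz : z 0 = M.lf) (hn : 2 * l + 4 * DD Q l + 2 ≤ n)
    (hn' : 2 * l + 4 * DD Q l + 2 ≤ n') (hmod : n ≡ n' [MOD (DD Q l).factorial])
    (hΦ : ∀ g : Node Q, Valid l (l + 3 * DD Q l + 1) g → g.2.2.1 = l + 1 →
      l < pos l n g.2.2.2.1 g.2.2.2.2 → ∀ t, M.AccIn l z n (emb l n g) t →
      ∃ h : Option (Node Q), (∀ g, h = some g → Valid l (l + 2 * DD Q l + 1) g) ∧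
        M.Good l z n (emb l n g) h ∧ M.Good l z n' (emb l n' g) h) (t : ℕ) :
    ∀ g : Node Q, Valid l (l + 3 * DD Q l + 1) g → (g.2.2.1 = l + 1 ∨ g.2.2.2.2 ≤ l + DD Q l ∨
      ∀ u, g.2.2.2.2 + sg g.2.2.2.1 * (M.bl l z g.2.1 g.1 g.2.2.1 u).2.2 ≤ l + 3 * DD Q l + 1) →
      M.AccIn l z n (emb l n g) t → M.Acc l z n' (emb l n' g) := by
  induction t with
  | zero =>
    intro g _ _ ha
    refine ⟨0, ?_⟩
    simpa [AccIn, emb] using ha
  | succ t P =>
    have hl0 : (0 : ℤ) ≤ l := Int.natCast_nonneg l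
    have Q' : ∀ g : Node Q, Valid l (l + 2 * DD Q l + 1) g → M.AccIn l z n (emb l n g) t →
        M.Acc l z n' (emb l n' g) := by
      rintro ⟨q, j, i, σ, d⟩ ⟨v1, v2, v3, v4⟩ ha
      simp only at v1 v2 v3 v4
      by_cases c : i = l + 1 ∨ d ≤ l + DD Q l ∨
          ∀ u, d + sg σ * (M.bl l z j q i u).2.2 ≤ l + 3 * DD Q l + 1
      · exact P _ ⟨v1, v2, v3, by simp only; omega⟩ c ha
      push Not at c
      obtain ⟨c1, c2, u, c3⟩ := c
      have hsg : sg σ = 1 ∨ sg σ = -1 := by cases σ <;> simp [sg]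
      have hne : (M.bl l z j q i (DD Q l)).2.1 ≤ l := by
        by_contra hne
        have h4 : ∃ u' ≤ DD Q l, M.bl l z j q i u = M.bl l z j q i u' := by
          rcases le_total u (DD Q l) with h5 | h5
          · exact ⟨u, h5, rfl⟩
          · exact ⟨_, le_rfl, M.bl_exit hne h5⟩
        obtain ⟨u', hu', h4⟩ := h4
        have h5 := M.bl_disp l z j q i u'
        rw [h4] at c3
        rcases hsg with h | h <;> rw [h] at c3 <;> omega
      have hab := abs_le.1 (M.abs_drift_le l z j q i)
      have hred := M.reduce' hz j q v1 v2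
      set δ := M.drift l z j q i with hδ
      have hpos : 0 < sg σ * δ := by
        obtain ⟨u', hu', r, h4⟩ := hred u
        have h5 := M.bl_disp l z j q i u'
        have h6 : (0 : ℤ) ≤ r := Int.natCast_nonneg r
        rw [h4] at c3
        simp only at c3
        by_contra h7
        rcases hsg with h | h <;> rw [h] at c3 h7 <;> nlinarith
      have hle : sg σ * δ ≤ DD Q l := by rcases hsg with h | h <;> rw [h] <;> omega
      obtain ⟨k, hk, hr0, hr1⟩ := divmod (X := l + n + 1 - d - (l + DD Q l + 1)) (by omega) hpos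
      obtain ⟨k', hk', -, -⟩ := divmod (X := l + n' + 1 - d - (l + DD Q l + 1)) (by omega) hpos
      have hrr : (l + n' + 1 - d - (l + DD Q l + 1)) % (sg σ * δ) =
          (l + n + 1 - d - (l + DD Q l + 1)) % (sg σ * δ) := by
        have h4 : (sg σ * δ) ∣ ((DD Q l).factorial : ℤ) := by
          obtain ⟨a, ha⟩ := Int.eq_ofNat_of_zero_le hpos.le
          rw [ha] at hpos hle ⊢
          exact_mod_cast Nat.dvd_factorial (by exact_mod_cast hpos) (by exact_mod_cast hle)
        have h5 : (n : ℤ) ≡ n' [ZMOD (sg σ * δ)] :=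
          (Int.natCast_modEq_iff.2 hmod).of_dvd h4
        exact (((h5.symm.add_left l).add_right 1).sub_right d).sub_right _
      rw [hrr] at hk'
      set r := (l + n + 1 - d - (l + DD Q l + 1)) % (sg σ * δ)
      have hsh : ∀ (m κ : ℕ), 2 * l + 4 * DD Q l + 2 ≤ m →
          l + m + 1 - d - (l + DD Q l + 1) = κ * (sg σ * δ) + r →
          (∀ t, M.AccIn l z m (cf j q i (pos l m σ d)) t →
            M.AccIn l z m (cf j q i (pos l m (!σ) (l + DD Q l + 1 + r))) t) ∧
          (M.Acc l z m (cf j q i (pos l m (!σ) (l + DD Q l + 1 + r))) →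
            M.Acc l z m (cf j q i (pos l m σ d))) := by
        intro m κ hm hκ
        refine M.shift hz j q v1 v2 hne ?_ ?_ ?_ ?_ (Or.inr ⟨κ, ?_⟩) <;> cases σ <;>
          simp only [pos, sg, Bool.not_true, Bool.not_false, Bool.false_eq_true, if_false,
            if_true] at hκ ⊢ <;> first | omega | linarith
      refine (hsh n' k' hn' hk').2 (P (q, j, i, !σ, l + DD Q l + 1 + r)
        ⟨v1, v2, by simp only; omega, by simp only; omega⟩ (Or.inr (Or.inr fun u => ?_))
        ((hsh n k hn hk).1 t ha))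
      obtain ⟨u', hu', r', h4⟩ := hred u
      have h5 := M.bl_disp l z j q i u'
      have h6 : (0 : ℤ) ≤ r' := Int.natCast_nonneg r'
      simp only
      rw [h4]
      simp only
      cases σ <;> simp only [sg, Bool.not_true, Bool.not_false, Bool.false_eq_true, if_false,
        if_true] at hpos hr1 hle ⊢ <;> nlinarith
    have inner : ∀ g : Node Q, Valid l (l + 3 * DD Q l + 1) g → g.2.2.1 ≤ l →
        (g.2.2.2.2 ≤ l + DD Q l ∨ ∀ u, g.2.2.2.2 + sg g.2.2.2.1 *
          (M.bl l z g.2.1 g.1 g.2.2.1 u).2.2 ≤ l + 3 * DD Q l + 1) →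
        M.AccIn l z n (emb l n g) (t + 1) → M.Acc l z n' (emb l n' g) := by
      rintro ⟨q, j, i, σ, d⟩ ⟨v1, v2, v3, v4⟩ hi hok ha
      simp only at v1 v2 v3 v4 hi hok
      have hs := sym_pos (M := M) (l := l) (n := n) (n' := n') z σ v3 (by omega) (by omega)
      set x := M.nxj j q (z i) (M.sym l z n' (pos l n' σ d)) with hx
      have st : ∀ m : ℕ, M.sym l z m (pos l m σ d) = M.sym l z n' (pos l n' σ d) →
          M.f l z m (emb l m (q, j, i, σ, d)) =
            emb l m (x.1, j, i + x.2.1, σ, d + sg σ * x.2.2) := by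
        intro m hm
        simp only [emb]
        rw [f_cf, hm, sym, if_pos hi, pos_add]
      have m1 := M.nxj_mv1 j q (z i) (M.sym l z n' (pos l n' σ d))
      have m2 := M.nxj_mv2 j q (z i) (M.sym l z n' (pos l n' σ d))
      rw [← hx] at m1 m2
      have w1 : 0 ≤ i + x.2.1 := by
        by_cases h0 : i = 0
        · have := M.nxj_lf1 j q (M.sym l z n' (pos l n' σ d))
          rw [← hz, ← h0, ← hx] at this
          omega
        · omega
      have w2 : 0 ≤ d + sg σ * x.2.2 := by
        by_cases h0 : d = 0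
        · cases σ
          · have := M.nxj_lf2 j q (z i)
            have e : M.sym l z n' (pos l n' false d) = M.lf := by
              simp [pos, sym, h0, hz]
            rw [← e, ← hx] at this
            simp only [sg, Bool.false_eq_true, if_false]
            omega
          · have := M.nxj_rt2 j q (z i)
            have e : M.sym l z n' (pos l n' true d) = M.rt := by
              simp only [pos, sym, h0, if_true]
              rw [if_neg (by omega), if_neg (by omega)]
            rw [← e, ← hx] at this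
            simp only [sg, if_true]
            omega
        · cases σ <;> simp only [sg, Bool.false_eq_true, if_false, if_true] <;> omega
      have ha' : M.AccIn l z n (emb l n (x.1, j, i + x.2.1, σ, d + sg σ * x.2.2)) t := by
        rw [← st n hs]
        exact accIn_add.1 ha
      refine Acc.of_iter (u := 1) ?_
      rw [Function.iterate_one, st n' rfl]
      by_cases c : d ≤ l + DD Q l
      · refine Q' _ ⟨w1, by simp only; omega, w2, ?_⟩ ha'
        cases σ <;> simp only [sg, Bool.false_eq_true, if_false, if_true] <;> omega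
      have hb := hok.resolve_left c
      have e : M.sym l z n' (pos l n' σ d) = M.a := by
        cases σ <;> simp only [pos, sym, Bool.false_eq_true, if_false, if_true] <;>
          rw [if_neg (by omega), if_pos (by omega)]
      have e1 : M.bl l z j q i 1 = (x.1, i + x.2.1, x.2.2) := by
        rw [bl_succ, bl_zero, g, if_pos hi, hx, e]
        simp
      refine P _ ⟨w1, by simp only; omega, w2, ?_⟩ (Or.inr (Or.inr fun u => ?_)) ha'
      · have := hb 1
        rwa [e1] at this
      · have := hb (u + 1)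
        rw [bl_add, e1] at this
        simp only at this ⊢
        linarith
    rintro ⟨q, j, i, σ, d⟩ hv hok ha
    by_cases hi : i ≤ l
    · refine inner _ hv hi (hok.resolve_left ?_) ha
      simp only
      omega
    obtain ⟨v1, v2, v3, v4⟩ := hv
    simp only at v1 v2 v3 v4
    obtain rfl : i = l + 1 := by omega
    by_cases hd : l < pos l n σ d
    · obtain ⟨h, hv', g1, g2⟩ := hΦ _ ⟨v1, v2, v3, v4⟩ rfl hd _ ha
      refine g2.2 ?_
      have := g1.1 t ha
      cases h with
      | none => trivial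
      | some g => exact Q' g (hv' g rfl) this
    · obtain rfl : σ = false := by
        cases σ
        · rfl
        · simp only [pos, if_true] at hd
          omega
      simp only [pos, Bool.false_eq_true, if_false, not_lt] at hd
      have hD : 1 ≤ DD Q l := by
        have : 0 < Fintype.card Q := Fintype.card_pos_iff.2 ⟨q⟩
        unfold DD
        nlinarith
      have e : ∀ m : ℕ, emb l m (q, j, (l + 1 : ℤ), false, d) = emb l m (q, !j, d, false, l + 1) := by
        intro m
        simp only [emb, pos, Bool.false_eq_true, if_false]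
        rw [cf_not]
      rw [e] at ha ⊢
      exact inner _ ⟨v3, by simp only; omega, by simp only; omega, by simp only; omega⟩ hd
        (Or.inl (by simp only; omega)) ha

end Sys

end Pool.Agent.P.MP_d0a708_lc
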