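import Pool.Agent.P.MP_d0a708_lc.Core

/-!
The counting argument: no two-head system reads an arbitrary bit of the block length.
-/

namespace Pool.Agent.P.MP_d0a708_lc

open Finset

lemma exists_poly_lt (K k : ℕ) : ∃ l : ℕ, K * (l + 2) ^ k < 2 ^ l := by
  have h := tendsto_pow_const_div_const_pow_of_one_lt k (r := (2 : ℝ)) one_lt_two
  have h1 : ∀ᶠ u : ℕ in Filter.atTop, (u : ℝ) ^ k / 2 ^ u < 1 / (4 * K + 1) :=
    h.eventually (gt_mem_nhds (by positivity))
  obtain ⟨u, hu, hu2⟩ := (h1.and (Filter.eventually_ge_atTop 2)).exists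
  obtain ⟨l, rfl⟩ := Nat.exists_eq_add_of_le' hu2
  refine ⟨l, ?_⟩
  rw [div_lt_div_iff₀ (by positivity) (by positivity)] at hu
  have h2 : ((l + 2 : ℕ) : ℝ) ^ k * (4 * K + 1) < 4 * 2 ^ l := by
    rw [pow_add (2 : ℝ)] at hu
    linarith
  have h3 : (l + 2) ^ k * (4 * K + 1) < 4 * 2 ^ l := by exact_mod_cast h2
  nlinarith [Nat.zero_le ((l + 2) ^ k)]

lemma exists_bits (A : Finset ℕ) (K N : ℕ) :
    ∃ n, N ≤ n ∧ ∀ i < K, (n.testBit i = true ↔ i ∈ A) := by
  refine ⟨Nat.ofBits (fun i : Fin (K + N + 1) => decide ((i : ℕ) ∈ A ∨ (i : ℕ) = K + N)), ?_,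
    fun i hi => ?_⟩
  · refine le_trans ?_ (Nat.ge_two_pow_of_testBit (i := K + N) ?_)
    · exact le_trans (Nat.le_add_left N K) Nat.lt_two_pow_self.le
    · rw [Nat.testBit_ofBits_lt _ _ (Nat.lt_succ_self _)]
      simp
  · rw [Nat.testBit_ofBits_lt _ _ (by omega)]
    simp only [decide_eq_true_eq]
    constructor
    · rintro (h | h)
      · exact h
      · omega
    · exact Or.inl

/-- The finite set of nodes in range. -/
noncomputable def nodes (Q : Type) [Fintype Q] (l : ℕ) (r : ℕ) : Finset (Node Q) :=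
  univ ×ˢ univ ×ˢ Icc (0 : ℤ) (l + 1) ×ˢ univ ×ˢ Icc (0 : ℤ) r

lemma mem_nodes {Q : Type} [Fintype Q] {l r : ℕ} {g : Node Q} : g ∈ nodes Q l r ↔ Valid l r g := by
  simp [nodes, Valid, and_assoc]

lemma card_nodes (Q : Type) [Fintype Q] (l r : ℕ) :
    (nodes Q l r).card = Fintype.card Q * (2 * ((l + 2) * (2 * (r + 1)))) := by
  simp only [nodes, card_product, card_univ, Fintype.card_bool, Int.card_Icc]
  congr 3

namespace Sys

theorem core {Q S : Type} [Fintype Q] (M : Sys Q S) (q0 : Q) (X : ℕ → Type) [∀ l, Fintype (X l)]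
    (hX : ∀ l, 2 ^ l ≤ Fintype.card (X l)) (Z : ∀ l, X l → ℤ → S) (hZ : ∀ l x, Z l x 0 = M.lf)
    (y : ∀ l, X l → ℕ) (hy : ∀ l, Function.Injective (y l))
    (h : ∀ l, ∃ N, ∀ x n, N ≤ n → (M.Acc l (Z l x) n (q0, 0, 0) ↔ n.testBit (y l x) = true)) :
    False := by
  classical
  set c := Fintype.card Q with hc
  have hc1 : 1 ≤ c := Fintype.card_pos_iff.2 ⟨q0⟩
  obtain ⟨l, hl⟩ := exists_poly_lt ((9 * c ^ 3) ^ (2 * c) * (300 * c ^ 4)) (3 * (2 * c) + 4)
  obtain ⟨N, hN⟩ := h l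
  set D := DD Q l with hD
  have hD' : D = c * (l + 2) := rfl
  set B := (nodes Q l (l + 3 * D + 1)).card with hB
  have hu : 1 ≤ c * (l + 2) := by nlinarith
  have hB' : B ≤ 16 * (c * (l + 2)) ^ 2 := by
    rw [hB, card_nodes, ← hc, hD']
    have : l + 3 * (c * (l + 2)) + 1 + 1 ≤ 4 * (c * (l + 2)) := by nlinarith
    calc c * (2 * ((l + 2) * (2 * (l + 3 * (c * (l + 2)) + 1 + 1))))
        ≤ c * (2 * ((l + 2) * (2 * (4 * (c * (l + 2)))))) := by gcongr
      _ = _ := by ring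
  have hm : B * (B + 1) + D * D ≤ 300 * c ^ 4 * (l + 2) ^ 4 := by
    have h1 : 1 ≤ (c * (l + 2)) ^ 2 := Nat.one_le_pow _ _ hu
    have h2 : B * (B + 1) ≤ 16 * (c * (l + 2)) ^ 2 * (17 * (c * (l + 2)) ^ 2) := by
      gcongr
      omega
    have h3 : D * D ≤ (c * (l + 2)) ^ 2 * (c * (l + 2)) ^ 2 := by
      rw [hD', ← sq]
      nlinarith
    nlinarith [Nat.zero_le (c ^ 4 * (l + 2) ^ 4)]
  let T : Finset (Bool × Q → (Q × ℤ × ℤ) × ℤ) := Fintype.piFinset fun _ =>
    (univ ×ˢ Icc (0 : ℤ) (l + 1) ×ˢ Icc (-(D : ℤ)) D) ×ˢ Icc (-(D : ℤ)) D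
  have hT : T.card ≤ (9 * c ^ 3) ^ (2 * c) * (l + 2) ^ (3 * (2 * c)) := by
    have e1 : ((l : ℤ) + 1 + 1 - 0).toNat = l + 2 := by omega
    have e2 : ((D : ℤ) + 1 - -(D : ℤ)).toNat = 2 * D + 1 := by omega
    simp only [T, Fintype.card_piFinset, card_product, card_univ, Int.card_Icc, prod_const,
      Fintype.card_prod, Fintype.card_bool, ← hc, e1, e2]
    rw [pow_mul (l + 2) 3, ← mul_pow]
    refine Nat.pow_le_pow_left ?_ _
    have : 2 * D + 1 ≤ 3 * (c * (l + 2)) := by omega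
    calc c * ((l + 2) * (2 * D + 1)) * (2 * D + 1)
        ≤ c * ((l + 2) * (3 * (c * (l + 2)))) * (3 * (c * (l + 2))) := by gcongr
      _ = _ := by ring
  let τ : X l → Bool × Q → (Q × ℤ × ℤ) × ℤ := fun x p =>
    (M.bl l (Z l x) p.1 p.2 l D, M.drift l (Z l x) p.1 p.2 l)
  obtain ⟨τ0, -, hτ⟩ := exists_lt_card_fiber_of_mul_lt_card_of_maps_to (s := univ) (t := T)
    (f := τ) (n := B * (B + 1) + D * D) (fun x _ => by
      simp only [T, τ, Fintype.mem_piFinset, mem_product, mem_univ, mem_Icc, true_and]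
      intro p
      exact ⟨⟨M.bl_pos (hZ l x) _ _ (Int.natCast_nonneg l) (by omega) _, M.bl_disp _ _ _ _ _ _⟩,
        abs_le.1 (M.abs_drift_le _ _ _ _ _)⟩) (by
      rw [card_univ]
      refine lt_of_le_of_lt (Nat.mul_le_mul hT hm) (lt_of_lt_of_le ?_ (hX l))
      refine lt_of_le_of_lt (le_of_eq ?_) hl
      ring)
  set Fi := univ.filter fun x => τ x = τ0 with hFi
  obtain ⟨K, hK⟩ : ∃ K, ∀ x, y l x < K := ⟨univ.sup (y l) + 1, fun x =>
    Nat.lt_succ_of_le (le_sup (f := y l) (mem_univ x))⟩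
  choose nn hnn1 hnn2 using fun A : Finset (X l) =>
    exists_bits (A.image (y l)) K (N + (2 * l + 4 * D + 2))
  have hnn3 : ∀ A x, M.Acc l (Z l x) (nn A) (q0, 0, 0) ↔ x ∈ A := by
    intro A x
    rw [hN x _ (le_trans (Nat.le_add_right _ _) (hnn1 A)), hnn2 A _ (hK x),
      (hy l).mem_finset_image]
  let U : Finset (Node Q × Option (Node Q)) :=
    nodes Q l (l + 3 * D + 1) ×ˢ insertNone (nodes Q l (l + 3 * D + 1))
  let Φ : ℕ → Finset (Node Q × Option (Node Q)) := fun n =>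
    U.filter fun p => ∀ x ∈ Fi, M.Good l (Z l x) n (emb l n p.1) p.2
  obtain ⟨A, hA, A', hA', hne, he⟩ := exists_ne_map_eq_of_card_lt_of_maps_to
    (s := Fi.powerset) (t := U.powerset ×ˢ range D.factorial)
    (f := fun A => (Φ (nn A), nn A % D.factorial)) (by
      rw [card_product, card_powerset, card_powerset, card_range, card_product, card_insertNone,
        ← hB]
      refine lt_of_le_of_lt ?_ (Nat.pow_lt_pow_right one_lt_two hτ)
      rw [pow_add, pow_mul 2 D D]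
      gcongr
      exact D.factorial_le_pow.trans (Nat.pow_le_pow_left Nat.lt_two_pow_self.le _)) (fun A _ => by
      simp only [coe_product, Set.mem_prod, mem_coe, mem_powerset, mem_range]
      exact ⟨filter_subset _ _, Nat.mod_lt _ D.factorial_pos⟩)
  rw [mem_powerset] at hA hA'
  have key : ∀ A A' : Finset (X l), A ⊆ Fi → Φ (nn A) = Φ (nn A') →
      nn A % D.factorial = nn A' % D.factorial → A ⊆ A' := by
    intro A A' hA e1 e2 x hx
    have hx' := hA hx
    obtain ⟨t, ht⟩ := (hnn3 A x).2 hx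
    have n1 := hnn1 A
    have n2 := hnn1 A'
    refine (hnn3 A' x).1 (transfer (hZ l x) (by omega) (by omega) e2 ?_ t (q0, false, 0, false, 0)
      ⟨le_rfl, by simp only; omega, le_rfl, by simp only; omega⟩
      (Or.inr (Or.inl (by simp only; omega))) ht)
    rintro ⟨q, j, i, σ, d⟩ hv hi hd t ha
    simp only at hi hd
    subst hi
    have hd' : pos l (nn A) σ d ≤ l + nn A + 1 := by
      obtain ⟨-, -, v3, v4⟩ := hv
      simp only at v3 v4
      cases σ <;> simp only [pos, Bool.false_eq_true, if_false, if_true] <;> omega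
    obtain ⟨h, hv', hg⟩ := bob (n := nn A) (Z l '' Fi) (by
        rintro _ ⟨x, -, rfl⟩
        exact hZ l x) (by
        rintro _ ⟨x, hx, rfl⟩ _ ⟨x', hx', rfl⟩ j q
        simp only [hFi, coe_filter, mem_univ, true_and, Set.mem_setOf_eq] at hx hx'
        have := congrFun (hx.trans hx'.symm) (j, q)
        simpa [τ] using this) (by omega) ⟨x, hx', rfl⟩ t _
      (by cases j <;> simp [emb, cf, hd]) (by cases j <;> simp [emb, cf, hd'])
      (by cases j <;> simp [emb, cf, hd]) (by cases j <;> simp [emb, cf, hd']) ha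
    refine ⟨h, hv', hg _ ⟨x, hx', rfl⟩, ?_⟩
    have hm : ((q, j, (l + 1 : ℤ), σ, d), h) ∈ Φ (nn A) := by
      refine mem_filter.2 ⟨mem_product.2 ⟨mem_nodes.2 (by exact_mod_cast hv), ?_⟩,
        fun x hx => hg _ ⟨x, hx, rfl⟩⟩
      refine mem_insertNone.2 fun g hg => mem_nodes.2 ?_
      obtain ⟨v1, v2, v3, v4⟩ := hv' g hg
      exact ⟨v1, v2, v3, by push_cast; omega⟩
    rw [e1] at hm
    exact (mem_filter.1 hm).2 x hx'
  simp only [Prod.mk.injEq] at he
  exact hne (Subset.antisymm (key A A' hA he.1 he.2) (key A' A hA' he.1.symm he.2.symm))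

end Sys

end Pool.Agent.P.MP_d0a708_lc
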