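import Mathlib

/-!
Two-way multihead finite automata and two-way multihead pushdown automata.
-/

namespace Pool.Agent.P.MP_d0a708_lc

/-- Tape symbols: the two endmarkers and the input letters. -/
inductive Tape (α : Type) : Type
  | left : Tape α
  | right : Tape α
  | letter : α → Tape α

/-- The symbol in cell `p` of the endmarked input: the left endmarker is in cell `0`, the letters
of `w` in cells `1, …, |w|` and the right endmarker in cell `|w| + 1`. -/
def cell {α : Type} (w : List α) : ℕ → Tape α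
  | 0 => Tape.left
  | p + 1 => (w[p]?).elim Tape.right Tape.letter

/-- The heads at `p` make the moves `m` (each `-1`, `0` or `1`) and arrive at `p'`, inside the
endmarked input. -/
def Moves {α : Type} {k : ℕ} (w : List α) (p : Fin k → ℕ) (m : Fin k → SignType)
    (p' : Fin k → ℕ) : Prop :=
  ∀ i, (p' i : ℤ) = p i + (m i : ℤ) ∧ p' i ≤ w.length + 1

/-- A two-way `k`-head finite automaton. -/
structure HeadsFA (α : Type) (k : ℕ) where
  Q : Type
  finQ : Finite Q
  start : Q
  accept : Set Q
  δ : Q → (Fin k → Tape α) → Set (Q × (Fin k → SignType))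

/-- One step between configurations (state, head positions) on the input `w`. -/
def HeadsFA.Step {α : Type} {k : ℕ} (M : HeadsFA α k) (w : List α)
    (c c' : M.Q × (Fin k → ℕ)) : Prop :=
  ∃ m, (c'.1, m) ∈ M.δ c.1 (fun i => cell w (c.2 i)) ∧ Moves w c.2 m c'.2

/-- Every configuration has at most one successor. -/
def HeadsFA.Det {α : Type} {k : ℕ} (M : HeadsFA α k) : Prop :=
  ∀ (w : List α) (c c₁ c₂ : M.Q × (Fin k → ℕ)), (∀ i, c.2 i ≤ w.length + 1) →
    M.Step w c c₁ → M.Step w c c₂ → c₁ = c₂

/-- The accepted language. -/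
def HeadsFA.lang {α : Type} {k : ℕ} (M : HeadsFA α k) : Set (List α) :=
  {w | ∃ c, Relation.ReflTransGen (M.Step w) (M.start, fun _ => 0) c ∧ c.1 ∈ M.accept}

/-- A two-way `k`-head pushdown automaton. -/
structure HeadsPDA (α : Type) (k : ℕ) where
  Q : Type
  Γ : Type
  finQ : Finite Q
  finΓ : Finite Γ
  start : Q
  bottom : Γ
  accept : Set Q
  δ : Q → (Fin k → Tape α) → Γ → Set (Q × (Fin k → SignType) × List Γ)
  finδ : ∀ q s g, (δ q s g).Finite

/-- One step between configurations (state, head positions, pushdown with its top first). -/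
def HeadsPDA.Step {α : Type} {k : ℕ} (P : HeadsPDA α k) (w : List α)
    (c c' : P.Q × (Fin k → ℕ) × List P.Γ) : Prop :=
  ∃ g rest m v, c.2.2 = g :: rest ∧ c'.2.2 = v ++ rest ∧
    (c'.1, m, v) ∈ P.δ c.1 (fun i => cell w (c.2.1 i)) g ∧ Moves w c.2.1 m c'.2.1

/-- Every configuration has at most one successor. -/
def HeadsPDA.Det {α : Type} {k : ℕ} (P : HeadsPDA α k) : Prop :=
  ∀ (w : List α) (c c₁ c₂ : P.Q × (Fin k → ℕ) × List P.Γ), (∀ i, c.2.1 i ≤ w.length + 1) →
    P.Step w c c₁ → P.Step w c c₂ → c₁ = c₂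

/-- The accepted language. -/
def HeadsPDA.lang {α : Type} {k : ℕ} (P : HeadsPDA α k) : Set (List α) :=
  {w | ∃ c, Relation.ReflTransGen (P.Step w) (P.start, fun _ => 0, [P.bottom]) c ∧
    c.1 ∈ P.accept}

end Pool.Agent.P.MP_d0a708_lc
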