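import Pool.Agent.P.MP_d0a708_lc.KTwo

/-!
Counter programs that verify bounded formulas.
-/

namespace Pool.Agent.P.MP_d0a708_lc.K

open Pool.Agent.P.MP_d0a708_lc Relation Prog Function

abbrev CP : Type := Prog (ℕ × Fin 3)

def inc (i : ℕ) : CP := atom (i, 0)
def dec (i : ℕ) : CP := atom (i, 1)
def zero (i : ℕ) : CP := atom (i, 2)

variable {U : ℕ} {c c' : ℕ → ℕ}

theorem run_inc {i : ℕ} :
    (inc i).run (cact U) c c' ↔ c i < U ∧ c' = update c i (c i + 1) := by
  simp [inc, run, cact]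

theorem run_dec {i : ℕ} :
    (dec i).run (cact U) c c' ↔ c i ≠ 0 ∧ c' = update c i (c i - 1) := by
  simp [dec, run, cact]

theorem run_zero {i : ℕ} : (zero i).run (cact U) c c' ↔ c i = 0 ∧ c' = c := by
  simp [zero, run, cact]

theorem run_seq {A S : Type} {act : A → S → S → Prop} {p q : Prog A} {s t : S} :
    (seq p q).run act s t ↔ ∃ m, p.run act s m ∧ q.run act m t := Iff.rfl

theorem run_skip {A S : Type} {act : A → S → S → Prop} {s t : S} :
    (skip : Prog A).run act s t ↔ t = s := Iff.rfl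

theorem run_alt {A S : Type} {act : A → S → S → Prop} {p q : Prog A} {s t : S} :
    (alt p q).run act s t ↔ p.run act s t ∨ q.run act s t := Iff.rfl

def clr (i : ℕ) : CP := seq (star (dec i)) (zero i)

theorem run_clr {i : ℕ} : (clr i).run (cact U) c c' ↔ c' = update c i 0 := by
  have : ∀ c c', (star (dec i)).run (cact U) c c' ↔
      ∃ j, j ≤ c i ∧ c' = update c i (c i - j) := by
    refine star_iff _ (by simp) fun j c c' => ?_
    simp only [run_dec]
    constructor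
    · rintro ⟨h, rfl⟩
      exact ⟨_, ⟨by omega, rfl⟩, by simp; omega, by simp [Nat.sub_sub]⟩
    · rintro ⟨_, ⟨h, rfl⟩, h1, rfl⟩
      exact ⟨by simp at h1; omega, by simp [Nat.sub_sub]⟩
  simp only [clr, run_seq, this, run_zero]
  constructor
  · rintro ⟨_, ⟨j, h, rfl⟩, h1, rfl⟩
    rw [update_self] at h1
    rw [h1]
  · rintro rfl
    exact ⟨_, ⟨c i, le_rfl, rfl⟩, by simp, by simp⟩

def guess (i : ℕ) : CP := star (inc i)

theorem run_guess {i : ℕ} (h : c i = 0) :
    (guess i).run (cact U) c c' ↔ ∃ a ≤ U, c' = update c i a := by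
  refine (star_iff (fun j c c' => (j = 0 ∨ c i + j ≤ U) ∧ c' = update c i (c i + j)) (by simp)
    (fun j c c' => ?_) c c').trans (exists_congr fun j => ?_)
  · simp only [run_inc]
    constructor
    · rintro ⟨h, rfl⟩
      exact ⟨_, ⟨by omega, rfl⟩, by simp; omega, by simp [add_assoc]⟩
    · rintro ⟨_, ⟨h, rfl⟩, h1, rfl⟩
      exact ⟨by simp at h1; omega, by simp [add_assoc]⟩
  · rw [h, zero_add]
    exact and_congr_left' (by omega)

def mv (i j : ℕ) : CP := seq (star (seq (dec i) (inc j))) (zero i)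

theorem run_mv {i j : ℕ} (hij : i ≠ j) (h : c j ≤ U) :
    (mv i j).run (cact U) c c' ↔ c j + c i ≤ U ∧ c' = update (update c j (c j + c i)) i 0 := by
  have : ∀ c c', (star (seq (dec i) (inc j))).run (cact U) c c' ↔ ∃ e, e ≤ c i ∧
      (e = 0 ∨ c j + e ≤ U) ∧ c' = update (update c j (c j + e)) i (c i - e) := by
    refine star_iff _ (by simp) fun e c c' => ?_
    simp only [run_seq, run_dec, run_inc]
    constructor
    · rintro ⟨h, h', rfl⟩
      refine ⟨_, ⟨by omega, by omega, rfl⟩, _, ⟨by simp; omega, rfl⟩, by simp [hij.symm]; omega, ?_⟩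
      funext l
      simp only [update_apply]
      split_ifs <;> omega
    · rintro ⟨_, ⟨h, h', rfl⟩, _, ⟨h1, rfl⟩, h2, rfl⟩
      refine ⟨by simp at h1; omega, by simp [hij.symm] at h2; omega, ?_⟩
      funext l
      simp only [update_apply]
      split_ifs <;> omega
  simp only [mv, run_seq, this, run_zero]
  constructor
  · rintro ⟨_, ⟨e, h1, h2, rfl⟩, h3, rfl⟩
    rw [update_self] at h3
    obtain rfl : e = c i := by omega
    exact ⟨by omega, by rw [h3]⟩
  · rintro ⟨h1, rfl⟩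
    exact ⟨_, ⟨c i, le_rfl, Or.inr h1, rfl⟩, by simp, by simp⟩

def cpy (i j t : ℕ) : CP :=
  seq (star (seq (dec i) (seq (inc j) (inc t)))) (seq (zero i) (mv t i))

theorem run_cpy {i j t : ℕ} (hij : i ≠ j) (hit : i ≠ t) (hjt : j ≠ t) (h : c i ≤ U)
    (hj : c j = 0) (ht : c t = 0) :
    (cpy i j t).run (cact U) c c' ↔ c' = update c j (c i) := by
  have : ∀ c c', (star (seq (dec i) (seq (inc j) (inc t)))).run (cact U) c c' ↔ ∃ e, e ≤ c i ∧
      (e = 0 ∨ c j + e ≤ U ∧ c t + e ≤ U) ∧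
      c' = update (update (update c j (c j + e)) t (c t + e)) i (c i - e) := by
    refine star_iff _ (by simp) fun e c c' => ?_
    simp only [run_seq, run_dec, run_inc]
    constructor
    · rintro ⟨h, h', rfl⟩
      refine ⟨_, ⟨by omega, by omega, rfl⟩, _, ⟨by simp; omega, rfl⟩, _,
        ⟨by simp [hij.symm, hjt]; omega, rfl⟩, by simp [hit.symm, hjt.symm]; omega, ?_⟩
      funext l
      simp only [update_apply]
      split_ifs <;> omega
    · rintro ⟨_, ⟨h, h', rfl⟩, _, ⟨h1, rfl⟩, _, ⟨h2, rfl⟩, h3, rfl⟩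
      refine ⟨by simp at h1; omega, by
        simp [hij.symm, hjt, hit.symm, hjt.symm] at h2 h3; omega, ?_⟩
      funext l
      simp only [update_apply]
      split_ifs <;> omega
  simp only [cpy, run_seq, this, run_zero]
  constructor
  · rintro ⟨_, ⟨e, h1, h2, rfl⟩, _, ⟨h3, rfl⟩, h4⟩
    rw [update_self] at h3
    obtain rfl : e = c i := by omega
    rw [((run_mv hit.symm (by simp)).1 h4).2]
    funext l
    simp only [update_apply]
    split_ifs <;> subst_vars <;> omega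
  · rintro rfl
    refine ⟨_, ⟨c i, le_rfl, by omega, rfl⟩, _, ⟨by simp, rfl⟩, (run_mv hit.symm (by simp)).2
      ⟨by simp [hit.symm]; omega, ?_⟩⟩
    funext l
    simp only [update_apply]
    split_ifs <;> subst_vars <;> omega

def cmpP (d i j k : ℕ) : CP :=
  seqs [cpy i k (k + 2), cpy j (k + 1) (k + 2), pw (dec (k + 1)) d,
    star (seq (dec k) (dec (k + 1))), zero k, clr (k + 1)]

theorem run_decs {i d : ℕ} :
    (pw (dec i) d).run (cact U) c c' ↔ d ≤ c i ∧ c' = update c i (c i - d) := by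
  induction d generalizing c with
  | zero => simp [pw, run]
  | succ d ih =>
    simp only [pw, run_seq, run_dec, ih]
    constructor
    · rintro ⟨_, ⟨h, rfl⟩, h1, rfl⟩
      exact ⟨by simp at h1; omega, by simp [Nat.sub_sub, add_comm]⟩
    · rintro ⟨h, rfl⟩
      exact ⟨_, ⟨by omega, rfl⟩, by simp; omega, by simp [Nat.sub_sub, add_comm]⟩

theorem run_cmp {d i j k : ℕ} (hi : i < k) (hj : j < k) (h : ∀ i, c i ≤ U)
    (hz : ∀ i, k ≤ i → c i = 0) :
    (cmpP d i j k).run (cact U) c c' ↔ c' = c ∧ c i + d ≤ c j := by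
  have : ∀ c c', (star (seq (dec k) (dec (k + 1)))).run (cact U) c c' ↔ ∃ e, e ≤ c k ∧
      e ≤ c (k + 1) ∧ c' = update (update c k (c k - e)) (k + 1) (c (k + 1) - e) := by
    refine star_iff _ (by simp) fun e c c' => ?_
    simp only [run_seq, run_dec]
    constructor
    · rintro ⟨h, h', rfl⟩
      refine ⟨_, ⟨by omega, by omega, rfl⟩, _, ⟨by simp; omega, rfl⟩, by simp; omega, ?_⟩
      funext l
      simp only [update_apply]
      split_ifs <;> omega
    · rintro ⟨_, ⟨h, h', rfl⟩, _, ⟨h1, rfl⟩, h2, rfl⟩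
      refine ⟨by simp at h1; omega, by simp at h2; omega, ?_⟩
      funext l
      simp only [update_apply]
      split_ifs <;> omega
  have z0 := hz k le_rfl
  have z1 := hz (k + 1) (by omega)
  have z2 := hz (k + 2) (by omega)
  have e1 : ∀ c', (cpy i k (k + 2)).run (cact U) c c' ↔ c' = update c k (c i) := fun _ =>
    run_cpy (by omega) (by omega) (by omega) (h i) z0 z2
  have hjk : j ≠ k := by omega
  have e2 : ∀ c', (cpy j (k + 1) (k + 2)).run (cact U) (update c k (c i)) c' ↔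
      c' = update (update c k (c i)) (k + 1) (c j) := fun _ =>
    (run_cpy (by omega) (by omega) (by omega) (by simpa [hjk] using h j) (by simpa using z1)
      (by simpa using z2)).trans (by simp [hjk])
  simp only [cmpP, seqs, run_seq, e1, exists_eq_left, e2, run_decs, this, run_zero, run_clr,
    run_skip]
  constructor
  · rintro ⟨_, ⟨h1, rfl⟩, _, ⟨e, h2, h3, rfl⟩, _, ⟨h4, rfl⟩, rfl⟩
    simp at h1 h2 h3 h4
    refine ⟨?_, by omega⟩
    funext l
    simp only [update_apply]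
    split_ifs <;> subst_vars <;> omega
  · rintro ⟨rfl, h1⟩
    refine ⟨_, ⟨by simp; omega, rfl⟩, _, ⟨c' i, by simp, by simp; omega, rfl⟩, _,
      ⟨by simp, rfl⟩, ?_⟩
    funext l
    simp only [update_apply]
    split_ifs <;> subst_vars <;> omega

/-- Counter `0` bounds all counters, and the counters from `k` on are empty. -/
structure Ok (U k : ℕ) (c : ℕ → ℕ) : Prop where
  top : c 0 ≤ U
  le : ∀ i, c i ≤ c 0
  z : ∀ i, k ≤ i → c i = 0

theorem Ok.leU {k : ℕ} (h : Ok U k c) (i : ℕ) : c i ≤ U := (h.le i).trans h.top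

theorem Ok.upd {k k' i a : ℕ} (h : Ok U k c) (hi : 0 < i) (hk : k ≤ k') (hik : i < k')
    (ha : a ≤ c 0) : Ok U k' (update c i a) := by
  have e : update c i a 0 = c 0 := update_of_ne hi.ne _ _
  refine ⟨e ▸ h.top, fun l => ?_, fun l hl => ?_⟩
  · rw [e, update_apply]
    split_ifs
    exacts [ha, h.le l]
  · rw [update_of_ne (by omega), h.z l (by omega)]

theorem upd_leU (h : ∀ i, c i ≤ U) {i a : ℕ} (ha : a ≤ U) (l : ℕ) : update c i a l ≤ U := by
  rw [update_apply]
  split_ifs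
  exacts [ha, h l]

theorem upd_z {k k' i a : ℕ} (h : ∀ i, k ≤ i → c i = 0) (hk : k ≤ k') (hik : i < k') (l : ℕ)
    (hl : k' ≤ l) : update c i a l = 0 := by
  rw [update_of_ne (by omega), h l (by omega)]

def Ver (k : ℕ) (P : (ℕ → ℕ) → Prop) : Prop :=
  ∃ p : CP, ∀ U c c', Ok U k c → (p.run (cact U) c c' ↔ c' = c ∧ P c)

theorem Ver.le {k i j : ℕ} (d : ℕ) (hi : i < k) (hj : j < k) :
    Ver k (fun c => c i + d ≤ c j) :=
  ⟨_, fun _ _ _ h => run_cmp hi hj h.leU h.z⟩

theorem Ver.congr {k : ℕ} {P Q : (ℕ → ℕ) → Prop} (h : Ver k P)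
    (e : ∀ c, (∀ i, c i ≤ c 0) → (P c ↔ Q c)) : Ver k Q := by
  obtain ⟨p, h⟩ := h
  exact ⟨p, fun U c c' hc => by rw [h U c c' hc, e c hc.le]⟩

theorem Ver.and {k : ℕ} {P Q : (ℕ → ℕ) → Prop} (h : Ver k P) (h' : Ver k Q) :
    Ver k (fun c => P c ∧ Q c) := by
  obtain ⟨p, h⟩ := h
  obtain ⟨q, h'⟩ := h'
  refine ⟨seq p q, fun U c c' hc => ?_⟩
  simp only [run_seq, h U c _ hc]
  constructor
  · rintro ⟨_, ⟨rfl, h1⟩, h2⟩
    obtain ⟨h3, h4⟩ := (h' _ _ _ hc).1 h2
    exact ⟨h3, h1, h4⟩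
  · rintro ⟨rfl, h1, h2⟩
    exact ⟨_, ⟨rfl, h1⟩, (h' _ _ _ hc).2 ⟨rfl, h2⟩⟩

theorem Ver.or {k : ℕ} {P Q : (ℕ → ℕ) → Prop} (h : Ver k P) (h' : Ver k Q) :
    Ver k (fun c => P c ∨ Q c) := by
  obtain ⟨p, h⟩ := h
  obtain ⟨q, h'⟩ := h'
  refine ⟨alt p q, fun U c c' hc => ?_⟩
  rw [run_alt, h U c _ hc, h' U c _ hc, and_or_left]

/-- Guess a value for the empty counter `k` and check it. -/
theorem Ver.pick {k : ℕ} {P : (ℕ → ℕ) → Prop} (hk : 0 < k) (h : Ver (k + 1) P) :
    ∃ p : CP, ∀ U c c', Ok U k c →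
      (p.run (cact U) c c' ↔ ∃ a ≤ c 0, P (update c k a) ∧ c' = update c k a) := by
  obtain ⟨p, h⟩ := h
  refine ⟨seq (guess k) (seq (cmpP 0 k 0 (k + 1)) p), fun U c c' hc => ?_⟩
  simp only [run_seq, run_guess (hc.z k le_rfl)]
  constructor
  · rintro ⟨_, ⟨a, h1, rfl⟩, _, h2, h3⟩
    obtain ⟨rfl, h4⟩ := (run_cmp (by omega) (by omega) (upd_leU hc.leU h1)
      (upd_z hc.z (by omega) (by omega))).1 h2
    have h5 : a ≤ c 0 := by simpa [hk.ne] using h4
    obtain ⟨h6, h7⟩ := (h _ _ _ (hc.upd hk (by omega) (by omega) h5)).1 h3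
    exact ⟨a, h5, h7, h6⟩
  · rintro ⟨a, h1, h2, rfl⟩
    have h3 := h1.trans hc.top
    exact ⟨_, ⟨a, h3, rfl⟩, _, (run_cmp (by omega) (by omega) (upd_leU hc.leU h3)
      (upd_z hc.z (by omega) (by omega))).2 ⟨rfl, by simpa [hk.ne] using h1⟩,
      (h _ _ _ (hc.upd hk (by omega) (by omega) h1)).2 ⟨rfl, h2⟩⟩

theorem Ver.ex {k : ℕ} {P : (ℕ → ℕ) → Prop} (hk : 0 < k) (h : Ver (k + 1) P) :
    Ver k (fun c => ∃ a ≤ c 0, P (update c k a)) := by
  obtain ⟨p, h⟩ := h.pick hk
  refine ⟨seq p (clr k), fun U c c' hc => ?_⟩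
  have e : update c k 0 = c := by rw [← hc.z k le_rfl, update_eq_self]
  simp only [run_seq, h U c _ hc, run_clr]
  constructor
  · rintro ⟨_, ⟨a, h1, h2, rfl⟩, rfl⟩
    exact ⟨by rw [update_idem, e], a, h1, h2⟩
  · rintro ⟨rfl, a, h1, h2⟩
    exact ⟨_, ⟨a, h1, h2, rfl⟩, by rw [update_idem, e]⟩

/-- Replace the value of counter `i`. -/
theorem Ver.upd {k i : ℕ} {P : (ℕ → ℕ) → Prop} (hi : 0 < i) (hik : i < k) (h : Ver (k + 1) P) :
    ∃ p : CP, ∀ U c c', Ok U k c →
      (p.run (cact U) c c' ↔ ∃ a ≤ c 0, P (update c k a) ∧ c' = update c i a) := by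
  obtain ⟨p, h⟩ := h.pick (by omega)
  refine ⟨seq p (seq (clr i) (mv k i)), fun U c c' hc => ?_⟩
  have e : ∀ a, a ≤ c 0 → ((mv k i).run (cact U) (update (update c k a) i 0) c' ↔
      c' = update c i a) := by
    intro a ha
    have := hc.top
    have := hc.z k le_rfl
    rw [run_mv hik.ne' (by simp), and_iff_right (by simp [hik.ne']; omega)]
    refine Eq.congr_right ?_
    funext l
    simp only [update_apply]
    split_ifs <;> subst_vars <;> omega
  simp only [run_seq, h U c _ hc, run_clr]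
  constructor
  · rintro ⟨_, ⟨a, h1, h2, rfl⟩, _, rfl, h3⟩
    exact ⟨a, h1, h2, (e a h1).1 h3⟩
  · rintro ⟨a, h1, h2, h3⟩
    exact ⟨_, ⟨a, h1, h2, rfl⟩, _, rfl, (e a h1).2 h3⟩

theorem Ver.all {k : ℕ} {P : (ℕ → ℕ) → Prop} (hk : 0 < k) (h : Ver (k + 1) P) :
    Ver k (fun c => ∀ a ≤ c 0, P (update c k a)) := by
  obtain ⟨p, h⟩ := h
  refine ⟨seqs [star (seq p (seq (cmpP 1 k 0 (k + 1)) (inc k))), p, cmpP 0 0 k (k + 1), clr k],
    fun U c c' hc => ?_⟩
  have e : update c k 0 = c := by rw [← hc.z k le_rfl, update_eq_self]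
  have ok : ∀ a ≤ c 0, Ok U (k + 1) (update c k a) := fun a ha =>
    hc.upd hk (by omega) (by omega) ha
  have step : ∀ a ≤ c 0, ∀ c', (seq p (seq (cmpP 1 k 0 (k + 1)) (inc k))).run (cact U)
      (update c k a) c' ↔ P (update c k a) ∧ a < c 0 ∧ c' = update c k (a + 1) := by
    intro a ha c'
    have := hc.top
    simp only [run_seq, h _ _ _ (ok a ha), run_inc]
    constructor
    · rintro ⟨_, ⟨rfl, h1⟩, _, h2, h3, rfl⟩
      obtain ⟨rfl, h4⟩ := (run_cmp (by omega) (by omega) (ok a ha).leU (ok a ha).z).1 h2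
      exact ⟨h1, by simpa [hk.ne] using h4, by simp⟩
    · rintro ⟨h1, h2, rfl⟩
      exact ⟨_, ⟨rfl, h1⟩, _, (run_cmp (by omega) (by omega) (ok a ha).leU (ok a ha).z).2
        ⟨rfl, by simpa [hk.ne] using h2⟩, by simp; omega, by simp⟩
  constructor
  · rintro ⟨c1, h1, c2, h2, c3, h3, c4, h4, rfl⟩
    have : ∃ a ≤ c 0, c1 = update c k a ∧ ∀ b < a, P (update c k b) := by
      clear h2
      induction h1 with
      | refl => exact ⟨0, Nat.zero_le _, e.symm, by simp⟩
      | tail _ h5 ih =>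
        obtain ⟨a, a1, rfl, a2⟩ := ih
        obtain ⟨b1, b2, rfl⟩ := (step a a1 _).1 h5
        refine ⟨a + 1, b2, rfl, fun b hb => ?_⟩
        rcases Nat.lt_succ_iff_lt_or_eq.1 hb with hb | rfl
        exacts [a2 b hb, b1]
    obtain ⟨a, a1, rfl, a2⟩ := this
    obtain ⟨rfl, b1⟩ := (h _ _ _ (ok a a1)).1 h2
    obtain ⟨rfl, b2⟩ := (run_cmp (by omega) (by omega) (ok a a1).leU (ok a a1).z).1 h3
    refine ⟨by rw [run_clr.1 h4, update_idem, e], fun b hb => ?_⟩
    have : c 0 ≤ a := by simpa [hk.ne] using b2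
    rcases (show b < a ∨ b = a by omega) with hb | rfl
    exacts [a2 b hb, b1]
  · rintro ⟨rfl, h1⟩
    have : ∀ a ≤ c' 0, (star (seq p (seq (cmpP 1 k 0 (k + 1)) (inc k)))).run (cact U) c'
        (update c' k a) := by
      intro a ha
      induction a with
      | zero =>
        rw [e]
        exact .refl
      | succ a ih =>
        exact ReflTransGen.tail (ih (by omega)) ((step a (by omega) _).2
          ⟨h1 a (by omega), ha, rfl⟩)
    exact ⟨_, this _ le_rfl, _, (h _ _ _ (ok _ le_rfl)).2 ⟨rfl, h1 _ le_rfl⟩, _,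
      (run_cmp (by omega) (by omega) (ok _ le_rfl).leU (ok _ le_rfl).z).2
        ⟨rfl, by simp [hk.ne]⟩, _, run_clr.2 rfl, by simp [run, seqs, e]⟩

/-- Iteration of a verifiable step: counter `k` counts the steps, `k + 1` holds the value. -/
theorem Ver.iter {k i : ℕ} {P : (ℕ → ℕ) → Prop} (F : (ℕ → ℕ) → ℕ → ℕ) (hk : 0 < k) (hi : i < k)
    (h : Ver (k + 3) P)
    (hP : ∀ c e a b, (∀ i, c i ≤ c 0) → e ≤ c 0 → a ≤ c 0 → b ≤ c 0 →
      (P (update (update (update c k e) (k + 1) a) (k + 2) b) ↔ b = F c a)) :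
    ∃ p : CP, ∀ U c a0 c', Ok U k c → a0 ≤ c 0 →
      (p.run (cact U) (update c (k + 1) a0) c' ↔ ∃ e ≤ c i, (∀ d ≤ e, (F c)^[d] a0 ≤ c 0) ∧
        c' = update (update c k e) (k + 1) ((F c)^[e] a0)) := by
  obtain ⟨p, h⟩ := h.upd (i := k + 1) (by omega) (by omega)
  refine ⟨star (seq p (seq (cmpP 1 k i (k + 2)) (inc k))), fun U c a0 c' hc h0 => ?_⟩
  have e0 : update c k 0 = c := by rw [← hc.z k le_rfl, update_eq_self]
  have ok : ∀ e ≤ c 0, ∀ a ≤ c 0, Ok U (k + 2) (update (update c k e) (k + 1) a) :=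
    fun e he a ha => (hc.upd hk (k' := k + 1) (by omega) (by omega) he).upd (by omega) (by omega)
      (by omega) (by simpa [hk.ne] using ha)
  have step : ∀ e ≤ c 0, ∀ a ≤ c 0, ∀ c', (seq p (seq (cmpP 1 k i (k + 2)) (inc k))).run (cact U)
      (update (update c k e) (k + 1) a) c' ↔ e < c i ∧ F c a ≤ c 0 ∧
        c' = update (update c k (e + 1)) (k + 1) (F c a) := by
    intro e he a ha c'
    have := hc.leU i
    have e1 : update (update c k e) (k + 1) a 0 = c 0 := by simp [hk.ne]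
    have e2 : i ≠ k + 1 := by omega
    simp only [run_seq, h _ _ _ (ok e he a ha), run_inc, e1, update_idem]
    constructor
    · rintro ⟨_, ⟨b, h1, h2, rfl⟩, _, h3, h4, rfl⟩
      obtain rfl := (hP c e a b hc.le he ha h1).1 h2
      obtain ⟨rfl, h5⟩ := (run_cmp (by omega) (by omega) (ok e he _ h1).leU (ok e he _ h1).z).1 h3
      refine ⟨by simpa [hi.ne, e2] using h5, h1, ?_⟩
      rw [update_comm (by omega)]
      simp
    · rintro ⟨h1, h2, rfl⟩
      refine ⟨_, ⟨_, h2, (hP c e a _ hc.le he ha h2).2 rfl, rfl⟩, _,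
        (run_cmp (by omega) (by omega) (ok e he _ h2).leU (ok e he _ h2).z).2
          ⟨rfl, by simpa [hi.ne, e2] using h1⟩, by simp; omega, ?_⟩
      rw [update_comm (a := k + 1) (by omega)]
      simp
  constructor
  · intro h1
    induction h1 with
    | refl => exact ⟨0, Nat.zero_le _, by simpa using h0, by rw [e0]; rfl⟩
    | tail _ h5 ih =>
      obtain ⟨e, a1, a2, rfl⟩ := ih
      obtain ⟨b1, b2, rfl⟩ := (step e (a1.trans (hc.le i)) _ (a2 e le_rfl) _).1 h5
      refine ⟨e + 1, b1, fun d hd => ?_, by rw [iterate_succ_apply']⟩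
      rcases (show d ≤ e ∨ d = e + 1 by omega) with hd | rfl
      · exact a2 d hd
      · rwa [iterate_succ_apply']
  · rintro ⟨e, h1, h2, rfl⟩
    induction e with
    | zero =>
      rw [e0]
      exact .refl
    | succ e ih =>
      have := hc.le i
      refine ReflTransGen.tail (ih (by omega) fun d hd => h2 d (by omega))
        ((step e (by omega) _ (h2 e (by omega)) _).2 ⟨h1, ?_, ?_⟩)
      swap
      · rw [iterate_succ_apply']
      simpa only [iterate_succ_apply'] using h2 (e + 1) le_rfl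

end Pool.Agent.P.MP_d0a708_lc.K
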