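import Pool.Agent.P.MP_d0a708_lc.KCnt

/-!
Bounded formulas of arithmetic are verified by counter programs.
-/

namespace Pool.Agent.P.MP_d0a708_lc.K

open Pool.Agent.P.MP_d0a708_lc Relation Prog Function

theorem Ver.iter' {k i j l : ℕ} {P : (ℕ → ℕ) → Prop} (F : (ℕ → ℕ) → ℕ → ℕ) (hi : i < k)
    (hj : j < k) (hl : l < k) (h : Ver (k + 3) P)
    (hP : ∀ c e a b, (∀ i, c i ≤ c 0) → e ≤ c 0 → a ≤ c 0 → b ≤ c 0 →
      (P (update (update (update c k e) (k + 1) a) (k + 2) b) ↔ b = F c a)) :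
    Ver k (fun c => (∀ d ≤ c i, (F c)^[d] (c j) ≤ c 0) ∧ c l = (F c)^[c i] (c j)) := by
  have hk : 0 < k := by omega
  obtain ⟨p, h⟩ := h.iter F hk hi hP
  refine ⟨seqs [cpy j (k + 1) (k + 2), p, cmpP 0 i k (k + 2), cmpP 0 l (k + 1) (k + 2),
    cmpP 0 (k + 1) l (k + 2), clr (k + 1), clr k], fun U c c' hc => ?_⟩
  have e1 : ∀ c', (cpy j (k + 1) (k + 2)).run (cact U) c c' ↔ c' = update c (k + 1) (c j) :=
    fun _ => run_cpy (by omega) (by omega) (by omega) (hc.leU j) (hc.z _ (by omega))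
      (hc.z _ (by omega))
  have ok : ∀ e ≤ c 0, ∀ a ≤ c 0, Ok U (k + 2) (update (update c k e) (k + 1) a) :=
    fun e he a ha => (hc.upd hk (k' := k + 1) (by omega) (by omega) he).upd (by omega) (by omega)
      (by omega) (by simpa [hk.ne] using ha)
  have e2 : ∀ e a, update (update (update (update c k e) (k + 1) a) (k + 1) 0) k 0 = c := by
    intro e a
    have := hc.z k le_rfl
    have := hc.z (k + 1) (by omega)
    funext m
    simp only [update_apply]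
    split_ifs <;> subst_vars <;> omega
  have i1 : i ≠ k + 1 := by omega
  have l1 : l ≠ k + 1 := by omega
  simp only [seqs, run_seq, e1, exists_eq_left, h U c _ _ hc (hc.le j), run_clr, run_skip]
  constructor
  · rintro ⟨_, ⟨e, a1, a2, rfl⟩, _, h1, _, h2, _, h3, rfl⟩
    have o := ok e (a1.trans (hc.le i)) _ (a2 e le_rfl)
    obtain ⟨rfl, b1⟩ := (run_cmp (by omega) (by omega) o.leU o.z).1 h1
    obtain ⟨rfl, b2⟩ := (run_cmp (by omega) (by omega) o.leU o.z).1 h2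
    obtain ⟨rfl, b3⟩ := (run_cmp (by omega) (by omega) o.leU o.z).1 h3
    simp [hi.ne, hl.ne, i1, l1] at b1 b2 b3
    obtain rfl : e = c i := by omega
    exact ⟨e2 _ _, a2, by omega⟩
  · rintro ⟨rfl, a1, a2⟩
    have o := ok _ (hc.le i) _ (a1 _ le_rfl)
    exact ⟨_, ⟨_, le_rfl, a1, rfl⟩, _, (run_cmp (by omega) (by omega) o.leU o.z).2
      ⟨rfl, by simp [hi.ne, i1]⟩, _, (run_cmp (by omega) (by omega) o.leU o.z).2
      ⟨rfl, by simp [hl.ne, l1, a2]⟩, _, (run_cmp (by omega) (by omega) o.leU o.z).2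
      ⟨rfl, by simp [hl.ne, l1, a2]⟩, (e2 _ _).symm⟩

abbrev Pr : Type := ℕ → (ℕ → ℕ) → Prop

def Pos (P : Pr) : Prop :=
  ∀ k (ρ : ℕ → ℕ), (∀ i, ρ i < k) → Ver k (fun c => P (c 0) (fun i => c (ρ i)))

def vc (n : ℕ) (v : ℕ → ℕ) : ℕ → ℕ
  | 0 => n
  | i + 1 => v i

theorem vc_lt {k n : ℕ} {ρ : ℕ → ℕ} (h : ∀ i, ρ i < k) (hn : n < k) : ∀ i, vc n ρ i < k
  | 0 => hn
  | i + 1 => h i

theorem Pos.congr {P Q : Pr} (h : Pos P) (e : ∀ u v, (∀ i, v i ≤ u) → (P u v ↔ Q u v)) :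
    Pos Q := fun k ρ hρ => (h k ρ hρ).congr fun _ hc => e _ _ fun _ => hc _

theorem Pos.and {P Q : Pr} (h : Pos P) (h' : Pos Q) : Pos (fun u v => P u v ∧ Q u v) :=
  fun k ρ hρ => (h k ρ hρ).and (h' k ρ hρ)

theorem Pos.or {P Q : Pr} (h : Pos P) (h' : Pos Q) : Pos (fun u v => P u v ∨ Q u v) :=
  fun k ρ hρ => (h k ρ hρ).or (h' k ρ hρ)

theorem Pos.comp {P : Pr} (h : Pos P) (f : ℕ → ℕ) : Pos (fun u v => P u (fun i => v (f i))) :=
  fun k ρ hρ => h k (fun i => ρ (f i)) fun _ => hρ _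

theorem Pos.ex {P : ℕ → Pr} (h : Pos (fun u v => P (v 0) u (fun i => v (i + 1)))) :
    Pos (fun u v => ∃ a ≤ u, P a u v) := fun k ρ hρ => by
  have hk : 0 < k := (Nat.zero_le _).trans_lt (hρ 0)
  refine (Ver.ex hk (h (k + 1) (vc k ρ) (vc_lt (fun i => (hρ i).trans (by omega))
    (by omega)))).congr fun c _ => ?_
  simp [vc, hk.ne, fun i => (hρ i).ne]

theorem Pos.all {P : ℕ → Pr} (h : Pos (fun u v => P (v 0) u (fun i => v (i + 1)))) :
    Pos (fun u v => ∀ a ≤ u, P a u v) := fun k ρ hρ => by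
  have hk : 0 < k := (Nat.zero_le _).trans_lt (hρ 0)
  refine (Ver.all hk (h (k + 1) (vc k ρ) (vc_lt (fun i => (hρ i).trans (by omega))
    (by omega)))).congr fun c _ => ?_
  simp [vc, hk.ne, fun i => (hρ i).ne]

def Dec (P : Pr) : Prop := Pos P ∧ Pos (fun u v => ¬ P u v)

theorem Dec.congr {P Q : Pr} (h : Dec P) (e : ∀ u v, (∀ i, v i ≤ u) → (P u v ↔ Q u v)) :
    Dec Q := ⟨h.1.congr e, h.2.congr fun u v hv => not_congr (e u v hv)⟩

theorem Dec.not {P : Pr} (h : Dec P) : Dec (fun u v => ¬ P u v) :=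
  ⟨h.2, h.1.congr fun _ _ _ => not_not.symm⟩

theorem Dec.and {P Q : Pr} (h : Dec P) (h' : Dec Q) : Dec (fun u v => P u v ∧ Q u v) :=
  ⟨h.1.and h'.1, (h.2.or h'.2).congr fun _ _ _ => not_and_or.symm⟩

theorem Dec.or {P Q : Pr} (h : Dec P) (h' : Dec Q) : Dec (fun u v => P u v ∨ Q u v) :=
  ⟨h.1.or h'.1, (h.2.and h'.2).congr fun _ _ _ => not_or.symm⟩

theorem Dec.imp {P Q : Pr} (h : Dec P) (h' : Dec Q) : Dec (fun u v => P u v → Q u v) :=
  (h.not.or h').congr fun _ _ _ => imp_iff_not_or.symm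

theorem Dec.comp {P : Pr} (h : Dec P) (f : ℕ → ℕ) : Dec (fun u v => P u (fun i => v (f i))) :=
  ⟨h.1.comp f, h.2.comp f⟩

theorem Dec.ex {P : ℕ → Pr} (h : Dec (fun u v => P (v 0) u (fun i => v (i + 1)))) :
    Dec (fun u v => ∃ a ≤ u, P a u v) :=
  ⟨h.1.ex, (Pos.all (P := fun a u v => ¬ P a u v) h.2).congr fun _ _ _ => by simp⟩

theorem Dec.all {P : ℕ → Pr} (h : Dec (fun u v => P (v 0) u (fun i => v (i + 1)))) :
    Dec (fun u v => ∀ a ≤ u, P a u v) :=
  ⟨h.1.all, (Pos.ex (P := fun a u v => ¬ P a u v) h.2).congr fun _ _ _ => by simp⟩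

theorem Dec.le (i j : ℕ) : Dec (fun _ v => v i ≤ v j) :=
  ⟨fun _ _ hρ => Ver.le 0 (hρ i) (hρ j),
    fun _ _ hρ => (Ver.le 1 (hρ j) (hρ i)).congr fun _ _ => by beta_reduce; omega⟩

theorem Dec.lt (i j : ℕ) : Dec (fun _ v => v i < v j) :=
  (Dec.le j i).not.congr fun _ _ _ => by omega

theorem Dec.eq (i j : ℕ) : Dec (fun _ v => v i = v j) :=
  ((Dec.le i j).and (Dec.le j i)).congr fun _ _ _ => by omega

theorem Dec.succ (i j : ℕ) : Dec (fun _ v => v i = v j + 1) := by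
  refine ((Dec.lt j i).and (Dec.all (P := fun a _ v => v j < a → v i ≤ a)
    ((Dec.lt (j + 1) 0).imp (Dec.le (i + 1) 0)))).congr fun u v hv => ⟨fun h => ?_, fun h => ?_⟩
  · have := h.2 (v j + 1) (by have := hv i; omega) (by omega)
    omega
  · exact ⟨by omega, fun a _ _ => by omega⟩

theorem Dec.iter (F : (ℕ → ℕ) → ℕ → ℕ) (hF : Dec (fun _ v => v 0 = F (fun i => v (i + 2)) (v 1)))
    (mono : ∀ w a, a ≤ F w a) :
    Dec (fun _ v => v 0 = (F (fun i => v (i + 3)))^[v 1] (v 2)) := by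
  have hm : ∀ w a, Monotone fun d => (F w)^[d] a := fun w a =>
    monotone_nat_of_le_succ fun d => by
      rw [iterate_succ_apply']
      exact mono _ _
  have pos : Pos (fun _ v => v 0 = (F (fun i => v (i + 3)))^[v 1] (v 2)) := fun k ρ hρ => by
    refine (Ver.iter' (fun c => F (fun i => c (ρ (i + 3)))) (hρ 1) (hρ 2) (hρ 0)
      (hF.1 (k + 3) (vc (k + 2) (vc (k + 1) fun i => ρ (i + 3)))
        (vc_lt (vc_lt (fun i => (hρ _).trans (by omega)) (by omega)) (by omega)))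
      fun c e a b _ _ _ _ => ?_).congr fun c hc => ?_
    · have e1 : ∀ i, ρ i ≠ k := fun i => (hρ i).ne
      have e2 : ∀ i, ρ i ≠ k + 1 := fun i => by have := hρ i; omega
      have e3 : ∀ i, ρ i ≠ k + 2 := fun i => by have := hρ i; omega
      simp [vc, e1, e2, e3]
    · exact ⟨fun h => h.2, fun h => ⟨fun d hd => (hm _ _ hd).trans (h.ge.trans (hc _)), h⟩⟩
  refine ⟨pos, (Pos.or
    (Pos.ex (P := fun a _ v => a = (F (fun i => v (i + 3)))^[v 1] (v 2) ∧ ¬ a = v 0)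
      ((pos.comp (vc 0 fun i => i + 2)).and (Dec.eq 0 1).2))
    (Pos.ex (P := fun e u v => e < v 1 ∧ ∃ a ≤ u, a = (F (fun i => v (i + 3)))^[e] (v 2) ∧
        ∀ b ≤ u, ¬ b = F (fun i => v (i + 3)) a)
      ((Dec.lt 0 2).1.and (Pos.ex ((pos.comp (vc 0 (vc 1 fun i => i + 4))).and
        (Pos.all (hF.2.comp (vc 0 (vc 1 fun i => i + 6))))))))).congr fun u v hv => ?_⟩
  beta_reduce
  generalize (fun i => v (i + 3)) = w
  constructor
  · rintro (⟨a, -, rfl, h⟩ | ⟨e, -, h1, a, -, rfl, h2⟩) h'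
    · exact h h'.symm
    · have := hm w (v 2) (show e + 1 ≤ v 1 from h1)
      simp only [iterate_succ_apply'] at this
      exact h2 _ (this.trans (h' ▸ hv 0)) rfl
  · intro h
    by_cases h1 : (F w)^[v 1] (v 2) ≤ u
    · exact Or.inl ⟨_, h1, rfl, fun e => h e.symm⟩
    · have h2 : ∃ d, ¬ (F w)^[d] (v 2) ≤ u := ⟨_, h1⟩
      have h3 := Nat.find_spec h2
      have h4 := Nat.find_min' h2 h1
      obtain ⟨e, he⟩ : ∃ e, Nat.find h2 = e + 1 :=
        Nat.exists_eq_succ_of_ne_zero fun e => h3 (by rw [e]; exact hv 2)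
      have h5 := Nat.find_min h2 (m := e) (by omega)
      rw [he, iterate_succ_apply'] at h3
      have := hv 1
      exact Or.inr ⟨e, by omega, by omega, _, not_not.1 h5, rfl, fun b hb e => h3 (e ▸ hb)⟩

/-- The graph of `f` is decidable by counter programs. -/
def Gr (f : (ℕ → ℕ) → ℕ) : Prop := Dec (fun _ v => v 0 = f (fun i => v (i + 1)))

theorem Gr.var (i : ℕ) : Gr (fun v => v i) := Dec.eq 0 (i + 1)

theorem Gr.up {f : (ℕ → ℕ) → ℕ} (h : Gr f) (n : ℕ) :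
    Dec (fun _ v => v 0 = f (fun i => v (i + n))) := h.comp (vc 0 fun i => i + n)

theorem Gr.at {f : (ℕ → ℕ) → ℕ} (h : Gr f) (j n : ℕ) :
    Dec (fun _ v => v j = f (fun i => v (i + n))) := h.comp (vc j fun i => i + n)

theorem Gr.const (n : ℕ) : Gr (fun _ => n) := by
  induction n with
  | zero =>
    exact (Dec.all (P := fun a _ v => v 0 ≤ a) (Dec.le 1 0)).congr fun u v _ =>
      ⟨fun h => Nat.le_zero.1 (h 0 (Nat.zero_le _)), fun h a _ => h.le.trans (Nat.zero_le _)⟩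
  | succ n ih =>
    exact (Dec.ex (P := fun a _ v => a = n ∧ v 0 = a + 1) ((ih.up 0).and (Dec.succ 1 0))).congr
      fun u v hv => ⟨fun ⟨a, _, h1, h2⟩ => h1 ▸ h2, fun h =>
        ⟨n, (Nat.le_succ n).trans (h.ge.trans (hv 0)), rfl, h⟩⟩

theorem Dec.add (i j l : ℕ) : Dec (fun _ v => v i = v j + v l) := by
  refine ((Dec.iter (fun _ a => a + 1) (Dec.succ 0 1) (fun _ _ => Nat.le_succ _)).comp
    (vc i (vc l fun _ => j))).congr fun u v _ => ?_
  simp [vc]

theorem Dec.mul (i j l : ℕ) : Dec (fun _ v => v i = v j * v l) := by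
  refine (Dec.ex (P := fun a _ v => a = 0 ∧ v i = (fun x => x + v j)^[v l] a)
    (((Gr.const 0).up 0).and ((Dec.iter (fun w a => a + w 0) (Dec.add 0 1 2)
      (fun _ _ => Nat.le_add_right _ _)).comp
        (vc (i + 1) (vc (l + 1) (vc 0 fun _ => j + 1)))))).congr fun u v _ => ?_
  simp [mul_comm]

theorem iter_dbl (n : ℕ) : (fun x => x + x)^[n] 1 = 2 ^ n := by
  induction n with
  | zero => rfl
  | succ n ih => rw [iterate_succ_apply', ih, pow_succ, mul_two]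

theorem Dec.pow (i j : ℕ) : Dec (fun _ v => v i = 2 ^ v j) := by
  refine (Dec.ex (P := fun a _ v => a = 1 ∧ v i = (fun x => x + x)^[v j] a)
    (((Gr.const 1).up 0).and ((Dec.iter (fun _ a => a + a) (Dec.add 0 1 1)
      (fun _ _ => Nat.le_add_right _ _)).comp
        (vc (i + 1) (vc (j + 1) fun _ => 0))))).congr fun u v hv => ?_
  constructor
  · rintro ⟨_, -, rfl, h⟩
    rwa [iter_dbl] at h
  · intro h
    have := hv i
    have : 0 < 2 ^ v j := by positivity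
    exact ⟨1, by omega, rfl, by rwa [iter_dbl]⟩

variable {f g : (ℕ → ℕ) → ℕ}

theorem Gr.add (hf : Gr f) (hg : Gr g) : Gr (fun v => f v + g v) := by
  refine (Dec.ex (P := fun a u v => a = f (fun i => v (i + 1)) ∧ ∃ b ≤ u,
    b = g (fun i => v (i + 1)) ∧ v 0 = a + b) ((hf.up 2).and (Dec.ex ((hg.up 3).and
      (Dec.add 2 1 0))))).congr fun u v hv => ?_
  beta_reduce
  constructor
  · rintro ⟨_, -, rfl, _, -, rfl, h⟩
    exact h
  · intro h
    have := hv 0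
    exact ⟨_, by omega, rfl, _, by omega, rfl, h⟩

theorem Gr.eq_zero (hf : Gr f) : Dec (fun _ v => f v = 0) :=
  (Dec.ex (P := fun a _ v => a = 0 ∧ a = f v) (((Gr.const 0).up 0).and hf)).congr fun u v _ => by
    simp [eq_comm]

theorem Gr.mul (hf : Gr f) (hg : Gr g) : Gr (fun v => f v * g v) := by
  refine ((Dec.ex (P := fun a u v => a = f (fun i => v (i + 1)) ∧ ∃ b ≤ u,
    b = g (fun i => v (i + 1)) ∧ v 0 = a * b) ((hf.up 2).and (Dec.ex ((hg.up 3).and
      (Dec.mul 2 1 0))))).or (((Gr.const 0).up 0).and ((hf.eq_zero.comp (· + 1)).or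
        (hg.eq_zero.comp (· + 1))))).congr fun u v hv => ?_
  beta_reduce
  generalize f (fun i => v (i + 1)) = a
  generalize g (fun i => v (i + 1)) = b
  constructor
  · rintro (⟨_, -, rfl, _, -, rfl, h⟩ | ⟨h, rfl | rfl⟩)
    · exact h
    · simpa using h
    · simpa using h
  · intro h
    have := hv 0
    rcases Nat.eq_zero_or_pos a with rfl | ha
    · exact Or.inr ⟨by simpa using h, Or.inl rfl⟩
    rcases Nat.eq_zero_or_pos b with rfl | hb
    · exact Or.inr ⟨by simpa using h, Or.inr rfl⟩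
    exact Or.inl ⟨_, by nlinarith, rfl, _, by nlinarith, rfl, h⟩

theorem Gr.pow (hf : Gr f) : Gr (fun v => 2 ^ f v) := by
  refine (Dec.ex (P := fun a _ v => a = f (fun i => v (i + 1)) ∧ v 0 = 2 ^ a)
    ((hf.up 2).and (Dec.pow 1 0))).congr fun u v hv => ?_
  constructor
  · rintro ⟨_, -, rfl, h⟩
    exact h
  · intro h
    exact ⟨_, (Nat.lt_two_pow_self.le.trans h.ge).trans (hv 0), rfl, h⟩

theorem Gr.ite {P : (ℕ → ℕ) → Prop} [DecidablePred P] (h : Dec (fun _ v => P v)) (hf : Gr f)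
    (hg : Gr g) : Gr (fun v => if P v then f v else g v) := by
  refine (((h.comp (· + 1)).and hf).or ((h.comp (· + 1)).not.and hg)).congr fun u v _ => ?_
  by_cases e : P (fun i => v (i + 1)) <;> simp [e]

theorem Gr.le_top (hf : Gr f) : Dec (fun u v => f v ≤ u) :=
  (Dec.ex (P := fun a _ v => a = f v) hf).congr fun u v _ => by simp

theorem Gr.le_var (hf : Gr f) (j : ℕ) : Dec (fun _ v => f v ≤ v j) :=
  (Dec.ex (P := fun a _ v => a = f v ∧ a ≤ v j) (Dec.and hf (Dec.le 0 (j + 1)))).congr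
    fun _ _ hv => ⟨fun ⟨_, _, h1, h2⟩ => h1 ▸ h2, fun h => ⟨_, h.trans (hv j), rfl, h⟩⟩

theorem Gr.var_eq (hf : Gr f) (j : ℕ) : Dec (fun _ v => v j = f v) := hf.at j 0

/-- The values of `f` do not exceed the bound. -/
def Sml (f : (ℕ → ℕ) → ℕ) : Prop := ∀ u v, (∀ i, v i ≤ u) → f v ≤ u

theorem Sml.var (i : ℕ) : Sml (fun v => v i) := fun _ _ h => h i

theorem Sml.div (i : ℕ) : Sml (fun v => v i / g v) := fun _ _ h => (Nat.div_le_self _ _).trans (h i)

theorem Gr.shift (i : ℕ) (hf : Gr f) : Gr (fun v => v i / 2 ^ f v) := by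
  refine ((Dec.ex (P := fun a u v => a = 2 ^ f (fun i => v (i + 1)) ∧ ∃ b ≤ u, b < a ∧
    v (i + 1) = v 0 * a + b) ((hf.pow.up 2).and (Dec.ex ((Dec.lt 0 1).and
      ((((Gr.var 2).mul (Gr.var 1)).add (Gr.var 0)).var_eq (i + 3)))))).or
        (((Gr.const 0).up 0).and (hf.pow.le_top.comp (· + 1)).not)).congr fun u v hv => ?_
  beta_reduce
  have hp : 0 < 2 ^ f (fun i => v (i + 1)) := by positivity
  generalize 2 ^ f (fun i => v (i + 1)) = a at hp
  have := hv (i + 1)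
  constructor
  · rintro (⟨_, -, rfl, b, -, h1, h2⟩ | ⟨h1, h2⟩)
    · rw [h2, add_comm, Nat.add_mul_div_right _ _ hp, Nat.div_eq_of_lt h1, zero_add]
    · rw [h1, Nat.div_eq_of_lt (by omega)]
  · intro h
    by_cases e : a ≤ u
    · refine Or.inl ⟨a, e, rfl, v (i + 1) % a, (Nat.mod_le _ _).trans this, Nat.mod_lt _ hp, ?_⟩
      rw [h, Nat.div_add_mod']
    · exact Or.inr ⟨by rw [h, Nat.div_eq_of_lt (by omega)], e⟩

theorem Gr.half (hf : Gr f) (hs : Sml f) : Gr (fun v => f v / 2) := by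
  refine (Dec.ex (P := fun a _ v => a = f (fun i => v (i + 1)) ∧
    (a = v 0 + v 0 ∨ a = v 0 + v 0 + 1)) ((hf.up 2).and ((Dec.add 0 1 1).or
      ((((Gr.var 1).add (Gr.var 1)).add (Gr.const 1)).var_eq 0)))).congr fun u v hv => ?_
  beta_reduce
  constructor
  · rintro ⟨_, -, rfl, h⟩
    omega
  · intro h
    exact ⟨_, hs u _ fun i => hv _, rfl, by omega⟩

theorem Gr.par (hf : Gr f) (hs : Sml f) : Gr (fun v => f v % 2) := by
  refine (Dec.ex (P := fun a u v => a = f (fun i => v (i + 1)) ∧ ∃ b ≤ u,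
    b = f (fun i => v (i + 1)) / 2 ∧ a = b + b + v 0) ((hf.up 2).and (Dec.ex
      (((hf.half hs).up 3).and ((((Gr.var 0).add (Gr.var 0)).add (Gr.var 2)).var_eq 1))))).congr
        fun u v hv => ?_
  beta_reduce
  constructor
  · rintro ⟨_, -, rfl, _, -, rfl, h⟩
    omega
  · intro h
    have := hs u (fun i => v (i + 1)) fun i => hv _
    exact ⟨_, this, rfl, _, by omega, rfl, by omega⟩

theorem Gr.bit (i : ℕ) (hf : Gr f) : Gr (fun v => v i / 2 ^ f v % 2) :=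
  (hf.shift i).par (Sml.div i)

end Pool.Agent.P.MP_d0a708_lc.K
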