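import Mathlib
import Pool.Agent.P.MP_d0a708_lc.Defs

/-!
Structured recursive programs over bounded registers and a stack, and their compilation (for two
registers) to deterministic two-head pushdown automata on unary inputs.
-/

namespace Pool.Agent.P.MP_d0a708_lc.N

open Pool.Agent.P.MP_d0a708_lc

theorem rtg_mono {α : Type*} {r p : α → α → Prop} (h : ∀ a b, r a b → p a b) {a b : α}
    (hr : Relation.ReflTransGen r a b) : Relation.ReflTransGen p a b := by
  induction hr with
  | refl => exact .refl
  | tail _ h2 ih => exact ih.tail (h _ _ h2)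

/-- Stack symbols. -/
abbrev Sym := Fin 3
abbrev sU : Sym := 0
abbrev sM : Sym := 1
abbrev sE : Sym := 2

inductive Op (k : ℕ) : Type
  | inc (i : Fin (k + 1)) : Op k
  | dec (i : Fin (k + 1)) : Op k
  | push (g : Sym) : Op k
  | pop : Op k

inductive Tst (k : ℕ) : Type
  | nz (i : Fin (k + 1)) : Tst k
  | ne : Tst k
  | is (g : Sym) : Tst k
  | isnt (g : Sym) : Tst k

inductive Prog (k : ℕ) : Type
  | skip : Prog k
  | op (o : Op k) : Prog k
  | seq (p q : Prog k) : Prog k
  | ite (t : Tst k) (p q : Prog k) : Prog k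
  | loop (t : Tst k) (p : Prog k) : Prog k
  | call (i : Bool) : Prog k

abbrev St (k : ℕ) := (Fin (k + 1) → ℕ) × List Sym

inductive OpS {k : ℕ} (bd : Fin (k + 1) → ℕ) : Op k → St k → St k → Prop
  | inc (i c st) (h : c i < bd i) : OpS bd (.inc i) (c, st) (Function.update c i (c i + 1), st)
  | dec (i c st) (h : 0 < c i) : OpS bd (.dec i) (c, st) (Function.update c i (c i - 1), st)
  | push (g c st) : OpS bd (.push g) (c, st) (c, g :: st)
  | pop (g c st) : OpS bd .pop (c, g :: st) (c, st)

def TstS {k : ℕ} (bd : Fin (k + 1) → ℕ) : Tst k → St k → Prop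
  | .nz i, s => s.1 i ≠ 0
  | .ne, s => s.1 0 ≠ bd 0
  | .is g, s => s.2.head? = some g
  | .isnt g, s => s.2.head? ≠ some g

inductive Exec {k : ℕ} (bd : Fin (k + 1) → ℕ) (pr : Bool → Prog k) : Prog k → St k → St k → Prop
  | skip (s) : Exec bd pr .skip s s
  | op {o s s'} (h : OpS bd o s s') : Exec bd pr (.op o) s s'
  | seq {p q s s' s''} (h1 : Exec bd pr p s s') (h2 : Exec bd pr q s' s'') :
      Exec bd pr (.seq p q) s s''
  | iteT {t p q s s'} (h : TstS bd t s) (h1 : Exec bd pr p s s') : Exec bd pr (.ite t p q) s s'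
  | iteF {t p q s s'} (h : ¬ TstS bd t s) (h1 : Exec bd pr q s s') : Exec bd pr (.ite t p q) s s'
  | loopT {t p s s' s''} (h : TstS bd t s) (h1 : Exec bd pr p s s')
      (h2 : Exec bd pr (.loop t p) s' s'') : Exec bd pr (.loop t p) s s''
  | loopF {t p s} (h : ¬ TstS bd t s) : Exec bd pr (.loop t p) s s
  | call {i c c' st} (h : Exec bd pr (pr i) (c, []) (c', [])) :
      Exec bd pr (.call i) (c, st) (c', st)

/-- The continuations that occur while running `p` in front of `k`. -/
def conts {k : ℕ} : Prog k → List (Prog k) → List (List (Prog k))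
  | .skip, K => [.skip :: K]
  | .op o, K => [.op o :: K]
  | .seq p q, K => (.seq p q :: K) :: (conts p (q :: K) ++ conts q K)
  | .ite t p q, K => (.ite t p q :: K) :: (conts p K ++ conts q K)
  | .loop t p, K => (.loop t p :: K) :: conts p (.loop t p :: K)
  | .call i, K => [.call i :: K]

theorem self_mem_conts {k : ℕ} (p : Prog k) (K : List (Prog k)) : p :: K ∈ conts p K := by
  cases p <;> simp [conts]

section Compile

variable (pr : Bool → Prog 1) (main : Prog 1)

def allc : List (List (Prog 1)) :=
  [] :: (conts main [] ++ (conts (pr false) [] ++ conts (pr true) []))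

def KT : Type := {K : List (Prog 1) // K ∈ allc pr main}

instance : Finite (KT pr main) := (List.finite_toSet (allc pr main)).to_subtype

abbrev Gam : Type := Sym ⊕ Option (KT pr main)

open Classical in
noncomputable def goto (K : List (Prog 1)) (m : Fin 2 → SignType) (v : List (Gam pr main)) :
    Option (Option (KT pr main) × (Fin 2 → SignType) × List (Gam pr main)) :=
  if h : K ∈ allc pr main then some (some ⟨K, h⟩, m, v) else none

def evalT (t : Tst 1) (s : Fin 2 → Tape Unit) (g : Gam pr main) : Prop :=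
  match t with
  | .nz i => s i ≠ Tape.left
  | .ne => s 0 ≠ Tape.right
  | .is a => g = Sum.inl a
  | .isnt a => g ≠ Sum.inl a

open Classical in
noncomputable def nxt (K : List (Prog 1)) (s : Fin 2 → Tape Unit) (g : Gam pr main) :
    Option (Option (KT pr main) × (Fin 2 → SignType) × List (Gam pr main)) :=
  match K with
  | [] =>
    match g with
    | Sum.inr (some r) => some (some r, fun _ => 0, [])
    | Sum.inr none => if s 0 = Tape.left then some (none, fun _ => 0, [g]) else none
    | Sum.inl _ => none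
  | .skip :: K => goto pr main K (fun _ => 0) [g]
  | .op (.inc i) :: K => goto pr main K (Function.update (fun _ => 0) i 1) [g]
  | .op (.dec i) :: K => goto pr main K (Function.update (fun _ => 0) i (-1)) [g]
  | .op (.push a) :: K => goto pr main K (fun _ => 0) [Sum.inl a, g]
  | .op .pop :: K =>
    match g with
    | Sum.inl _ => goto pr main K (fun _ => 0) []
    | Sum.inr _ => none
  | .seq p q :: K => goto pr main (p :: q :: K) (fun _ => 0) [g]
  | .ite t p q :: K =>
    if evalT pr main t s g then goto pr main (p :: K) (fun _ => 0) [g]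
    else goto pr main (q :: K) (fun _ => 0) [g]
  | .loop t p :: K =>
    if evalT pr main t s g then goto pr main (p :: .loop t p :: K) (fun _ => 0) [g]
    else goto pr main K (fun _ => 0) [g]
  | .call i :: K =>
    if h : K ∈ allc pr main then
      goto pr main [pr i] (fun _ => 0) [Sum.inr (some ⟨K, h⟩), g]
    else none

theorem main_mem : [main] ∈ allc pr main := by
  have := self_mem_conts main []
  simp [allc, this]

theorem nil_mem : ([] : List (Prog 1)) ∈ allc pr main := by simp [allc]

theorem pr_sub (i : Bool) : ∀ K ∈ conts (pr i) [], K ∈ allc pr main := by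
  intro K hK
  cases i <;> simp [allc, hK]

theorem main_sub : ∀ K ∈ conts main [], K ∈ allc pr main := by
  intro K hK
  simp [allc, hK]

/-- The pushdown automaton of a program. -/
noncomputable def pda : HeadsPDA Unit 2 where
  Q := Option (KT pr main)
  Γ := Gam pr main
  finQ := inferInstance
  finΓ := inferInstance
  start := some ⟨[main], main_mem pr main⟩
  bottom := Sum.inr none
  accept := {none}
  δ := fun q s g => {x | ∃ K, q = some K ∧ nxt pr main K.1 s g = some x}
  finδ := by
    intro q s g
    apply Set.Subsingleton.finite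
    rintro x ⟨K, hK, hx⟩ y ⟨K', hK', hy⟩
    rw [hK] at hK'
    obtain rfl := Option.some.inj hK'
    rw [hx] at hy
    exact Option.some.inj hy

theorem pda_fun (w : List Unit) (c c₁ c₂ : (pda pr main).Q × (Fin 2 → ℕ) × List (pda pr main).Γ)
    (h1 : (pda pr main).Step w c c₁) (h2 : (pda pr main).Step w c c₂) : c₁ = c₂ := by
  obtain ⟨g, rest, m, v, e1, e2, ⟨K, hK, hx⟩, hm⟩ := h1
  obtain ⟨g', rest', m', v', e1', e2', ⟨K', hK', hx'⟩, hm'⟩ := h2
  rw [e1] at e1'
  obtain ⟨rfl, rfl⟩ := List.cons.inj e1'
  rw [hK] at hK'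
  obtain rfl := Option.some.inj hK'
  rw [hx] at hx'
  have := Option.some.inj hx'
  have a1 : c₁.1 = c₂.1 := (Prod.mk.inj this).1
  obtain rfl : m = m' := congrArg (fun x => x.2.1) this
  obtain rfl : v = v' := congrArg (fun x => x.2.2) this
  obtain ⟨q1, p1, s1⟩ := c₁
  obtain ⟨q2, p2, s2⟩ := c₂
  simp only at a1 e2 e2' hm hm'
  have : p1 = p2 := by
    funext i
    have := (hm i).1
    have := (hm' i).1
    omega
  rw [a1, this, e2, e2']

theorem pda_det : (pda pr main).Det := fun w c c₁ c₂ _ h1 h2 => pda_fun pr main w c c₁ c₂ h1 h2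

abbrev Cfg : Type := Option (KT pr main) × (Fin 2 → ℕ) × List (Gam pr main)

/-- Steps that keep the second head below `β`. -/
def StepB (w : List Unit) (β : ℕ) (c c' : Cfg pr main) : Prop :=
  (pda pr main).Step w c c' ∧ c'.2.1 1 ≤ β

theorem cell_left_iff (w : List Unit) (p : ℕ) : cell w p = Tape.left ↔ p = 0 := by
  cases p with
  | zero => simp [cell]
  | succ p =>
    simp only [cell]
    cases w[p]? <;> simp

theorem cell_right_iff (w : List Unit) (p : ℕ) (hp : p ≤ w.length + 1) :
    cell w p = Tape.right ↔ p = w.length + 1 := by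
  cases p with
  | zero => simp [cell]
  | succ p =>
    simp only [cell]
    by_cases h : p < w.length
    · rw [List.getElem?_eq_getElem h]
      simp
      omega
    · rw [List.getElem?_eq_none (by omega)]
      simp
      omega

variable {pr main}

theorem stepB_goto {w : List Unit} {β : ℕ} {K K' : List (Prog 1)} (hK : K ∈ allc pr main)
    (hK' : K' ∈ allc pr main) {c c' : Fin 2 → ℕ} {g : Gam pr main} {rest v : List (Gam pr main)}
    {m : Fin 2 → SignType}
    (h : nxt pr main K (fun i => cell w (c i)) g = goto pr main K' m v)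
    (hm : Moves w c m c') (hb : c' 1 ≤ β) :
    StepB pr main w β (some ⟨K, hK⟩, c, g :: rest) (some ⟨K', hK'⟩, c', v ++ rest) := by
  refine ⟨⟨g, rest, m, v, rfl, rfl, ⟨⟨K, hK⟩, rfl, ?_⟩, hm⟩, hb⟩
  show nxt pr main K (fun i => cell w (c i)) g = _
  rw [h, goto, dif_pos hK']
  rfl

theorem moves_zero {w : List Unit} {c : Fin 2 → ℕ} (h : ∀ i, c i ≤ w.length + 1) :
    Moves w c (fun _ => 0) c := fun i => ⟨by simp, h i⟩

theorem evalT_iff {w : List Unit} {bd : Fin 2 → ℕ} (h0 : bd 0 = w.length + 1) (t : Tst 1)
    (c : Fin 2 → ℕ) (hc : ∀ i, c i ≤ w.length + 1) (st : List Sym) (b : Option (KT pr main))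
    (rest rest' : List (Gam pr main)) (g : Gam pr main)
    (e : st.map Sum.inl ++ Sum.inr b :: rest = g :: rest') :
    evalT pr main t (fun i => cell w (c i)) g ↔ TstS bd t (c, st) := by
  cases t with
  | nz i => simp [evalT, TstS, cell_left_iff]
  | ne => simp [evalT, TstS, cell_right_iff w _ (hc 0), h0]
  | is a =>
    cases st with
    | nil =>
      simp at e
      simp [evalT, TstS, ← e.1]
    | cons x st =>
      simp at e
      simp [evalT, TstS, ← e.1]
  | isnt a =>
    cases st with
    | nil =>
      simp at e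
      simp [evalT, TstS, ← e.1]
    | cons x st =>
      simp at e
      simp [evalT, TstS, ← e.1]

theorem exec_bd {k : ℕ} {bd : Fin (k + 1) → ℕ} {pr : Bool → Prog k} {p : Prog k} {s s' : St k}
    (h : Exec bd pr p s s') (hs : ∀ i, s.1 i ≤ bd i) : ∀ i, s'.1 i ≤ bd i := by
  induction h with
  | skip => exact hs
  | op h =>
    cases h with
    | inc i c st h =>
      intro j
      by_cases e : j = i
      · subst e; simp; omega
      · simpa [Function.update_of_ne e] using hs j
    | dec i c st h =>
      intro j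
      by_cases e : j = i
      · subst e
        have := hs j
        simp at this ⊢; omega
      · simpa [Function.update_of_ne e] using hs j
    | push => exact hs
    | pop => exact hs
  | seq _ _ ih1 ih2 => exact ih2 (ih1 hs)
  | iteT _ _ ih => exact ih hs
  | iteF _ _ ih => exact ih hs
  | loopT _ _ _ ih1 ih2 => exact ih2 (ih1 hs)
  | loopF => exact hs
  | call _ ih => exact ih hs

theorem exists_top (st : List Sym) (b : Option (KT pr main)) (rest : List (Gam pr main)) :
    ∃ g rest', st.map Sum.inl ++ Sum.inr b :: rest = g :: rest' := by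
  cases st with
  | nil => exact ⟨_, _, rfl⟩
  | cons x st => exact ⟨_, _, rfl⟩

theorem sim {w : List Unit} {bd : Fin 2 → ℕ} (h0 : bd 0 = w.length + 1)
    (h1 : bd 1 ≤ w.length + 1) {p : Prog 1} {s s' : St 1} (h : Exec bd pr p s s') :
    (∀ i, s.1 i ≤ bd i) → ∀ (K : List (Prog 1)) (hc : ∀ x ∈ conts p K, x ∈ allc pr main)
      (hK : K ∈ allc pr main) (b : Option (KT pr main)) (rest : List (Gam pr main)),
      Relation.ReflTransGen (StepB pr main w (bd 1))
        (some ⟨p :: K, hc _ (self_mem_conts p K)⟩, s.1, s.2.map Sum.inl ++ Sum.inr b :: rest)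
        (some ⟨K, hK⟩, s'.1, s'.2.map Sum.inl ++ Sum.inr b :: rest) := by
  have hle : ∀ c : Fin 2 → ℕ, (∀ i, c i ≤ bd i) → ∀ i, c i ≤ w.length + 1 := by
    intro c hc i
    have := hc i
    fin_cases i
    · simp at this ⊢; omega
    · simp at this ⊢; omega
  induction h with
  | skip s =>
    intro hs K hc hK b rest
    obtain ⟨g, rest', e⟩ := exists_top s.2 b rest
    rw [e]
    exact .single (stepB_goto (v := [g]) _ hK rfl (moves_zero (hle _ hs)) (hs 1))
  | op h =>
    intro hs K hc hK b rest
    have hs' := exec_bd (pr := pr) (Exec.op h) hs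
    cases h with
    | inc i c st h =>
      obtain ⟨g, rest', e⟩ := exists_top st b rest
      simp only [e]
      refine .single (stepB_goto (v := [g]) _ hK rfl ?_ (hs' 1))
      intro j
      refine ⟨?_, hle _ hs' j⟩
      by_cases e : j = i
      · subst e; simp
      · simp [Function.update_of_ne e]
    | dec i c st h =>
      obtain ⟨g, rest', e⟩ := exists_top st b rest
      simp only [e]
      refine .single (stepB_goto (v := [g]) _ hK rfl ?_ (hs' 1))
      intro j
      refine ⟨?_, hle _ hs' j⟩
      by_cases e : j = i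
      · subst e; simp; omega
      · simp [Function.update_of_ne e]
    | push a c st =>
      obtain ⟨g, rest', e⟩ := exists_top st b rest
      simp only [List.map_cons, List.cons_append, e]
      exact .single (stepB_goto (v := [Sum.inl a, g]) _ hK rfl (moves_zero (hle _ hs)) (hs 1))
    | pop a c st =>
      simp only [List.map_cons, List.cons_append]
      exact .single (stepB_goto (v := []) _ hK rfl (moves_zero (hle _ hs)) (hs 1))
  | @seq p q s s' s'' e1 e2 ih1 ih2 =>
    intro hs K hc hK b rest
    have c1 : ∀ x ∈ conts p (q :: K), x ∈ allc pr main := fun x hx => hc x (by simp [conts, hx])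
    have c2 : ∀ x ∈ conts q K, x ∈ allc pr main := fun x hx => hc x (by simp [conts, hx])
    have r1 := ih1 hs (q :: K) c1 (c2 _ (self_mem_conts q K)) b rest
    have r2 := ih2 (exec_bd e1 hs) K c2 hK b rest
    refine .trans (.head ?_ r1) r2
    obtain ⟨g, rest', e⟩ := exists_top s.2 b rest
    rw [e]
    exact stepB_goto (v := [g]) _ _ rfl (moves_zero (hle _ hs)) (hs 1)
  | @iteT t p q s s' ht e1 ih =>
    intro hs K hc hK b rest
    have c1 : ∀ x ∈ conts p K, x ∈ allc pr main := fun x hx => hc x (by simp [conts, hx])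
    refine .head ?_ (ih hs K c1 hK b rest)
    obtain ⟨g, rest', e⟩ := exists_top s.2 b rest
    have := (evalT_iff h0 t s.1 (hle _ hs) s.2 b rest rest' g e).2 ht
    rw [e]
    refine stepB_goto (v := [g]) _ _ ?_ (moves_zero (hle _ hs)) (hs 1)
    simp only [nxt]
    rw [if_pos this]
  | @iteF t p q s s' ht e1 ih =>
    intro hs K hc hK b rest
    have c1 : ∀ x ∈ conts q K, x ∈ allc pr main := fun x hx => hc x (by simp [conts, hx])
    refine .head ?_ (ih hs K c1 hK b rest)
    obtain ⟨g, rest', e⟩ := exists_top s.2 b rest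
    have := fun h => ht ((evalT_iff h0 t s.1 (hle _ hs) s.2 b rest rest' g e).1 h)
    rw [e]
    refine stepB_goto (v := [g]) _ _ ?_ (moves_zero (hle _ hs)) (hs 1)
    simp only [nxt]
    rw [if_neg this]
  | @loopT t p s s' s'' ht e1 e2 ih1 ih2 =>
    intro hs K hc hK b rest
    have c1 : ∀ x ∈ conts p (.loop t p :: K), x ∈ allc pr main :=
      fun x hx => hc x (by simp [conts, hx])
    have r1 := ih1 hs (.loop t p :: K) c1 (hc _ (self_mem_conts _ K)) b rest
    have r2 := ih2 (exec_bd e1 hs) K hc hK b rest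
    refine .trans (.head ?_ r1) r2
    obtain ⟨g, rest', e⟩ := exists_top s.2 b rest
    have := (evalT_iff h0 t s.1 (hle _ hs) s.2 b rest rest' g e).2 ht
    rw [e]
    refine stepB_goto (v := [g]) _ _ ?_ (moves_zero (hle _ hs)) (hs 1)
    simp only [nxt]
    rw [if_pos this]
  | @loopF t p s ht =>
    intro hs K hc hK b rest
    obtain ⟨g, rest', e⟩ := exists_top s.2 b rest
    have := fun h => ht ((evalT_iff h0 t s.1 (hle _ hs) s.2 b rest rest' g e).1 h)
    rw [e]
    refine .single (stepB_goto (v := [g]) _ _ ?_ (moves_zero (hle _ hs)) (hs 1))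
    simp only [nxt]
    rw [if_neg this]
  | @call i c c' st e1 ih =>
    intro hs K hc hK b rest
    have hs' := exec_bd e1 hs
    obtain ⟨g, rest', e⟩ := exists_top st b rest
    have r := ih hs [] (pr_sub pr main i) (nil_mem pr main) (some ⟨K, hK⟩) (g :: rest')
    simp only [List.map_nil, List.nil_append] at r
    simp only [e]
    refine .tail (.head ?_ r) ?_
    · refine stepB_goto (v := [Sum.inr (some ⟨K, hK⟩), g]) _ _ ?_ (moves_zero (hle _ hs)) (hs 1)
      simp only [nxt]
      rw [dif_pos hK]
    · exact ⟨⟨_, _, fun _ => 0, [], rfl, rfl, ⟨_, rfl, rfl⟩, moves_zero (hle _ hs')⟩, hs' 1⟩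

theorem on_run {α : Type} {r : α → α → Prop} {B : α → Prop}
    (hf : ∀ c c₁ c₂, r c c₁ → r c c₂ → c₁ = c₂) {a f : α}
    (h : Relation.ReflTransGen (fun x y => r x y ∧ B y) a f) (hfin : ∀ x, ¬ r f x) (ha : B a)
    {c : α} (hc : Relation.ReflTransGen r a c) :
    B c ∧ Relation.ReflTransGen (fun x y => r x y ∧ B y) c f := by
  induction hc with
  | refl => exact ⟨ha, h⟩
  | tail _ hbc ih =>
    obtain ⟨_, h2⟩ := ih
    rcases h2.cases_head with rfl | ⟨x, hx, hx'⟩
    · exact absurd hbc (hfin _)
    · obtain rfl := hf _ _ _ hx.1 hbc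
      exact ⟨hx.2, hx'⟩

/-- The run of the automaton of a terminating program. -/
theorem pda_run {w : List Unit} {bd : Fin 2 → ℕ} (h0 : bd 0 = w.length + 1)
    (h1 : bd 1 ≤ w.length + 1) {c : Fin 2 → ℕ}
    (h : Exec bd pr main (fun _ => 0, []) (c, [])) :
    (w ∈ (pda pr main).lang ↔ c 0 = 0) ∧
      ∀ x, Relation.ReflTransGen ((pda pr main).Step w)
        ((pda pr main).start, fun _ => 0, [(pda pr main).bottom]) x → x.2.1 1 ≤ bd 1 := by
  have hc := exec_bd h (fun _ => Nat.zero_le _)
  have hc' : ∀ i, c i ≤ w.length + 1 := by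
    intro i
    have := hc i
    fin_cases i
    · simp at this ⊢; omega
    · simp at this ⊢; omega
  have r := sim (main := main) h0 h1 h (fun _ => Nat.zero_le _) [] (main_sub pr main)
    (nil_mem pr main) none []
  simp only [List.map_nil, List.nil_append] at r
  have hacc : ∀ (p : Fin 2 → ℕ) (st : List (Gam pr main)) (x : Cfg pr main),
      ¬ (pda pr main).Step w (none, p, st) x := by
    rintro p st x ⟨g, rest, m, v, _, _, ⟨K, hK, _⟩, _⟩
    cases hK
  by_cases e : c 0 = 0
  · have s : StepB pr main w (bd 1) (some ⟨[], nil_mem pr main⟩, c, [Sum.inr none])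
        (none, c, [Sum.inr none]) := by
      refine ⟨⟨_, _, fun _ => 0, [Sum.inr none], rfl, rfl, ⟨_, rfl, ?_⟩, moves_zero hc'⟩, hc 1⟩
      simp only [nxt]
      rw [if_pos ((cell_left_iff w _).2 e)]
      rfl
    have r' := r.tail s
    refine ⟨⟨fun _ => e, fun _ => ⟨_, rtg_mono (fun _ _ h => h.1) r', rfl⟩⟩, fun x hx => ?_⟩
    exact (on_run (B := fun x : Cfg pr main => x.2.1 1 ≤ bd 1) (pda_fun pr main w) r'
      (hacc _ _) (Nat.zero_le _) hx).1
  · have hfin : ∀ x, ¬ (pda pr main).Step w
        (some ⟨[], nil_mem pr main⟩, c, [Sum.inr none]) x := by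
      rintro x ⟨g, rest, m, v, e1, _, ⟨K, hK, hx⟩, _⟩
      obtain ⟨rfl, rfl⟩ := List.cons.inj e1
      obtain rfl := Option.some.inj hK
      simp only [nxt] at hx
      rw [if_neg (fun h => e ((cell_left_iff w _).1 h))] at hx
      cases hx
    refine ⟨⟨fun ⟨x, hx, ha⟩ => ?_, fun h => absurd h e⟩, fun x hx => ?_⟩
    · have := (on_run (B := fun x : Cfg pr main => x.2.1 1 ≤ bd 1) (pda_fun pr main w) r
        hfin (Nat.zero_le _) hx).2
      obtain ⟨q, p, st⟩ := x
      obtain rfl : q = none := ha
      rcases this.cases_head with h | ⟨y, hy, _⟩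
      · cases h
      · exact absurd hy.1 (hacc _ _ _)
    · exact (on_run (B := fun x : Cfg pr main => x.2.1 1 ≤ bd 1) (pda_fun pr main w) r
        hfin (Nat.zero_le _) hx).1

theorem pda_le (w : List Unit) (x : Cfg pr main)
    (h : Relation.ReflTransGen ((pda pr main).Step w)
      ((pda pr main).start, fun _ => 0, [(pda pr main).bottom]) x) :
    x.2.1 1 ≤ w.length + 1 := by
  rcases h.cases_tail with rfl | ⟨y, _, g, rest, m, v, _, _, _, hm⟩
  · exact Nat.zero_le _
  · exact (hm 1).2

end Compile

end Pool.Agent.P.MP_d0a708_lc.N
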