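import Mathlib
import Pool.Agent.P.MP_d0a708_lc.NProg

/-!
Basic subroutines on registers.
-/

namespace Pool.Agent.P.MP_d0a708_lc.N

open Function

@[simp] theorem sUM : sU ≠ sM := by decide
@[simp] theorem sMU : sM ≠ sU := by decide
@[simp] theorem sUE : sU ≠ sE := by decide
@[simp] theorem sEU : sE ≠ sU := by decide
@[simp] theorem sME : sM ≠ sE := by decide
@[simp] theorem sEM : sE ≠ sM := by decide

variable {k : ℕ}

def seqs : List (Prog k) → Prog k
  | [] => .skip
  | p :: l => .seq p (seqs l)

def inc (i : Fin (k + 1)) : Prog k := .op (.inc i)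
def dec (i : Fin (k + 1)) : Prog k := .op (.dec i)
def push (g : Sym) : Prog k := .op (.push g)
def pop : Prog k := .op .pop

/-- A number saved in unary on the stack. -/
def sv (n : ℕ) (st : List Sym) : List Sym := List.replicate n sU ++ sM :: st

def pushU (i : Fin (k + 1)) : Prog k := seqs [push sM, .loop (.nz i) (seqs [dec i, push sU])]
def popU (i : Fin (k + 1)) : Prog k := seqs [.loop (.is sU) (seqs [pop, inc i]), pop]
def dbl (i : Fin (k + 1)) : Prog k :=
  seqs [pushU i, .loop (.is sU) (seqs [pop, inc i, inc i]), pop]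
def popB (i : Fin (k + 1)) : Prog k :=
  seqs [push sM, .loop (.nz i) (seqs [dec i, .ite (.nz i) (seqs [dec i, push sU]) (push sE)]),
    .ite (.is sE) (seqs [pop, popU i, push sU]) (seqs [popU i, push sE])]
def clr (i : Fin (k + 1)) : Prog k := .loop (.nz i) (dec i)
def mv (i j : Fin (k + 1)) : Prog k := seqs [pushU i, popU j]
def rep (i : Fin (k + 1)) (b : Prog k) : Prog k :=
  seqs [push sM, .loop (.nz i) (seqs [dec i, push sU, b]), popU i]
def add (i j : Fin (k + 1)) : Prog k := rep i (inc j)
def half (i z : Fin (k + 1)) : Prog k := seqs [popB i, .ite (.is sU) (seqs [pop, inc z]) pop]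
def halve (i : Fin (k + 1)) : Prog k := seqs [popB i, pop]
def toEnd : Prog k := .loop .ne (inc 0)
def diff (i j z : Fin (k + 1)) : Prog k :=
  seqs [rep j (.ite (.nz i) (dec i) (inc z)), mv i z]

variable {bd : Fin (k + 1) → ℕ} {pr : Bool → Prog k}

theorem ex_nil {s s' : St k} (h : s = s') : Exec bd pr (seqs []) s s' := h ▸ .skip s

theorem ex_cons {p : Prog k} {l : List (Prog k)} {s s' s'' : St k} (h1 : Exec bd pr p s s')
    (h2 : Exec bd pr (seqs l) s' s'') : Exec bd pr (seqs (p :: l)) s s'' := .seq h1 h2

theorem ex_of_eq {p : Prog k} {s s' t : St k} (h : Exec bd pr p s s') (e : s' = t) :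
    Exec bd pr p s t := e ▸ h

theorem ex_inc {i : Fin (k + 1)} {c : Fin (k + 1) → ℕ} {st : List Sym} (h : c i < bd i) :
    Exec bd pr (inc i) (c, st) (update c i (c i + 1), st) := .op (.inc i c st h)

theorem ex_dec {i : Fin (k + 1)} {c : Fin (k + 1) → ℕ} {st : List Sym} (h : 0 < c i) :
    Exec bd pr (dec i) (c, st) (update c i (c i - 1), st) := .op (.dec i c st h)

theorem ex_push {g : Sym} {c : Fin (k + 1) → ℕ} {st : List Sym} :
    Exec bd pr (push g) (c, st) (c, g :: st) := .op (.push g c st)

theorem ex_pop {g : Sym} {c : Fin (k + 1) → ℕ} {st : List Sym} :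
    Exec bd pr pop (c, g :: st) (c, st) := .op (.pop g c st)

theorem rep_snoc (n : ℕ) (st : List Sym) :
    List.replicate n sU ++ sU :: st = List.replicate (n + 1) sU ++ st := by
  rw [List.replicate_succ']
  simp

theorem ex_rep_loop {i : Fin (k + 1)} {b : Prog k} (n : ℕ) :
    ∀ (σ : ℕ → Fin (k + 1) → ℕ) (st : List Sym)
      (_ : ∀ j < n, ∀ x st, Exec bd pr b (update (σ j) i x, st) (update (σ (j + 1)) i x, st)),
      Exec bd pr (.loop (.nz i) (seqs [dec i, push sU, b])) (update (σ 0) i n, st)
        (update (σ n) i 0, List.replicate n sU ++ st) := by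
  induction n with
  | zero =>
    intro σ st _
    exact .loopF (by simp [TstS])
  | succ n ih =>
    intro σ st h
    refine .loopT (by simp [TstS]) (ex_cons (ex_dec (by simp)) (ex_cons ex_push
      (ex_cons (by simpa using h 0 (by omega) n _) (ex_nil rfl)))) ?_
    have := ih (fun j => σ (j + 1)) (sU :: st) (fun j hj => h (j + 1) (by omega))
    rwa [rep_snoc] at this

theorem ex_pushU {i : Fin (k + 1)} {c : Fin (k + 1) → ℕ} {st : List Sym} :
    Exec bd pr (pushU i) (c, st) (update c i 0, sv (c i) st) := by
  have : ∀ (n : ℕ) (c : Fin (k + 1) → ℕ) (st : List Sym), c i = n →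
      Exec bd pr (.loop (.nz i) (seqs [dec i, push sU])) (c, st)
        (update c i 0, List.replicate n sU ++ st) := by
    intro n
    induction n with
    | zero =>
      intro c st h
      exact ex_of_eq (.loopF (by simp [TstS, h])) (by simp [← h])
    | succ n ih =>
      intro c st h
      refine .loopT (by simp [TstS, h]) (ex_cons (ex_dec (by omega)) (ex_cons ex_push
        (ex_nil rfl))) ?_
      exact ex_of_eq (ih _ _ (by simp [h])) (by simp [rep_snoc])
  exact ex_cons ex_push (ex_cons (this _ _ _ rfl) (ex_nil rfl))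

theorem ex_popU {i : Fin (k + 1)} {c : Fin (k + 1) → ℕ} {n : ℕ} {st : List Sym}
    (h : c i + n ≤ bd i) : Exec bd pr (popU i) (c, sv n st) (update c i (c i + n), st) := by
  have : ∀ (n : ℕ) (c : Fin (k + 1) → ℕ), c i + n ≤ bd i →
      Exec bd pr (.loop (.is sU) (seqs [pop, inc i])) (c, sv n st)
        (update c i (c i + n), sM :: st) := by
    intro n
    induction n with
    | zero =>
      intro c h
      exact ex_of_eq (.loopF (by simp [TstS, sv])) (by simp [sv])
    | succ n ih =>
      intro c h
      refine .loopT (by simp [TstS, sv, List.replicate_succ])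
        (ex_cons (s' := (c, sv n st)) ex_pop (ex_cons (ex_inc (by omega)) (ex_nil rfl))) ?_
      exact ex_of_eq (ih _ (by simp; omega)) (by simp; congr 1; omega)
  exact ex_cons (this _ _ h) (ex_cons ex_pop (ex_nil rfl))

theorem ex_dbl {i : Fin (k + 1)} {c : Fin (k + 1) → ℕ} {st : List Sym} (h : 2 * c i ≤ bd i) :
    Exec bd pr (dbl i) (c, st) (update c i (2 * c i), st) := by
  have : ∀ (n : ℕ) (c : Fin (k + 1) → ℕ), c i + 2 * n ≤ bd i →
      Exec bd pr (.loop (.is sU) (seqs [pop, inc i, inc i])) (c, sv n st)
        (update c i (c i + 2 * n), sM :: st) := by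
    intro n
    induction n with
    | zero =>
      intro c h
      exact ex_of_eq (.loopF (by simp [TstS, sv])) (by simp [sv])
    | succ n ih =>
      intro c h
      refine .loopT (by simp [TstS, sv, List.replicate_succ])
        (ex_cons (s' := (c, sv n st)) ex_pop (ex_cons (ex_inc (by omega))
          (ex_cons (ex_inc (by simp; omega)) (ex_nil rfl)))) ?_
      exact ex_of_eq (ih _ (by simp; omega)) (by simp; congr 1; omega)
  refine ex_cons ex_pushU (ex_cons (this _ _ (by simpa using h)) (ex_cons ex_pop (ex_nil ?_)))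
  simp

/-- The stack symbol of a bit. -/
def bs (b : Bool) : Sym := if b then sU else sE

theorem ex_popB {i : Fin (k + 1)} {c : Fin (k + 1) → ℕ} {st : List Sym} (h : c i / 2 ≤ bd i) :
    Exec bd pr (popB i) (c, st) (update c i (c i / 2), bs (c i % 2 = 1) :: st) := by
  have : ∀ (n : ℕ) (c : Fin (k + 1) → ℕ) (st : List Sym), c i = n →
      Exec bd pr (.loop (.nz i) (seqs [dec i, .ite (.nz i) (seqs [dec i, push sU]) (push sE)]))
        (c, st) (update c i 0, (if n % 2 = 1 then [sE] else []) ++
          (List.replicate (n / 2) sU ++ st)) := by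
    intro n
    induction n using Nat.strong_induction_on with
    | _ n ih =>
      intro c st h
      obtain _ | _ | n := n
      · exact ex_of_eq (.loopF (by simp [TstS, h])) (by rw [← h, update_eq_self]; simp [h])
      · refine .loopT (by simp [TstS, h]) (ex_cons (ex_dec (by omega))
          (ex_cons (.iteF (by simp [TstS, h]) ex_push) (ex_nil rfl))) ?_
        exact ex_of_eq (.loopF (by simp [TstS, h])) (by simp [h])
      · refine .loopT (by simp [TstS, h]) (ex_cons (ex_dec (by omega))
          (ex_cons (.iteT (by simp [TstS, h]) (ex_cons (ex_dec (by simp [h]))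
            (ex_cons ex_push (ex_nil rfl)))) (ex_nil rfl))) ?_
        refine ex_of_eq (ih n (by omega) _ _ (by simp [h])) ?_
        have e1 : (n + 1 + 1) % 2 = n % 2 := by omega
        have e2 : (n + 1 + 1) / 2 = n / 2 + 1 := by omega
        simp [rep_snoc, e1, e2]
  refine ex_cons ex_push (ex_cons (this _ _ _ rfl) (ex_cons ?_ (ex_nil rfl)))
  by_cases e : c i % 2 = 1
  · refine .iteT (by simp [TstS, e]) ?_
    simp only [e, if_true]
    refine ex_cons ex_pop (ex_cons (ex_popU (n := c i / 2) (by simpa using h))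
      (ex_cons ex_push (ex_nil ?_)))
    simp [bs]
  · refine .iteF ?_ ?_
    · simp only [TstS, e, if_false, List.nil_append]
      cases c i / 2 <;> simp [List.replicate_succ]
    · simp only [e, if_false]
      refine ex_cons (ex_popU (n := c i / 2) (by simpa using h)) (ex_cons ex_push (ex_nil ?_))
      simp [bs]

theorem ex_clr {i : Fin (k + 1)} {c : Fin (k + 1) → ℕ} {st : List Sym} :
    Exec bd pr (clr i) (c, st) (update c i 0, st) := by
  have : ∀ (n : ℕ) (c : Fin (k + 1) → ℕ), c i = n →
      Exec bd pr (clr i) (c, st) (update c i 0, st) := by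
    intro n
    induction n with
    | zero =>
      intro c h
      exact ex_of_eq (.loopF (by simp [TstS, h])) (by simp [← h])
    | succ n ih =>
      intro c h
      refine .loopT (by simp [TstS, h]) (ex_dec (by omega)) ?_
      exact ex_of_eq (ih _ (by simp [h])) (by simp)
  exact this _ _ rfl

theorem ex_mv {i j : Fin (k + 1)} {c : Fin (k + 1) → ℕ} {st : List Sym} (hij : j ≠ i)
    (h : c j + c i ≤ bd j) :
    Exec bd pr (mv i j) (c, st) (update (update c i 0) j (c j + c i), st) := by
  refine ex_cons ex_pushU (ex_cons (ex_popU (by simpa [update_of_ne hij] using h)) (ex_nil ?_))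
  simp [update_of_ne hij]

theorem ex_rep {i : Fin (k + 1)} {b : Prog k} {c : Fin (k + 1) → ℕ} {st : List Sym}
    (σ : ℕ → Fin (k + 1) → ℕ) (h0 : σ 0 = c) (hb : c i ≤ bd i)
    (h : ∀ j < c i, ∀ x st, Exec bd pr b (update (σ j) i x, st) (update (σ (j + 1)) i x, st)) :
    Exec bd pr (rep i b) (c, st) (update (σ (c i)) i (c i), st) := by
  have := ex_rep_loop (c i) σ (sM :: st) h
  rw [h0, update_eq_self] at this
  refine ex_cons ex_push (ex_cons this (ex_cons (ex_popU (n := c i) (by simpa using hb))
    (ex_nil ?_)))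
  simp

theorem ex_add {i j : Fin (k + 1)} {c : Fin (k + 1) → ℕ} {st : List Sym} (hij : j ≠ i)
    (hi : c i ≤ bd i) (h : c j + c i ≤ bd j) :
    Exec bd pr (add i j) (c, st) (update c j (c j + c i), st) := by
  refine ex_of_eq (ex_rep (fun n => update c j (c j + n)) (by simp) hi ?_) ?_
  · intro n hn x st
    refine ex_of_eq (ex_inc (by simp [update_of_ne hij]; omega)) ?_
    simp only [update_of_ne hij, update_self]
    rw [update_comm hij.symm, update_idem]
    rfl
  · rw [update_comm hij, update_eq_self]

theorem ex_half {i z : Fin (k + 1)} {c : Fin (k + 1) → ℕ} {st : List Sym} (hiz : z ≠ i)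
    (h : c i / 2 ≤ bd i) (hz : c z + 1 ≤ bd z) :
    Exec bd pr (half i z) (c, st) (update (update c i (c i / 2)) z (c z + c i % 2), st) := by
  refine ex_cons (ex_popB h) (ex_cons ?_ (ex_nil rfl))
  by_cases e : c i % 2 = 1
  · refine .iteT (by simp [TstS, e, bs]) (ex_cons ex_pop (ex_cons
      (ex_inc (by simp [update_of_ne hiz]; omega)) (ex_nil ?_)))
    simp [update_of_ne hiz, e]
  · refine .iteF (by simp [TstS, e, bs]) (ex_of_eq ex_pop ?_)
    have : c i % 2 = 0 := by omega
    rw [this, add_zero]
    congr 1
    rw [eq_comm, update_eq_self_iff, update_of_ne hiz]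

theorem ex_halve {i : Fin (k + 1)} {c : Fin (k + 1) → ℕ} {st : List Sym} (h : c i / 2 ≤ bd i) :
    Exec bd pr (halve i) (c, st) (update c i (c i / 2), st) :=
  ex_cons (ex_popB h) (ex_cons ex_pop (ex_nil rfl))

theorem ex_toEnd {c : Fin (k + 1) → ℕ} {st : List Sym} (h : c 0 ≤ bd 0) :
    Exec bd pr toEnd (c, st) (update c 0 (bd 0), st) := by
  have : ∀ (n : ℕ) (c : Fin (k + 1) → ℕ), c 0 + n = bd 0 →
      Exec bd pr toEnd (c, st) (update c 0 (bd 0), st) := by
    intro n
    induction n with
    | zero =>
      intro c h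
      exact ex_of_eq (.loopF (by simp [TstS, ← h])) (by simp [← h])
    | succ n ih =>
      intro c h
      refine .loopT (by simp [TstS]; omega) (ex_inc (by omega)) ?_
      exact ex_of_eq (ih _ (by simp; omega)) (by simp)
  exact this (bd 0 - c 0) _ (by omega)

theorem ex_diff {i j z : Fin (k + 1)} {c : Fin (k + 1) → ℕ} {st : List Sym} (hij : i ≠ j)
    (hzj : z ≠ j) (hzi : z ≠ i) (hj : c j ≤ bd j) (h : c z + (c j - c i) + (c i - c j) ≤ bd z) :
    Exec bd pr (diff i j z) (c, st)
      (update (update c i 0) z (c z + (c j - c i) + (c i - c j)), st) := by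
  refine ex_cons (ex_rep (fun n => update (update c i (c i - n)) z (c z + (n - c i)))
    (by simp) hj ?_) (ex_cons (ex_mv hzi ?_) (ex_nil ?_))
  · intro n hn x st
    by_cases e : n < c i
    · refine .iteT (by simp [TstS, update_of_ne hij, update_of_ne hzi.symm]; omega)
        (ex_of_eq (ex_dec (by simp [update_of_ne hij, update_of_ne hzi.symm]; omega)) ?_)
      congr 1
      funext a
      simp only [update_apply]
      split_ifs <;> simp_all <;> omega
    · refine .iteF (by simp [TstS, update_of_ne hij, update_of_ne hzi.symm]; omega)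
        (ex_of_eq (ex_inc (by simp [update_of_ne hzj]; omega)) ?_)
      congr 1
      funext a
      simp only [update_apply]
      split_ifs <;> simp_all <;> omega
  · simpa [update_of_ne hzj, update_of_ne hij, update_of_ne hzi.symm] using h
  · congr 1
    funext a
    simp only [update_apply]
    split_ifs <;> simp_all

end Pool.Agent.P.MP_d0a708_lc.N
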