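import Mathlib
import Pool.Agent.P.MP_d0a708_lc.NMac

/-!
The registers of the search program, and its arithmetic subroutines.
-/

namespace Pool.Agent.P.MP_d0a708_lc.N

open Function

abbrev Reg := Fin (13 + 1)

def rR : Reg := 1
def rC : Reg := 2
def rH : Reg := 3
def rOk : Reg := 4
def rL : Reg := 5
def rV : Reg := 6
def rW : Reg := 7
def rQ : Reg := 8
def rP : Reg := 9
def rB : Reg := 10
def rT1 : Reg := 11
def rT2 : Reg := 12
def rT3 : Reg := 13

def W (x r c h o l v w q p b t1 t2 t3 : ℕ) : Reg → ℕ :=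
  ![x, r, c, h, o, l, v, w, q, p, b, t1, t2, t3]

def bdv (n A : ℕ) : Reg → ℕ := fun i => if i = 0 then n else A

section
variable (x r c h o l v w q p b t1 t2 t3 y n A : ℕ)

@[simp] theorem W_X : W x r c h o l v w q p b t1 t2 t3 0 = x := rfl
@[simp] theorem W_R : W x r c h o l v w q p b t1 t2 t3 rR = r := rfl
@[simp] theorem W_C : W x r c h o l v w q p b t1 t2 t3 rC = c := rfl
@[simp] theorem W_H : W x r c h o l v w q p b t1 t2 t3 rH = h := rfl
@[simp] theorem W_Ok : W x r c h o l v w q p b t1 t2 t3 rOk = o := rfl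
@[simp] theorem W_L : W x r c h o l v w q p b t1 t2 t3 rL = l := rfl
@[simp] theorem W_V : W x r c h o l v w q p b t1 t2 t3 rV = v := rfl
@[simp] theorem W_W : W x r c h o l v w q p b t1 t2 t3 rW = w := rfl
@[simp] theorem W_Q : W x r c h o l v w q p b t1 t2 t3 rQ = q := rfl
@[simp] theorem W_P : W x r c h o l v w q p b t1 t2 t3 rP = p := rfl
@[simp] theorem W_B : W x r c h o l v w q p b t1 t2 t3 rB = b := rfl
@[simp] theorem W_T1 : W x r c h o l v w q p b t1 t2 t3 rT1 = t1 := rfl
@[simp] theorem W_T2 : W x r c h o l v w q p b t1 t2 t3 rT2 = t2 := rfl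
@[simp] theorem W_T3 : W x r c h o l v w q p b t1 t2 t3 rT3 = t3 := rfl
@[simp] theorem U_X : update (W x r c h o l v w q p b t1 t2 t3) 0 y =
    W y r c h o l v w q p b t1 t2 t3 := by
  funext i; fin_cases i <;> rfl
@[simp] theorem U_R : update (W x r c h o l v w q p b t1 t2 t3) rR y =
    W x y c h o l v w q p b t1 t2 t3 := by
  funext i; fin_cases i <;> rfl
@[simp] theorem U_C : update (W x r c h o l v w q p b t1 t2 t3) rC y =
    W x r y h o l v w q p b t1 t2 t3 := by
  funext i; fin_cases i <;> rfl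
@[simp] theorem U_H : update (W x r c h o l v w q p b t1 t2 t3) rH y =
    W x r c y o l v w q p b t1 t2 t3 := by
  funext i; fin_cases i <;> rfl
@[simp] theorem U_Ok : update (W x r c h o l v w q p b t1 t2 t3) rOk y =
    W x r c h y l v w q p b t1 t2 t3 := by
  funext i; fin_cases i <;> rfl
@[simp] theorem U_L : update (W x r c h o l v w q p b t1 t2 t3) rL y =
    W x r c h o y v w q p b t1 t2 t3 := by
  funext i; fin_cases i <;> rfl
@[simp] theorem U_V : update (W x r c h o l v w q p b t1 t2 t3) rV y =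
    W x r c h o l y w q p b t1 t2 t3 := by
  funext i; fin_cases i <;> rfl
@[simp] theorem U_W : update (W x r c h o l v w q p b t1 t2 t3) rW y =
    W x r c h o l v y q p b t1 t2 t3 := by
  funext i; fin_cases i <;> rfl
@[simp] theorem U_Q : update (W x r c h o l v w q p b t1 t2 t3) rQ y =
    W x r c h o l v w y p b t1 t2 t3 := by
  funext i; fin_cases i <;> rfl
@[simp] theorem U_P : update (W x r c h o l v w q p b t1 t2 t3) rP y =
    W x r c h o l v w q y b t1 t2 t3 := by
  funext i; fin_cases i <;> rfl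
@[simp] theorem U_B : update (W x r c h o l v w q p b t1 t2 t3) rB y =
    W x r c h o l v w q p y t1 t2 t3 := by
  funext i; fin_cases i <;> rfl
@[simp] theorem U_T1 : update (W x r c h o l v w q p b t1 t2 t3) rT1 y =
    W x r c h o l v w q p b y t2 t3 := by
  funext i; fin_cases i <;> rfl
@[simp] theorem U_T2 : update (W x r c h o l v w q p b t1 t2 t3) rT2 y =
    W x r c h o l v w q p b t1 y t3 := by
  funext i; fin_cases i <;> rfl
@[simp] theorem U_T3 : update (W x r c h o l v w q p b t1 t2 t3) rT3 y =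
    W x r c h o l v w q p b t1 t2 y := by
  funext i; fin_cases i <;> rfl
@[simp] theorem bd_X : bdv n A 0 = n := rfl
@[simp] theorem bd_R : bdv n A rR = A := rfl
@[simp] theorem bd_C : bdv n A rC = A := rfl
@[simp] theorem bd_H : bdv n A rH = A := rfl
@[simp] theorem bd_Ok : bdv n A rOk = A := rfl
@[simp] theorem bd_L : bdv n A rL = A := rfl
@[simp] theorem bd_V : bdv n A rV = A := rfl
@[simp] theorem bd_W : bdv n A rW = A := rfl
@[simp] theorem bd_Q : bdv n A rQ = A := rfl
@[simp] theorem bd_P : bdv n A rP = A := rfl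
@[simp] theorem bd_B : bdv n A rB = A := rfl
@[simp] theorem bd_T1 : bdv n A rT1 = A := rfl
@[simp] theorem bd_T2 : bdv n A rT2 = A := rfl
@[simp] theorem bd_T3 : bdv n A rT3 = A := rfl

end

end Pool.Agent.P.MP_d0a708_lc.N
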