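import Mathlib
import Pool.Agent.P.MP_d0a708_lc.NReg

/-!
Arithmetic subroutines of the search program.
-/

set_option linter.unnecessarySeqFocus false

namespace Pool.Agent.P.MP_d0a708_lc.N

open Function

structure Good (n r C A : ℕ) : Prop where
  h1 : 2 ^ r ≤ n
  r1 : 1 ≤ r
  hC : C ≤ r
  hA : 8 * (C * C) + 9 * C + r + 8 ≤ A
  hT : (r + 2) ^ 3 ≤ A

def pw : Prog 13 := seqs [inc 0, rep rR (dbl 0)]
def addTop : Prog 13 := seqs [pushU 0, pw, halve 0, popU 0]
def decT : Prog 13 := .ite (.nz 0) (dec 0) (seqs [dec rH, pw, dec 0])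
def ifT0 (p q : Prog 13) : Prog 13 := .ite (.nz 0) q (.ite (.nz rH) q p)
def copyT : Prog 13 :=
  seqs [add rH rT1, pushU rT1, add rR rT2,
    .loop (.nz rT2) (seqs [dec rT2, half 0 rT1, .ite (.nz rT1) addTop .skip, pushU rT1])]
def popT : Prog 13 :=
  seqs [add rR rT2, .loop (.nz rT2) (seqs [dec rT2, dbl 0, popU 0]), popU rH]
def bitX (i z : Reg) : Prog 13 := seqs [.loop (.nz i) (seqs [dec i, halve 0]), half 0 z, clr 0]

/-- The low `j` bits of `x` on the stack, the highest on top. -/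
def svb (x : ℕ) : ℕ → List Sym → List Sym
  | 0, st => st
  | j + 1, st => sv (x / 2 ^ j % 2) (svb x j st)

def svT (r τ : ℕ) (st : List Sym) : List Sym := svb (τ % 2 ^ r) r (sv (τ / 2 ^ r) st)

variable {n A r C : ℕ} {pr : Bool → Prog 13}

theorem ex_pw (G : Good n r C A) {c h o l v w q p b t1 t2 t3 : ℕ} {st : List Sym} :
    Exec (bdv n A) pr pw (W 0 r c h o l v w q p b t1 t2 t3, st)
      (W (2 ^ r) r c h o l v w q p b t1 t2 t3, st) := by
  obtain ⟨h1, r1, hC, hA, hT⟩ := G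
  have : 0 < 2 ^ r := by positivity
  refine ex_cons (ex_inc (by simp <;> omega)) ?_; simp
  refine ex_cons (ex_rep (fun j => W (2 ^ j) r c h o l v w q p b t1 t2 t3) (by simp)
    (by simp <;> omega) ?_) (ex_nil (by simp))
  intro j hj x st
  simp at hj ⊢
  have : 2 ^ (j + 1) ≤ 2 ^ r := Nat.pow_le_pow_right (by omega) hj
  exact ex_of_eq (ex_dbl (by simp <;> omega)) (by simp [pow_succ, mul_comm])

theorem ex_addTop (G : Good n r C A) {x c h o l v w q p b t1 t2 t3 : ℕ} {st : List Sym}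
    (hx : x + 2 ^ r / 2 ≤ n) :
    Exec (bdv n A) pr addTop (W x r c h o l v w q p b t1 t2 t3, st)
      (W (x + 2 ^ r / 2) r c h o l v w q p b t1 t2 t3, st) := by
  refine ex_cons ex_pushU ?_; simp
  refine ex_cons (ex_pw G) ?_
  refine ex_cons (ex_halve (by simp <;> omega)) ?_; simp
  exact ex_cons (ex_popU (by simp <;> omega)) (ex_nil (by simp [add_comm]))

theorem ex_ifTop (G : Good n r C A) {x c h o l v w q p b t1 t2 t3 : ℕ} {st : List Sym}
    (ht : t1 ≤ 1) (hx : x + t1 * (2 ^ r / 2) ≤ n) :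
    Exec (bdv n A) pr (.ite (.nz rT1) addTop .skip) (W x r c h o l v w q p b t1 t2 t3, st)
      (W (x + t1 * (2 ^ r / 2)) r c h o l v w q p b t1 t2 t3, st) := by
  obtain rfl | rfl : t1 = 0 ∨ t1 = 1 := by omega
  · exact .iteF (by simp [TstS]) (ex_of_eq (.skip _) (by simp))
  · exact .iteT (by simp [TstS]) (ex_of_eq (ex_addTop G (by omega)) (by simp))

theorem ex_decT (G : Good n r C A) {τ c o l v w q p b t1 t2 t3 : ℕ} {st : List Sym} :
    Exec (bdv n A) pr decT (W ((τ + 1) % 2 ^ r) r c ((τ + 1) / 2 ^ r) o l v w q p b t1 t2 t3, st)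
      (W (τ % 2 ^ r) r c (τ / 2 ^ r) o l v w q p b t1 t2 t3, st) := by
  have hp : 0 < 2 ^ r := by positivity
  generalize hM : 2 ^ r = M at hp
  have e1 := Nat.div_add_mod τ M
  have e2 := Nat.mod_lt τ hp
  by_cases e : τ % M + 1 < M
  · have a : (τ + 1) / M = τ / M ∧ (τ + 1) % M = τ % M + 1 :=
      (Nat.div_mod_unique hp).2 ⟨by omega, e⟩
    rw [a.1, a.2]
    exact .iteT (by simp [TstS]) (ex_of_eq (ex_dec (by simp)) (by simp))
  · have a : (τ + 1) / M = τ / M + 1 ∧ (τ + 1) % M = 0 :=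
      (Nat.div_mod_unique hp).2 ⟨by rw [mul_add]; omega, hp⟩
    rw [a.1, a.2]
    refine .iteF (by simp [TstS]) ?_
    refine ex_cons (ex_dec (by simp)) ?_; simp
    refine ex_cons (ex_pw G) ?_
    refine ex_cons (ex_dec (by simp)) (ex_nil ?_)
    simp only [W_X, U_X, hM]
    congr 2
    omega

theorem ex_ifT0 {P Q : Prog 13} {c o l v w q p b t1 t2 t3 : ℕ} {st : List Sym} {s : St 13}
    (h : Exec (bdv n A) pr P (W 0 r c 0 o l v w q p b t1 t2 t3, st) s) :
    Exec (bdv n A) pr (ifT0 P Q) (W 0 r c 0 o l v w q p b t1 t2 t3, st) s :=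
  .iteF (by simp [TstS]) (.iteF (by simp [TstS]) h)

theorem ex_ifT1 {P Q : Prog 13} {τ c o l v w q p b t1 t2 t3 : ℕ} {st : List Sym} {s : St 13}
    (h : Exec (bdv n A) pr Q
      (W ((τ + 1) % 2 ^ r) r c ((τ + 1) / 2 ^ r) o l v w q p b t1 t2 t3, st) s) :
    Exec (bdv n A) pr (ifT0 P Q)
      (W ((τ + 1) % 2 ^ r) r c ((τ + 1) / 2 ^ r) o l v w q p b t1 t2 t3, st) s := by
  by_cases e : (τ + 1) % 2 ^ r = 0
  · refine .iteF (by simp [TstS, e]) (.iteT ?_ h)
    have := Nat.div_add_mod (τ + 1) (2 ^ r)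
    simp only [TstS, W_H]
    intro h0
    rw [h0, e] at this
    omega
  · exact .iteT (by simpa [TstS] using e) h

theorem rot_step (x j m : ℕ) :
    (x / 2 ^ j + x % 2 ^ j * 2 ^ (m + 1)) % 2 = x / 2 ^ j % 2 ∧
    (x / 2 ^ j + x % 2 ^ j * 2 ^ (m + 1)) / 2 + x / 2 ^ j % 2 * (2 ^ (j + (m + 1)) / 2) =
      x / 2 ^ (j + 1) + x % 2 ^ (j + 1) * 2 ^ m := by
  have e1 : x % 2 ^ j * 2 ^ (m + 1) = 2 * (x % 2 ^ j * 2 ^ m) := by ring
  have e2 : 2 ^ (j + (m + 1)) / 2 = 2 ^ j * 2 ^ m := by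
    rw [← add_assoc, pow_succ, pow_add]; omega
  have e3 : x / 2 ^ (j + 1) = x / 2 ^ j / 2 := by rw [pow_succ, Nat.div_div_eq_div_mul]
  rw [e1, e2, e3, Nat.mod_pow_succ]
  refine ⟨by omega, ?_⟩
  have : (x / 2 ^ j + 2 * (x % 2 ^ j * 2 ^ m)) / 2 = x / 2 ^ j / 2 + x % 2 ^ j * 2 ^ m := by omega
  rw [this]
  ring

theorem shift_lt {x b r : ℕ} (hr : 1 ≤ r) (hx : x < 2 ^ r) (hb : b ≤ 1) :
    x / 2 + b * (2 ^ r / 2) < 2 ^ r := by
  obtain ⟨r, rfl⟩ : ∃ s, r = s + 1 := ⟨r - 1, by omega⟩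
  rw [pow_succ] at hx ⊢
  obtain rfl | rfl : b = 0 ∨ b = 1 := by omega
  all_goals omega

theorem ex_copyT (G : Good n r C A) {τ c o l v w q p b t3 : ℕ} {st : List Sym}
    (hτ : τ / 2 ^ r ≤ A) :
    Exec (bdv n A) pr copyT (W (τ % 2 ^ r) r c (τ / 2 ^ r) o l v w q p b 0 0 t3, st)
      (W (τ % 2 ^ r) r c (τ / 2 ^ r) o l v w q p b 0 0 t3, svT r τ st) := by
  have G' := G
  obtain ⟨h1, r1, hC, hA, hT⟩ := G'
  have hx : τ % 2 ^ r < 2 ^ r := Nat.mod_lt _ (by positivity)
  unfold svT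
  generalize τ % 2 ^ r = x at hx
  generalize τ / 2 ^ r = h at hτ
  have key : ∀ m j (st : List Sym), j + m = r → x / 2 ^ j + x % 2 ^ j * 2 ^ m < 2 ^ r →
      Exec (bdv n A) pr
        (.loop (.nz rT2) (seqs [dec rT2, half 0 rT1, .ite (.nz rT1) addTop .skip, pushU rT1]))
        (W (x / 2 ^ j + x % 2 ^ j * 2 ^ m) r c h o l v w q p b 0 m t3, svb x j st)
        (W x r c h o l v w q p b 0 0 t3, svb x r st) := by
    intro m
    induction m with
    | zero =>
      intro j st e _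
      obtain rfl : j = r := by omega
      rw [Nat.div_eq_of_lt hx, Nat.mod_eq_of_lt hx]
      exact ex_of_eq (.loopF (by simp [TstS])) (by simp)
    | succ m ih =>
      intro j st e hl
      obtain ⟨a1, a2⟩ := rot_step x j m
      rw [e] at a2
      have a3 := shift_lt r1 hl (b := x / 2 ^ j % 2) (by omega)
      refine .loopT (by simp [TstS]) ?_ (ih (j + 1) st (by omega) (by omega))
      refine ex_cons (ex_dec (by simp)) ?_; simp
      refine ex_cons (ex_half (by decide) (by simp <;> omega) (by simp <;> omega)) ?_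
      simp only [W_X, U_X, W_T1, U_T1, a1, zero_add]
      refine ex_cons (ex_ifTop G (by omega) (by omega)) ?_
      rw [a2]
      exact ex_cons ex_pushU (ex_nil (by simp [svb]))
  refine ex_cons (ex_add (by decide) (by simp <;> omega) (by simp <;> omega)) ?_; simp
  refine ex_cons ex_pushU ?_; simp
  refine ex_cons (ex_add (by decide) (by simp <;> omega) (by simp <;> omega)) ?_; simp
  have := key r 0 (sv h st) (by omega) (by simpa [Nat.mod_one] using hx)
  simp only [pow_zero, Nat.div_one, Nat.mod_one, zero_mul, add_zero] at this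
  exact ex_cons this (ex_nil rfl)

theorem ex_popT (G : Good n r C A) {τ c o l v w q p b t1 t3 : ℕ} {st : List Sym}
    (hτ : τ / 2 ^ r ≤ A) :
    Exec (bdv n A) pr popT (W 0 r c 0 o l v w q p b t1 0 t3, svT r τ st)
      (W (τ % 2 ^ r) r c (τ / 2 ^ r) o l v w q p b t1 0 t3, st) := by
  obtain ⟨h1, r1, hC, hA, hT⟩ := G
  have hx : τ % 2 ^ r < 2 ^ r := Nat.mod_lt _ (by positivity)
  unfold svT
  generalize τ % 2 ^ r = x at hx
  generalize τ / 2 ^ r = h at hτ
  have key : ∀ j (st : List Sym),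
      Exec (bdv n A) pr (.loop (.nz rT2) (seqs [dec rT2, dbl 0, popU 0]))
        (W (x / 2 ^ j) r c 0 o l v w q p b t1 j t3, svb x j st)
        (W x r c 0 o l v w q p b t1 0 t3, st) := by
    intro j
    induction j with
    | zero => intro st; exact ex_of_eq (.loopF (by simp [TstS])) (by simp [svb])
    | succ j ih =>
      intro st
      have e3 : x / 2 ^ (j + 1) = x / 2 ^ j / 2 := by rw [pow_succ, Nat.div_div_eq_div_mul]
      have e4 : x / 2 ^ j ≤ x := Nat.div_le_self _ _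
      refine .loopT (by simp [TstS]) ?_ (ih st)
      refine ex_cons (ex_dec (by simp)) ?_; simp
      refine ex_cons (ex_dbl (by simp <;> omega)) ?_; simp
      refine ex_cons (ex_popU (by simp <;> omega)) (ex_nil ?_)
      simp only [W_X, U_X]
      congr 2
      omega
  refine ex_cons (ex_add (by decide) (by simp <;> omega) (by simp <;> omega)) ?_; simp
  have := key r (sv h st)
  rw [Nat.div_eq_of_lt hx] at this
  refine ex_cons this ?_
  exact ex_cons (ex_popU (by simp <;> omega)) (ex_nil (by simp))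

theorem ex_bitX {bd : Reg → ℕ} {i z : Reg} {c : Reg → ℕ} {st : List Sym} (hi : i ≠ 0)
    (hz : z ≠ 0) (hzi : z ≠ i) (h0 : c 0 ≤ bd 0) (h1 : c z + 1 ≤ bd z) :
    Exec bd pr (bitX i z) (c, st)
      (update (update (update c i 0) z (c z + c 0 / 2 ^ c i % 2)) 0 0, st) := by
  have key : ∀ m (c : Reg → ℕ), c i = m → c 0 ≤ bd 0 →
      Exec bd pr (.loop (.nz i) (seqs [dec i, halve 0])) (c, st)
        (update (update c i 0) 0 (c 0 / 2 ^ m), st) := by
    intro m
    induction m with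
    | zero =>
      intro c e _
      refine ex_of_eq (.loopF (by simp [TstS, e])) ?_
      have : update c i 0 = c := by rw [update_eq_self_iff, e]
      simp [this]
    | succ m ih =>
      intro c e h0
      refine .loopT (by simp [TstS, e]) (ex_cons (ex_dec (by omega)) (ex_cons (ex_halve
        (by simp [update_of_ne hi.symm]; omega)) (ex_nil rfl))) ?_
      refine ex_of_eq (ih _ (by simp [update_of_ne hi, e])
        (by simp [update_of_ne hi.symm]; omega)) ?_
      congr 1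
      funext a
      simp only [update_apply, hi.symm, if_false, if_true]
      split_ifs
      · rw [Nat.div_div_eq_div_mul, pow_succ']
      · rfl
      · rfl
  have e4 : c 0 / 2 ^ c i ≤ c 0 := Nat.div_le_self _ _
  refine ex_cons (key _ c rfl h0) (ex_cons (ex_half hz (by simp; omega)
    (by simpa [update_of_ne hz, update_of_ne hzi] using h1)) (ex_cons ex_clr (ex_nil ?_)))
  congr 1
  funext a
  simp only [update_apply, hz, hzi, if_false, if_true]
  split_ifs <;> rfl

/-! The graph. -/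

def tbit (n C q j κ : ℕ) : ℕ := n / 2 ^ (C + 1 + κ + 8 * (q * C + j)) % 2

def nb (n r C : ℕ) (u : ℕ × ℕ × ℕ) (j : ℕ) : ℕ × ℕ × ℕ :=
  if u.2.1 = r + 1 then (if tbit n C u.1 j 4 = 0 then u else (j, 0, u.2.2))
  else if tbit n C u.1 j (2 * (u.2.2 % 2) + n / 2 ^ u.2.1 % 2) = 0 then u
  else (j, u.2.1 + 1, u.2.2 / 2 + u.1 % 2 * (2 ^ r / 2))

def tb : Prog 13 :=
  seqs [add rC rT3, inc rT3, add rB rT2, rep rQ (add rC rT2), add rT2 rT3, add rT2 rT3,
    add rT2 rT3, add rT2 rT3, add rT2 rT3, add rT2 rT3, add rT2 rT3, add rT2 rT3, clr rT2,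
    toEnd, bitX rT3 rW]

theorem ex_tb (G : Good n r C A) {h o l v q p b t1 κ : ℕ} {st : List Sym} (hq : q ≤ C)
    (hb : b < C) (hκ : κ ≤ 4) :
    Exec (bdv n A) pr tb (W 0 r C h o l v 0 q p b t1 0 κ, st)
      (W 0 r C h o l v (tbit n C q b κ) q p b t1 0 0, st) := by
  obtain ⟨h1, r1, hC, hA, hT⟩ := G
  have hm : q * C ≤ C * C := Nat.mul_le_mul_right _ hq
  refine ex_cons (ex_add (by decide) (by simp <;> omega) (by simp <;> omega)) ?_; simp
  refine ex_cons (ex_inc (by simp <;> omega)) ?_; simp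
  refine ex_cons (ex_add (by decide) (by simp <;> omega) (by simp <;> omega)) ?_; simp
  refine ex_cons (ex_rep (fun j => W 0 r C h o l v 0 q p b t1 (j * C + b) (κ + C + 1)) (by simp)
    (by simp <;> omega) ?_) ?_
  · intro j hj x st
    simp at hj ⊢
    have : (j + 1) * C ≤ q * C := Nat.mul_le_mul_right _ hj
    have e : (j + 1) * C = j * C + C := by ring
    refine ex_of_eq (ex_add (by decide) (by simp <;> omega) (by simp <;> omega)) ?_
    simp only [W_T2, W_C, U_T2]
    congr 2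
    omega
  simp
  iterate 8
    refine ex_cons (ex_add (by decide) (by simp <;> omega) (by simp <;> omega)) ?_
    simp only [W_T2, W_T3, U_T3]
  refine ex_cons ex_clr ?_; simp only [U_T2]
  refine ex_cons (ex_toEnd (by simp)) ?_; simp only [U_X, bd_X]
  refine ex_cons (ex_bitX (by decide) (by decide) (by decide) (by simp) (by simp <;> omega))
    (ex_nil ?_)
  simp only [W_X, U_X, W_T3, U_T3, W_W, U_W, tbit, zero_add]
  congr 5
  ring

def edgeE : Prog 13 :=
  seqs [pushU 0, inc rT3, inc rT3, inc rT3, inc rT3, tb, popU 0,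
    .ite (.nz rW) (seqs [clr rW, clr rQ, mv rB rQ, clr rP]) (clr rB)]

def edgeC : Prog 13 :=
  seqs [clr rW, half 0 rT1, pushU 0, add rP rT2, toEnd, bitX rT2 rT3, add rT1 rT3, add rT1 rT3,
    tb, popU 0,
    .ite (.nz rW)
      (seqs [clr rW, clr rT1, half rQ rT1, .ite (.nz rT1) addTop .skip, clr rT1, clr rQ,
        mv rB rQ, inc rP])
      (seqs [dbl 0, mv rT1 0, clr rB])]

def edge : Prog 13 :=
  seqs [add rR rT2, inc rT2, add rP rT3, diff rT3 rT2 rW, clr rT2, .ite (.nz rW) edgeC edgeE]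

def query : Prog 13 := seqs [.ite (.nz rB) (seqs [dec rB, edge]) .skip, add rC rB]

theorem ex_edge (G : Good n r C A) {q p x j : ℕ} {st : List Sym} (hq : q ≤ C)
    (hp : p ≤ r + 1) (hx : x < 2 ^ r) (hj : j < C) :
    Exec (bdv n A) pr edge (W x r C 0 0 0 0 0 q p j 0 0 0, st)
      (W (nb n r C (q, p, x) j).2.2 r C 0 0 0 0 0 (nb n r C (q, p, x) j).1
        (nb n r C (q, p, x) j).2.1 0 0 0 0, st) := by
  have G' := G
  obtain ⟨h1, r1, hC, hA, hT⟩ := G'
  refine ex_cons (ex_add (by decide) (by simp <;> omega) (by simp <;> omega)) ?_; simp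
  refine ex_cons (ex_inc (by simp <;> omega)) ?_; simp
  refine ex_cons (ex_add (by decide) (by simp <;> omega) (by simp <;> omega)) ?_; simp
  refine ex_cons (ex_diff (by decide) (by decide) (by decide) (by simp <;> omega)
    (by simp <;> omega)) ?_; simp
  refine ex_cons ex_clr ?_; simp
  refine ex_cons ?_ (ex_nil rfl)
  by_cases e : p = r + 1
  · subst e
    refine .iteF (by simp [TstS]) ?_
    simp only [Nat.sub_self, add_zero, nb, if_true]
    refine ex_cons ex_pushU ?_; simp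
    iterate 4 (refine ex_cons (ex_inc (by simp <;> omega)) ?_; simp only [W_T3, U_T3])
    refine ex_cons (ex_tb G hq hj (by omega)) ?_
    refine ex_cons (ex_popU (by simp <;> omega)) ?_
    simp only [W_X, U_X, zero_add]
    refine ex_cons ?_ (ex_nil rfl)
    split_ifs with e2
    · exact .iteF (by simp [TstS, e2]) (ex_of_eq ex_clr (by simp [e2]))
    · refine .iteT (by simpa [TstS] using e2) ?_
      refine ex_cons ex_clr ?_; simp
      refine ex_cons ex_clr ?_; simp
      refine ex_cons (ex_mv (by decide) (by simp <;> omega)) ?_; simp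
      exact ex_cons ex_clr (ex_nil (by simp))
  · refine .iteT (by simp [TstS]; omega) ?_
    simp only [nb, if_neg e]
    refine ex_cons ex_clr ?_; simp only [U_W]
    refine ex_cons (ex_half (by decide) (by simp <;> omega) (by simp <;> omega)) ?_
    simp only [W_X, U_X, W_T1, U_T1, zero_add]
    refine ex_cons ex_pushU ?_; simp only [W_X, U_X]
    refine ex_cons (ex_add (by decide) (by simp <;> omega) (by simp <;> omega)) ?_
    simp only [W_P, W_T2, U_T2, zero_add]
    refine ex_cons (ex_toEnd (by simp)) ?_; simp only [U_X, bd_X]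
    refine ex_cons (ex_bitX (by decide) (by decide) (by decide) (by simp) (by simp <;> omega)) ?_
    simp only [W_X, U_X, W_T3, U_T3, W_T2, U_T2, zero_add]
    iterate 2
      refine ex_cons (ex_add (by decide) (by simp <;> omega) (by simp <;> omega)) ?_
      simp only [W_T1, W_T3, U_T3]
    rw [show n / 2 ^ p % 2 + x % 2 + x % 2 = 2 * (x % 2) + n / 2 ^ p % 2 by omega]
    refine ex_cons (ex_tb G hq hj (by omega)) ?_
    refine ex_cons (ex_popU (by simp <;> omega)) ?_
    simp only [W_X, U_X, zero_add]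
    refine ex_cons ?_ (ex_nil rfl)
    split_ifs with e2
    · refine .iteF (by simp [TstS, e2]) ?_
      refine ex_cons (ex_dbl (by simp <;> omega)) ?_; simp only [W_X, U_X]
      refine ex_cons (ex_mv (by decide) (by simp <;> omega)) ?_
      simp only [W_X, U_X, W_T1, U_T1]
      refine ex_cons ex_clr (ex_nil ?_)
      simp only [U_B, e2]
      congr 2
      omega
    · have a3 := shift_lt r1 hx (b := q % 2) (by omega)
      refine .iteT (by simpa [TstS] using e2) ?_
      refine ex_cons ex_clr ?_; simp only [U_W]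
      refine ex_cons ex_clr ?_; simp only [U_T1]
      refine ex_cons (ex_half (by decide) (by simp <;> omega) (by simp <;> omega)) ?_
      simp only [W_Q, U_Q, W_T1, U_T1, zero_add]
      refine ex_cons (ex_ifTop G (by omega) (by omega)) ?_
      refine ex_cons ex_clr ?_; simp only [U_T1]
      refine ex_cons ex_clr ?_; simp only [U_Q]
      refine ex_cons (ex_mv (by decide) (by simp <;> omega)) ?_; simp
      exact ex_cons (ex_inc (by simp <;> omega)) (ex_nil (by simp))

/-- The digits of an address. -/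
def dig (a : (ℕ × ℕ × ℕ) × ℕ) (l : ℕ) : ℕ :=
  if l = 0 then a.1.1 else if l = 1 then a.1.2.1 else if l = 2 then a.2
  else a.1.2.2 / 2 ^ (l - 3) % 2

/-- Registers holding an address. -/
def WA (r C : ℕ) (a : (ℕ × ℕ × ℕ) × ℕ) (o l v : ℕ) : Reg → ℕ :=
  W a.1.2.2 r C 0 o l v 0 a.1.1 a.1.2.1 a.2 0 0 0

def Val (r C : ℕ) (a : (ℕ × ℕ × ℕ) × ℕ) : Prop :=
  (a.1.1 ≤ C ∧ a.1.2.1 ≤ r + 1 ∧ a.1.2.2 < 2 ^ r) ∧ a.2 ≤ C

def extract : Prog 13 :=
  seqs [add rL rT1,
    .ite (.nz rT1) (seqs [dec rT1, .ite (.nz rT1) (seqs [dec rT1,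
      .ite (.nz rT1) (seqs [dec rT1, bitX rT1 rW]) (mv rB rW)]) (mv rP rW)]) (mv rQ rW),
    clr 0, clr rQ, clr rP, clr rB]

theorem ex_extract (G : Good n r C A) {a : (ℕ × ℕ × ℕ) × ℕ} {o l v : ℕ} {st : List Sym}
    (ha : Val r C a) (hl : l ≤ A) :
    Exec (bdv n A) pr extract (WA r C a o l v, st)
      (W 0 r C 0 o l v (dig a l) 0 0 0 0 0 0, st) := by
  obtain ⟨h1, r1, hC, hA, hT⟩ := G
  obtain ⟨⟨q, p, x⟩, b⟩ := a
  obtain ⟨⟨a1, a2, a3⟩, a4⟩ := ha
  simp only at a1 a2 a3 a4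
  simp only [WA, dig]
  have fin : ∀ x' q' p' b' w : ℕ, Exec (bdv n A) pr (seqs [clr 0, clr rQ, clr rP, clr rB])
      (W x' r C 0 o l v w q' p' b' 0 0 0, st) (W 0 r C 0 o l v w 0 0 0 0 0 0, st) := by
    intro x' q' p' b' w
    exact ex_cons ex_clr (ex_cons ex_clr (ex_cons ex_clr (ex_cons ex_clr (ex_nil (by simp)))))
  refine ex_cons (ex_add (by decide) (by simp <;> omega) (by simp <;> omega)) ?_; simp
  obtain _ | _ | _ | l := l
  · refine ex_cons (.iteF (by simp [TstS]) (ex_mv (by decide) (by simp <;> omega))) ?_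
    simpa using fin _ _ _ _ _
  · refine ex_cons (.iteT (by simp [TstS]) (ex_cons (ex_dec (by simp)) (ex_cons
      (.iteF (by simp [TstS]) (ex_mv (by decide) (by simp <;> omega))) (ex_nil rfl)))) ?_
    simpa using fin _ _ _ _ _
  · refine ex_cons (.iteT (by simp [TstS]) (ex_cons (ex_dec (by simp)) (ex_cons
      (.iteT (by simp [TstS]) (ex_cons (ex_dec (by simp)) (ex_cons
      (.iteF (by simp [TstS]) (ex_mv (by decide) (by simp <;> omega))) (ex_nil rfl))))
      (ex_nil rfl)))) ?_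
    simpa using fin _ _ _ _ _
  · refine ex_cons (.iteT (by simp [TstS]) (ex_cons (ex_dec (by simp)) (ex_cons
      (.iteT (by simp [TstS]) (ex_cons (ex_dec (by simp)) (ex_cons
      (.iteT (by simp [TstS]) (ex_cons (ex_dec (by simp)) (ex_cons (ex_bitX (by decide) (by decide)
        (by decide) (by simp <;> omega) (by simp <;> omega)) (ex_nil rfl)))) (ex_nil rfl))))
      (ex_nil rfl)))) ?_
    simpa using fin _ _ _ _ _

theorem dig_le (G : Good n r C A) {a : (ℕ × ℕ × ℕ) × ℕ} (ha : Val r C a) (l : ℕ) :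
    dig a l ≤ r + 1 := by
  obtain ⟨h1, r1, hC, hA, hT⟩ := G
  obtain ⟨⟨a1, a2, a3⟩, a4⟩ := ha
  unfold dig
  split_ifs <;> omega

theorem dig_inj {a a' : (ℕ × ℕ × ℕ) × ℕ} (ha : Val r C a) (ha' : Val r C a')
    (h : ∀ l < r + 3, dig a l = dig a' l) : a = a' := by
  obtain ⟨⟨q, p, x⟩, b⟩ := a
  obtain ⟨⟨q', p', x'⟩, b'⟩ := a'
  have h0 : q = q' := by simpa [dig] using h 0 (by omega)
  have h1 : p = p' := by simpa [dig] using h 1 (by omega)
  have h2 : b = b' := by simpa [dig] using h 2 (by omega)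
  have h3 : ∀ j ≤ r, x % 2 ^ j = x' % 2 ^ j := by
    intro j
    induction j with
    | zero => simp [Nat.mod_one]
    | succ j ih =>
      intro hj
      have := h (j + 3) (by omega)
      simp only [dig, Nat.add_sub_cancel] at this
      rw [if_neg (by omega), if_neg (by omega), if_neg (by omega), if_neg (by omega),
        if_neg (by omega), if_neg (by omega)] at this
      rw [Nat.mod_pow_succ, Nat.mod_pow_succ, ih (by omega), this]
  have h4 := h3 r le_rfl
  rw [Nat.mod_eq_of_lt ha.1.2.2, Nat.mod_eq_of_lt ha'.1.2.2] at h4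
  simp only at h4
  rw [h0, h1, h2, h4]

theorem nb_val (hr : 1 ≤ r) (u : ℕ × ℕ × ℕ) (hu : u.1 ≤ C ∧ u.2.1 ≤ r + 1 ∧ u.2.2 < 2 ^ r)
    (j : ℕ) (hj : j < C) : (nb n r C u j).1 ≤ C ∧ (nb n r C u j).2.1 ≤ r + 1 ∧
      (nb n r C u j).2.2 < 2 ^ r := by
  unfold nb
  split_ifs
  · exact hu
  · exact ⟨hj.le, by simp, hu.2.2⟩
  · exact hu
  · exact ⟨hj.le, by simp only; omega, shift_lt hr hu.2.2 (by omega)⟩

end Pool.Agent.P.MP_d0a708_lc.N
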