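import Mathlib

/-!
Depth-first search as a sequence indexed by time, each term of which is determined by looking up
earlier terms.
-/

namespace Pool.Agent.P.MP_d0a708_lc.N

open Classical

section Last

/-- `1` if some time up to `t` has the property. -/
noncomputable def okP (P : ℕ → Prop) (t : ℕ) : ℕ := if ∃ τ ≤ t, P τ then 1 else 0

/-- The last time up to `t` with the property, or `0`. -/
noncomputable def lastP (P : ℕ → Prop) (t : ℕ) : ℕ := Nat.findGreatest P t

theorem lastP_le (P : ℕ → Prop) (t : ℕ) : lastP P t ≤ t := Nat.findGreatest_le t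

theorem okP_le (P : ℕ → Prop) (t : ℕ) : okP P t ≤ 1 := by
  unfold okP; split_ifs <;> omega

theorem okP_self {P : ℕ → Prop} {t : ℕ} (h : P t) : okP P t = 1 := if_pos ⟨t, le_rfl, h⟩

theorem lastP_self {P : ℕ → Prop} {t : ℕ} (h : P t) : lastP P t = t := Nat.findGreatest_eq h

theorem okP_zero {P : ℕ → Prop} (h : ¬ P 0) : okP P 0 = 0 := by
  refine if_neg ?_
  rintro ⟨τ, h1, h2⟩
  obtain rfl : τ = 0 := by omega
  exact h h2

theorem lastP_zero (P : ℕ → Prop) : lastP P 0 = 0 := rfl

theorem okP_succ {P : ℕ → Prop} {t : ℕ} (h : ¬ P (t + 1)) : okP P (t + 1) = okP P t := by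
  unfold okP
  congr 1
  refine propext ⟨fun ⟨τ, h1, h2⟩ => ⟨τ, ?_, h2⟩, fun ⟨τ, h1, h2⟩ => ⟨τ, by omega, h2⟩⟩
  by_contra h3
  obtain rfl : τ = t + 1 := by omega
  exact h h2

theorem lastP_succ {P : ℕ → Prop} {t : ℕ} (h : ¬ P (t + 1)) : lastP P (t + 1) = lastP P t :=
  Nat.findGreatest_of_not h

theorem okP_congr {P Q : ℕ → Prop} {t : ℕ} (h : ∀ τ ≤ t, P τ ↔ Q τ) : okP P t = okP Q t := by
  unfold okP
  congr 1
  exact propext ⟨fun ⟨τ, h1, h2⟩ => ⟨τ, h1, (h τ h1).1 h2⟩,
    fun ⟨τ, h1, h2⟩ => ⟨τ, h1, (h τ h1).2 h2⟩⟩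

theorem lastP_congr {P Q : ℕ → Prop} {t : ℕ} (h : ∀ τ ≤ t, P τ ↔ Q τ) :
    lastP P t = lastP Q t := by
  induction t with
  | zero => rfl
  | succ t ih =>
    by_cases e : P (t + 1)
    · rw [lastP_self e, lastP_self ((h _ le_rfl).1 e)]
    · rw [lastP_succ e, lastP_succ (fun h' => e ((h _ le_rfl).2 h')),
        ih (fun τ hτ => h τ (by omega))]

theorem lastP_spec {P : ℕ → Prop} {t : ℕ} (h : okP P t ≠ 0) : P (lastP P t) := by
  unfold okP at h
  split_ifs at h with e
  · obtain ⟨τ, h1, h2⟩ := e
    exact Nat.findGreatest_spec h1 h2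
  · exact absurd rfl h

theorem last_none {P Q : ℕ → Prop} {t : ℕ} (h : okP P t = 0) (hQ : ∀ τ, Q τ → P τ) :
    okP Q t = 0 ∧ lastP Q t = 0 := by
  have h' : ¬ ∃ τ ≤ t, Q τ := by
    rintro ⟨τ, h1, h2⟩
    unfold okP at h
    rw [if_pos ⟨τ, h1, hQ τ h2⟩] at h
    omega
  refine ⟨if_neg h', Nat.findGreatest_eq_zero_iff.2 fun n _ hn hq => h' ⟨n, hn, hq⟩⟩

theorem last_sub {P Q : ℕ → Prop} (t : ℕ) (hQ : ∀ τ, Q τ → P τ) :
    okP Q (lastP P t) = okP Q t ∧ lastP Q (lastP P t) = lastP Q t := by
  induction t with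
  | zero => exact ⟨rfl, rfl⟩
  | succ t ih =>
    by_cases e : P (t + 1)
    · rw [lastP_self e]; exact ⟨rfl, rfl⟩
    · have e' : ¬ Q (t + 1) := fun h => e (hQ _ h)
      rw [lastP_succ e, okP_succ e', lastP_succ e']
      exact ih

end Last

section Dfs

variable {V : Type} (root : V) (d : ℕ) (nbr : V → ℕ → V)

/-- The address looked up in the state `x`. -/
def qry (x : V × ℕ) : V × ℕ := (if x.2 = 0 then x.1 else nbr x.1 (x.2 - 1), d)

noncomputable def stepF (a : ℕ → V × ℕ) (t : ℕ) : V × ℕ :=
  if (a t).2 = 0 then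
    if lastP (fun τ => a τ = qry d nbr (a t)) t = 0 then (root, 0)
    else ((a (lastP (fun τ => a τ = qry d nbr (a t)) t - 1)).1,
      (a (lastP (fun τ => a τ = qry d nbr (a t)) t - 1)).2 - 1)
  else if okP (fun τ => a τ = qry d nbr (a t)) t = 0 then qry d nbr (a t)
  else ((a t).1, (a t).2 - 1)

theorem stepF_congr {a a' : ℕ → V × ℕ} {t : ℕ} (h : ∀ τ ≤ t, a τ = a' τ) :
    stepF root d nbr a t = stepF root d nbr a' t := by
  have e : ∀ τ ≤ t, (a τ = qry d nbr (a' t) ↔ a' τ = qry d nbr (a' t)) := fun τ hτ => by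
    rw [h τ hτ]
  unfold stepF
  rw [h t le_rfl, lastP_congr e, okP_congr e,
    h (lastP _ t - 1) ((Nat.sub_le _ _).trans (lastP_le _ _))]

noncomputable def dfs : ℕ → V × ℕ
  | 0 => (root, d)
  | t + 1 => stepF root d nbr (fun τ => if _h : τ ≤ t then dfs τ else (root, d)) t
decreasing_by omega

theorem dfs_zero : dfs root d nbr 0 = (root, d) := by rw [dfs]

theorem dfs_succ (t : ℕ) : dfs root d nbr (t + 1) = stepF root d nbr (dfs root d nbr) t := by
  rw [dfs]
  exact stepF_congr root d nbr fun τ hτ => dif_pos hτ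

variable {root d nbr}

theorem dfs_mem {S : V → Prop} (h0 : S root) (h1 : ∀ u, S u → ∀ j < d, S (nbr u j)) (t : ℕ) :
    S (dfs root d nbr t).1 ∧ (dfs root d nbr t).2 ≤ d := by
  induction t using Nat.strong_induction_on with
  | _ t ih =>
    cases t with
    | zero => rw [dfs_zero]; exact ⟨h0, le_rfl⟩
    | succ t =>
      rw [dfs_succ, stepF]
      have i1 := ih t (by omega)
      split_ifs with e1 e2 e3
      · exact ⟨h0, Nat.zero_le _⟩
      · have := ih (lastP (fun τ => dfs root d nbr τ = qry d nbr (dfs root d nbr t)) t - 1)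
          (by have := lastP_le (fun τ => dfs root d nbr τ = qry d nbr (dfs root d nbr t)) t
              omega)
        exact ⟨this.1, by have := this.2; simp only; omega⟩
      · simp only [qry, if_neg e1]
        exact ⟨h1 _ i1.1 _ (by omega), le_rfl⟩
      · exact ⟨i1.1, by simp only; omega⟩

variable (root d nbr) in
def Vis (t : ℕ) (u : V) : Prop := ∃ τ ≤ t, dfs root d nbr τ = (u, d)

theorem Vis.mono {t : ℕ} {u : V} (h : Vis root d nbr t u) : Vis root d nbr (t + 1) u := by
  obtain ⟨τ, h1, h2⟩ := h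
  exact ⟨τ, by omega, h2⟩

theorem vis_succ {t : ℕ} {u : V} :
    Vis root d nbr (t + 1) u ↔ Vis root d nbr t u ∨ dfs root d nbr (t + 1) = (u, d) := by
  refine ⟨fun ⟨τ, h1, h2⟩ => ?_, fun h => h.elim Vis.mono fun h => ⟨_, le_rfl, h⟩⟩
  by_cases e : τ = t + 1
  · exact Or.inr (e ▸ h2)
  · exact Or.inl ⟨τ, by omega, h2⟩

theorem fresh (hd : 0 < d) {t : ℕ} {u : V} (h : dfs root d nbr (t + 1) = (u, d)) :
    ¬ Vis root d nbr t u := by
  have hb := fun t => (dfs_mem (root := root) (d := d) (nbr := nbr) (S := fun _ => True) trivial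
    (fun _ _ _ _ => trivial) t).2
  rw [dfs_succ, stepF] at h
  split_ifs at h with e1 e2 e3
  · have := (Prod.mk.inj h).2; omega
  · have h1 := (Prod.mk.inj h).2
    have := hb (lastP (fun τ => dfs root d nbr τ = qry d nbr (dfs root d nbr t)) t - 1)
    omega
  · rintro ⟨τ, h1, h2⟩
    unfold okP at e3
    rw [if_pos ⟨τ, h1, h2.trans h.symm⟩] at e3
    omega
  · have h1 := (Prod.mk.inj h).2
    have := hb t
    omega

theorem fresh_unique (hd : 0 < d) {τ τ' : ℕ} {u : V} (h : dfs root d nbr τ = (u, d))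
    (h' : dfs root d nbr τ' = (u, d)) : τ = τ' := by
  wlog hl : τ < τ' generalizing τ τ'
  · by_contra e
    exact e (this h' h (by omega)).symm
  obtain ⟨t, rfl⟩ : ∃ t, τ' = t + 1 := ⟨τ' - 1, by omega⟩
  exact absurd ⟨τ, by omega, h⟩ (fresh hd h')

variable (root d nbr) in
def Chain : V → List (V × ℕ) → Prop
  | u, [] => u = root
  | u, x :: l => (∃ τ, dfs root d nbr (τ + 1) = (u, d) ∧ dfs root d nbr τ = x) ∧ 0 < x.2 ∧
      nbr x.1 (x.2 - 1) = u ∧ Chain x.1 l

variable (root d nbr) in
def Inv (t : ℕ) : Prop :=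
  ∃ (F : List V) (l : List (V × ℕ)), Chain root d nbr (dfs root d nbr t).1 l ∧
    (∀ x ∈ dfs root d nbr t :: l, x.2 ≤ d ∧ ∀ j, x.2 ≤ j → j < d → Vis root d nbr t (nbr x.1 j)) ∧
    (∀ w, Vis root d nbr t w ↔ w ∈ F ++ (dfs root d nbr t :: l).map Prod.fst) ∧
    (F ++ (dfs root d nbr t :: l).map Prod.fst).Nodup ∧
    (∀ w ∈ F, ∀ j < d, Vis root d nbr t (nbr w j)) ∧
    t + 1 = (d + 1) * F.length + ((dfs root d nbr t :: l).map fun x => d + 1 - x.2).sum

theorem inv_step (hd : 0 < d) {t : ℕ} (h : Inv root d nbr t) :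
    (∀ w, Vis root d nbr t w → ∀ j < d, Vis root d nbr t (nbr w j)) ∨ Inv root d nbr (t + 1) := by
  obtain ⟨F, l, h1, h2, h3, h4, h5, h6⟩ := h
  have hs := dfs_succ root d nbr t
  unfold stepF at hs
  generalize ha : dfs root d nbr t = x at h1 h2 h3 h4 h6 hs
  obtain ⟨u, b⟩ := x
  have hbd : b ≤ d := (h2 (u, b) (by simp)).1
  by_cases e1 : b = 0
  · subst e1
    cases l with
    | nil =>
      left
      intro w hw j hj
      rcases List.mem_append.1 ((h3 w).1 hw) with hw | hw
      · exact h5 w hw j hj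
      · obtain rfl : w = u := by simpa using hw
        exact (h2 (w, 0) (by simp)).2 j (Nat.zero_le _) hj
    | cons y l =>
      right
      obtain ⟨p, b⟩ := y
      obtain ⟨⟨τ, e1, e2⟩, e3, e4, e5⟩ := h1
      have hu : Vis root d nbr t u := (h3 u).2 (by simp)
      have hl : lastP (fun τ => dfs root d nbr τ = qry d nbr (u, 0)) t = τ + 1 := by
        have : okP (fun τ => dfs root d nbr τ = qry d nbr (u, 0)) t ≠ 0 := by
          unfold okP
          exact ne_of_eq_of_ne (if_pos hu) one_ne_zero
        exact fresh_unique hd (lastP_spec this) e1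
      simp only [if_true, hl, Nat.add_one_ne_zero, if_false, Nat.add_sub_cancel, e2] at hs
      have hb : b ≤ d := (h2 (p, b) (by simp)).1
      simp only at e3 e4 e5
      have hv : ∀ w, Vis root d nbr (t + 1) w ↔ Vis root d nbr t w := by
        intro w
        rw [vis_succ, hs]
        simp only [Prod.mk.injEq, or_iff_left_iff_imp]
        omega
      refine ⟨F ++ [u], l, by rw [hs]; exact e5, ?_, ?_, ?_, ?_, ?_⟩
      · rw [hs]
        intro x hx
        simp only [hv]
        rcases List.mem_cons.1 hx with rfl | hx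
        · refine ⟨by simp only; omega, fun j j1 j2 => ?_⟩
          by_cases e : j = b - 1
          · rw [e, e4]; exact hu
          · exact (h2 (p, b) (by simp)).2 j (by simp only at j1 ⊢; omega) j2
        · exact h2 x (by simp [hx])
      · intro w
        rw [hs, hv, h3]
        simp
      · rw [hs]
        simpa using h4
      · intro w hw j hj
        rw [hv]
        rcases List.mem_append.1 hw with hw | hw
        · exact h5 w hw j hj
        · obtain rfl : w = u := by simpa using hw
          exact (h2 (w, 0) (by simp)).2 j (Nat.zero_le _) hj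
      · rw [hs]
        simp only [List.map_cons, List.sum_cons, List.length_append, List.length_singleton,
          mul_add] at h6 ⊢
        omega
  · right
    simp only [e1, if_false] at hs
    split_ifs at hs with e2
    · simp only [qry, e1, if_false] at hs
      have hf := fresh hd hs
      have hv : ∀ w, Vis root d nbr (t + 1) w ↔ Vis root d nbr t w ∨ w = nbr u (b - 1) := by
        intro w
        rw [vis_succ, hs]
        simp [eq_comm]
      refine ⟨F, (u, b) :: l, ?_, ?_, ?_, ?_, ?_, ?_⟩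
      · rw [hs]
        exact ⟨⟨t, hs, ha⟩, by simp only; omega, rfl, h1⟩
      · rw [hs]
        intro x hx
        rcases List.mem_cons.1 hx with rfl | hx
        · exact ⟨le_rfl, fun j j1 j2 => by simp only at j1; omega⟩
        · exact ⟨(h2 x hx).1, fun j j1 j2 => ((h2 x hx).2 j j1 j2).mono⟩
      · intro w
        rw [hs, hv, h3]
        simp only [List.map_cons, List.mem_append, List.mem_cons]
        tauto
      · rw [hs, List.map_cons, List.nodup_middle, List.nodup_cons]
        exact ⟨fun h => hf ((h3 _).2 h), h4⟩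
      · exact fun w hw j hj => (h5 w hw j hj).mono
      · rw [hs]
        simp only [List.map_cons, List.sum_cons] at h6 ⊢
        omega
    · have hu : Vis root d nbr t (nbr u (b - 1)) := by
        have := lastP_spec e2
        simp only [qry, e1, if_false] at this
        exact ⟨_, lastP_le _ _, this⟩
      have hv : ∀ w, Vis root d nbr (t + 1) w ↔ Vis root d nbr t w := by
        intro w
        rw [vis_succ, hs]
        simp only [Prod.mk.injEq, or_iff_left_iff_imp]
        omega
      refine ⟨F, l, by rw [hs]; exact h1, ?_, ?_, ?_, ?_, ?_⟩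
      · rw [hs]
        intro x hx
        simp only [hv]
        rcases List.mem_cons.1 hx with rfl | hx
        · refine ⟨by simp only; omega, fun j j1 j2 => ?_⟩
          by_cases e : j = b - 1
          · rw [e]; exact hu
          · exact (h2 (u, b) (by simp)).2 j (by simp only at j1 ⊢; omega) j2
        · exact h2 x (by simp [hx])
      · intro w
        rw [hs, hv, h3]
        simp
      · rw [hs]
        simpa using h4
      · exact fun w hw j hj => (h5 w hw j hj).mono
      · rw [hs]
        simp only [List.map_cons, List.sum_cons] at h6 ⊢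
        omega

theorem inv_zero : Inv root d nbr 0 := by
  refine ⟨[], [], by rw [dfs_zero]; rfl, ?_, ?_, by simp, by simp, by simp [dfs_zero]⟩
  · rw [dfs_zero]
    intro x hx
    obtain rfl : x = (root, d) := by simpa using hx
    exact ⟨le_rfl, fun j j1 j2 => by simp only at j1; omega⟩
  · intro w
    simp only [Vis, Nat.le_zero, exists_eq_left, dfs_zero]
    simp [eq_comm]

/-- The search visits exactly the reachable vertices. -/
theorem dfs_complete (hd : 0 < d) (S : Finset V) (h0 : root ∈ S)
    (h1 : ∀ u ∈ S, ∀ j < d, nbr u j ∈ S) {T : ℕ} (hT : (d + 1) * S.card ≤ T) (P : V → Prop) :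
    (∃ τ ≤ T, P (dfs root d nbr τ).1) ↔
      ∃ u, Relation.ReflTransGen (fun u v => ∃ j < d, v = nbr u j) root u ∧ P u := by
  constructor
  · rintro ⟨τ, _, h⟩
    refine ⟨_, (dfs_mem (S := fun u =>
      Relation.ReflTransGen (fun u v => ∃ j < d, v = nbr u j) root u) .refl ?_ τ).1, h⟩
    exact fun u hu j hj => hu.tail ⟨j, hj, rfl⟩
  · have key : ∀ t, (∃ t0 ≤ t, ∀ w, Vis root d nbr t0 w → ∀ j < d, Vis root d nbr t0 (nbr w j)) ∨
        Inv root d nbr t := by
      intro t
      induction t with
      | zero => exact Or.inr inv_zero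
      | succ t ih =>
        rcases ih with ⟨t0, a, b⟩ | ih
        · exact Or.inl ⟨t0, by omega, b⟩
        · exact (inv_step hd ih).imp_left fun h => ⟨t, by omega, h⟩
    rcases key T with ⟨t0, a, b⟩ | ⟨F, l, _, _, h3, h4, _, h6⟩
    · rintro ⟨u, hu, hP⟩
      have : Vis root d nbr t0 u := by
        clear hP
        induction hu with
        | refl => exact ⟨0, Nat.zero_le _, dfs_zero root d nbr⟩
        | tail _ h ih =>
          obtain ⟨j, hj, rfl⟩ := h
          exact b _ ih j hj
      obtain ⟨τ, a1, a2⟩ := this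
      exact ⟨τ, by omega, by rw [a2]; exact hP⟩
    · exfalso
      have s1 : (F ++ (dfs root d nbr T :: l).map Prod.fst).length ≤ S.card := by
        rw [← List.toFinset_card_of_nodup h4]
        apply Finset.card_le_card
        intro w hw
        obtain ⟨τ, _, e⟩ := (h3 w).2 (List.mem_toFinset.1 hw)
        have := (dfs_mem (S := fun u => u ∈ S) h0 h1 τ).1
        rwa [e] at this
      have s2 := List.sum_le_card_nsmul ((dfs root d nbr T :: l).map fun x => d + 1 - x.2) (d + 1)
        (by
          intro x hx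
          obtain ⟨y, _, rfl⟩ := List.mem_map.1 hx
          omega)
      simp only [List.length_append, List.length_map, smul_eq_mul] at s1 s2
      nlinarith

end Dfs

end Pool.Agent.P.MP_d0a708_lc.N
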