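import Mathlib
import Pool.Agent.P.MP_d0a708_lc.NArith
import Pool.Agent.P.MP_d0a708_lc.NDfs

/-!
The search program: two mutually recursive procedures compute the state of the depth-first search
at a given time and walk in a persistent trie of the earlier states.
-/

set_option linter.unnecessarySeqFocus false

namespace Pool.Agent.P.MP_d0a708_lc.N

open Function

def digitAt (t : Prog 13) : Prog 13 :=
  seqs [copyT, pushU rL, pushU rV, pushU rOk, .call false, t, popU rOk, popU rV, popU rL, extract,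
    popT]

def pushDigits (t : Prog 13) : Prog 13 := .loop (.nz rL) (seqs [dec rL, digitAt t, pushU rW])

def walk : Prog 13 := seqs [.loop (.isnt sE) (seqs [popU rV, .call true, inc rL]), pop]

def childBody : Prog 13 :=
  .ite (.nz rOk)
    (seqs [digitAt .skip, diff rW rV rT1,
      .ite (.nz rT1)
        (seqs [clr rT1, ifT0 (seqs [dec rOk, clr rV])
          (seqs [push sE, pushU rV, pushDigits .skip, decT, walk, dec rL])])
        (clr rV)])
    (clr rV)

def setRoot : Prog 13 := seqs [add rR rP, inc rP]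

def lookup : Prog 13 :=
  seqs [push sE, add rR rL, inc rL, inc rL, inc rL, pushDigits query, inc rOk, walk, clr rL]

def backtrack : Prog 13 :=
  seqs [lookup, clr rOk, ifT0 setRoot (seqs [decT, .call false, .ite (.nz rB) (dec rB) .skip])]

def explore : Prog 13 :=
  seqs [clr rW, copyT, lookup, clr 0, clr rH,
    .ite (.nz rOk) (seqs [clr rOk, popT, .call false, dec rB]) (seqs [popT, .call false, query])]

def curBody : Prog 13 :=
  ifT0 (seqs [setRoot, add rC rB])
    (seqs [decT, inc rL, inc rL, digitAt .skip, dec rL, dec rL, .ite (.nz rW) explore backtrack])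

def procs : Bool → Prog 13
  | false => curBody
  | true => childBody

/-- Registers holding a time. -/
def WT (r C τ o l v w : ℕ) : Reg → ℕ := W (τ % 2 ^ r) r C (τ / 2 ^ r) o l v w 0 0 0 0 0 0

/-- The state of the search. -/
noncomputable def adr (n r C : ℕ) : ℕ → (ℕ × ℕ × ℕ) × ℕ := dfs (0, r + 1, 0) C (nb n r C)

/-- The digits `e j, …, e (j + m - 1)` on the stack. -/
def svf (e : ℕ → ℕ) : ℕ → ℕ → List Sym → List Sym
  | _, 0, st => st
  | j, m + 1, st => sv (e j) (svf e (j + 1) m st)

theorem svf_snoc (e : ℕ → ℕ) (j m : ℕ) (st : List Sym) :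
    svf e j (m + 1) st = svf e j m (sv (e (j + m)) st) := by
  induction m generalizing j with
  | zero => rfl
  | succ m ih => rw [svf, ih, svf, add_assoc, add_comm 1 m]

theorem svf_congr {e e' : ℕ → ℕ} (j m : ℕ) (st : List Sym) (h : ∀ i < j + m, e i = e' i) :
    svf e j m st = svf e' j m st := by
  induction m generalizing j with
  | zero => rfl
  | succ m ih => rw [svf, svf, h j (by omega), ih (j + 1) (fun i hi => h i (by omega))]

variable {n A r C : ℕ}

theorem adr_val (G : Good n r C A) (τ : ℕ) : Val r C (adr n r C τ) :=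
  dfs_mem (S := fun u : ℕ × ℕ × ℕ => u.1 ≤ C ∧ u.2.1 ≤ r + 1 ∧ u.2.2 < 2 ^ r)
    ⟨Nat.zero_le _, le_rfl, by positivity⟩ (fun u hu j hj => nb_val G.r1 u hu j hj) τ

theorem qry_val (G : Good n r C A) {a : (ℕ × ℕ × ℕ) × ℕ} (ha : Val r C a) :
    Val r C (qry C (nb n r C) a) := by
  refine ⟨?_, le_rfl⟩
  simp only [qry]
  split_ifs with e
  · exact ha.1
  · exact nb_val G.r1 _ ha.1 _ (by have := ha.2; omega)

theorem ex_query {pr : Bool → Prog 13} (G : Good n r C A) {a : (ℕ × ℕ × ℕ) × ℕ}
    (ha : Val r C a) (st : List Sym) :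
    Exec (bdv n A) pr query (WA r C a 0 0 0, st) (WA r C (qry C (nb n r C) a) 0 0 0, st) := by
  have G' := G
  obtain ⟨h1, r1, hC, hA, hT⟩ := G'
  obtain ⟨⟨q, p, x⟩, b⟩ := a
  obtain ⟨⟨a1, a2, a3⟩, a4⟩ := ha
  simp only at a1 a2 a3 a4
  simp only [WA, qry]
  cases b with
  | zero =>
    refine ex_cons (.iteF (by simp [TstS]) (.skip _)) ?_
    exact ex_cons (ex_add (by decide) (by simp <;> omega) (by simp <;> omega)) (ex_nil (by simp))
  | succ b =>
    refine ex_cons (.iteT (by simp [TstS]) (ex_cons (ex_dec (by simp))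
      (ex_cons (by simpa using ex_edge G a1 a2 a3 (j := b) (by omega)) (ex_nil rfl)))) ?_
    exact ex_cons (ex_add (by decide) (by simp <;> omega) (by simp <;> omega)) (ex_nil (by simp))

def CurS (n A r C τ : ℕ) : Prop :=
  Exec (bdv n A) procs (procs false) (WT r C τ 0 0 0 0, []) (WA r C (adr n r C τ) 0 0 0, [])

def ChP (n r C τ l v : ℕ) (σ : ℕ) : Prop :=
  (∀ i < l, dig (adr n r C σ) i = dig (adr n r C τ) i) ∧ dig (adr n r C σ) l = v

def ChildS (n A r C τ : ℕ) : Prop :=
  ∀ l v, l ≤ r + 2 → v ≤ r + 1 → Exec (bdv n A) procs (procs true) (WT r C τ 1 l v 0, [])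
    (WT r C (lastP (ChP n r C τ l v) τ) (okP (ChP n r C τ l v) τ) l 0 0, [])

theorem ex_digitAt (G : Good n r C A) {t : Prog 13} {τ o l v : ℕ} {a : (ℕ × ℕ × ℕ) × ℕ}
    {st : List Sym} (hτ : τ / 2 ^ r ≤ A) (hc : CurS n A r C τ)
    (ht : ∀ st, Exec (bdv n A) procs t (WA r C (adr n r C τ) 0 0 0, st) (WA r C a 0 0 0, st))
    (ha : Val r C a) (ho : o ≤ A) (hl : l ≤ A) (hv : v ≤ A) :
    Exec (bdv n A) procs (digitAt t) (WT r C τ o l v 0, st) (WT r C τ o l v (dig a l), st) := by
  unfold WT
  refine ex_cons (ex_copyT G hτ) ?_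
  refine ex_cons ex_pushU ?_; simp only [W_L, U_L]
  refine ex_cons ex_pushU ?_; simp only [W_V, U_V]
  refine ex_cons ex_pushU ?_; simp only [W_Ok, U_Ok]
  refine ex_cons (.call hc) (ex_cons (ht _) ?_)
  unfold WA
  refine ex_cons (ex_popU (by simpa)) ?_; simp only [W_Ok, U_Ok, zero_add]
  refine ex_cons (ex_popU (by simpa)) ?_; simp only [W_V, U_V, zero_add]
  refine ex_cons (ex_popU (by simpa)) ?_; simp only [W_L, U_L, zero_add]
  exact ex_cons (ex_extract G ha hl) (ex_cons (ex_popT G hτ) (ex_nil rfl))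

theorem ex_pushDigits (G : Good n r C A) {t : Prog 13} {τ o : ℕ} {a : (ℕ × ℕ × ℕ) × ℕ}
    (hτ : τ / 2 ^ r ≤ A) (hc : CurS n A r C τ)
    (ht : ∀ st, Exec (bdv n A) procs t (WA r C (adr n r C τ) 0 0 0, st) (WA r C a 0 0 0, st))
    (ha : Val r C a) (ho : o ≤ A) (l : ℕ) (hl : l ≤ A) (st : List Sym) :
    Exec (bdv n A) procs (pushDigits t) (WT r C τ o l 0 0, st)
      (WT r C τ o 0 0 0, svf (dig a) 0 l st) := by
  induction l generalizing st with
  | zero => exact .loopF (by simp [TstS, WT])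
  | succ l ih =>
    rw [svf_snoc, zero_add]
    refine .loopT (by simp [TstS, WT]) ?_ (ih (by omega) _)
    refine ex_cons (s' := (WT r C τ o l 0 0, st)) (ex_of_eq (ex_dec (by simp [WT]))
      (by simp [WT])) ?_
    refine ex_cons (ex_digitAt G hτ hc ht ha ho (by omega) (by omega)) ?_
    exact ex_cons ex_pushU (ex_nil (by simp [WT]))

/-- Agreement with the first `j` digits `e`. -/
def Pre (n r C : ℕ) (e : ℕ → ℕ) (j : ℕ) (σ : ℕ) : Prop := ∀ i < j, dig (adr n r C σ) i = e i

theorem ex_child (G : Good n r C A) {t : ℕ} (hch : ∀ τ ≤ t, ChildS n A r C τ) (e : ℕ → ℕ) (j : ℕ)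
    (hj : j ≤ r + 2) (he : e j ≤ r + 1) (st : List Sym) :
    Exec (bdv n A) procs (.call true)
      (WT r C (lastP (Pre n r C e j) t) (okP (Pre n r C e j) t) j (e j) 0, st)
      (WT r C (lastP (Pre n r C e (j + 1)) t) (okP (Pre n r C e (j + 1)) t) j 0 0, st) := by
  have hsub : ∀ σ, Pre n r C e (j + 1) σ → Pre n r C e j σ := fun σ h i hi => h i (by omega)
  refine .call ?_
  by_cases h : okP (Pre n r C e j) t = 0
  · obtain ⟨a1, a2⟩ := last_none h hsub
    obtain ⟨_, a3⟩ := last_none h (fun _ h => h)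
    rw [a1, a2, a3, h]
    exact .iteF (by simp [TstS, WT]) (ex_of_eq ex_clr (by simp [WT]))
  · have h1 : okP (Pre n r C e j) t = 1 := by have := okP_le (Pre n r C e j) t; omega
    have h2 := lastP_spec h
    have h3 := hch _ (lastP_le (Pre n r C e j) t) j (e j) hj he
    have h4 : ChP n r C (lastP (Pre n r C e j) t) j (e j) = Pre n r C e (j + 1) := by
      funext σ
      refine propext ⟨fun ⟨b1, b2⟩ i hi => ?_, fun b => ⟨fun i hi => ?_, b j (by omega)⟩⟩
      · by_cases e' : i = j
        · rw [e', b2]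
        · rw [b1 i (by omega), h2 i (by omega)]
      · rw [b i (by omega), h2 i hi]
    obtain ⟨a1, a2⟩ := last_sub t hsub
    rw [h4, a1, a2] at h3
    rw [h1]
    exact h3

theorem ex_walk (G : Good n r C A) {t : ℕ} (hch : ∀ τ ≤ t, ChildS n A r C τ) (e : ℕ → ℕ)
    (he : ∀ i, e i ≤ r + 1) (m : ℕ) (hm : m ≤ r + 3) (st : List Sym) :
    Exec (bdv n A) procs walk (WT r C t 1 0 0 0, svf e 0 m (sE :: st))
      (WT r C (lastP (Pre n r C e m) t) (okP (Pre n r C e m) t) m 0 0, st) := by
  have hA := G.hA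
  have key : ∀ m j, j + m ≤ r + 3 →
      Exec (bdv n A) procs (.loop (.isnt sE) (seqs [popU rV, .call true, inc rL]))
        (WT r C (lastP (Pre n r C e j) t) (okP (Pre n r C e j) t) j 0 0, svf e j m (sE :: st))
        (WT r C (lastP (Pre n r C e (j + m)) t) (okP (Pre n r C e (j + m)) t) (j + m) 0 0,
          sE :: st) := by
    intro m
    induction m with
    | zero => intro j _; exact .loopF (by simp [TstS, svf])
    | succ m ih =>
      intro j hj
      have := ih (j + 1) (by omega)
      rw [add_assoc, add_comm 1 m] at this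
      refine .loopT ?_ ?_ this
      · simp only [TstS, svf, sv]
        cases e j <;> simp [List.replicate_succ]
      · have := he j
        refine ex_cons (s' := (WT r C (lastP (Pre n r C e j) t) (okP (Pre n r C e j) t) j (e j) 0,
          svf e (j + 1) m (sE :: st))) (ex_of_eq (ex_popU (by simp [WT]; omega))
            (by simp [WT])) ?_
        refine ex_cons (ex_child G hch e j (by omega) (he j) _) ?_
        exact ex_cons (ex_inc (by simp [WT]; omega)) (ex_nil (by simp [WT]))
  have := key m 0 (by omega)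
  have h0 : Pre n r C e 0 t := fun i hi => absurd hi (Nat.not_lt_zero i)
  rw [lastP_self h0, okP_self h0, zero_add] at this
  exact ex_cons this (ex_cons ex_pop (ex_nil rfl))

theorem childS (G : Good n r C A) {τ : ℕ} (hτ : τ / 2 ^ r ≤ A) (hc : CurS n A r C τ)
    (hch : ∀ σ < τ, ChildS n A r C σ) : ChildS n A r C τ := by
  intro l v hl hv
  have hA := G.hA
  have hd := dig_le G (adr_val G τ) l
  refine .iteT (by simp [TstS, WT]) ?_
  refine ex_cons (ex_digitAt G hτ hc (fun _ => .skip _) (adr_val G τ) (by omega) (by omega)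
    (by omega)) ?_
  refine ex_cons (ex_diff (by decide) (by decide) (by decide) (by simp [WT]; omega)
    (by simp [WT]; omega)) ?_
  simp only [WT, W_T1, W_V, W_W, U_W, U_T1, zero_add]
  refine ex_cons ?_ (ex_nil rfl)
  by_cases e : dig (adr n r C τ) l = v
  · have h : ChP n r C τ l v τ := ⟨fun _ _ => rfl, e⟩
    rw [lastP_self h, okP_self h]
    exact .iteF (by simp [TstS, e]) (ex_of_eq ex_clr (by simp [e]))
  · have h : ¬ ChP n r C τ l v τ := fun h => e h.2
    refine .iteT (by simp [TstS]; omega) ?_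
    refine ex_cons ex_clr ?_; simp only [U_T1]
    refine ex_cons ?_ (ex_nil rfl)
    cases τ with
    | zero =>
      rw [okP_zero h, lastP_zero]
      simp only [Nat.zero_mod, Nat.zero_div]
      exact ex_ifT0 (ex_cons (ex_dec (by simp)) (ex_cons ex_clr (ex_nil (by simp))))
    | succ σ =>
      rw [okP_succ h, lastP_succ h]
      refine ex_ifT1 (ex_cons ex_push ?_)
      refine ex_cons ex_pushU ?_; simp only [W_V, U_V]
      refine ex_cons (ex_pushDigits G hτ hc (fun _ => .skip _) (adr_val G _) (by omega) l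
        (by omega) _) ?_
      refine ex_cons (ex_decT G) ?_
      have w := ex_walk G (t := σ) (fun τ hτ => hch τ (by omega))
        (update (dig (adr n r C (σ + 1))) l v) (fun i => by
          rw [update_apply]
          split_ifs
          · exact hv
          · exact dig_le G (adr_val G _) i) (l + 1) (by omega) []
      have h4 : Pre n r C (update (dig (adr n r C (σ + 1))) l v) (l + 1) =
          ChP n r C (σ + 1) l v := by
        funext ρ
        refine propext ⟨fun b => ⟨fun i hi => ?_, ?_⟩, fun ⟨b1, b2⟩ i hi => ?_⟩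
        · rw [b i (by omega), update_of_ne (by omega)]
        · rw [b l (by omega), update_self]
        · by_cases e' : i = l
          · rw [e', b2, update_self]
          · rw [b1 i (by omega), update_of_ne e']
      rw [h4, svf_snoc, zero_add, update_self, svf_congr (e' := dig (adr n r C (σ + 1))) 0 l _
        (fun i hi => update_of_ne (by omega) _ _)] at w
      exact ex_cons w (ex_cons (ex_dec (by simp [WT])) (ex_nil (by simp [WT])))

theorem ex_lookup (G : Good n r C A) {σ : ℕ} (hτ : σ / 2 ^ r ≤ A) (hc : CurS n A r C σ)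
    (hch : ∀ τ ≤ σ, ChildS n A r C τ) (st : List Sym) :
    Exec (bdv n A) procs lookup (WT r C σ 0 0 0 0, st)
      (WT r C (lastP (fun τ => adr n r C τ = qry C (nb n r C) (adr n r C σ)) σ)
        (okP (fun τ => adr n r C τ = qry C (nb n r C) (adr n r C σ)) σ) 0 0 0, st) := by
  have hA := G.hA
  have hq := qry_val G (adr_val G σ)
  have w := ex_walk G hch (dig (qry C (nb n r C) (adr n r C σ))) (dig_le G hq) (r + 3) le_rfl st
  have h4 : Pre n r C (dig (qry C (nb n r C) (adr n r C σ))) (r + 3) =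
      fun τ => adr n r C τ = qry C (nb n r C) (adr n r C σ) := by
    funext ρ
    exact propext ⟨fun b => dig_inj (adr_val G ρ) hq b, fun b i _ => by rw [b]⟩
  rw [h4] at w
  refine ex_cons ex_push ?_
  unfold WT
  refine ex_cons (ex_add (by decide) (by simp <;> omega) (by simp <;> omega)) ?_
  simp only [W_L, W_R, U_L, zero_add]
  iterate 3 (refine ex_cons (ex_inc (by simp <;> omega)) ?_; simp only [W_L, U_L])
  refine ex_cons (ex_pushDigits G hτ hc (ex_query G (adr_val G σ)) hq (by omega) (r + 3)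
    (by omega) _) ?_
  refine ex_cons (s' := (WT r C σ 1 0 0 0, _)) (ex_of_eq (ex_inc (by simp [WT]; omega))
    (by simp [WT]; rfl)) ?_
  exact ex_cons w (ex_cons ex_clr (ex_nil (by simp [WT])))

theorem ex_setRoot (G : Good n r C A) {pr : Bool → Prog 13} (st : List Sym) :
    Exec (bdv n A) pr setRoot (W 0 r C 0 0 0 0 0 0 0 0 0 0 0, st)
      (W 0 r C 0 0 0 0 0 0 (r + 1) 0 0 0 0, st) := by
  have hA := G.hA
  refine ex_cons (ex_add (by decide) (by simp <;> omega) (by simp <;> omega)) ?_
  exact ex_cons (ex_inc (by simp <;> omega)) (ex_nil (by simp))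

theorem curS (G : Good n r C A) {τ : ℕ} (hτ : τ / 2 ^ r ≤ A) (hc : ∀ σ < τ, CurS n A r C σ)
    (hch : ∀ σ < τ, ChildS n A r C σ) : CurS n A r C τ := by
  have hA := G.hA
  have hC := G.hC
  unfold CurS
  cases τ with
  | zero =>
    simp only [WT, Nat.zero_mod, Nat.zero_div, adr, dfs_zero, WA]
    refine ex_ifT0 (ex_cons (ex_setRoot G _) ?_)
    exact ex_cons (ex_add (by decide) (by simp <;> omega) (by simp <;> omega)) (ex_nil (by simp))
  | succ σ =>
    have hσ : σ / 2 ^ r ≤ A := (Nat.div_le_div_right (Nat.le_succ σ)).trans hτ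
    have hl := ex_lookup G hσ (hc σ (by omega)) (fun τ hτ => hch τ (by omega))
    have hs : adr n r C (σ + 1) = stepF (0, r + 1, 0) C (nb n r C) (adr n r C) σ :=
      dfs_succ _ _ _ σ
    unfold stepF at hs
    refine ex_ifT1 (ex_cons (ex_decT G) ?_)
    iterate 2 (refine ex_cons (ex_inc (by simp <;> omega)) ?_; simp only [W_L, U_L])
    refine ex_cons (ex_digitAt G hσ (hc σ (by omega)) (fun _ => .skip _) (adr_val G σ) (by omega)
      (by omega) (by omega)) ?_
    unfold WT
    iterate 2 (refine ex_cons (ex_dec (by simp)) ?_; simp only [W_L, U_L])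
    refine ex_cons ?_ (ex_nil rfl)
    have hd : dig (adr n r C σ) (0 + 1 + 1) = (adr n r C σ).2 := by simp [dig]
    rw [hd]
    by_cases e : (adr n r C σ).2 = 0
    · rw [if_pos e] at hs
      refine .iteF (by simp [TstS, e]) ?_
      rw [e]
      refine ex_cons (hl _) ?_
      have hle := lastP_le (fun τ => adr n r C τ = qry C (nb n r C) (adr n r C σ)) σ
      generalize lastP (fun τ => adr n r C τ = qry C (nb n r C) (adr n r C σ)) σ = ρ at hs hle
      refine ex_cons ex_clr ?_
      simp only [WT, U_Ok]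
      refine ex_cons ?_ (ex_nil rfl)
      cases ρ with
      | zero =>
        rw [if_pos rfl] at hs
        simp only [Nat.zero_mod, Nat.zero_div, hs, WA]
        exact ex_ifT0 (ex_setRoot G _)
      | succ ρ =>
        rw [if_neg (by omega), Nat.add_sub_cancel] at hs
        refine ex_ifT1 (ex_cons (ex_decT G) (ex_cons (.call (hc ρ (by omega)))
          (ex_cons ?_ (ex_nil rfl))))
        rw [hs]
        by_cases e2 : (adr n r C ρ).2 = 0
        · exact .iteF (by simp [TstS, WA, e2]) (ex_of_eq (.skip _) (by simp [WA, e2]))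
        · exact .iteT (by simp [TstS, WA, e2]) (ex_of_eq (ex_dec (by simp [WA]; omega))
            (by simp [WA]))
    · rw [if_neg e] at hs
      refine .iteT (by simp [TstS, e]) ?_
      refine ex_cons ex_clr ?_; simp only [U_W]
      refine ex_cons (ex_copyT G hσ) (ex_cons (hl _) ?_)
      refine ex_cons ex_clr ?_; simp only [WT, U_X]
      refine ex_cons ex_clr ?_; simp only [U_H]
      refine ex_cons ?_ (ex_nil rfl)
      rw [hs]
      split_ifs with e2
      · refine .iteF (by simp [TstS, e2]) ?_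
        rw [e2]
        exact ex_cons (ex_popT G hσ) (ex_cons (.call (hc σ (by omega)))
          (ex_cons (ex_query G (adr_val G σ) _) (ex_nil rfl)))
      · refine .iteT (by simp [TstS, e2]) ?_
        refine ex_cons ex_clr ?_; simp only [U_Ok]
        refine ex_cons (ex_popT G hσ) (ex_cons (.call (hc σ (by omega))) ?_)
        exact ex_cons (ex_dec (by simp [WA]; omega)) (ex_nil (by simp [WA]))

theorem all_spec (G : Good n r C A) (τ : ℕ) (hτ : τ / 2 ^ r ≤ A) :
    CurS n A r C τ ∧ ChildS n A r C τ := by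
  induction τ using Nat.strong_induction_on with
  | _ τ ih =>
    have ih' : ∀ σ < τ, CurS n A r C σ ∧ ChildS n A r C σ :=
      fun σ hσ => ih σ hσ ((Nat.div_le_div_right hσ.le).trans hτ)
    have hc := curS G hτ (fun σ hσ => (ih' σ hσ).1) (fun σ hσ => (ih' σ hσ).2)
    exact ⟨hc, childS G hτ hc (fun σ hσ => (ih' σ hσ).2)⟩

def main : Prog 13 :=
  seqs [toEnd, .loop (.nz 0) (seqs [halve 0, inc rR]), dec rR,
    toEnd, popB 0, .loop (.is sE) (seqs [pop, inc rC, popB 0]), pop, clr 0,
    add rR rT1, inc rT1, inc rT1, add rT1 rT2, add rT1 rT3, rep rT1 (rep rT2 (add rT3 rH)),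
    clr rT1, clr rT2, clr rT3, inc rOk, inc rV, .call true, clr 0,
    .ite (.nz rOk) (inc 0) .skip]

theorem ex_main (G : Good n r C A) (h2 : n < 2 ^ (r + 1)) {m : ℕ} (hn : n = 2 ^ C * (2 * m + 1)) :
    ∃ c : Reg → ℕ, Exec (bdv n A) procs main (fun _ => 0, []) (c, []) ∧
      (c 0 = 0 ↔ ¬ ∃ τ ≤ (r + 2) ^ 3 * 2 ^ r, (adr n r C τ).1.1 = 1) := by
  have G' := G
  obtain ⟨h1, r1, hC, hA, hT⟩ := G'
  have hp : 0 < 2 ^ r := by positivity
  have k1 : ∀ i j, j + i = r + 1 →
      Exec (bdv n A) procs (.loop (.nz 0) (seqs [halve 0, inc rR]))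
        (W (n / 2 ^ j) j 0 0 0 0 0 0 0 0 0 0 0 0, []) (W 0 (r + 1) 0 0 0 0 0 0 0 0 0 0 0 0, []) := by
    intro i
    induction i with
    | zero =>
      intro j e
      obtain rfl : j = r + 1 := by omega
      rw [Nat.div_eq_of_lt h2]
      exact .loopF (by simp [TstS])
    | succ i ih =>
      intro j e
      have e3 : n / 2 ^ (j + 1) = n / 2 ^ j / 2 := by rw [pow_succ, Nat.div_div_eq_div_mul]
      have e4 : n / 2 ^ j ≤ n := Nat.div_le_self _ _
      have e5 : 0 < n / 2 ^ j :=
        Nat.div_pos ((Nat.pow_le_pow_right (by omega) (by omega)).trans h1) (by positivity)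
      refine .loopT (by simp only [TstS, W_X]; omega) ?_ (ih (j + 1) (by omega))
      refine ex_cons (ex_halve (by simp <;> omega)) ?_; simp only [W_X, U_X]
      exact ex_cons (ex_inc (by simp <;> omega)) (ex_nil (by simp [e3]))
  have k2 : ∀ i j, j + i = C → 2 ^ i * (2 * m + 1) ≤ n →
      Exec (bdv n A) procs (.loop (.is sE) (seqs [pop, inc rC, popB 0]))
        (W (2 ^ i * (2 * m + 1) / 2) r j 0 0 0 0 0 0 0 0 0 0 0,
          [bs (2 ^ i * (2 * m + 1) % 2 = 1)])
        (W m r C 0 0 0 0 0 0 0 0 0 0 0, [sU]) := by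
    intro i
    induction i with
    | zero =>
      intro j e _
      obtain rfl : j = C := by omega
      have a1 : 2 ^ 0 * (2 * m + 1) / 2 = m := by omega
      have a2 : 2 ^ 0 * (2 * m + 1) % 2 = 1 := by omega
      rw [a1, a2]
      exact .loopF (by simp [TstS, bs])
    | succ i ih =>
      intro j e hl
      have a0 : 2 ^ (i + 1) * (2 * m + 1) = 2 * (2 ^ i * (2 * m + 1)) := by ring
      have a1 : 2 ^ (i + 1) * (2 * m + 1) / 2 = 2 ^ i * (2 * m + 1) := by omega
      have a2 : 2 ^ (i + 1) * (2 * m + 1) % 2 = 0 := by omega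
      rw [a1, a2]
      refine .loopT (by simp [TstS, bs]) ?_ (ih (j + 1) (by omega) (by omega))
      refine ex_cons ex_pop (ex_cons (ex_inc (by simp <;> omega)) ?_)
      simp only [W_C, U_C]
      exact ex_cons (ex_popB (by simp <;> omega)) (ex_nil (by simp only [W_X, U_X]; rfl))
  have hch := (all_spec G ((r + 2) ^ 3 * 2 ^ r) (by rw [Nat.mul_div_cancel _ hp]; exact hT)).2
    0 1 (by omega) (by omega)
  have hP : ChP n r C ((r + 2) ^ 3 * 2 ^ r) 0 1 = fun τ => (adr n r C τ).1.1 = 1 := by
    funext τ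
    simp [ChP, dig]
  rw [hP] at hch
  have hok : okP (fun τ => (adr n r C τ).1.1 = 1) ((r + 2) ^ 3 * 2 ^ r) = 0 ↔
      ¬ ∃ τ ≤ (r + 2) ^ 3 * 2 ^ r, (adr n r C τ).1.1 = 1 := by
    unfold okP
    split_ifs with e <;> simp [e]
  have hle := okP_le (fun τ => (adr n r C τ).1.1 = 1) ((r + 2) ^ 3 * 2 ^ r)
  generalize okP (fun τ => (adr n r C τ).1.1 = 1) ((r + 2) ^ 3 * 2 ^ r) = o at hch hok hle
  generalize lastP (fun τ => (adr n r C τ).1.1 = 1) ((r + 2) ^ 3 * 2 ^ r) = ρ at hch
  refine ⟨W o r C (ρ / 2 ^ r) o 0 0 0 0 0 0 0 0 0, ?_, hok⟩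
  have z : (fun _ => 0) = W 0 0 0 0 0 0 0 0 0 0 0 0 0 0 := by funext i; fin_cases i <;> rfl
  rw [z]
  refine ex_cons (ex_toEnd (by simp)) ?_; simp only [U_X, bd_X]
  refine ex_cons (by simpa using k1 (r + 1) 0 (by omega)) ?_
  refine ex_cons (ex_dec (by simp)) ?_; simp only [W_R, U_R, Nat.add_sub_cancel]
  refine ex_cons (ex_toEnd (by simp)) ?_; simp only [U_X, bd_X]
  refine ex_cons (ex_popB (by simp <;> omega)) ?_; simp only [W_X, U_X]
  have := k2 C 0 (by omega) hn.ge
  rw [← hn] at this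
  refine ex_cons this (ex_cons ex_pop ?_)
  refine ex_cons ex_clr ?_; simp only [U_X]
  refine ex_cons (ex_add (by decide) (by simp <;> omega) (by simp <;> omega)) ?_
  simp only [W_T1, W_R, U_T1, zero_add]
  iterate 2 (refine ex_cons (ex_inc (by simp <;> omega)) ?_; simp only [W_T1, U_T1])
  refine ex_cons (ex_add (by decide) (by simp <;> omega) (by simp <;> omega)) ?_
  simp only [W_T1, W_T2, U_T2, zero_add]
  refine ex_cons (ex_add (by decide) (by simp <;> omega) (by simp <;> omega)) ?_
  simp only [W_T1, W_T3, U_T3, zero_add]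
  rw [show r + 1 + 1 = r + 2 by omega]
  refine ex_cons (ex_rep (fun j => W 0 r C (j * ((r + 2) * (r + 2))) 0 0 0 0 0 0 0 (r + 2) (r + 2)
    (r + 2)) (by simp) (by simp <;> omega) ?_) ?_
  · intro j hj x st
    simp only [W_T1, U_T1] at hj ⊢
    refine ex_of_eq (ex_rep (fun i => W 0 r C (j * ((r + 2) * (r + 2)) + i * (r + 2)) 0 0 0 0 0 0 0
      x (r + 2) (r + 2)) (by simp) (by simp <;> omega) ?_) ?_
    · intro i hi y st
      simp only [W_T2, U_T2] at hi ⊢
      have b1 : (i + 1) * (r + 2) ≤ (r + 2) * (r + 2) := Nat.mul_le_mul_right _ hi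
      have b2 : (j + 1) * ((r + 2) * (r + 2)) ≤ (r + 2) * ((r + 2) * (r + 2)) :=
        Nat.mul_le_mul_right _ hj
      refine ex_of_eq (ex_add (by decide) (by simp <;> omega) ?_) ?_
      · simp only [W_H, W_T3, bd_H]
        nlinarith
      · simp only [W_H, W_T3, U_H]
        congr 2
        ring
    · simp only [W_T2, U_T2]
      congr 2
      ring
  simp only [W_T1, U_T1]
  refine ex_cons ex_clr ?_; simp only [U_T1]
  refine ex_cons ex_clr ?_; simp only [U_T2]
  refine ex_cons ex_clr ?_; simp only [U_T3]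
  refine ex_cons (ex_inc (by simp <;> omega)) ?_; simp only [W_Ok, U_Ok]
  refine ex_cons (ex_inc (by simp <;> omega)) ?_; simp only [W_V, U_V, zero_add]
  simp only [WT, Nat.mul_div_cancel _ hp, Nat.mul_mod_left] at hch
  rw [show (r + 2) * ((r + 2) * (r + 2)) = (r + 2) ^ 3 by ring]
  refine ex_cons (.call hch) ?_
  refine ex_cons ex_clr ?_; simp only [U_X]
  refine ex_cons ?_ (ex_nil rfl)
  obtain rfl | rfl : o = 0 ∨ o = 1 := by omega
  · exact .iteF (by simp [TstS]) (.skip _)
  · exact .iteT (by simp [TstS]) (ex_of_eq (ex_inc (by simp <;> omega)) (by simp))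

end Pool.Agent.P.MP_d0a708_lc.N
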