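import Mathlib

/-!
Predicates on tuples of natural numbers that a finite automaton recognises from the binary digits.
-/

namespace Pool.Agent.P.MP_d0a708_lc.N

abbrev Pr := (ℕ → ℕ) → Prop

/-- A family of predicates that is closed under reading one column of binary digits. -/
def Closed (G : Set Pr) : Prop :=
  ∀ R ∈ G, ∀ v, R v → ∃ R' ∈ G, R' (fun i => v i / 2) ∧ ∀ w, R' w → R (fun i => 2 * w i + v i % 2)

def Aut (P : Pr) : Prop := ∃ G : Set Pr, G.Finite ∧ P ∈ G ∧ Closed G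

theorem Aut.congr {P Q : Pr} (h : Aut P) (e : ∀ v, P v ↔ Q v) : Aut Q := by
  rwa [show Q = P from funext fun v => propext (e v).symm]

theorem Aut.const (p : Prop) : Aut (fun _ => p) := by
  refine ⟨{fun _ => p}, Set.finite_singleton _, rfl, ?_⟩
  rintro _ rfl v hv
  exact ⟨_, rfl, hv, fun _ h => h⟩

theorem Aut.and {P Q : Pr} (h : Aut P) (h' : Aut Q) : Aut (fun v => P v ∧ Q v) := by
  obtain ⟨G, a1, a2, a3⟩ := h
  obtain ⟨G', b1, b2, b3⟩ := h'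
  refine ⟨Set.image2 (fun R R' v => R v ∧ R' v) G G', a1.image2 _ b1, ⟨P, a2, Q, b2, rfl⟩, ?_⟩
  rintro _ ⟨R, hR, R', hR', rfl⟩ v ⟨h1, h2⟩
  obtain ⟨S, c1, c2, c3⟩ := a3 R hR v h1
  obtain ⟨S', d1, d2, d3⟩ := b3 R' hR' v h2
  exact ⟨_, ⟨S, c1, S', d1, rfl⟩, ⟨c2, d2⟩, fun w hw => ⟨c3 w hw.1, d3 w hw.2⟩⟩

theorem Aut.or {P Q : Pr} (h : Aut P) (h' : Aut Q) : Aut (fun v => P v ∨ Q v) := by
  obtain ⟨G, a1, a2, a3⟩ := h
  obtain ⟨G', b1, b2, b3⟩ := h'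
  refine ⟨insert (fun v => P v ∨ Q v) (G ∪ G'), (a1.union b1).insert _, Or.inl rfl, ?_⟩
  rintro R (rfl | hR | hR) v hv
  · rcases hv with hv | hv
    · obtain ⟨S, c1, c2, c3⟩ := a3 P a2 v hv
      exact ⟨S, Or.inr (Or.inl c1), c2, fun w hw => Or.inl (c3 w hw)⟩
    · obtain ⟨S, c1, c2, c3⟩ := b3 Q b2 v hv
      exact ⟨S, Or.inr (Or.inr c1), c2, fun w hw => Or.inr (c3 w hw)⟩
  · obtain ⟨S, c1, c2, c3⟩ := a3 R hR v hv
    exact ⟨S, Or.inr (Or.inl c1), c2, c3⟩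
  · obtain ⟨S, c1, c2, c3⟩ := b3 R hR v hv
    exact ⟨S, Or.inr (Or.inr c1), c2, c3⟩

theorem Aut.comp {P : Pr} (h : Aut P) (f : ℕ → ℕ) : Aut (fun v => P (fun i => v (f i))) := by
  obtain ⟨G, a1, a2, a3⟩ := h
  refine ⟨(fun R v => R (fun i => v (f i))) '' G, a1.image _, ⟨P, a2, rfl⟩, ?_⟩
  rintro _ ⟨R, hR, rfl⟩ v hv
  obtain ⟨S, c1, c2, c3⟩ := a3 R hR _ hv
  exact ⟨_, ⟨S, c1, rfl⟩, c2, fun w hw => c3 _ hw⟩

def vcons (n : ℕ) (v : ℕ → ℕ) : ℕ → ℕ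
  | 0 => n
  | i + 1 => v i

theorem Aut.ex {P : ℕ → Pr} (h : Aut (fun v => P (v 0) (fun i => v (i + 1)))) :
    Aut (fun v => ∃ n, P n v) := by
  obtain ⟨G, a1, a2, a3⟩ := h
  refine ⟨(fun R v => ∃ n, R (vcons n v)) '' G, a1.image _, ⟨_, a2, rfl⟩, ?_⟩
  rintro _ ⟨R, hR, rfl⟩ v ⟨n, hv⟩
  obtain ⟨S, c1, c2, c3⟩ := a3 R hR _ hv
  refine ⟨_, ⟨S, c1, rfl⟩, ⟨n / 2, ?_⟩, fun w ⟨m, hw⟩ => ⟨2 * m + n % 2, ?_⟩⟩
  · convert c2 using 1
    funext i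
    cases i <;> rfl
  · convert c3 _ hw using 1
    funext i
    cases i <;> rfl

theorem Aut.set_ex {α : Type} {s : Set α} (hs : s.Finite) {P : α → Pr} (h : ∀ a, Aut (P a)) :
    Aut (fun v => ∃ a ∈ s, P a v) := by
  induction s, hs using Set.Finite.induction_on with
  | empty => exact (Aut.const False).congr (by simp)
  | @insert a s _ _ ih => exact ((h a).or ih).congr (by simp)

theorem Aut.fin_ex {α : Type} [Finite α] {P : α → Pr} (h : ∀ a, Aut (P a)) :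
    Aut (fun v => ∃ a, P a v) :=
  (Aut.set_ex Set.finite_univ h).congr (by simp)

theorem Aut.ite {p : Prop} [Decidable p] {P Q : Pr} (h : Aut P) (h' : Aut Q) :
    Aut (fun v => if p then P v else Q v) := by
  by_cases e : p
  · simpa [e] using h
  · simpa [e] using h'

/-- Affine integer functions of finitely many coordinates. -/
def Aff (f : (ℕ → ℕ) → ℤ) : Prop :=
  (∀ w δ : ℕ → ℕ, f (fun i => 2 * w i + δ i) = 2 * f w + f δ - 2 * f (fun _ => 0)) ∧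
    ∃ m : ℤ, ∀ δ : ℕ → ℕ, (∀ i, δ i ≤ 1) → -m ≤ f δ ∧ f δ ≤ m

theorem Aff.var (i : ℕ) : Aff (fun v => (v i : ℤ)) :=
  ⟨fun w δ => by simp, 1, fun δ h => by have := h i; simp only; omega⟩

theorem Aff.const (c : ℤ) : Aff (fun _ => c) :=
  ⟨fun _ _ => by ring, |c|, fun _ _ => ⟨neg_abs_le c, le_abs_self c⟩⟩

theorem Aff.add {f g : (ℕ → ℕ) → ℤ} (h : Aff f) (h' : Aff g) : Aff (fun v => f v + g v) := by
  obtain ⟨a, m, b⟩ := h
  obtain ⟨a', m', b'⟩ := h'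
  refine ⟨fun w δ => by simp only [a, a']; ring, m + m', fun δ h => ?_⟩
  have := b δ h
  have := b' δ h
  simp only
  omega

theorem Aff.mul {f : (ℕ → ℕ) → ℤ} (h : Aff f) (c : ℤ) : Aff (fun v => f v * c) := by
  obtain ⟨a, m, b⟩ := h
  refine ⟨fun w δ => by simp only [a]; ring, m * |c|, fun δ h => ?_⟩
  rw [← abs_le, abs_mul]
  exact mul_le_mul_of_nonneg_right (abs_le.2 (b δ h)) (abs_nonneg c)

theorem Aff.nonneg {f : (ℕ → ℕ) → ℤ} (h : Aff f) : Aut (fun v => 0 ≤ f v) := by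
  obtain ⟨a, m, b⟩ := h
  have b0 := b (fun _ => 0) (by simp)
  refine ⟨(fun (c : ℤ) v => 0 ≤ f v + c) '' Set.Icc (-(3 * m)) (3 * m), (Set.finite_Icc _ _).image _,
    ⟨0, ⟨by omega, by omega⟩, by simp⟩, ?_⟩
  rintro _ ⟨c, ⟨c1, c2⟩, rfl⟩ v hv
  have b1 := b (fun i => v i % 2) (fun i => by omega)
  have e := a (fun i => v i / 2) (fun i => v i % 2)
  rw [show (fun i => 2 * (v i / 2) + v i % 2) = v from funext fun i => by omega] at e
  refine ⟨_, ⟨(f (fun i => v i % 2) - 2 * f (fun _ => 0) + c) / 2, ⟨by omega, by omega⟩, rfl⟩,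
    by simp only at hv ⊢; omega, fun w hw => ?_⟩
  simp only at hw ⊢
  rw [a w (fun i => v i % 2)]
  omega

theorem Aut.le {f g : (ℕ → ℕ) → ℤ} (h : Aff f) (h' : Aff g) : Aut (fun v => f v ≤ g v) :=
  (h'.add (h.mul (-1))).nonneg.congr fun v => by omega

theorem Aut.eq {f g : (ℕ → ℕ) → ℤ} (h : Aff f) (h' : Aff g) : Aut (fun v => f v = g v) :=
  ((Aut.le h h').and (Aut.le h' h)).congr fun _ => le_antisymm_iff.symm

theorem aut_le (i j c d : ℕ) : Aut (fun v => v i + c ≤ v j + d) :=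
  (Aut.le ((Aff.var i).add (Aff.const c)) ((Aff.var j).add (Aff.const d))).congr fun v => by omega

theorem aut_ge (j c : ℕ) : Aut (fun v => c ≤ v j) :=
  (Aut.le (Aff.const c) (Aff.var j)).congr fun v => by omega

theorem aut_eqc (j c : ℕ) : Aut (fun v => v j = c) :=
  (Aut.eq (Aff.var j) (Aff.const c)).congr fun v => by omega

theorem aut_eq (i j c : ℕ) : Aut (fun v => v i + c = v j) :=
  (Aut.eq ((Aff.var i).add (Aff.const c)) (Aff.var j)).congr fun v => by omega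

theorem closed_family {ι : Type} [Finite ι] {P : ι → Pr} (h : ∀ i, Aut (P i)) :
    ∃ G : Set Pr, G.Finite ∧ (∀ i, P i ∈ G) ∧ Closed G := by
  choose G h1 h2 h3 using h
  refine ⟨⋃ i, G i, Set.finite_iUnion h1, fun i => Set.mem_iUnion.2 ⟨i, h2 i⟩, fun R hR v hv => ?_⟩
  obtain ⟨i, hi⟩ := Set.mem_iUnion.1 hR
  obtain ⟨S, c1, c2⟩ := h3 i R hi v hv
  exact ⟨S, Set.mem_iUnion.2 ⟨i, c1⟩, c2⟩

end Pool.Agent.P.MP_d0a708_lc.N
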