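import Mathlib

/-!
Closed walks in a finite graph with displacements in the plane: finitely many two-cycle schemes
give all displacements, along walks that stay close to the bounding box of the displacement.
-/

namespace Pool.Agent.P.MP_d0a708_lc.N

abbrev Z2 := ℤ × ℤ

theorem map_ns (x : Z2 →+ ℤ) (n : ℕ) (v : Z2) : x (n • v) = n * x v := by
  rw [map_nsmul, nsmul_eq_mul]

theorem ns1 (n : ℕ) (v : Z2) : (n • v).1 = n * v.1 := map_ns (AddMonoidHom.fst ℤ ℤ) n v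
theorem ns2 (n : ℕ) (v : Z2) : (n • v).2 = n * v.2 := map_ns (AddMonoidHom.snd ℤ ℤ) n v

variable {Q : Type}

inductive Wk (E : Q → Q → Z2 → Prop) : ℕ → Q → Q → Z2 → Prop
  | nil (q) : Wk E 0 q q 0
  | cons {n q q' q'' d d'} (h : E q q' d) (h' : Wk E n q' q'' d') : Wk E (n + 1) q q'' (d + d')

def Walk (E : Q → Q → Z2 → Prop) (q q' : Q) (d : Z2) : Prop := ∃ n, Wk E n q q' d

variable {E : Q → Q → Z2 → Prop}

theorem Wk.cast {n n' : ℕ} {a b : Q} {d d' : Z2} (h : Wk E n a b d) (e : n = n') (e' : d = d') :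
    Wk E n' a b d' := e ▸ e' ▸ h

theorem Wk.append {n m : ℕ} {a b c : Q} {d d' : Z2} (h : Wk E n a b d) (h' : Wk E m b c d') :
    Wk E (n + m) a c (d + d') := by
  induction h with
  | nil => simpa using h'
  | cons h _ ih => exact (Wk.cons h (ih h')).cast (by omega) (by abel)

theorem Walk.trans {a b c : Q} {d d' : Z2} (h : Walk E a b d) (h' : Walk E b c d') :
    Walk E a c (d + d') := by
  obtain ⟨n, h⟩ := h
  obtain ⟨m, h'⟩ := h'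
  exact ⟨_, h.append h'⟩

theorem Walk.refl (a : Q) : Walk E a a 0 := ⟨0, .nil a⟩

theorem Walk.smul {a : Q} {d : Z2} (h : Walk E a a d) (n : ℕ) : Walk E a a (n • d) := by
  induction n with
  | zero => simpa using Walk.refl a
  | succ n ih => rw [succ_nsmul]; exact ih.trans h

theorem Wk.mono {E' : Q → Q → Z2 → Prop} (hE : ∀ a b d, E a b d → E' a b d) {n : ℕ} {a b : Q}
    {d : Z2} (h : Wk E n a b d) : Wk E' n a b d := by
  induction h with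
  | nil => exact .nil _
  | cons h _ ih => exact .cons (hE _ _ _ h) ih

theorem Wk.seq {n : ℕ} {a b : Q} {d : Z2} (h : Wk E n a b d) :
    ∃ (f : ℕ → Q) (s : ℕ → Z2), f 0 = a ∧ f n = b ∧ s 0 = 0 ∧ s n = d ∧
      ∀ i < n, E (f i) (f (i + 1)) (s (i + 1) - s i) := by
  induction h with
  | nil q => exact ⟨fun _ => q, fun _ => 0, rfl, rfl, rfl, rfl, by simp⟩
  | @cons n q q' q'' d d' h _ ih =>
    obtain ⟨f, s, a1, a2, a3, a4, a5⟩ := ih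
    refine ⟨fun i => Nat.casesOn i q f, fun i => Nat.casesOn i 0 (fun i => d + s i), rfl, a2, rfl,
      by simp [a4], fun i hi => ?_⟩
    cases i with
    | zero => simpa [a1, a3] using h
    | succ i => simpa using a5 i (by omega)

theorem wk_of_seq {n : ℕ} {f : ℕ → Q} {s : ℕ → Z2}
    (h : ∀ i < n, E (f i) (f (i + 1)) (s (i + 1) - s i)) (i m : ℕ) (hm : i + m ≤ n) :
    Wk E m (f i) (f (i + m)) (s (i + m) - s i) := by
  induction m generalizing i with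
  | zero => simpa using Wk.nil (f i)
  | succ m ih =>
    have := Wk.cons (h i (by omega)) (ih (i + 1) (by omega))
    rw [add_assoc, add_comm 1 m] at this
    exact this.cast rfl (by abel)

theorem walk_of_seq {n : ℕ} {f : ℕ → Q} {s : ℕ → Z2}
    (h : ∀ i < n, E (f i) (f (i + 1)) (s (i + 1) - s i)) {i j : ℕ} (hij : i ≤ j) (hj : j ≤ n) :
    Walk E (f i) (f j) (s j - s i) := by
  obtain ⟨m, rfl⟩ := Nat.exists_eq_add_of_le hij
  exact ⟨m, wk_of_seq h i m hj⟩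

def Unit1 (E : Q → Q → Z2 → Prop) : Prop :=
  ∀ a b d, E a b d → -1 ≤ d.1 ∧ d.1 ≤ 1 ∧ -1 ≤ d.2 ∧ d.2 ≤ 1

theorem Wk.bound (hE : Unit1 E) {n : ℕ} {a b : Q} {d : Z2} (h : Wk E n a b d) :
    -(n : ℤ) ≤ d.1 ∧ d.1 ≤ n ∧ -(n : ℤ) ≤ d.2 ∧ d.2 ≤ n := by
  induction h with
  | nil => simp
  | cons h _ ih =>
    have := hE _ _ _ h
    simp only [Prod.fst_add, Prod.snd_add]
    omega

theorem Wk.cut [Finite Q] {n : ℕ} {a b : Q} {d : Z2} (h : Wk E n a b d) (hn : Nat.card Q ≤ n) :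
    ∃ r m n' c d', 0 < m ∧ m ≤ Nat.card Q ∧ n' + m = n ∧ Wk E m r r c ∧ Wk E n' a b d' ∧
      d = d' + c := by
  obtain ⟨f, s, a1, a2, a3, a4, a5⟩ := h.seq
  have := Fintype.ofFinite Q
  have key : ∀ i j, i < j → j ≤ Nat.card Q → f i = f j → ∃ r m n' c d', 0 < m ∧ m ≤ Nat.card Q ∧
      n' + m = n ∧ Wk E m r r c ∧ Wk E n' a b d' ∧ d = d' + c := by
    intro i j hij hj e
    obtain ⟨m, rfl⟩ := Nat.exists_eq_add_of_le hij.le
    obtain ⟨k, rfl⟩ := Nat.exists_eq_add_of_le (hj.trans hn)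
    have w1 := wk_of_seq a5 0 i (by omega)
    have w2 := wk_of_seq a5 i m (by omega)
    have w3 := wk_of_seq a5 (i + m) k le_rfl
    rw [zero_add, a1] at w1
    rw [← e] at w2 w3
    rw [a2] at w3
    refine ⟨_, m, i + k, _, _, by omega, by omega, by omega, w2, w1.append w3, ?_⟩
    rw [a3, a4]
    abel
  obtain ⟨i, j, hij, e⟩ := Fintype.exists_ne_map_eq_of_card_lt
    (fun i : Fin (Nat.card Q + 1) => f i) (by simp)
  rcases lt_or_gt_of_ne hij with h | h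
  · exact key i j h (by omega) e
  · exact key j i h (by omega) e.symm

theorem Wk.pos [Finite Q] {P : Z2 → Prop} (hP : ∀ a b, P (a + b) → P a ∨ P b) {n : ℕ} {a : Q}
    {d : Z2} (h : Wk E n a a d) (hd : P d) :
    ∃ r m c, m ≤ Nat.card Q ∧ Wk E m r r c ∧ P c := by
  induction n using Nat.strong_induction_on generalizing d with
  | _ n ih =>
    by_cases hn : n ≤ Nat.card Q
    · exact ⟨a, n, d, hn, h, hd⟩
    · obtain ⟨r, m, n', c, d', b1, b2, b3, b4, b5, rfl⟩ := h.cut (by omega)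
      rcases hP _ _ hd with h' | h'
      · exact ih n' (by omega) b5 h'
      · exact ⟨r, m, c, b2, b4, h'⟩

theorem one_side [Finite Q] (x y : Z2 →+ ℤ) {n : ℕ} {f : ℕ → Q} {s : ℕ → Z2}
    (h : ∀ i < n, E (f i) (f (i + 1)) (s (i + 1) - s i)) (hf : f n = f 0) (h0 : s 0 = 0)
    (hx : 0 ≤ x (s n)) (hy : 0 ≤ y (s n)) (hv : x (s n) ≠ 0 ∨ y (s n) ≠ 0) :
    (∃ i ≤ n, ∃ m c, m ≤ Nat.card Q ∧ Wk E m (f i) (f i) c ∧ 0 ≤ x c ∧ 0 ≤ y c ∧
      (x c ≠ 0 ∨ y c ≠ 0) ∧ y c * x (s n) ≤ x c * y (s n)) ∨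
    ∃ u, Walk E (f 0) (f 0) u ∧ 0 < x u ∧ y u = 0 := by
  have w := wk_of_seq (E := fun a b d => E a b d ∧ ∃ i ≤ n, a = f i) (n := n) (f := f) (s := s)
    (fun i hi => ⟨h i hi, i, hi.le, rfl⟩) 0 n (by omega)
  rw [zero_add, hf, h0, sub_zero] at w
  generalize hv' : s n = v at hx hy hv w
  have hvv : 0 < x v * x v + y v * y v := by
    rcases hv with h | h
    · nlinarith [mul_self_pos.2 h, mul_self_nonneg (y v)]
    · nlinarith [mul_self_pos.2 h, mul_self_nonneg (x v)]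
  obtain ⟨r, m, c, b1, b2, b3⟩ := w.pos
    (P := fun c => y c * x v < x c * y v ∨ (y c * x v = x c * y v ∧ 0 < x c * x v + y c * y v))
    (by
      intro a b hab
      simp only [map_add, add_mul] at hab
      omega)
    (Or.inr ⟨by ring, hvv⟩)
  have hc : x c ≠ 0 ∨ y c ≠ 0 := by
    by_contra hn
    push Not at hn
    simp [hn.1, hn.2] at b3
  obtain ⟨i, hi, rfl⟩ : ∃ i ≤ n, r = f i := by
    cases b2 with
    | nil => simp at hc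
    | cons h _ => exact h.2
  have b2' : Wk E m (f i) (f i) c := b2.mono fun _ _ _ h => h.1
  by_cases hq : 0 ≤ x c ∧ 0 ≤ y c
  · exact Or.inl ⟨i, hi, m, c, b1, b2', hq.1, hq.2, hc, by omega⟩
  · right
    have b4 : y c * x v < x c * y v := by
      rcases b3 with b3 | ⟨b3, b4⟩
      · exact b3
      · exfalso
        apply hq
        constructor
        · by_contra hn
          nlinarith [mul_nonneg hx b4.le]
        · by_contra hn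
          nlinarith [mul_nonneg hy b4.le]
    have b5 : y c < 0 := by
      by_contra hn
      have : x c < 0 := by omega
      nlinarith
    obtain ⟨k, hk⟩ : ∃ k : ℕ, y c = -(k + 1 : ℤ) := ⟨(-y c - 1).toNat, by omega⟩
    obtain ⟨l, hl⟩ : ∃ l : ℕ, y v = l := ⟨(y v).toNat, by omega⟩
    have w1 := walk_of_seq h (Nat.zero_le i) hi
    have w2 := walk_of_seq h hi le_rfl
    have w3 := walk_of_seq h (Nat.zero_le n) le_rfl
    rw [hf] at w2 w3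
    refine ⟨_, ((w1.trans (Walk.smul ⟨m, b2'⟩ l)).trans w2).trans (w3.smul k), ?_, ?_⟩
    · simp only [h0, hv', sub_zero, map_add, map_sub, map_ns]
      rw [hk, hl] at b4
      nlinarith
    · simp only [h0, hv', sub_zero, map_add, map_sub, map_ns]
      rw [hk, hl]
      ring

/-- A base walk through two states with a cycle at each, the cycles pointing into one quadrant. -/
def Valid (E : Q → Q → Z2 → Prop) (q : Q) (t : Z2 × Z2 × Z2) : Prop :=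
  ∃ r r' d1 d2 d3, Walk E q r d1 ∧ Walk E r r' d2 ∧ Walk E r' q d3 ∧ t.1 = d1 + d2 + d3 ∧
    Walk E r r t.2.1 ∧ Walk E r' r' t.2.2 ∧
    (0 ≤ t.2.1.1 ∧ 0 ≤ t.2.2.1 ∨ t.2.1.1 ≤ 0 ∧ t.2.2.1 ≤ 0) ∧
    (0 ≤ t.2.1.2 ∧ 0 ≤ t.2.2.2 ∨ t.2.1.2 ≤ 0 ∧ t.2.2.2 ≤ 0)

def FinCov (E : Q → Q → Z2 → Prop) (q : Q) (X : Set Z2) : Prop :=
  ∃ F : Set (Z2 × Z2 × Z2), F.Finite ∧ (∀ t ∈ F, Valid E q t) ∧
    ∀ v ∈ X, ∃ t ∈ F, ∃ a a' : ℕ, v = t.1 + a • t.2.1 + a' • t.2.2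

theorem FinCov.cover {q : Q} {ι : Type} {I : Set ι} (hI : I.Finite) {X : ι → Set Z2}
    (h : ∀ i ∈ I, FinCov E q (X i)) {Y : Set Z2} (hY : ∀ v ∈ Y, ∃ i ∈ I, v ∈ X i) :
    FinCov E q Y := by
  choose! F h1 h2 h3 using h
  refine ⟨⋃ i ∈ I, F i, hI.biUnion h1, fun t ht => ?_, fun v hv => ?_⟩
  · obtain ⟨i, hi, ht⟩ := Set.mem_iUnion₂.1 ht
    exact h2 i hi t ht
  · obtain ⟨i, hi, hv⟩ := hY v hv
    obtain ⟨t, ht, e⟩ := h3 i hi v hv
    exact ⟨t, Set.mem_iUnion₂.2 ⟨i, hi, ht⟩, e⟩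

theorem dickson (S : Set (ℕ × ℕ)) {D : ℕ} (hD : 0 < D) :
    ∃ B : Set (ℕ × ℕ), B.Finite ∧ B ⊆ S ∧
      ∀ s ∈ S, ∃ b ∈ B, ∃ a a', s = (b.1 + D * a, b.2 + D * a') := by
  refine ⟨⋃ ρ ∈ Set.Iio D ×ˢ Set.Iio D, (fun z : ℕ × ℕ => (ρ.1 + D * z.1, ρ.2 + D * z.2)) ''
    {z | Minimal (fun z : ℕ × ℕ => (ρ.1 + D * z.1, ρ.2 + D * z.2) ∈ S) z}, ?_, ?_, ?_⟩
  · refine ((Set.finite_Iio D).prod (Set.finite_Iio D)).biUnion fun ρ _ => Set.Finite.image _ ?_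
    exact WellQuasiOrderedLE.finite_of_isAntichain (setOfPred_minimal_antichain _)
  · intro b hb
    obtain ⟨ρ, _, z, hz, rfl⟩ := Set.mem_iUnion₂.1 hb
    exact hz.1
  · rintro ⟨s1, s2⟩ hs
    obtain ⟨z, hz, hm⟩ := exists_minimal_le_of_wellFoundedLT
      (fun z : ℕ × ℕ => (s1 % D + D * z.1, s2 % D + D * z.2) ∈ S) (s1 / D, s2 / D)
      (by simpa [Nat.mod_add_div] using hs)
    obtain ⟨a, ha⟩ := Nat.exists_eq_add_of_le hz.1
    obtain ⟨a', ha'⟩ := Nat.exists_eq_add_of_le hz.2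
    refine ⟨_, Set.mem_iUnion₂.2 ⟨(s1 % D, s2 % D), ⟨Nat.mod_lt _ hD, Nat.mod_lt _ hD⟩, z, hm, rfl⟩,
      a, a', ?_⟩
    simp only at ha ha' ⊢
    rw [add_assoc, add_assoc, ← mul_add, ← mul_add, ← ha, ← ha', Nat.mod_add_div, Nat.mod_add_div]

theorem finCov_pair {q r r' : Q} {g g' : Z2} {D : ℕ} (hD : 0 < D) (hg : Walk E r r g)
    (hg' : Walk E r' r' g') (s1 : 0 ≤ g.1 ∧ 0 ≤ g'.1 ∨ g.1 ≤ 0 ∧ g'.1 ≤ 0)
    (s2 : 0 ≤ g.2 ∧ 0 ≤ g'.2 ∨ g.2 ≤ 0 ∧ g'.2 ≤ 0) :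
    FinCov E q {v | (∃ d1 d2 d3, Walk E q r d1 ∧ Walk E r r' d2 ∧ Walk E r' q d3 ∧
      v = d1 + d2 + d3) ∧ ∃ α β : ℕ, D • v = α • g + β • g'} := by
  obtain ⟨B, b1, b2, b3⟩ := dickson {z : ℕ × ℕ | ∃ v, (∃ d1 d2 d3, Walk E q r d1 ∧ Walk E r r' d2 ∧
    Walk E r' q d3 ∧ v = d1 + d2 + d3) ∧ D • v = z.1 • g + z.2 • g'} hD
  choose! φ h1 h2 using fun (b : ℕ × ℕ) (hb : b ∈ B) => b2 hb
  refine ⟨(fun b => (φ b, g, g')) '' B, b1.image _, ?_, ?_⟩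
  · rintro _ ⟨b, hb, rfl⟩
    obtain ⟨d1, d2, d3, w1, w2, w3, e⟩ := h1 b hb
    exact ⟨r, r', d1, d2, d3, w1, w2, w3, e, hg, hg', s1, s2⟩
  · rintro v ⟨hv, α, β, e⟩
    obtain ⟨b, hb, a, a', e'⟩ := b3 (α, β) ⟨v, hv, e⟩
    obtain ⟨rfl, rfl⟩ := Prod.mk.inj e'
    refine ⟨_, ⟨b, hb, rfl⟩, a, a', ?_⟩
    apply nsmul_right_injective hD.ne'
    simp only [smul_add]
    rw [e, h2 b hb, add_smul, add_smul, mul_smul, mul_smul]
    abel

theorem cone {x y : Z2 →+ ℤ} (inj : ∀ a b, x a = x b → y a = y b → a = b) {g g' v : Z2}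
    (g1 : 0 ≤ x g) (g2 : 0 ≤ y g) (g3 : x g ≠ 0 ∨ y g ≠ 0) (g4 : y g * x v ≤ x g * y v)
    (g1' : 0 ≤ x g') (g2' : 0 ≤ y g') (g3' : y g' ≠ 0 ∨ x g' ≠ 0) (g4' : x g' * y v ≤ y g' * x v)
    (v1 : 0 ≤ x v) (v2 : 0 ≤ y v) :
    ∃ D : ℕ, 0 < D ∧ ((D : ℤ) = x g * y g' - y g * x g' ∨ (D : ℤ) = x g * x g + y g * y g) ∧
      ∃ α β : ℕ, D • v = α • g + β • g' := by
  by_cases h : 0 < x g * y g' - y g * x g'
  · obtain ⟨D, hD⟩ := Int.eq_ofNat_of_zero_le h.le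
    obtain ⟨α, hα⟩ := Int.eq_ofNat_of_zero_le (sub_nonneg.2 g4')
    obtain ⟨β, hβ⟩ := Int.eq_ofNat_of_zero_le (sub_nonneg.2 g4)
    refine ⟨D, by omega, Or.inl hD.symm, α, β, inj _ _ ?_ ?_⟩
    · simp only [map_add, map_ns, ← hD, ← hα, ← hβ]; ring
    · simp only [map_add, map_ns, ← hD, ← hα, ← hβ]; ring
  · have e : x g * y v - y g * x v = 0 := by
      by_contra hn
      have p : 0 < x g * y v - y g * x v := by omega
      have h' : x g * y g' - y g * x g' ≤ 0 := by omega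
      have a1 := mul_nonneg (sub_nonneg.2 g4') g1
      have a2 := mul_nonneg (sub_nonneg.2 g4') g2
      have a3 := mul_nonneg (neg_nonneg.2 h') v1
      have a4 := mul_nonneg (neg_nonneg.2 h') v2
      rcases g3' with g3' | g3'
      · nlinarith [mul_pos p (lt_of_le_of_ne g2' g3'.symm)]
      · nlinarith [mul_pos p (lt_of_le_of_ne g1' g3'.symm)]
    have p : 0 < x g * x g + y g * y g := by
      rcases g3 with h | h
      · nlinarith [mul_self_pos.2 h, mul_self_nonneg (y g)]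
      · nlinarith [mul_self_pos.2 h, mul_self_nonneg (x g)]
    obtain ⟨D, hD⟩ := Int.eq_ofNat_of_zero_le p.le
    obtain ⟨α, hα⟩ := Int.eq_ofNat_of_zero_le (add_nonneg (mul_nonneg g1 v1) (mul_nonneg g2 v2))
    refine ⟨D, by omega, Or.inr hD.symm, α, 0, inj _ _ ?_ ?_⟩
    · simp only [map_add, map_ns, ← hD, ← hα]
      simp only [Nat.cast_zero, zero_mul, add_zero]
      linear_combination (-y g) * e
    · simp only [map_add, map_ns, ← hD, ← hα]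
      simp only [Nat.cast_zero, zero_mul, add_zero]
      linear_combination (x g) * e

theorem finCov_quadrant [Finite Q] (hE : Unit1 E) (q : Q) (x y : Z2 →+ ℤ)
    (inj : ∀ a b, x a = x b → y a = y b → a = b)
    (sg : ∀ g g', 0 ≤ x g → 0 ≤ y g → 0 ≤ x g' → 0 ≤ y g' →
      (0 ≤ g.1 ∧ 0 ≤ g'.1 ∨ g.1 ≤ 0 ∧ g'.1 ≤ 0) ∧ (0 ≤ g.2 ∧ 0 ≤ g'.2 ∨ g.2 ≤ 0 ∧ g'.2 ≤ 0)) :
    FinCov E q {v | Walk E q q v ∧ 0 ≤ x v ∧ 0 ≤ y v ∧ (x v ≠ 0 ∨ y v ≠ 0)} := by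
  have ax : ∀ x y : Z2 →+ ℤ, ∃ u0, (∃ u, Walk E q q u ∧ 0 < x u ∧ y u = 0) →
      Walk E q q u0 ∧ 0 < x u0 ∧ y u0 = 0 := by
    intro x y
    by_cases h : ∃ u, Walk E q q u ∧ 0 < x u ∧ y u = 0
    · obtain ⟨u, hu⟩ := h
      exact ⟨u, fun _ => hu⟩
    · exact ⟨0, fun h' => absurd h' h⟩
  obtain ⟨u1, hu1⟩ := ax x y
  obtain ⟨u2, hu2⟩ := ax y x
  let G : Set (Q × Z2) := {a | Walk E a.1 a.1 a.2 ∧ 0 ≤ x a.2 ∧ 0 ≤ y a.2 ∧
    ((∃ m ≤ Nat.card Q, Wk E m a.1 a.1 a.2) ∨ a.2 = u1 ∨ a.2 = u2)}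
  have hG : G.Finite := by
    refine (Set.finite_univ.prod ((((Set.finite_Icc (-(Nat.card Q : ℤ)) (Nat.card Q)).prod
      (Set.finite_Icc (-(Nat.card Q : ℤ)) (Nat.card Q))).insert u2).insert u1)).subset ?_
    rintro ⟨r, g⟩ ⟨_, _, _, ⟨m, hm, w⟩ | h | h⟩
    · have := w.bound hE
      refine ⟨trivial, Or.inr (Or.inr ⟨?_, ?_⟩)⟩ <;> simp only [Set.mem_Icc] at this ⊢ <;> omega
    · exact ⟨trivial, Or.inl h⟩
    · exact ⟨trivial, Or.inr (Or.inl h)⟩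
  obtain ⟨D0, hD0⟩ : ∃ D0 : ℤ, ∀ a ∈ G, ∀ b ∈ G, x a.2 * y b.2 - y a.2 * x b.2 ≤ D0 ∧
      x a.2 * x a.2 + y a.2 * y a.2 ≤ D0 := by
    obtain ⟨D, hD⟩ := ((hG.prod hG).image fun p : (Q × Z2) × (Q × Z2) =>
      max (x p.1.2 * y p.2.2 - y p.1.2 * x p.2.2) (x p.1.2 * x p.1.2 + y p.1.2 * y p.1.2)).bddAbove
    exact ⟨D, fun a ha b hb => max_le_iff.1 (hD ⟨(a, b), ⟨ha, hb⟩, rfl⟩)⟩
  refine FinCov.cover (I := G ×ˢ G ×ˢ Set.Icc 1 D0.toNat)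
    (hG.prod (hG.prod (Set.finite_Icc _ _)))
    (X := fun i => {v | (∃ d1 d2 d3, Walk E q i.1.1 d1 ∧ Walk E i.1.1 i.2.1.1 d2 ∧
      Walk E i.2.1.1 q d3 ∧ v = d1 + d2 + d3) ∧ ∃ α β : ℕ, i.2.2 • v = α • i.1.2 + β • i.2.1.2})
    ?_ ?_
  · rintro ⟨⟨r, g⟩, ⟨r', g'⟩, D⟩ ⟨a, b, c⟩
    exact finCov_pair c.1 a.1 b.1 (sg _ _ a.2.1 a.2.2.1 b.2.1 b.2.2.1).1
      (sg _ _ a.2.1 a.2.2.1 b.2.1 b.2.2.1).2
  · rintro v ⟨⟨n, w⟩, v1, v2, v3⟩
    obtain ⟨f, s, a1, a2, a3, rfl, a5⟩ := w.seq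
    obtain ⟨i, hi, g, gG, g3, g4⟩ : ∃ i ≤ n, ∃ g, (f i, g) ∈ G ∧ (x g ≠ 0 ∨ y g ≠ 0) ∧
        y g * x (s n) ≤ x g * y (s n) := by
      rcases one_side x y a5 (a2.trans a1.symm) a3 v1 v2 v3 with
        ⟨i, hi, m, c, b1, b2, b3, b4, b5, b6⟩ | h
      · exact ⟨i, hi, c, ⟨⟨m, b2⟩, b3, b4, Or.inl ⟨m, b1, b2⟩⟩, b5, b6⟩
      · rw [a1] at h
        obtain ⟨b1, b2, b3⟩ := hu1 h
        refine ⟨0, Nat.zero_le _, u1, ⟨by rw [a1]; exact b1, b2.le, b3.ge, Or.inr (Or.inl rfl)⟩,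
          Or.inl b2.ne', ?_⟩
        rw [b3, zero_mul]
        exact mul_nonneg b2.le v2
    obtain ⟨j, hj, g', gG', g3', g4'⟩ : ∃ i ≤ n, ∃ g, (f i, g) ∈ G ∧ (y g ≠ 0 ∨ x g ≠ 0) ∧
        x g * y (s n) ≤ y g * x (s n) := by
      rcases one_side y x a5 (a2.trans a1.symm) a3 v2 v1 v3.symm with
        ⟨i, hi, m, c, b1, b2, b3, b4, b5, b6⟩ | h
      · exact ⟨i, hi, c, ⟨⟨m, b2⟩, b4, b3, Or.inl ⟨m, b1, b2⟩⟩, b5, b6⟩
      · rw [a1] at h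
        obtain ⟨b1, b2, b3⟩ := hu2 h
        refine ⟨0, Nat.zero_le _, u2, ⟨by rw [a1]; exact b1, b3.ge, b2.le, Or.inr (Or.inr rfl)⟩,
          Or.inl b2.ne', ?_⟩
        rw [b3, zero_mul]
        exact mul_nonneg b2.le v1
    obtain ⟨D, hD, hD', α, β, e⟩ := cone inj gG.2.1 gG.2.2.1 g3 g4 gG'.2.1 gG'.2.2.1 g3' g4' v1 v2
    have hb := hD0 _ gG _ gG'
    have hI : D ∈ Set.Icc 1 D0.toNat := ⟨hD, by simp only at hb hD'; omega⟩
    have sp : ∀ i j, i ≤ j → j ≤ n → ∃ d1 d2 d3, Walk E q (f i) d1 ∧ Walk E (f i) (f j) d2 ∧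
        Walk E (f j) q d3 ∧ s n = d1 + d2 + d3 := by
      intro i j hij hj
      have w1 := walk_of_seq a5 (Nat.zero_le i) (hij.trans hj)
      have w3 := walk_of_seq a5 hj le_rfl
      rw [a1] at w1
      rw [a2] at w3
      exact ⟨_, _, _, w1, walk_of_seq a5 hij hj, w3, by rw [a3]; abel⟩
    rcases le_total i j with h | h
    · exact ⟨((f i, g), (f j, g'), D), ⟨gG, gG', hI⟩, sp i j h hj, α, β, e⟩
    · exact ⟨((f j, g'), (f i, g), D), ⟨gG', gG, hI⟩, sp j i h hi, β, α, by rw [e, add_comm]⟩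

theorem finCov_all [Finite Q] (hE : Unit1 E) (q : Q) : FinCov E q {v | Walk E q q v} := by
  let sx : Bool → (Z2 →+ ℤ) := fun b => if b then AddMonoidHom.fst ℤ ℤ else -AddMonoidHom.fst ℤ ℤ
  let sy : Bool → (Z2 →+ ℤ) := fun b => if b then AddMonoidHom.snd ℤ ℤ else -AddMonoidHom.snd ℤ ℤ
  refine FinCov.cover (I := (Set.univ : Set (Option (Bool × Bool)))) Set.finite_univ
    (X := fun o => o.elim {0} fun b => {v | Walk E q q v ∧ 0 ≤ sx b.1 v ∧ 0 ≤ sy b.2 v ∧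
      (sx b.1 v ≠ 0 ∨ sy b.2 v ≠ 0)}) ?_ ?_
  · rintro (_ | ⟨b, b'⟩) _
    · refine ⟨{(0, 0, 0)}, Set.finite_singleton _, ?_, ?_⟩
      · rintro _ rfl
        exact ⟨q, q, 0, 0, 0, .refl q, .refl q, .refl q, by simp, .refl q, .refl q, by simp, by simp⟩
      · rintro _ rfl
        exact ⟨_, rfl, 0, 0, by simp⟩
    · refine finCov_quadrant hE q _ _ ?_ ?_
      · rintro ⟨a1, a2⟩ ⟨b1, b2⟩
        cases b <;> cases b' <;> simp [sx, sy] <;> omega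
      · rintro ⟨a1, a2⟩ ⟨b1, b2⟩
        cases b <;> cases b' <;> simp [sx, sy] <;> omega
  · rintro ⟨v1, v2⟩ hv
    by_cases h : v1 = 0 ∧ v2 = 0
    · exact ⟨none, trivial, by simp [h.1, h.2]⟩
    · refine ⟨some (decide (0 ≤ v1), decide (0 ≤ v2)), trivial, hv, ?_⟩
      by_cases h1 : 0 ≤ v1 <;> by_cases h2 : 0 ≤ v2 <;> simp [sx, sy, h1, h2] <;> omega

def Box (lo hi : ℤ) (P : Z2) : Prop := lo ≤ P.1 ∧ P.1 ≤ hi ∧ lo ≤ P.2 ∧ P.2 ≤ hi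

def Rch (E : Q → Q → Z2 → Prop) (lo hi : ℤ) : Q × Z2 → Q × Z2 → Prop :=
  Relation.ReflTransGen fun c c' => Box lo hi c.2 ∧ Box lo hi c'.2 ∧ E c.1 c'.1 (c'.2 - c.2)

theorem Wk.rch (hE : Unit1 E) {lo hi : ℤ} {n : ℕ} {a b : Q} {d : Z2} (h : Wk E n a b d) (P : Z2)
    (hP : Box (lo + n) (hi - n) P) : Rch E lo hi (a, P) (b, P + d) := by
  induction h generalizing P with
  | nil => rw [add_zero]; exact .refl
  | @cons n q q' q'' d d' h _ ih =>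
    have := hE _ _ _ h
    rw [← add_assoc]
    refine .head (b := (q', P + d)) ⟨?_, ?_, by simpa using h⟩ (ih _ ?_)
    all_goals
      simp only [Box, Prod.fst_add, Prod.snd_add] at hP ⊢
      omega

theorem Wk.rch_iter (hE : Unit1 E) {lo hi : ℤ} {n : ℕ} {a : Q} {d : Z2} (h : Wk E n a a d)
    (P : Z2) (k : ℕ) (hP : ∀ i ≤ k, Box (lo + n) (hi - n) (P + i • d)) :
    Rch E lo hi (a, P) (a, P + k • d) := by
  induction k with
  | zero => rw [zero_smul, add_zero]; exact .refl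
  | succ k ih =>
    rw [succ_nsmul, ← add_assoc]
    exact .trans (ih fun i hi => hP i (by omega)) (h.rch hE _ (hP k (by omega)))

theorem between {g g' : ℤ} (h : 0 ≤ g ∧ 0 ≤ g' ∨ g ≤ 0 ∧ g' ≤ 0) {i j a a' : ℕ} (hi : i ≤ a)
    (hj : j ≤ a') : (0 ≤ i * g + j * g' ∧ i * g + j * g' ≤ a * g + a' * g') ∨
      (i * g + j * g' ≤ 0 ∧ a * g + a' * g' ≤ i * g + j * g') := by
  have hi' : (0 : ℤ) ≤ a - i := by omega
  have hj' : (0 : ℤ) ≤ a' - j := by omega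
  have i0 : (0 : ℤ) ≤ i := by omega
  have j0 : (0 : ℤ) ≤ j := by omega
  rcases h with ⟨h, h'⟩ | ⟨h, h'⟩
  · left
    constructor <;> nlinarith [mul_nonneg hi' h, mul_nonneg hj' h', mul_nonneg i0 h,
      mul_nonneg j0 h']
  · right
    constructor <;> nlinarith [mul_nonneg hi' (neg_nonneg.2 h), mul_nonneg hj' (neg_nonneg.2 h'),
      mul_nonneg i0 (neg_nonneg.2 h), mul_nonneg j0 (neg_nonneg.2 h')]

theorem Valid.rch (hE : Unit1 E) {q : Q} {t : Z2 × Z2 × Z2} (h : Valid E q t) :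
    ∃ K : ℕ, ∀ (lo hi : ℤ) (P : Z2) (a a' : ℕ), Box (lo + K) (hi - K) P →
      Box (lo + K) (hi - K) (P + (t.1 + a • t.2.1 + a' • t.2.2)) →
      Rch E lo hi (q, P) (q, P + (t.1 + a • t.2.1 + a' • t.2.2)) := by
  obtain ⟨b, g, g'⟩ := t
  obtain ⟨r, r', d1, d2, d3, ⟨n1, w1⟩, ⟨n2, w2⟩, ⟨n3, w3⟩, e, ⟨m, c⟩, ⟨m', c'⟩, s1, s2⟩ := h
  simp only at e c c' s1 s2
  subst e
  refine ⟨3 * (n1 + n2 + n3) + m + m', fun lo hi P a a' h1 h2 => ?_⟩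
  have b1 := w1.bound hE
  have b2 := w2.bound hE
  have b3 := w3.bound hE
  have key : ∀ i ≤ a, ∀ j ≤ a', Box (lo + (2 * (n1 + n2 + n3) + m + m' : ℕ))
      (hi - (2 * (n1 + n2 + n3) + m + m' : ℕ)) (P + i • g + j • g') := by
    intro i hi j hj
    have t1 := between s1 hi hj
    have t2 := between s2 hi hj
    simp only [Box, Prod.fst_add, Prod.snd_add, ns1, ns2]
      at h1 h2 ⊢
    omega
  have r1 := w1.rch hE (lo := lo) (hi := hi) P (by simp only [Box] at h1 ⊢; omega)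
  have r2 := c.rch_iter hE (lo := lo) (hi := hi) (P + d1) a (fun i hi => by
    have := key i hi 0 (Nat.zero_le _)
    simp only [Box, Prod.fst_add, Prod.snd_add, zero_smul, add_zero] at this ⊢
    omega)
  have r3 := w2.rch hE (lo := lo) (hi := hi) (P + d1 + a • g) (by
    have := key a le_rfl 0 (Nat.zero_le _)
    simp only [Box, Prod.fst_add, Prod.snd_add, zero_smul, add_zero] at this ⊢
    omega)
  have r4 := c'.rch_iter hE (lo := lo) (hi := hi) (P + d1 + a • g + d2) a' (fun j hj => by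
    have := key a le_rfl j hj
    simp only [Box, Prod.fst_add, Prod.snd_add] at this ⊢
    omega)
  have r5 := w3.rch hE (lo := lo) (hi := hi) (P + d1 + a • g + d2 + a' • g') (by
    have := key a le_rfl a' le_rfl
    simp only [Box, Prod.fst_add, Prod.snd_add] at this ⊢
    omega)
  rw [show P + (d1 + d2 + d3 + a • g + a' • g') = P + d1 + a • g + d2 + a' • g' + d3 by abel]
  exact (((Relation.ReflTransGen.trans r1 r2).trans r3).trans r4).trans r5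

/-- Closed walks without zigzags. -/
theorem schemes [Finite Q] (hE : Unit1 E) :
    ∃ (K : ℕ) (F : Set (Q × Z2 × Z2 × Z2)), F.Finite ∧
      (∀ q v, Walk E q q v → ∃ t, (q, t) ∈ F ∧ ∃ a a' : ℕ, v = t.1 + a • t.2.1 + a' • t.2.2) ∧
      ∀ q t, (q, t) ∈ F → ∀ (lo hi : ℤ) (P : Z2) (a a' : ℕ), Box (lo + K) (hi - K) P →
        Box (lo + K) (hi - K) (P + (t.1 + a • t.2.1 + a' • t.2.2)) →
        Rch E lo hi (q, P) (q, P + (t.1 + a • t.2.1 + a' • t.2.2)) := by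
  choose F h1 h2 h3 using finCov_all hE
  have hF : {x : Q × Z2 × Z2 × Z2 | x.2 ∈ F x.1}.Finite := by
    refine (Set.finite_univ.prod (Set.finite_iUnion h1)).subset fun x hx => ⟨trivial, ?_⟩
    exact Set.mem_iUnion.2 ⟨x.1, hx⟩
  choose! K hK using fun (x : Q × Z2 × Z2 × Z2) (hx : x.2 ∈ F x.1) => (h2 x.1 x.2 hx).rch hE
  obtain ⟨K0, hK0⟩ := (hF.image K).bddAbove
  refine ⟨K0, _, hF, fun q v hv => h3 q v hv, fun q t ht lo hi P a a' b1 b2 => ?_⟩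
  have : K (q, t) ≤ K0 := hK0 ⟨_, ht, rfl⟩
  refine hK (q, t) ht lo hi P a a' ?_ ?_
  · simp only [Box] at b1 ⊢; omega
  · simp only [Box] at b2 ⊢; omega

end Pool.Agent.P.MP_d0a708_lc.N
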