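import Mathlib
import Pool.Agent.P.MP_d0a708_lc.NProg
import Pool.Agent.P.MP_d0a708_lc.NCyc
import Pool.Agent.P.MP_d0a708_lc.NAut

/-!
A two-head automaton on a unary input, seen only when a head is close to an endmarker.
-/

namespace Pool.Agent.P.MP_d0a708_lc.N

open Pool.Agent.P.MP_d0a708_lc

def SymIs (n a : ℕ) : Tape Unit → Prop
  | .left => a = 0
  | .letter _ => 1 ≤ a ∧ a + 1 ≤ n
  | .right => 1 ≤ a ∧ n ≤ a

theorem symIs_iff (w : List Unit) (a : ℕ) (s : Tape Unit) :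
    SymIs (w.length + 1) a s ↔ cell w a = s := by
  cases a with
  | zero => cases s <;> simp [SymIs, cell]
  | succ a =>
    simp only [cell]
    by_cases h : a < w.length
    · rw [List.getElem?_eq_getElem h]
      cases s <;> simp [SymIs] <;> omega
    · rw [List.getElem?_eq_none (by omega)]
      cases s <;> simp [SymIs] <;> omega

def tapeCode : Tape Unit → Fin 3
  | .left => 0
  | .right => 1
  | .letter _ => 2

instance : Finite (Tape Unit) :=
  Finite.of_injective tapeCode (by rintro (_ | _ | _) (_ | _ | _) <;> simp [tapeCode])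

theorem aut_symIs (s : Tape Unit) (i j : ℕ) : Aut (fun v => SymIs (v j) (v i) s) := by
  cases s
  · exact aut_eqc i 0
  · exact (aut_ge i 1).and (aut_le j i 0 0)
  · exact (aut_ge i 1).and (aut_le i j 1 0)

variable (M : HeadsFA Unit 2)

abbrev Cf := M.Q × ℕ × ℕ

def Stp (n : ℕ) (c c' : Cf M) : Prop :=
  ∃ (s : Fin 2 → Tape Unit) (m : Fin 2 → SignType), (c'.1, m) ∈ M.δ c.1 s ∧
    (SymIs n c.2.1 (s 0) ∧ SymIs n c.2.2 (s 1)) ∧
    ((c'.2.1 : ℤ) = c.2.1 + (m 0 : ℤ) ∧ c'.2.1 ≤ n) ∧ (c'.2.2 : ℤ) = c.2.2 + (m 1 : ℤ) ∧ c'.2.2 ≤ n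

theorem stp_iff (w : List Unit) (c c' : M.Q × (Fin 2 → ℕ)) :
    M.Step w c c' ↔ Stp M (w.length + 1) (c.1, c.2 0, c.2 1) (c'.1, c'.2 0, c'.2 1) := by
  constructor
  · rintro ⟨m, h1, h2⟩
    exact ⟨_, m, h1, ⟨(symIs_iff w _ _).2 rfl, (symIs_iff w _ _).2 rfl⟩, h2 0, h2 1⟩
  · rintro ⟨s, m, h1, ⟨h2, h3⟩, h4, h5⟩
    refine ⟨m, ?_, Fin.forall_fin_two.2 ⟨h4, h5⟩⟩
    rwa [show (fun i => cell w (c.2 i)) = s from funext (Fin.forall_fin_two.2
      ⟨(symIs_iff w _ _).1 h2, (symIs_iff w _ _).1 h3⟩)]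

theorem lang_iff (w : List Unit) : w ∈ M.lang ↔
    ∃ c, Relation.ReflTransGen (Stp M (w.length + 1)) (M.start, 0, 0) c ∧ c.1 ∈ M.accept := by
  constructor
  · rintro ⟨c, h1, h2⟩
    exact ⟨_, Relation.ReflTransGen.lift (fun c : M.Q × (Fin 2 → ℕ) => (c.1, c.2 0, c.2 1))
      (fun a b h => (stp_iff M w a b).1 h) _ _ h1, h2⟩
  · rintro ⟨c, h1, h2⟩
    have := Relation.ReflTransGen.lift (p := M.Step w)
      (fun c : Cf M => (c.1, ![c.2.1, c.2.2])) (fun a b h => (stp_iff M w _ _).2 h) _ _ h1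
    refine ⟨(c.1, ![c.2.1, c.2.2]), ?_, h2⟩
    convert this using 2
    funext i
    fin_cases i <;> rfl

theorem aut_stp (q q' : M.Q) : Aut (fun v => Stp M (v 4) (q, v 0, v 1) (q', v 2, v 3)) := by
  refine Aut.fin_ex fun s => Aut.fin_ex fun m => (Aut.const ((q', m) ∈ M.δ q s)).and ?_
  exact ((aut_symIs _ 0 4).and (aut_symIs _ 1 4)).and
    (((Aut.eq (Aff.var 2) ((Aff.var 0).add (Aff.const _))).and (aut_le 2 4 0 0)).and
      ((Aut.eq (Aff.var 3) ((Aff.var 1).add (Aff.const _))).and (aut_le 3 4 0 0)))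

/-- The moves with both heads on letters. -/
def Ein (q q' : M.Q) (d : Z2) : Prop :=
  ∃ m : Fin 2 → SignType, (q', m) ∈ M.δ q (fun _ => Tape.letter ()) ∧ d = ((m 0 : ℤ), (m 1 : ℤ))

theorem unit_Ein : Unit1 (Ein M) := by
  rintro a b _ ⟨m, _, rfl⟩
  have : ∀ s : SignType, -1 ≤ (s : ℤ) ∧ (s : ℤ) ≤ 1 := by
    intro s
    cases s <;> simp
  exact ⟨(this _).1, (this _).2, (this _).1, (this _).2⟩

theorem rch_stp {n : ℕ} {x y : M.Q × Z2} (h : Rch (Ein M) 1 (n - 1) x y) :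
    Relation.ReflTransGen (Stp M n) (x.1, x.2.1.toNat, x.2.2.toNat)
      (y.1, y.2.1.toNat, y.2.2.toNat) := by
  refine Relation.ReflTransGen.lift (fun x : M.Q × Z2 => (x.1, x.2.1.toNat, x.2.2.toNat)) ?_ _ _ h
  rintro a b ⟨h1, h2, m, h3, h4⟩
  have e1 := congrArg Prod.fst h4
  have e2 := congrArg Prod.snd h4
  simp only [Box, Prod.fst_sub, Prod.snd_sub] at h1 h2 e1 e2
  refine ⟨_, m, h3, ?_⟩
  simp only [SymIs]
  omega

variable {M}

def In (K n : ℕ) (c : Cf M) : Prop :=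
  (K + 1 ≤ c.2.1 ∧ c.2.1 + (K + 1) ≤ n) ∧ K + 1 ≤ c.2.2 ∧ c.2.2 + (K + 1) ≤ n

section

variable (K : ℕ) (F : Set (M.Q × Z2 × Z2 × Z2))

def Jump (n : ℕ) (c c' : Cf M) : Prop :=
  c'.1 = c.1 ∧ In K n c ∧ In K n c' ∧ ∃ t ∈ F, t.1 = c.1 ∧ ∃ i j : ℕ,
    (c'.2.1 : ℤ) = c.2.1 + (t.2.1.1 + i * t.2.2.1.1 + j * t.2.2.2.1) ∧
    (c'.2.2 : ℤ) = c.2.2 + (t.2.1.2 + i * t.2.2.1.2 + j * t.2.2.2.2)

def Hop (n : ℕ) (c c' : Cf M) : Prop := c' = c ∨ Stp M n c c' ∨ Jump K F n c c'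

def Hn (n : ℕ) : ℕ → Cf M → Cf M → Prop
  | 0, c, c' => c' = c
  | k + 1, c, c' => ∃ q a b, Hop K F n c (q, a, b) ∧ Hn n k (q, a, b) c'

variable {K F}

theorem Hn.cons {n k : ℕ} {c e f : Cf M} (h : Hop K F n c e) (h' : Hn K F n k e f) :
    Hn K F n (k + 1) c f := ⟨e.1, e.2.1, e.2.2, h, h'⟩

theorem Hn.mono {n k l : ℕ} {c e : Cf M} (h : Hn K F n k c e) (hl : k ≤ l) : Hn K F n l c e := by
  induction hl with
  | refl => exact h
  | step _ ih => exact .cons (Or.inl rfl) ih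

theorem Hn.snoc {n k : ℕ} {c e f : Cf M} (h : Hn K F n k c e) (h' : Hop K F n e f) :
    Hn K F n (k + 1) c f := by
  induction k generalizing c with
  | zero =>
    obtain rfl : e = c := h
    exact .cons h' rfl
  | succ k ih =>
    obtain ⟨q, a, b, h1, h2⟩ := h
    exact .cons h1 (ih h2)

theorem aut_in (q : M.Q) (i j l : ℕ) : Aut (fun v => In K (v l) ((q, v i, v j) : Cf M)) :=
  ((aut_ge i _).and (aut_le i l _ 0)).and ((aut_ge j _).and (aut_le j l _ 0))

theorem aut_same (q q' : M.Q) :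
    Aut (fun v => ((q', v 2, v 3) : Cf M) = (q, v 0, v 1)) :=
  ((Aut.const (q' = q)).and ((aut_eq 2 0 0).and (aut_eq 3 1 0))).congr fun v => by simp

theorem aut_hop (hF : F.Finite) (q q' : M.Q) :
    Aut (fun v => Hop K F (v 4) (q, v 0, v 1) (q', v 2, v 3)) := by
  refine (aut_same q q').or ((aut_stp M q q').or ?_)
  refine (Aut.const (q' = q)).and ((aut_in q 0 1 4).and ((aut_in q' 2 3 4).and ?_))
  refine Aut.set_ex hF fun t => (Aut.const (t.1 = q)).and ?_
  refine Aut.ex ?_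
  refine Aut.ex ?_
  exact (Aut.eq (Aff.var 4) ((Aff.var 2).add (((Aff.const _).add ((Aff.var 1).mul _)).add
      ((Aff.var 0).mul _)))).and
    (Aut.eq (Aff.var 5) ((Aff.var 3).add (((Aff.const _).add ((Aff.var 1).mul _)).add
      ((Aff.var 0).mul _))))

theorem aut_hn (hF : F.Finite) (k : ℕ) (q q' : M.Q) :
    Aut (fun v => Hn K F (v 4) k (q, v 0, v 1) (q', v 2, v 3)) := by
  have := M.finQ
  induction k generalizing q with
  | zero => exact aut_same q q'
  | succ k ih =>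
    refine Aut.fin_ex fun p => Aut.ex (Aut.ex (Aut.and ?_ ?_))
    · exact (aut_hop hF q p).comp fun i => [2, 3, 1, 0, 6].getD i 0
    · exact (ih p).comp fun i => [1, 0, 4, 5, 6].getD i 0

theorem hn_sound
    (h2 : ∀ q t, (q, t) ∈ F → ∀ (lo hi : ℤ) (P : Z2) (a a' : ℕ), Box (lo + K) (hi - K) P →
      Box (lo + K) (hi - K) (P + (t.1 + a • t.2.1 + a' • t.2.2)) →
      Rch (Ein M) lo hi (q, P) (q, P + (t.1 + a • t.2.1 + a' • t.2.2)))
    {n k : ℕ} {c e : Cf M} (h : Hn K F n k c e) : Relation.ReflTransGen (Stp M n) c e := by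
  induction k generalizing c with
  | zero => obtain rfl : e = c := h; exact .refl
  | succ k ih =>
    obtain ⟨q, a, b, h | h | h, h'⟩ := h
    · exact h ▸ ih h'
    · exact .head h (ih h')
    · refine .trans ?_ (ih h')
      obtain ⟨q0, a0, b0⟩ := c
      obtain ⟨e1, i1, i2, ⟨q1, t⟩, ht, e2, i, j, e3, e4⟩ := h
      simp only [In] at e1 e2 e3 e4 i1 i2
      subst e1 e2
      have e : ((a0 : ℤ), (b0 : ℤ)) + (t.1 + i • t.2.1 + j • t.2.2) = ((a : ℤ), (b : ℤ)) := by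
        ext
        · simp only [Prod.fst_add, ns1, e3]
        · simp only [Prod.snd_add, ns2, e4]
      have := h2 _ t ht 1 (n - 1) (a0, b0) i j (by simp only [Box]; omega)
        (by rw [e]; simp only [Box]; omega)
      rw [e] at this
      simpa using rch_stp M this

def StIn (K n : ℕ) (A : Finset M.Q) (c c' : Cf M) : Prop :=
  Stp M n c c' ∧ In K n c ∧ In K n c' ∧ c.1 ∈ A ∧ c'.1 ∈ A

theorem stIn_walk {n : ℕ} {A : Finset M.Q} {c e : Cf M}
    (h : Relation.ReflTransGen (StIn K n A) c e) (hc : In K n c) :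
    In K n e ∧ Walk (Ein M) c.1 e.1 ((e.2.1 : ℤ) - c.2.1, (e.2.2 : ℤ) - c.2.2) := by
  induction h with
  | refl => exact ⟨hc, by rw [sub_self, sub_self]; exact Walk.refl c.1⟩
  | @tail x y _ h ih =>
    obtain ⟨⟨s, m, a1, ⟨a2, a3⟩, a4, a5⟩, i1, i2, _⟩ := h
    have hs : s = fun _ => Tape.letter () := by
      have : ∀ a t, SymIs n a t → K + 1 ≤ a ∧ a + (K + 1) ≤ n → t = Tape.letter () := by
        intro a t h1 h2
        cases t
        · simp only [SymIs] at h1; omega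
        · simp only [SymIs] at h1; omega
        · rfl
      exact funext (Fin.forall_fin_two.2 ⟨this _ _ a2 i1.1, this _ _ a3 i1.2⟩)
    have w : Walk (Ein M) x.1 y.1 ((m 0 : ℤ), (m 1 : ℤ)) :=
      ⟨1, (Wk.cons ⟨m, hs ▸ a1, rfl⟩ (.nil _)).cast rfl (add_zero _)⟩
    refine ⟨i2, ?_⟩
    convert ih.2.trans w using 1
    ext
    · simp only [Prod.fst_add]; omega
    · simp only [Prod.snd_add]; omega

theorem last_visit [DecidableEq M.Q] {n : ℕ} {A : Finset M.Q} {c e : Cf M}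
    (h : Relation.ReflTransGen (StIn K n A) c e) :
    e.1 = c.1 ∨ ∃ c1 c2, Relation.ReflTransGen (StIn K n A) c c1 ∧ c1.1 = c.1 ∧ StIn K n A c1 c2 ∧
      c2.1 ≠ c.1 ∧ e.1 ≠ c.1 ∧ Relation.ReflTransGen (StIn K n (A.erase c.1)) c2 e := by
  induction h with
  | refl => exact Or.inl rfl
  | @tail x y h1 h ih =>
    by_cases e : y.1 = c.1
    · exact Or.inl e
    · right
      rcases ih with ih | ⟨c1, c2, a1, a2, a3, a4, a5, a6⟩
      · exact ⟨x, y, h1, ih, h, e, e, .refl⟩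
      · exact ⟨c1, c2, a1, a2, a3, a4, e, a6.tail ⟨h.1, h.2.1, h.2.2.1,
          Finset.mem_erase.2 ⟨a5, h.2.2.2.1⟩, Finset.mem_erase.2 ⟨e, h.2.2.2.2⟩⟩⟩

theorem hn_complete
    (h1 : ∀ q v, Walk (Ein M) q q v →
      ∃ t, (q, t) ∈ F ∧ ∃ a a' : ℕ, v = t.1 + a • t.2.1 + a' • t.2.2)
    {n : ℕ} (k : ℕ) : ∀ (A : Finset M.Q) (c e : Cf M), A.card = k →
      Relation.ReflTransGen (StIn K n A) c e → In K n c → Hn K F n (2 * k + 1) c e := by
  classical
  have jump : ∀ (A : Finset M.Q) (c e : Cf M), Relation.ReflTransGen (StIn K n A) c e →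
      In K n c → e.1 = c.1 → Hop K F n c e := by
    intro A c e h hc he
    obtain ⟨a1, a2⟩ := stIn_walk h hc
    rw [he] at a2
    obtain ⟨t, ht, i, j, e'⟩ := h1 _ _ a2
    have e1 := congrArg Prod.fst e'
    have e2 := congrArg Prod.snd e'
    simp only [Prod.fst_add, Prod.snd_add, ns1, ns2] at e1 e2
    exact Or.inr (Or.inr ⟨he, hc, a1, (c.1, t), ht, rfl, i, j, by simp only; omega,
      by simp only; omega⟩)
  induction k with
  | zero =>
    intro A c e hA h hc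
    rcases last_visit h with h' | ⟨c1, c2, _, _, a3, _⟩
    · exact .cons (jump A c e h hc h') rfl
    · have := a3.2.2.2.1
      rw [Finset.card_eq_zero.1 hA] at this
      simp at this
  | succ k ih =>
    intro A c e hA h hc
    rcases last_visit h with h' | ⟨c1, c2, a1, a2, a3, _, _, a6⟩
    · exact Hn.mono (k := 1) (.cons (jump A c e h hc h') rfl) (by omega)
    · have := ih _ c2 e (by rw [Finset.card_erase_of_mem (a2 ▸ a3.2.2.2.1), hA]; rfl) a6 a3.2.2.1
      exact .cons (jump A c c1 a1 hc a2) (.cons (Or.inr (Or.inl a3.1)) this)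

end

/-- State, head that is near an endmarker, endmarker, distance. -/
abbrev Cp (M : HeadsFA Unit 2) (K : ℕ) := M.Q × Bool × Bool × Fin (K + 1)

def Near (s : Bool) (o n a : ℕ) : Prop := if s then a + o = n else a = o

def At {K : ℕ} (σ : Cp M K) (n x : ℕ) (c : Cf M) : Prop :=
  c.1 = σ.1 ∧ if σ.2.1 then Near σ.2.2.1 σ.2.2.2 n c.2.1 ∧ c.2.2 = x
    else Near σ.2.2.1 σ.2.2.2 n c.2.2 ∧ c.2.1 = x

theorem At.unique {K n x : ℕ} {σ : Cp M K} {c c' : Cf M} (h : At σ n x c) (h' : At σ n x c') :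
    c = c' := by
  obtain ⟨q, i, s, o⟩ := σ
  obtain ⟨p, a, b⟩ := c
  obtain ⟨p', a', b'⟩ := c'
  cases i <;> cases s <;> simp [At, Near] at h h' ⊢ <;> (refine ⟨h.1.trans h'.1.symm, ?_⟩; omega)

theorem aut_at {K : ℕ} (σ : Cp M K) (q : M.Q) (i j l m : ℕ) :
    Aut (fun v => At σ (v l) (v m) ((q, v i, v j) : Cf M)) :=
  (Aut.const (q = σ.1)).and (Aut.ite ((Aut.ite (aut_eq i l _) (aut_eqc i _)).and (aut_eq j m 0))
    ((Aut.ite (aut_eq j l _) (aut_eqc j _)).and (aut_eq i m 0)))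

theorem exists_at {K n : ℕ} (c : Cf M) (h : ¬ In K n c) (h1 : c.2.1 ≤ n) (h2 : c.2.2 ≤ n) :
    ∃ (σ : Cp M K) (x : ℕ), x ≤ n ∧ At σ n x c := by
  obtain ⟨q, a, b⟩ := c
  simp only [In] at h h1 h2
  by_cases e1 : a ≤ K
  · exact ⟨(q, true, false, ⟨a, by omega⟩), b, h2, by simp [At, Near]⟩
  by_cases e2 : n - a ≤ K
  · exact ⟨(q, true, true, ⟨n - a, by omega⟩), b, h2, by simp [At, Near]; omega⟩
  by_cases e3 : b ≤ K
  · exact ⟨(q, false, false, ⟨b, by omega⟩), a, h1, by simp [At, Near]⟩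
  · exact ⟨(q, false, true, ⟨n - b, by omega⟩), a, h1, by simp [At, Near]; omega⟩

def At' {K : ℕ} (σ : Option (Cp M K)) (n x : ℕ) (c : Cf M) : Prop :=
  match σ with
  | none => c.1 ∈ M.accept
  | some σ => At σ n x c

/-- The automaton as a machine with one register. -/
theorem checkpoints (M : HeadsFA Unit 2) :
    ∃ (S : Type) (_ : Finite S) (σ0 : S) (T : S → Option S → ℕ → ℕ → ℕ → Prop),
      (∀ σ σ', Aut (fun v => T σ σ' (v 0) (v 1) (v 2))) ∧ ∀ w : List Unit,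
        (∀ σ x y, Relation.ReflTransGen
            (fun a b : S × ℕ => T a.1 (some b.1) a.2 b.2 (w.length + 1)) (σ0, 0) (σ, x) →
          T σ none x y (w.length + 1) → w ∈ M.lang) ∧
        (w ∈ M.lang → ∃ σ x, Relation.ReflTransGen
            (fun a b : S × ℕ => T a.1 (some b.1) a.2 b.2 (w.length + 1) ∧ b.2 ≤ w.length + 1)
            (σ0, 0) (σ, x) ∧ T σ none x 0 (w.length + 1)) := by
  have := M.finQ
  have := Fintype.ofFinite M.Q
  obtain ⟨K, F, hF, h1, h2⟩ := schemes (unit_Ein M)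
  refine ⟨Cp M K, inferInstance, (M.start, true, false, 0), fun σ σ' x y n => ∃ q q' a b a' b',
    At σ n x (q, a, b) ∧ Hn K F n (2 * Fintype.card M.Q + 3) (q, a, b) (q', a', b') ∧
      At' σ' n y (q', a', b'), fun σ σ' => ?_, fun w => ?_⟩
  · refine Aut.fin_ex fun q => Aut.fin_ex fun q' => Aut.ex (Aut.ex (Aut.ex (Aut.ex
      ((aut_at σ q 3 2 6 4).and (Aut.and ?_ ?_)))))
    · exact (aut_hn hF _ q q').comp fun i => [3, 2, 1, 0, 6].getD i 0
    · cases σ' with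
      | none => exact Aut.const (q' ∈ M.accept)
      | some σ' => exact aut_at σ' q' 1 0 6 5
  · rw [lang_iff]
    generalize w.length + 1 = n
    have h0 : At (M := M) (K := K) (M.start, true, false, 0) n 0 (M.start, 0, 0) := by
      simp [At, Near]
    constructor
    · intro σ x y h ⟨q, q', a, b, a', b', c1, c2, c3⟩
      have : ∀ z : Cp M K × ℕ, Relation.ReflTransGen (fun a b : Cp M K × ℕ => ∃ q q' a0 b0 a' b',
          At a.1 n a.2 (q, a0, b0) ∧ Hn K F n (2 * Fintype.card M.Q + 3) (q, a0, b0) (q', a', b') ∧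
            At' (some b.1) n b.2 (q', a', b')) ((M.start, true, false, 0), 0) z →
          ∃ c, At z.1 n z.2 c ∧ Relation.ReflTransGen (Stp M n) (M.start, 0, 0) c := by
        intro z hz
        induction hz with
        | refl => exact ⟨_, h0, .refl⟩
        | tail _ h ih =>
          obtain ⟨c, d1, d2⟩ := ih
          obtain ⟨q, q', a, b, a', b', c1, c2, c3⟩ := h
          rw [d1.unique c1] at d2
          exact ⟨_, c3, d2.trans (hn_sound h2 c2)⟩
      obtain ⟨c, d1, d2⟩ := this _ h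
      rw [d1.unique c1] at d2
      exact ⟨_, d2.trans (hn_sound h2 c2), c3⟩
    · rintro ⟨c, hc, ha⟩
      have : ∃ σ x z, Relation.ReflTransGen (fun a b : Cp M K × ℕ => (∃ q q' a0 b0 a' b',
          At a.1 n a.2 (q, a0, b0) ∧ Hn K F n (2 * Fintype.card M.Q + 3) (q, a0, b0) (q', a', b') ∧
            At' (some b.1) n b.2 (q', a', b')) ∧ b.2 ≤ n) ((M.start, true, false, 0), 0) (σ, x) ∧
          At σ n x z ∧ (c = z ∨ ∃ c1, Stp M n z c1 ∧ In K n c1 ∧
            Relation.ReflTransGen (StIn K n Finset.univ) c1 c) := by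
        clear ha
        induction hc with
        | refl => exact ⟨_, _, _, .refl, h0, Or.inl rfl⟩
        | @tail c c' _ h ih =>
          obtain ⟨σ, x, z, d1, d2, d3⟩ := ih
          by_cases e : In K n c'
          · refine ⟨σ, x, z, d1, d2, Or.inr ?_⟩
            rcases d3 with rfl | ⟨c1, e1, e2, e3⟩
            · exact ⟨c', h, e, .refl⟩
            · exact ⟨c1, e1, e2, e3.tail ⟨h, (stIn_walk e3 e2).1, e, by simp, by simp⟩⟩
          · have h' := h
            obtain ⟨_, _, _, _, b1, b2⟩ := h'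
            obtain ⟨σ', x', f1, f2⟩ := exists_at c' e b1.2 b2.2
            refine ⟨σ', x', c', d1.tail ⟨⟨z.1, c'.1, z.2.1, z.2.2, c'.2.1, c'.2.2, d2, ?_, f2⟩, f1⟩,
              f2, Or.inl rfl⟩
            rcases d3 with rfl | ⟨c1, e1, e2, e3⟩
            · exact Hn.mono (k := 1) (.cons (Or.inr (Or.inl h)) rfl) (by omega)
            · exact .cons (Or.inr (Or.inl e1))
                ((hn_complete h1 _ _ c1 c Finset.card_univ e3 e2).snoc (Or.inr (Or.inl h)))
      obtain ⟨σ, x, z, d1, d2, d3⟩ := this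
      refine ⟨σ, x, d1, z.1, c.1, z.2.1, z.2.2, c.2.1, c.2.2, d2, ?_, ha⟩
      rcases d3 with rfl | ⟨c1, e1, e2, e3⟩
      · exact Hn.mono (k := 0) rfl (by omega)
      · exact Hn.mono (.cons (Or.inr (Or.inl e1))
          (hn_complete h1 _ _ c1 c Finset.card_univ e3 e2)) (by omega)

end Pool.Agent.P.MP_d0a708_lc.N
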