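import Mathlib
import Pool.Agent.P.MP_d0a708_lc.NExc
import Pool.Agent.P.MP_d0a708_lc.NArith

/-!
A two-head automaton on a unary input as a graph of sweeps over one binary register.
-/

namespace Pool.Agent.P.MP_d0a708_lc.N

open Pool.Agent.P.MP_d0a708_lc

def vec3 (x y z : ℕ) : ℕ → ℕ
  | 0 => x
  | 1 => y
  | 2 => z
  | _ + 3 => 0

/-- Edges of the graph. -/
def Edge (n r C : ℕ) (u v : ℕ × ℕ × ℕ) : Prop := ∃ j < C, v = nb n r C u j

theorem edge_end {n r C q x j : ℕ} (hj : j < C) (h : tbit n C q j 4 ≠ 0) :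
    Edge n r C (q, r + 1, x) (j, 0, x) := ⟨j, hj, by simp [nb, h]⟩

theorem edge_cell {n r C q p x j : ℕ} (hj : j < C) (hp : p ≠ r + 1)
    (h : tbit n C q j (2 * (x % 2) + n / 2 ^ p % 2) ≠ 0) :
    Edge n r C (q, p, x) (j, p + 1, x / 2 + q % 2 * (2 ^ r / 2)) := ⟨j, hj, by simp [nb, h, hp]⟩

theorem shift_step {r p x y X b a : ℕ} (hr : 1 ≤ r) (hp : p ≤ r)
    (h : X + 2 ^ r * b = x / 2 ^ p + y * 2 ^ (r + 1 - p)) :
    X % 2 = x / 2 ^ p % 2 ∧ X / 2 + b * (2 ^ r / 2) + 2 ^ r * a =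
      x / 2 ^ (p + 1) + (y + 2 ^ p * a) * 2 ^ (r + 1 - (p + 1)) := by
  obtain ⟨m, rfl⟩ := Nat.exists_eq_add_of_le hp
  obtain ⟨s, hs⟩ : ∃ s, p + m = s + 1 := ⟨p + m - 1, by omega⟩
  have e1 : p + m + 1 - p = m + 1 := by omega
  have e2 : p + m + 1 - (p + 1) = m := by omega
  have e3 : x / 2 ^ (p + 1) = x / 2 ^ p / 2 := by rw [pow_succ, Nat.div_div_eq_div_mul]
  have e4 : y * 2 ^ (m + 1) = 2 * (y * 2 ^ m) := by ring
  have e5 : (y + 2 ^ p * a) * 2 ^ m = y * 2 ^ m + 2 ^ (p + m) * a := by ring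
  have e6 : 2 ^ (p + m) / 2 = 2 ^ s := by rw [hs, pow_succ]; omega
  have e7 : 2 ^ (p + m) * b = 2 * (b * 2 ^ s) := by rw [hs]; ring
  rw [e1, e4, e7] at h
  rw [e2, e3, e5, e6]
  omega

theorem sweeps (M : HeadsFA Unit 2) : ∃ (C : ℕ) (τ : ℕ → ℕ → ℕ → Prop), 0 < C ∧
    ∀ (n r : ℕ) (w : List Unit), w.length + 1 = n → 1 ≤ r → n < 2 ^ (r + 1) →
      (∀ q < C, ∀ j < C, ∀ κ ≤ 4, tbit n C q j κ ≠ 0 ↔ τ q j κ) →
      (w ∈ M.lang ↔ ∃ u, Relation.ReflTransGen (Edge n r C) (0, r + 1, 0) u ∧ u.1 = 1) := by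
  obtain ⟨S, _, σ0, T, hT, hM⟩ := checkpoints M
  obtain ⟨G, g1, g2, g3⟩ := closed_family
    (P := fun i : S × Option S => fun v => T i.1 i.2 (v 0) (v 1) (v 2)) (fun i => hT i.1 i.2)
  have := g1.to_subtype
  obtain ⟨m, ⟨ι⟩⟩ := Finite.exists_equiv_fin (Option S × G)
  let enc : Option S → G → Bool → ℕ := fun σ R b => 2 * ((ι (σ, R) : ℕ) + 1) + b.toNat
  let TT : S → Option S → G := fun σ σ' => ⟨_, g2 (σ, σ')⟩
  have enc_lt : ∀ σ R b, enc σ R b < 2 * (m + 1) := by
    intro σ R b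
    have := (ι (σ, R)).2
    cases b <;> simp only [enc, Bool.toNat_false, Bool.toNat_true] <;> omega
  have enc_ge : ∀ σ R b, 2 ≤ enc σ R b := by
    intro σ R b
    simp only [enc]
    omega
  have enc_mod : ∀ σ R b, enc σ R b % 2 = b.toNat := by
    intro σ R b
    cases b <;> simp only [enc, Bool.toNat_false, Bool.toNat_true] <;> omega
  have enc_inj : ∀ σ R b σ' R' b', enc σ R b = enc σ' R' b' → σ = σ' ∧ R = R' ∧ b = b' := by
    intro σ R b σ' R' b' h
    have h1 : b = b' := by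
      have a1 := enc_mod σ R b
      rw [h, enc_mod] at a1
      cases b <;> cases b' <;> simp_all
    subst h1
    have h2 : ι (σ, R) = ι (σ', R') := by
      simp only [enc] at h
      exact Fin.ext (by omega)
    have := ι.injective h2
    exact ⟨(Prod.mk.inj this).1, (Prod.mk.inj this).2, rfl⟩
  clear_value enc
  refine ⟨2 * (m + 1), fun q j κ => if κ = 4 then
      (q = 0 ∧ ∃ σ', j = enc σ' (TT σ0 σ') false) ∨
        ∃ σ' R b, q = enc σ' R b ∧ R.1 (fun _ => 0) ∧
          ((σ' = none ∧ j = 1) ∨ ∃ σ σ'', σ' = some σ ∧ j = enc σ'' (TT σ σ'') b)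
    else ∃ σ' R b R' a, q = enc σ' R b ∧ j = enc σ' R' a ∧
      ∀ w, R'.1 w → R.1 (fun i => 2 * w i + vec3 (κ / 2) a.toNat (κ % 2) i), by omega, ?_⟩
  intro n r w hn hr h2 htb
  beta_reduce at htb
  obtain ⟨hs, hc⟩ := hM w
  rw [hn] at hs hc
  have hp : 0 < 2 ^ r := by positivity
  constructor
  · intro hw
    obtain ⟨σ, x, h, hf⟩ := hc hw
    have sweep : ∀ σ σ' x y (b : Bool) X, T σ σ' x y n → X < 2 ^ r → X + 2 ^ r * b.toNat = x →
        Relation.ReflTransGen (Edge n r (2 * (m + 1))) (0, r + 1, 0) (enc σ' (TT σ σ') b, 0, X) →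
        ∀ p ≤ r + 1, ∃ (R : G) (b' : Bool) (X' : ℕ), X' < 2 ^ r ∧
          X' + 2 ^ r * b'.toNat = x / 2 ^ p + y % 2 ^ p * 2 ^ (r + 1 - p) ∧
          R.1 (fun i => vec3 x y n i / 2 ^ p) ∧
          Relation.ReflTransGen (Edge n r (2 * (m + 1))) (0, r + 1, 0) (enc σ' R b', p, X') := by
      intro σ σ' x y b X t1 t2 t3 t4 p
      induction p with
      | zero => exact fun _ => ⟨_, b, X, t2, by simp [t3, Nat.mod_one], by simpa [TT, vec3], t4⟩
      | succ p ih =>
        intro hp'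
        obtain ⟨R, b', X', u1, u2, u3, u4⟩ := ih (by omega)
        obtain ⟨R', v1, v2, v3⟩ := g3 R.1 R.2 _ u3
        have ha : (decide (y / 2 ^ p % 2 = 1)).toNat = y / 2 ^ p % 2 := by
          by_cases e : y / 2 ^ p % 2 = 1
          · simp [e]
          · simp [e]; omega
        obtain ⟨s1, s2⟩ := shift_step (a := y / 2 ^ p % 2) hr (by omega) u2
        refine ⟨⟨R', v1⟩, decide (y / 2 ^ p % 2 = 1), X' / 2 + b'.toNat * (2 ^ r / 2),
          shift_lt hr u1 (Bool.toNat_le b'), by rw [ha, s2, Nat.mod_pow_succ], ?_, u4.tail ?_⟩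
        · convert v2 using 2
          rw [pow_succ, Nat.div_div_eq_div_mul]
        · rw [← enc_mod σ' R b']
          refine edge_cell (enc_lt _ _ _) (by omega) ?_
          rw [htb _ (enc_lt _ _ _) _ (enc_lt _ _ _) _ (by omega), if_neg (by omega)]
          refine ⟨σ', R, b', _, _, rfl, rfl, fun w hw => ?_⟩
          convert v3 w hw using 3 with i
          rw [ha]
          obtain _ | _ | _ | i := i <;> simp only [vec3] <;> first | omega | simp
    have fin : ∀ σ σ' x y (b : Bool) X, T σ σ' x y n → X < 2 ^ r → X + 2 ^ r * b.toNat = x →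
        y ≤ n → Relation.ReflTransGen (Edge n r (2 * (m + 1))) (0, r + 1, 0)
          (enc σ' (TT σ σ') b, 0, X) →
        ∃ (R : G) (b' : Bool) (X' : ℕ), X' < 2 ^ r ∧ X' + 2 ^ r * b'.toNat = y ∧ R.1 (fun _ => 0) ∧
          Relation.ReflTransGen (Edge n r (2 * (m + 1))) (0, r + 1, 0)
            (enc σ' R b', r + 1, X') := by
      intro σ σ' x y b X t1 t2 t3 hy t4
      obtain ⟨R, b', X', u1, u2, u3, u4⟩ := sweep σ σ' x y b X t1 t2 t3 t4 (r + 1) le_rfl
      have hx : x < 2 ^ (r + 1) := by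
        rw [← t3, pow_succ]
        cases b <;> simp <;> omega
      rw [Nat.div_eq_of_lt hx, Nat.mod_eq_of_lt (hy.trans_lt h2), Nat.sub_self] at u2
      refine ⟨R, b', X', u1, by simpa using u2, ?_, u4⟩
      convert u3 using 2 with i
      obtain _ | _ | _ | i := i <;> simp only [vec3]
      · exact (Nat.div_eq_of_lt hx).symm
      · exact (Nat.div_eq_of_lt (hy.trans_lt h2)).symm
      · exact (Nat.div_eq_of_lt h2).symm
      · simp
    have ready : ∀ z : S × ℕ, Relation.ReflTransGen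
        (fun a b : S × ℕ => T a.1 (some b.1) a.2 b.2 n ∧ b.2 ≤ n) (σ0, 0) z →
        ∃ (b : Bool) (X : ℕ), X < 2 ^ r ∧ X + 2 ^ r * b.toNat = z.2 ∧ ∀ σ',
          Relation.ReflTransGen (Edge n r (2 * (m + 1))) (0, r + 1, 0)
            (enc σ' (TT z.1 σ') b, 0, X) := by
      intro z hz
      induction hz with
      | refl =>
        refine ⟨false, 0, hp, by simp, fun σ' => .single (edge_end (enc_lt _ _ _) ?_)⟩
        rw [htb _ (by omega) _ (enc_lt _ _ _) _ le_rfl, if_pos rfl]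
        exact Or.inl ⟨rfl, σ', rfl⟩
      | tail _ h ih =>
        obtain ⟨b, X, a1, a2, a3⟩ := ih
        obtain ⟨R, b', X', u1, u2, u3, u4⟩ := fin _ _ _ _ b X h.1 a1 a2 h.2 (a3 _)
        refine ⟨b', X', u1, u2, fun σ' => u4.tail (edge_end (enc_lt _ _ _) ?_)⟩
        rw [htb _ (enc_lt _ _ _) _ (enc_lt _ _ _) _ le_rfl, if_pos rfl]
        exact Or.inr ⟨_, R, b', rfl, u3, Or.inr ⟨_, σ', rfl, rfl⟩⟩
    obtain ⟨b, X, a1, a2, a3⟩ := ready _ h
    obtain ⟨R, b', X', u1, u2, u3, u4⟩ := fin _ _ _ _ b X hf a1 a2 (Nat.zero_le _) (a3 _)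
    refine ⟨(1, 0, X'), u4.tail (edge_end (by omega) ?_), rfl⟩
    rw [htb _ (enc_lt _ _ _) _ (by omega) _ le_rfl, if_pos rfl]
    exact Or.inr ⟨_, R, b', rfl, u3, Or.inl ⟨rfl, rfl⟩⟩
  · rintro ⟨u, hu, h1⟩
    have inv : w ∈ M.lang ∨ u = (0, r + 1, 0) ∨ ∃ (σ' : Option S) (R : G) (b : Bool) (σ : S)
        (x y : ℕ), u.1 = enc σ' R b ∧ u.2.1 ≤ r + 1 ∧ Relation.ReflTransGen
          (fun a b : S × ℕ => T a.1 (some b.1) a.2 b.2 n) (σ0, 0) (σ, x) ∧ x < 2 ^ (r + 1) ∧
          u.2.2 < 2 ^ r ∧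
          u.2.2 + 2 ^ r * b.toNat = x / 2 ^ u.2.1 + y * 2 ^ (r + 1 - u.2.1) ∧
          ∀ w, R.1 w → T σ σ' (2 ^ u.2.1 * w 0 + x % 2 ^ u.2.1) (2 ^ u.2.1 * w 1 + y)
            (2 ^ u.2.1 * w 2 + n % 2 ^ u.2.1) := by
      clear h1
      induction hu with
      | refl => exact Or.inr (Or.inl rfl)
      | @tail u v _ h ih =>
        obtain ⟨j, hj, rfl⟩ := h
        obtain ⟨q, p, X⟩ := u
        have ih' := ih
        rcases ih' with ih' | ih' | ⟨σ', R, b, σ, x, y, a1, a2, a3, a4, a5, a6, a7⟩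
        · exact Or.inl ih'
        · obtain ⟨rfl, rfl, rfl⟩ : q = 0 ∧ p = r + 1 ∧ X = 0 := by simpa using ih'
          simp only [nb, if_true]
          split_ifs with e
          · exact ih
          · have := (htb 0 (by omega) j hj 4 le_rfl).1 e
            rw [if_pos rfl] at this
            rcases this with ⟨_, σ', rfl⟩ | ⟨σ', R, b, h, _⟩
            · refine Or.inr (Or.inr ⟨σ', _, false, σ0, 0, 0, rfl, by simp, .refl, by positivity, hp,
                by simp, fun w hw => ?_⟩)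
              simpa [Nat.mod_one] using hw
            · have := enc_ge σ' R b
              omega
        · simp only at a1 a2 a5 a6 a7
          subst a1
          simp only [nb]
          split_ifs with e1 e2 e3
          · exact ih
          · subst e1
            have := (htb _ (enc_lt _ _ _) j hj 4 le_rfl).1 e2
            rw [if_pos rfl] at this
            rcases this with ⟨h, _⟩ | ⟨σ1, R1, b1, h, h0, h'⟩
            · have := enc_ge σ' R b
              omega
            obtain ⟨rfl, rfl, rfl⟩ := enc_inj _ _ _ _ _ _ h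
            have t := a7 _ h0
            simp only [mul_zero, zero_add, Nat.mod_eq_of_lt a4, Nat.mod_eq_of_lt h2] at t
            simp only [Nat.div_eq_of_lt a4, Nat.sub_self, pow_zero, zero_add, mul_one] at a6
            rcases h' with ⟨rfl, _⟩ | ⟨σ1, σ2, rfl, rfl⟩
            · exact Or.inl (hs _ _ _ a3 t)
            · refine Or.inr (Or.inr ⟨σ2, _, b, σ1, y, 0, rfl, by simp, a3.tail t, ?_, a5,
                by simpa using a6, fun w hw => ?_⟩)
              · rw [← a6, pow_succ]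
                cases b <;> simp <;> omega
              · simpa [Nat.mod_one] using hw
          · exact ih
          · have := (htb _ (enc_lt _ _ _) j hj _ (by omega)).1 e3
            rw [if_neg (by omega)] at this
            obtain ⟨σ1, R1, b1, R', a, h, rfl, h'⟩ := this
            obtain ⟨rfl, rfl, rfl⟩ := enc_inj _ _ _ _ _ _ h
            obtain ⟨s1, s2⟩ := shift_step (a := a.toNat) hr (by omega) a6
            rw [enc_mod]
            refine Or.inr (Or.inr ⟨σ', R', a, σ, x, y + 2 ^ p * a.toNat, rfl, by simp only; omega,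
              a3, a4, shift_lt hr a5 (Bool.toNat_le b), s2, fun w hw => ?_⟩)
            have t := a7 _ (h' w hw)
            have k1 : (2 * (X % 2) + n / 2 ^ p % 2) / 2 = x / 2 ^ p % 2 := by omega
            have k2 : (2 * (X % 2) + n / 2 ^ p % 2) % 2 = n / 2 ^ p % 2 := by omega
            simp only [vec3, k1, k2] at t
            simp only [Nat.mod_pow_succ]
            convert t using 1 <;> ring
    rcases inv with h | h | ⟨σ', R, b, _, _, _, h, _⟩
    · exact h
    · rw [h] at h1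
      simp at h1
    · have := enc_ge σ' R b
      omega

end Pool.Agent.P.MP_d0a708_lc.N
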