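import Mathlib
import Pool.Agent.P.MP_d0a708_lc.NMac

/-!
Packing many small registers into one register.
-/

namespace Pool.Agent.P.MP_d0a708_lc.N

open Function

def num : List Bool → ℕ
  | [] => 0
  | b :: l => b.toNat + 2 * num l

def cf : List Bool → List Bool
  | [] => []
  | b :: f => true :: b :: cf f

def code : List (List Bool) → List Bool
  | [] => []
  | f :: L => cf f ++ false :: code L

theorem num_lt (l : List Bool) : num l < 2 ^ l.length := by
  induction l with
  | nil => simp [num]
  | cons b l ih => cases b <;> simp [num, pow_succ] <;> omega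

theorem code_append (L L' : List (List Bool)) : code (L ++ L') = code L ++ code L' := by
  induction L with
  | nil => rfl
  | cons f L ih => simp [code, ih]

theorem length_cf (f : List Bool) : (cf f).length = 2 * f.length := by
  induction f with
  | nil => rfl
  | cons b f ih => simp [cf, ih]; omega

theorem length_code {J : ℕ} (L : List (List Bool)) (h : ∀ f ∈ L, f.length ≤ J) :
    (code L).length ≤ L.length * (2 * J + 1) := by
  induction L with
  | nil => simp [code]
  | cons f L ih =>
    have h1 := h f (by simp)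
    have h2 := ih (fun g hg => h g (by simp [hg]))
    simp only [code, List.length_append, List.length_cons, length_cf]
    nlinarith

def R2 (x y : ℕ) : Fin (1 + 1) → ℕ := ![x, y]

@[simp] theorem R2_0 (x y : ℕ) : R2 x y 0 = x := rfl
@[simp] theorem R2_1 (x y : ℕ) : R2 x y 1 = y := rfl
@[simp] theorem R2_up0 (x y v : ℕ) : update (R2 x y) 0 v = R2 v y := by
  funext i; fin_cases i <;> rfl
@[simp] theorem R2_up1 (x y v : ℕ) : update (R2 x y) 1 v = R2 x v := by
  funext i; fin_cases i <;> rfl
@[simp] theorem bs_true : bs true = sU := rfl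
@[simp] theorem bs_false : bs false = sE := rfl

def pb : Prog 1 := popB 1
def back : Prog 1 :=
  seqs [.loop (.isnt sM) (.ite (.is sU) (seqs [pop, dbl 1, inc 1]) (seqs [pop, dbl 1])), pop]
def skipF : Prog 1 := seqs [pb, .loop (.is sU) (seqs [pb, pb])]
def skipN : ℕ → Prog 1
  | 0 => .skip
  | n + 1 => .seq skipF (skipN n)
def fI : Prog 1 := seqs [pb, .ite (.is sU) pb (seqs [pop, push sU, push sE, dbl 1])]
def fD : Prog 1 := seqs [pb, pb]
def fT : Prog 1 :=
  seqs [pb, .ite (.is sU) (seqs [pb, .ite (.is sU) (push sE) (push sU)]) (push sM)]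
def INC (n : ℕ) : Prog 1 :=
  seqs [push sM, skipN n, fI, .loop (.is sU) (seqs [pop, push sE, fI]), pop, push sU, back]
def DEC (n : ℕ) : Prog 1 :=
  seqs [push sM, skipN n, fD, .loop (.is sE) (seqs [pop, push sU, fD]), pop, push sE, back]
def TST (n : ℕ) : Prog 1 :=
  seqs [push sM, skipN n, fT, .loop (.is sU) (seqs [pop, fT]),
    .ite (.is sE) (seqs [pop, back, push sU]) (seqs [pop, back, push sE])]

def incF : List Bool → List Bool
  | [] => [true]
  | false :: f => true :: f
  | true :: f => false :: incF f

def decF : List Bool → List Bool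
  | [] => []
  | true :: f => false :: f
  | false :: f => true :: decF f

theorem num_incF (f : List Bool) : num (incF f) = num f + 1 := by
  induction f with
  | nil => rfl
  | cons b f ih => cases b <;> simp [incF, num, ih] <;> omega

theorem length_incF {J : ℕ} (f : List Bool) (h : f.length ≤ J) (h2 : num f + 1 < 2 ^ J) :
    (incF f).length ≤ J := by
  induction f generalizing J with
  | nil =>
    cases J with
    | zero => simp [num] at h2
    | succ J => simp [incF]
  | cons b f ih =>
    cases b
    · simpa [incF] using h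
    · cases J with
      | zero => simp at h
      | succ J =>
        have := ih (J := J) (by simpa using h) (by simp [num, pow_succ] at h2; omega)
        simpa [incF] using this

theorem num_decF (f : List Bool) (h : 0 < num f) : num (decF f) = num f - 1 := by
  induction f with
  | nil => rfl
  | cons b f ih =>
    cases b
    · simp [num] at h
      simp [decF, num, ih h]; omega
    · simp [decF, num]

theorem length_decF (f : List Bool) : (decF f).length = f.length := by
  induction f with
  | nil => rfl
  | cons b f ih => cases b <;> simp [decF, ih]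

section

variable {bd : Fin (1 + 1) → ℕ} {pr : Bool → Prog 1} {Lm : ℕ}

theorem num_le (hb : 2 ^ Lm ≤ bd 1) {l : List Bool} (h : l.length ≤ Lm) : num l < bd 1 :=
  (num_lt l).trans_le ((Nat.pow_le_pow_right (by omega) h).trans hb)

theorem ex_pb (hb : 2 ^ Lm ≤ bd 1) {x : ℕ} {b : Bool} {l : List Bool} {st : List Sym}
    (h : l.length ≤ Lm) :
    Exec bd pr pb (R2 x (num (b :: l)), st) (R2 x (num l), bs b :: st) := by
  have e : num (b :: l) / 2 = num l := by cases b <;> simp [num] <;> omega
  refine ex_of_eq (ex_popB (by simp [e, (num_le hb h).le])) ?_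
  simp only [R2_1, e, R2_up1]
  cases b <;> simp [num, bs]

theorem ex_back (hb : 2 ^ Lm ≤ bd 1) {x : ℕ} {st : List Sym} (r l : List Bool)
    (h : (r.reverse ++ l).length ≤ Lm) :
    Exec bd pr back (R2 x (num l), r.map bs ++ sM :: st) (R2 x (num (r.reverse ++ l)), st) := by
  have : ∀ (r l : List Bool), (r.reverse ++ l).length ≤ Lm → Exec bd pr
      (.loop (.isnt sM) (.ite (.is sU) (seqs [pop, dbl 1, inc 1]) (seqs [pop, dbl 1])))
      (R2 x (num l), r.map bs ++ sM :: st) (R2 x (num (r.reverse ++ l)), sM :: st) := by
    intro r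
    induction r with
    | nil => intro l _; exact .loopF (by simp [TstS])
    | cons b r ih =>
      intro l h
      have h1 : num (b :: l) < bd 1 := num_le hb (by simp at h ⊢; omega)
      have h2 := ih (b :: l) (by simpa using h)
      rw [List.reverse_cons, List.append_assoc]
      refine .loopT (by cases b <;> simp [TstS]) ?_ h2
      cases b
      · simp [num] at h1
        refine .iteF (by simp [TstS]) (ex_cons ex_pop (ex_cons (ex_dbl (by simp; omega))
          (ex_nil ?_)))
        simp [num]
      · simp [num] at h1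
        refine .iteT (by simp [TstS]) (ex_cons ex_pop (ex_cons (ex_dbl (by simp; omega))
          (ex_cons (ex_inc (by simp; omega)) (ex_nil ?_))))
        simp [num, add_comm]
  exact ex_cons (this r l h) (ex_cons ex_pop (ex_nil rfl))

theorem ex_skipF (hb : 2 ^ Lm ≤ bd 1) {x : ℕ} (f l : List Bool) (st : List Sym)
    (h : (cf f ++ false :: l).length ≤ Lm) :
    Exec bd pr skipF (R2 x (num (cf f ++ false :: l)), st)
      (R2 x (num l), (cf f ++ [false]).reverse.map bs ++ st) := by
  have : ∀ (f : List Bool) (st : List Sym), (cf f ++ false :: l).length ≤ Lm →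
      ∃ s, Exec bd pr pb (R2 x (num (cf f ++ false :: l)), st) s ∧
        Exec bd pr (.loop (.is sU) (seqs [pb, pb])) s
          (R2 x (num l), (cf f ++ [false]).reverse.map bs ++ st) := by
    intro f
    induction f with
    | nil =>
      intro st h
      exact ⟨_, ex_pb hb (by simp [cf] at h; omega), .loopF (by simp [TstS])⟩
    | cons b f ih =>
      intro st h
      simp only [cf, List.cons_append, List.length_cons] at h ⊢
      obtain ⟨s, h1, h2⟩ := ih (bs b :: sU :: st) (by omega)
      refine ⟨_, ex_pb hb (by simp at h ⊢; omega), .loopT (by simp [TstS])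
        (ex_cons (ex_pb hb (by omega)) (ex_cons h1 (ex_nil rfl))) (ex_of_eq h2 ?_)⟩
      simp
  obtain ⟨s, h1, h2⟩ := this f st h
  exact ex_cons h1 (ex_cons h2 (ex_nil rfl))

theorem ex_skipN (hb : 2 ^ Lm ≤ bd 1) {x : ℕ} (P : List (List Bool)) (l : List Bool)
    (st : List Sym) (h : (code P ++ l).length ≤ Lm) :
    Exec bd pr (skipN P.length) (R2 x (num (code P ++ l)), st)
      (R2 x (num l), (code P).reverse.map bs ++ st) := by
  induction P generalizing st with
  | nil => exact .skip _
  | cons f P ih =>
    simp only [code, List.append_assoc, List.cons_append] at h ⊢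
    refine .seq (ex_skipF hb f _ st h) (ex_of_eq (ih _ (by simp at h ⊢; omega)) ?_)
    simp

theorem ex_INC (hb : 2 ^ Lm ≤ bd 1) {x : ℕ} (P : List (List Bool)) (f l : List Bool)
    (st : List Sym) (h : (code P ++ (cf f ++ false :: l)).length ≤ Lm)
    (h' : (code P ++ (cf (incF f) ++ false :: l)).length ≤ Lm) :
    Exec bd pr (INC P.length) (R2 x (num (code P ++ (cf f ++ false :: l))), st)
      (R2 x (num (code P ++ (cf (incF f) ++ false :: l))), st) := by
  have : ∀ (f : List Bool) (st : List Sym), (cf f ++ false :: l).length ≤ Lm →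
      ∃ (s : St 1) (r l' : List Bool), Exec bd pr fI (R2 x (num (cf f ++ false :: l)), st) s ∧
        Exec bd pr (.loop (.is sU) (seqs [pop, push sE, fI])) s
          (R2 x (num l'), sE :: sU :: (r.map bs ++ st)) ∧
        r.reverse ++ true :: true :: l' = cf (incF f) ++ false :: l := by
    intro f
    induction f with
    | nil =>
      intro st h
      simp only [cf, List.nil_append] at h ⊢
      have h1 : num (false :: l) < bd 1 := num_le hb h
      refine ⟨_, [], false :: l, ex_cons (ex_pb hb (by simp at h; omega))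
        (ex_cons (.iteF (by simp [TstS]) (ex_cons ex_pop (ex_cons ex_push (ex_cons ex_push
          (ex_cons (ex_dbl (by simp [num] at h1 ⊢; omega)) (ex_nil rfl)))))) (ex_nil rfl)),
        ex_of_eq (.loopF (by simp [TstS])) (by simp [num]), by simp [incF, cf]⟩
    | cons b f ih =>
      intro st h
      simp only [cf, List.cons_append, List.length_cons] at h ⊢
      have e : Exec bd pr fI (R2 x (num (true :: b :: (cf f ++ false :: l))), st)
          (R2 x (num (cf f ++ false :: l)), bs b :: sU :: st) :=
        ex_cons (ex_pb hb (by simp at h ⊢; omega))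
          (ex_cons (.iteT (by simp [TstS]) (ex_pb hb (by omega))) (ex_nil rfl))
      cases b
      · exact ⟨_, [], _, e, .loopF (by simp [TstS]), by simp [incF, cf]⟩
      · obtain ⟨s, r, l', h1, h2, h3⟩ := ih (sE :: sU :: st) (by omega)
        refine ⟨_, r ++ [false, true], l', e, .loopT (by simp [TstS])
          (ex_cons ex_pop (ex_cons ex_push (ex_cons h1 (ex_nil rfl)))) (ex_of_eq h2 ?_), ?_⟩
        · simp
        · simp [incF, cf, h3]
  obtain ⟨s, r, l', h1, h2, h3⟩ := this f ((code P).reverse.map bs ++ sM :: st)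
    (by simp at h ⊢; omega)
  refine ex_cons ex_push (ex_cons (ex_skipN hb P _ _ h) (ex_cons h1 (ex_cons h2
    (ex_cons ex_pop (ex_cons ex_push (ex_cons ?_ (ex_nil rfl)))))))
  have e : (true :: true :: (r ++ (code P).reverse)).reverse ++ l' =
      code P ++ (cf (incF f) ++ false :: l) := by simp [← h3]
  have := ex_back (pr := pr) hb (x := x) (st := st) (true :: true :: (r ++ (code P).reverse)) l'
    (by rw [e]; exact h')
  rw [e] at this
  simpa using this

theorem ex_DEC (hb : 2 ^ Lm ≤ bd 1) {x : ℕ} (P : List (List Bool)) (f l : List Bool)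
    (st : List Sym) (h : (code P ++ (cf f ++ false :: l)).length ≤ Lm) (hf : 0 < num f) :
    Exec bd pr (DEC P.length) (R2 x (num (code P ++ (cf f ++ false :: l))), st)
      (R2 x (num (code P ++ (cf (decF f) ++ false :: l))), st) := by
  have : ∀ (f : List Bool) (st : List Sym), (cf f ++ false :: l).length ≤ Lm → 0 < num f →
      ∃ (s : St 1) (r l' : List Bool), Exec bd pr fD (R2 x (num (cf f ++ false :: l)), st) s ∧
        Exec bd pr (.loop (.is sE) (seqs [pop, push sU, fD])) s
          (R2 x (num l'), sU :: sU :: (r.map bs ++ st)) ∧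
        r.reverse ++ true :: false :: l' = cf (decF f) ++ false :: l := by
    intro f
    induction f with
    | nil => intro st h hf; simp [num] at hf
    | cons b f ih =>
      intro st h hf
      simp only [cf, List.cons_append, List.length_cons] at h ⊢
      have e : Exec bd pr fD (R2 x (num (true :: b :: (cf f ++ false :: l))), st)
          (R2 x (num (cf f ++ false :: l)), bs b :: sU :: st) :=
        ex_cons (ex_pb hb (by simp at h ⊢; omega)) (ex_cons (ex_pb hb (by omega)) (ex_nil rfl))
      cases b
      · obtain ⟨s, r, l', h1, h2, h3⟩ := ih (sU :: sU :: st) (by omega)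
          (by simpa [num] using hf)
        refine ⟨_, r ++ [true, true], l', e, .loopT (by simp [TstS])
          (ex_cons ex_pop (ex_cons ex_push (ex_cons h1 (ex_nil rfl)))) (ex_of_eq h2 ?_), ?_⟩
        · simp
        · simp [decF, cf, h3]
      · exact ⟨_, [], _, e, .loopF (by simp [TstS]), by simp [decF, cf]⟩
  obtain ⟨s, r, l', h1, h2, h3⟩ := this f ((code P).reverse.map bs ++ sM :: st)
    (by simp at h ⊢; omega) hf
  refine ex_cons ex_push (ex_cons (ex_skipN hb P _ _ h) (ex_cons h1 (ex_cons h2
    (ex_cons ex_pop (ex_cons ex_push (ex_cons ?_ (ex_nil rfl)))))))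
  have e : (false :: true :: (r ++ (code P).reverse)).reverse ++ l' =
      code P ++ (cf (decF f) ++ false :: l) := by simp [← h3]
  have := ex_back (pr := pr) hb (x := x) (st := st) (false :: true :: (r ++ (code P).reverse)) l'
    (by rw [e]; simpa [length_cf, length_decF] using h)
  rw [e] at this
  simpa using this

theorem ex_TST (hb : 2 ^ Lm ≤ bd 1) {x : ℕ} (P : List (List Bool)) (f l : List Bool)
    (st : List Sym) (h : (code P ++ (cf f ++ false :: l)).length ≤ Lm) :
    Exec bd pr (TST P.length) (R2 x (num (code P ++ (cf f ++ false :: l))), st)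
      (R2 x (num (code P ++ (cf f ++ false :: l))), bs (num f ≠ 0) :: st) := by
  have : ∀ (f : List Bool) (st : List Sym), (cf f ++ false :: l).length ≤ Lm →
      ∃ (s : St 1) (r l' : List Bool), Exec bd pr fT (R2 x (num (cf f ++ false :: l)), st) s ∧
        Exec bd pr (.loop (.is sU) (seqs [pop, fT])) s
          (R2 x (num l'), (if num f = 0 then sM else sE) :: (r.map bs ++ st)) ∧
        r.reverse ++ l' = cf f ++ false :: l := by
    intro f
    induction f with
    | nil =>
      intro st h
      simp only [cf, List.nil_append] at h ⊢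
      exact ⟨_, [false], l, ex_cons (ex_pb hb (by simp at h; omega))
        (ex_cons (.iteF (by simp [TstS]) ex_push) (ex_nil rfl)),
        ex_of_eq (.loopF (by simp [TstS])) (by simp [num]), by simp⟩
    | cons b f ih =>
      intro st h
      simp only [cf, List.cons_append, List.length_cons] at h ⊢
      cases b
      · obtain ⟨s, r, l', h1, h2, h3⟩ := ih (sE :: sU :: st) (by omega)
        refine ⟨_, r ++ [false, true], l', ex_cons (ex_pb hb (by simp at h ⊢; omega))
          (ex_cons (.iteT (by simp [TstS]) (ex_cons (ex_pb hb (by omega))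
            (ex_cons (.iteF (by simp [TstS]) ex_push) (ex_nil rfl)))) (ex_nil rfl)),
          .loopT (by simp [TstS]) (ex_cons ex_pop (ex_cons h1 (ex_nil rfl))) (ex_of_eq h2 ?_), ?_⟩
        · simp [num]
        · simp [h3]
      · refine ⟨_, [true, true], cf f ++ false :: l, ex_cons (ex_pb hb (by simp at h ⊢; omega))
          (ex_cons (.iteT (by simp [TstS]) (ex_cons (ex_pb hb (by omega))
            (ex_cons (.iteT (by simp [TstS]) ex_push) (ex_nil rfl)))) (ex_nil rfl)),
          ex_of_eq (.loopF (by simp [TstS])) (by simp [num]), by simp⟩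
  obtain ⟨s, r, l', h1, h2, h3⟩ := this f ((code P).reverse.map bs ++ sM :: st)
    (by simp at h ⊢; omega)
  have e : (r ++ (code P).reverse).reverse ++ l' = code P ++ (cf f ++ false :: l) := by
    simp [← h3]
  have hk := ex_back (pr := pr) hb (x := x) (st := st) (r ++ (code P).reverse) l'
    (by rw [e]; exact h)
  rw [e, List.map_append, List.append_assoc] at hk
  refine ex_cons ex_push (ex_cons (ex_skipN hb P _ _ h) (ex_cons h1 (ex_cons h2
    (ex_cons ?_ (ex_nil rfl)))))
  by_cases hf : num f = 0
  · refine .iteF (by simp [TstS, hf]) (ex_cons ex_pop (ex_cons hk (ex_cons ex_push (ex_nil ?_))))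
    simp [hf]
  · refine .iteT (by simp [TstS, hf]) (ex_cons ex_pop (ex_cons hk (ex_cons ex_push (ex_nil ?_))))
    simp [hf]

end

variable {k : ℕ}

def trO : Op k → Prog 1
  | .inc i => if i = 0 then inc 0 else INC i
  | .dec i => if i = 0 then dec 0 else DEC i
  | .push g => push g
  | .pop => pop

def trT : Tst k → Prog 1
  | .nz i => if i = 0 then .ite (.nz 0) (push sU) (push sE) else TST i
  | .ne => .ite .ne (push sU) (push sE)
  | .is g => .ite (.is g) (push sU) (push sE)
  | .isnt g => .ite (.isnt g) (push sU) (push sE)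

def tr : Prog k → Prog 1
  | .skip => .skip
  | .op o => trO o
  | .seq p q => .seq (tr p) (tr q)
  | .ite t p q => .seq (trT t) (.ite (.is sU) (.seq pop (tr p)) (.seq pop (tr q)))
  | .loop t p => .seq (trT t) (.seq (.loop (.is sU) (seqs [pop, tr p, trT t])) pop)
  | .call i => .call i

def Rel (J : ℕ) (c : Fin (k + 1) → ℕ) (y : ℕ) : Prop :=
  ∃ L : Fin (k + 1) → List Bool, y = num (code (List.ofFn L)) ∧ (∀ i, (L i).length ≤ J) ∧
    ∀ i, i ≠ 0 → num (L i) = c i

theorem split_ofFn (L : Fin (k + 1) → List Bool) (i : Fin (k + 1)) :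
    ∃ P S : List (List Bool), P.length = i ∧ ∀ f, List.ofFn (update L i f) = P ++ f :: S := by
  refine ⟨(List.ofFn L).take i, (List.ofFn L).drop (i + 1), by simp, fun f => ?_⟩
  have : List.ofFn (update L i f) = (List.ofFn L).set i f := by
    apply List.ext_getElem (by simp)
    intro n h1 h2
    rw [List.getElem_set]
    simp only [List.getElem_ofFn, update_apply, Fin.ext_iff]
    split_ifs <;> first | rfl | omega
  rw [this, List.set_eq_take_append_cons_drop, if_pos (by simp; omega)]

theorem len_ofFn {J : ℕ} (L : Fin (k + 1) → List Bool) (h : ∀ i, (L i).length ≤ J) :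
    (code (List.ofFn L)).length ≤ (k + 1) * (2 * J + 1) := by
  have := length_code (J := J) (List.ofFn L) (by
    intro f hf
    obtain ⟨i, rfl⟩ := List.mem_ofFn.1 hf
    exact h i)
  simpa using this

section

variable {bd : Fin (k + 1) → ℕ} {bd' : Fin (1 + 1) → ℕ} {J : ℕ} {pr' : Bool → Prog 1}

theorem ex_trT (h0 : bd' 0 = bd 0) (hb : 2 ^ ((k + 1) * (2 * J + 1)) ≤ bd' 1) (t : Tst k)
    (c : Fin (k + 1) → ℕ) (y : ℕ) (st : List Sym) (h : Rel J c y) (b : Bool)
    (ht : TstS bd t (c, st) ↔ b = true) :
    Exec bd' pr' (trT t) (R2 (c 0) y, st) (R2 (c 0) y, bs b :: st) := by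
  have key : ∀ t' : Tst 1, (TstS bd' t' (R2 (c 0) y, st) ↔ TstS bd t (c, st)) →
      Exec bd' pr' (.ite t' (push sU) (push sE)) (R2 (c 0) y, st) (R2 (c 0) y, bs b :: st) := by
    intro t' h'
    cases b
    · exact .iteF (by simp [h', ht]) ex_push
    · exact .iteT (by simp [h', ht]) ex_push
  cases t with
  | nz i =>
    simp only [trT]
    split_ifs with hi
    · subst hi
      exact key _ (by simp [TstS])
    · obtain ⟨L, rfl, h1, h2⟩ := h
      obtain ⟨P, S, hP, hL⟩ := split_ofFn L i
      have e := hL (L i)
      rw [update_eq_self] at e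
      have hl := len_ofFn L h1
      rw [e, code_append] at hl ⊢
      rw [← hP]
      refine ex_of_eq (ex_TST hb P (L i) (code S) st hl) ?_
      congr 3
      rw [h2 i hi]
      simp only [TstS] at ht
      cases b <;> simp_all
  | ne => exact key _ (by simp [TstS, h0])
  | is g => exact key _ (by simp [TstS])
  | isnt g => exact key _ (by simp [TstS])

theorem ex_tr (h0 : bd' 0 = bd 0) (hb : 2 ^ ((k + 1) * (2 * J + 1)) ≤ bd' 1)
    (hJ : ∀ i, i ≠ 0 → bd i < 2 ^ J) {pr : Bool → Prog k} {p : Prog k} {s s' : St k}
    (h : Exec bd pr p s s') : ∀ y, Rel J s.1 y → ∃ y', Rel J s'.1 y' ∧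
      Exec bd' (fun i => tr (pr i)) (tr p) (R2 (s.1 0) y, s.2) (R2 (s'.1 0) y', s'.2) := by
  induction h with
  | skip s => exact fun y hy => ⟨y, hy, .skip _⟩
  | op h =>
    intro y hy
    cases h with
    | inc i c st h =>
      simp only [tr, trO]
      split_ifs with hi
      · subst hi
        obtain ⟨L, e, h1, h2⟩ := hy
        refine ⟨y, ⟨L, e, h1, fun i hi => by simpa [update_of_ne hi] using h2 i hi⟩, ?_⟩
        exact ex_of_eq (ex_inc (by simpa [h0] using h)) (by simp)
      · obtain ⟨L, rfl, h1, h2⟩ := hy
        obtain ⟨P, S, hP, hL⟩ := split_ofFn L i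
        have e := hL (L i)
        rw [update_eq_self] at e
        have hl := len_ofFn L h1
        have h2' : num (L i) = c i := h2 i hi
        have h1' : ∀ j, (update L i (incF (L i)) j).length ≤ J := by
          intro j
          rw [update_apply]
          split_ifs
          · exact length_incF _ (h1 i) (by have := hJ i hi; omega)
          · exact h1 j
        have hl' := len_ofFn _ h1'
        refine ⟨_, ⟨update L i (incF (L i)), rfl, h1', fun j hj => ?_⟩, ?_⟩
        · simp only [update_apply]
          split_ifs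
          · rw [num_incF, h2']
          · exact h2 j hj
        · rw [e, code_append] at hl ⊢
          rw [hL, code_append] at hl' ⊢
          rw [← hP, update_of_ne (Ne.symm hi)]
          exact ex_INC hb P (L i) (code S) st hl hl'
    | dec i c st h =>
      simp only [tr, trO]
      split_ifs with hi
      · subst hi
        obtain ⟨L, e, h1, h2⟩ := hy
        refine ⟨y, ⟨L, e, h1, fun i hi => by simpa [update_of_ne hi] using h2 i hi⟩, ?_⟩
        exact ex_of_eq (ex_dec (by simpa using h)) (by simp)
      · obtain ⟨L, rfl, h1, h2⟩ := hy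
        obtain ⟨P, S, hP, hL⟩ := split_ofFn L i
        have e := hL (L i)
        rw [update_eq_self] at e
        have hl := len_ofFn L h1
        have h2' : num (L i) = c i := h2 i hi
        refine ⟨_, ⟨update L i (decF (L i)), rfl, fun j => ?_, fun j hj => ?_⟩, ?_⟩
        · rw [update_apply]
          split_ifs
          · rw [length_decF]; exact h1 i
          · exact h1 j
        · simp only [update_apply]
          split_ifs
          · rw [num_decF _ (by omega), h2']
          · exact h2 j hj
        · rw [e, code_append] at hl ⊢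
          rw [hL, code_append, ← hP, update_of_ne (Ne.symm hi)]
          exact ex_DEC hb P (L i) (code S) st hl (by omega)
    | push g c st => exact ⟨y, hy, ex_push⟩
    | pop g c st => exact ⟨y, hy, ex_pop⟩
  | seq _ _ ih1 ih2 =>
    intro y hy
    obtain ⟨y1, r1, e1⟩ := ih1 y hy
    obtain ⟨y2, r2, e2⟩ := ih2 y1 r1
    exact ⟨y2, r2, .seq e1 e2⟩
  | @iteT t p q s s' ht _ ih =>
    intro y hy
    obtain ⟨y1, r1, e1⟩ := ih y hy
    exact ⟨y1, r1, .seq (ex_trT h0 hb t s.1 y s.2 hy true (by simpa using ht))
      (.iteT (by simp [TstS]) (.seq ex_pop e1))⟩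
  | @iteF t p q s s' ht _ ih =>
    intro y hy
    obtain ⟨y1, r1, e1⟩ := ih y hy
    exact ⟨y1, r1, .seq (ex_trT h0 hb t s.1 y s.2 hy false (by simpa using ht))
      (.iteF (by simp [TstS]) (.seq ex_pop e1))⟩
  | @loopT t p s s' s'' ht _ _ ih1 ih2 =>
    intro y hy
    obtain ⟨y1, r1, e1⟩ := ih1 y hy
    obtain ⟨y2, r2, e2⟩ := ih2 y1 r1
    refine ⟨y2, r2, ?_⟩
    simp only [tr] at e2 ⊢
    cases e2 with
    | seq a1 a2 =>
      cases a2 with
      | seq a2 a3 =>
        exact .seq (ex_trT h0 hb t s.1 y s.2 hy true (by simpa using ht))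
          (.seq (.loopT (by simp [TstS]) (ex_cons ex_pop (ex_cons e1 (ex_cons a1 (ex_nil rfl))))
            a2) a3)
  | @loopF t p s ht =>
    intro y hy
    exact ⟨y, hy, .seq (ex_trT h0 hb t s.1 y s.2 hy false (by simpa using ht))
      (.seq (.loopF (by simp [TstS])) ex_pop)⟩
  | call _ ih =>
    intro y hy
    obtain ⟨y1, r1, e1⟩ := ih y hy
    exact ⟨y1, r1, .call e1⟩

theorem rel_zero : Rel J (fun _ : Fin (k + 1) => 0) 0 := by
  refine ⟨fun _ => [], ?_, by simp, by simp [num]⟩
  have : ∀ L : List (List Bool), (∀ f ∈ L, f = []) → num (code L) = 0 := by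
    intro L
    induction L with
    | nil => intro _; rfl
    | cons f L ih =>
      intro h
      obtain rfl := h f (by simp)
      simp [code, cf, num, ih (fun g hg => h g (by simp [hg]))]
  refine (this _ ?_).symm
  intro f hf
  obtain ⟨i, rfl⟩ := List.mem_ofFn.1 hf
  rfl

end

/-- The automaton of a program with many registers. -/
theorem prog_run {pr : Bool → Prog k} {main : Prog k} {w : List Unit} {bd : Fin (k + 1) → ℕ}
    {J : ℕ} (h0 : bd 0 = w.length + 1) (hb : 2 ^ ((k + 1) * (2 * J + 1)) ≤ w.length + 1)
    (hJ : ∀ i, i ≠ 0 → bd i < 2 ^ J) {c : Fin (k + 1) → ℕ}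
    (h : Exec bd pr main (fun _ => 0, []) (c, [])) :
    (w ∈ (pda (fun i => tr (pr i)) (tr main)).lang ↔ c 0 = 0) ∧
      ∀ x, Relation.ReflTransGen ((pda (fun i => tr (pr i)) (tr main)).Step w)
        ((pda (fun i => tr (pr i)) (tr main)).start, fun _ => 0,
          [(pda (fun i => tr (pr i)) (tr main)).bottom]) x →
        x.2.1 1 ≤ 2 ^ ((k + 1) * (2 * J + 1)) := by
  obtain ⟨y, _, e⟩ := ex_tr (bd' := R2 (w.length + 1) (2 ^ ((k + 1) * (2 * J + 1))))
    (by simp [h0]) (by simp) hJ h 0 rel_zero
  have z : R2 0 0 = fun _ => 0 := by funext i; fin_cases i <;> rfl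
  simp only [z] at e
  exact pda_run (by simp) (by simpa using hb) e

end Pool.Agent.P.MP_d0a708_lc.N
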