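import Mathlib
import Pool.Agent.P.MP_d0a708_lc.NTr
import Pool.Agent.P.MP_d0a708_lc.NSim
import Pool.Agent.P.MP_d0a708_lc.NSweep

/-!
The diagonal automaton.
-/

namespace Pool.Agent.P.MP_d0a708_lc.N

open Pool.Agent.P.MP_d0a708_lc

theorem exists_bits (L N0 : ℕ) (φ : ℕ → Prop) :
    ∃ m, N0 ≤ m ∧ ∀ i < L, (m / 2 ^ i % 2 ≠ 0 ↔ φ i) := by
  induction L generalizing φ with
  | zero => exact ⟨N0, le_rfl, by simp⟩
  | succ L ih =>
    obtain ⟨m, h1, h2⟩ := ih (fun i => φ (i + 1))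
    by_cases e : φ 0
    · refine ⟨2 * m + 1, by omega, fun i hi => ?_⟩
      cases i with
      | zero => simp [e]
      | succ i =>
        rw [pow_succ', ← Nat.div_div_eq_div_mul, show (2 * m + 1) / 2 = m by omega]
        exact h2 i (by omega)
    · refine ⟨2 * m, by omega, fun i hi => ?_⟩
      cases i with
      | zero => simp [e]
      | succ i =>
        rw [pow_succ', ← Nat.div_div_eq_div_mul, show (2 * m) / 2 = m by omega]
        exact h2 i (by omega)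

theorem exists_table (C N0 : ℕ) (τ : ℕ → ℕ → ℕ → Prop) :
    ∃ m, N0 ≤ m ∧ ∀ q < C, ∀ j < C, ∀ κ ≤ 4,
      (tbit (2 ^ C * (2 * m + 1)) C q j κ ≠ 0 ↔ τ q j κ) := by
  obtain ⟨m, h1, h2⟩ := exists_bits (8 * (C * C)) N0 (fun i => τ (i / 8 / C) (i / 8 % C) (i % 8))
  refine ⟨m, h1, fun q hq j hj κ hκ => ?_⟩
  have a1 : (q + 1) * C ≤ C * C := Nat.mul_le_mul_right _ hq
  have a2 := h2 (κ + 8 * (q * C + j)) (by rw [add_mul] at a1; omega)
  have a3 : (κ + 8 * (q * C + j)) / 8 = q * C + j := by omega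
  have a4 : (κ + 8 * (q * C + j)) % 8 = κ := by omega
  have a5 : (q * C + j) / C = q ∧ (q * C + j) % C = j :=
    (Nat.div_mod_unique (by omega)).2 ⟨by ring, hj⟩
  simp only [a3, a4, a5.1, a5.2] at a2
  rw [← a2, tbit, add_assoc, add_assoc, pow_add, ← Nat.div_div_eq_div_mul,
    Nat.mul_div_cancel_left _ (by positivity), add_comm 1, pow_succ', ← Nat.div_div_eq_div_mul,
    show (2 * m + 1) / 2 = m by omega]

theorem poly_le (a b : ℕ) : ∃ r0, ∀ r, r0 ≤ r → a * (r + 2) ^ b ≤ 2 ^ r := by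
  have h := tendsto_pow_const_div_const_pow_of_one_lt b (r := (2 : ℝ)) (by norm_num)
  have h' := h.eventually (gt_mem_nhds (show (0 : ℝ) < 1 / (4 * (a + 1)) by positivity))
  obtain ⟨r0, hr⟩ := Filter.eventually_atTop.1 h'
  refine ⟨r0, fun r h => ?_⟩
  have := hr (r + 2) (by omega)
  rw [div_lt_div_iff₀ (by positivity) (by positivity), pow_add] at this
  have h3 : (0 : ℝ) ≤ ((r + 2 : ℕ) : ℝ) ^ b := by positivity
  have h4 : (a : ℝ) * ((r + 2 : ℕ) : ℝ) ^ b ≤ 2 ^ r := by nlinarith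
  exact_mod_cast h4

theorem reach_iff {n r C A : ℕ} (G : Good n r C A) (hC : 0 < C) :
    (∃ τ ≤ (r + 2) ^ 3 * 2 ^ r, (adr n r C τ).1.1 = 1) ↔
      ∃ u, Relation.ReflTransGen (Edge n r C) (0, r + 1, 0) u ∧ u.1 = 1 := by
  refine dfs_complete hC (Finset.range (C + 1) ×ˢ Finset.range (r + 2) ×ˢ Finset.range (2 ^ r))
    (by simp) (fun u hu j hj => ?_) ?_ (fun u => u.1 = 1)
  · simp only [Finset.mem_product, Finset.mem_range] at hu ⊢
    have := nb_val (n := n) G.r1 u ⟨by omega, by omega, hu.2.2⟩ j hj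
    omega
  · simp only [Finset.card_product, Finset.card_range]
    have := G.hC
    calc (C + 1) * ((C + 1) * ((r + 2) * 2 ^ r)) ≤ (r + 2) * ((r + 2) * ((r + 2) * 2 ^ r)) := by
          gcongr <;> omega
      _ = _ := by ring

theorem beta_bound (s : ℕ) (hs : 0 < s) : ∃ J, 8 * s ^ 3 < 2 ^ J ∧
    2 ^ ((13 + 1) * (2 * J + 1)) ≤ 2 ^ 126 * s ^ 84 := by
  have b1 : 8 * s ^ 3 < 2 ^ (Nat.log 2 (8 * s ^ 3) + 1) := Nat.lt_pow_succ_log_self (by omega) _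
  have b2 : 2 ^ Nat.log 2 (8 * s ^ 3) ≤ 8 * s ^ 3 := Nat.pow_log_le_self 2 (by positivity)
  generalize Nat.log 2 (8 * s ^ 3) = J at b1 b2
  refine ⟨J + 1, b1, ?_⟩
  calc 2 ^ ((13 + 1) * (2 * (J + 1) + 1)) = 2 ^ 42 * (2 ^ J) ^ 28 := by ring
    _ ≤ 2 ^ 42 * (8 * s ^ 3) ^ 28 := Nat.mul_le_mul_left _ (Nat.pow_le_pow_left b2 _)
    _ = _ := by ring

theorem good_of {n r C : ℕ} (a1 : 2 ^ r ≤ n) (hr : 1 ≤ r) (a3 : C ≤ r) :
    Good n r C (8 * (r + 2) ^ 3) :=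
  ⟨a1, hr, a3, by nlinarith [Nat.mul_le_mul a3 a3, Nat.zero_le (r ^ 3)], by omega⟩

/-- The diagonal automaton. -/
noncomputable def diag : HeadsPDA Unit 2 := pda (fun i => tr (procs i)) (tr main)

theorem diag_run : ∃ N0, ∀ (w : List Unit) (C m : ℕ), N0 ≤ w.length + 1 →
    w.length + 1 = 2 ^ C * (2 * m + 1) →
    (1 ≤ Nat.log 2 (w.length + 1)) ∧
    (0 < C → (w ∈ diag.lang ↔ ¬ ∃ u, Relation.ReflTransGen
      (Edge (w.length + 1) (Nat.log 2 (w.length + 1)) C) (0, Nat.log 2 (w.length + 1) + 1, 0) u ∧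
        u.1 = 1)) ∧
    ∀ x, Relation.ReflTransGen (diag.Step w) (diag.start, fun _ => 0, [diag.bottom]) x →
      x.2.1 1 ≤ 2 ^ 126 * (Nat.log 2 (w.length + 1) + 2) ^ 84 := by
  obtain ⟨r0, h0⟩ := poly_le (2 ^ 126) 84
  refine ⟨2 ^ (r0 + 1), fun w C m h1 h2 => ?_⟩
  have hr : r0 + 1 ≤ Nat.log 2 (w.length + 1) := Nat.le_log_of_pow_le (by omega) h1
  have a1 : 2 ^ Nat.log 2 (w.length + 1) ≤ w.length + 1 := Nat.pow_log_le_self 2 (by omega)
  have a2 : w.length + 1 < 2 ^ (Nat.log 2 (w.length + 1) + 1) := Nat.lt_pow_succ_log_self (by omega) _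
  have a3 : C ≤ Nat.log 2 (w.length + 1) :=
    Nat.le_log_of_pow_le (by omega) (by rw [h2]; exact Nat.le_mul_of_pos_right _ (by omega))
  generalize Nat.log 2 (w.length + 1) = r at hr a1 a2 a3
  have hr0 : r0 ≤ r := (Nat.le_succ _).trans hr
  have hr1 : 1 ≤ r := (Nat.le_add_left _ _).trans hr
  have G := good_of a1 hr1 a3
  obtain ⟨c, e1, e2⟩ := ex_main G a2 h2
  obtain ⟨J, b1, b3⟩ := beta_bound (r + 2) (Nat.succ_pos _)
  obtain ⟨p1, p2⟩ := prog_run (w := w) (J := J) rfl (b3.trans ((h0 r hr0).trans a1))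
    (fun i hi => by simp only [bdv, if_neg hi]; exact b1) e1
  refine ⟨hr1, fun hC => ?_, fun x hx => (p2 x hx).trans b3⟩
  rw [← reach_iff G hC, ← e2]
  exact p1

theorem diag_ne (M : HeadsFA Unit 2) : M.lang ≠ diag.lang := by
  intro e
  obtain ⟨N0, h⟩ := diag_run
  obtain ⟨C, τ, hC, hM⟩ := sweeps M
  obtain ⟨m, h1, h2⟩ := exists_table C N0 τ
  have hp : 0 < 2 ^ C := by positivity
  have hl : (List.replicate (2 ^ C * (2 * m + 1) - 1) ()).length + 1 = 2 ^ C * (2 * m + 1) := by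
    have : 0 < 2 ^ C * (2 * m + 1) := by positivity
    simp only [List.length_replicate]
    omega
  obtain ⟨a1, a2, _⟩ := h _ C m (by rw [hl]; nlinarith) hl
  have a3 := hM _ _ _ rfl a1 (Nat.lt_pow_succ_log_self (by omega) _) (by rw [hl]; exact h2)
  have a4 := a2 hC
  rw [← e, a3] at a4
  exact iff_not_self a4

theorem diag_bound : ∃ c, ∀ (w : List Unit) x,
    Relation.ReflTransGen (diag.Step w) (diag.start, fun _ => 0, [diag.bottom]) x →
      x.2.1 1 ≤ c * (Nat.log 2 w.length + 1) ^ c := by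
  obtain ⟨N0, h⟩ := diag_run
  obtain ⟨c, c1, c2, c3⟩ : ∃ c, N0 ≤ c ∧ 84 ≤ c ∧ 2 ^ 126 * 3 ^ 84 ≤ c :=
    ⟨N0 + 84 + 2 ^ 126 * 3 ^ 84, by omega, by omega, by omega⟩
  refine ⟨c, fun w x hx => ?_⟩
  by_cases e : N0 ≤ w.length + 1
  · obtain ⟨C, m, ⟨m, rfl⟩, hm⟩ := Nat.exists_eq_two_pow_mul_odd (n := w.length + 1) (by omega)
    have a1 := (h w C m e hm).2.2 x hx
    have a2 : Nat.log 2 (w.length + 1) ≤ Nat.log 2 w.length + 1 := by
      apply Nat.le_of_lt_succ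
      apply Nat.log_lt_of_lt_pow (by omega)
      have := Nat.lt_pow_succ_log_self (b := 2) (by omega) w.length
      rw [Nat.succ_eq_add_one, pow_succ]
      omega
    calc x.2.1 1 ≤ 2 ^ 126 * (Nat.log 2 (w.length + 1) + 2) ^ 84 := a1
      _ ≤ 2 ^ 126 * (3 * (Nat.log 2 w.length + 1)) ^ 84 :=
        Nat.mul_le_mul_left _ (Nat.pow_le_pow_left (by omega) _)
      _ = 2 ^ 126 * 3 ^ 84 * (Nat.log 2 w.length + 1) ^ 84 := by rw [mul_pow, mul_assoc]
      _ ≤ c * (Nat.log 2 w.length + 1) ^ c :=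
        Nat.mul_le_mul c3 (Nat.pow_le_pow_right (by omega) c2)
  · have a1 := pda_le w x hx
    have : 0 < (Nat.log 2 w.length + 1) ^ c := Nat.pow_pos (by omega)
    calc x.2.1 1 ≤ c := by omega
      _ ≤ c * (Nat.log 2 w.length + 1) ^ c := Nat.le_mul_of_pos_right _ this

end Pool.Agent.P.MP_d0a708_lc.N
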