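import Pool.Agent.P.MP_d0a708_lc.KSim
import Pool.Agent.P.MP_d0a708_lc.NMain

/-!
Lazy diagonalisation against two-head automata on a unary alphabet.
-/

namespace Pool.Agent.P.MP_d0a708_lc.K

open Pool.Agent.P.MP_d0a708_lc Relation Prog Function

theorem exists_fill (k : ℕ) : ∃ p : CP, ∀ U c,
    (p.run (cact U) (fun _ => 0) c ↔ Ok U (k + 1) c) := by
  induction k with
  | zero =>
    refine ⟨guess 0, fun U c => (run_guess rfl).trans ⟨?_, fun h => ⟨c 0, h.top, ?_⟩⟩⟩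
    · rintro ⟨a, ha, rfl⟩
      refine ⟨by simpa using ha, fun i => ?_, fun i hi => update_of_ne (by omega) _ _⟩
      rw [update_self, update_apply]
      split_ifs <;> omega
    · funext i
      rw [update_apply]
      split_ifs with e
      · rw [e]
      · exact h.z i (by omega)
  | succ k ih =>
    obtain ⟨p, hp⟩ := ih
    obtain ⟨q, hq⟩ := (Ver.le (k := k + 1 + 1) (i := 0) (j := 0) 0 (by omega) (by omega)).pick
      (by omega)
    refine ⟨seq p q, fun U c => ⟨?_, fun h => ?_⟩⟩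
    · rintro ⟨m, a, b⟩
      have ok := (hp U m).1 a
      obtain ⟨x, hx, -, rfl⟩ := (hq U m c ok).1 b
      exact ok.upd (by omega) (by omega) (by omega) hx
    · have ok : Ok U (k + 1) (update c (k + 1) 0) := by
        have := h.upd (i := k + 1) (a := 0) (by omega) le_rfl (by omega) (Nat.zero_le _)
        refine ⟨this.top, this.le, fun i hi => ?_⟩
        rw [update_apply]
        split_ifs
        · rfl
        · exact h.z i (by omega)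
      refine ⟨_, (hp U _).2 ok, (hq U _ c ok).2 ⟨c (k + 1), ?_, le_rfl, by simp⟩⟩
      rw [update_of_ne (by omega)]
      exact h.le _

theorem exists_init : ∃ p : CP, ∀ U c, (p.run (cact U) (fun _ => 0) c ↔
    ∃ F r, Good F r ∧ F 0 ≤ U ∧ c = cs F 0 0 0 0 0) := by
  obtain ⟨p, hp⟩ := exists_fill 6
  have h1 : Dec fun u v => ∀ i ≤ u, i < v 2 → v 1 / 2 ^ i % 2 = 0 :=
    Dec.all (P := fun i _ v => i < v 2 → v 1 / 2 ^ i % 2 = 0)
      ((Dec.lt 0 3).imp (Gr.bit 2 (Gr.var 0)).eq_zero)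
  obtain ⟨q, hq⟩ := ((Dec.le 1 3).and (((Gr.const 1).le_var 4).and
    (((Gr.var 5).add (Gr.const 2)).le_top.and ((Dec.add 1 6 6).and
      (((((Gr.var 2).add (Gr.const 6)).add ((Gr.const 8).mul ((Gr.var 2).mul (Gr.var 2)))).le_var
        1).and ((Gr.bit 1 (Gr.var 2)).eq_zero.not.and h1)))))).1.tst
  refine ⟨seq p q, fun U c => ⟨?_, ?_⟩⟩
  · rintro ⟨m, a, b⟩
    have ok := (hp U m).1 a
    obtain ⟨rfl, b1, b2, b3, b4, b5, b6, b7⟩ :=
      (hq U m c ⟨ok.top, ok.le, fun i hi => ok.z i (by omega)⟩).1 b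
    refine ⟨c, _, ⟨fun i _ => ok.le i, b1, b2, b3, b4, b5, b6,
      fun i hi => b7 i (hi.le.trans (ok.le 2)) hi, rfl⟩, ok.top, funext fun i => ?_⟩
    have := ok.z i
    simp only [cs]
    split_ifs <;> omega
  · rintro ⟨F, r, G, hU, rfl⟩
    have z := Nat.zero_le (F 0)
    have ok := ok_cs G.le hU z z z z z
    refine ⟨_, (hp U _).2 ⟨ok.top, ok.le, fun i hi => ?_⟩, (hq U _ _ ok).2
      ⟨rfl, G.zv, G.r1, G.r0, G.zh, G.idx, G.val, fun i _ hi => G.low i hi⟩⟩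
    simp only [cs]
    split_ifs <;> omega

theorem exists_decode : ∃ p : Prog MA, ∀ n U F r t, Good F r → F 0 ≤ U →
    (p.run (mact n U) (0, cs F 0 0 0 0 0) t ↔ n = 2 ^ r + F 1 ∧ t = (0, cs F 0 0 0 0 0)) := by
  obtain ⟨p1, h1⟩ := (Gr.var 4).upd (i := 9) (by omega) (by omega)
  obtain ⟨p2, h2⟩ := (Gr.var 5).upd (i := 10) (by omega) (by omega)
  refine ⟨seq (emb (seq p1 p2)) (seq (atom (.aff 1 0 1 1 0))
    (seq (star (seq (atom (.aff 1 0 2 0 0)) (emb dp))) (seq (emb (seq (zero 9) (zero 10)))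
      (seq (shiftX 0 1 1) (seq (atom .atR) (atom (.aff 1 0 0 0 0))))))),
    fun n U F r t G hU => ?_⟩
  have z := Nat.zero_le (F 0)
  have ok := ok_cs G.le hU z z z z z
  have h4 := G.le 4 (by omega)
  have hv := (G.le 3 (by omega)).trans hU
  have e1 : ∀ c', p1.run (cact U) (cs F 0 0 0 0 0) c' ↔ c' = cs F 0 0 (F 4) 0 0 :=
    fun c' => (h1 U _ c' ok h4).trans (by rw [cs9]; rfl)
  have e2 : ∀ c', p2.run (cact U) (cs F 0 0 (F 4) 0 0) c' ↔ c' = cs F 0 0 (F 4) (F 5) 0 :=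
    fun c' => (h2 U _ c' (ok_cs G.le hU z z h4 z z) (G.le 5 (by omega))).trans (by rw [cs10]; rfl)
  constructor
  · rintro ⟨⟨x0, c0⟩, a0, ⟨x1, _⟩, ⟨rfl, a1, a2⟩, s, a3, ⟨x4, c4⟩, a4, ⟨x5, c5⟩, a5, _, ⟨a6, rfl⟩,
      a7, -, a8⟩
    obtain ⟨rfl, _, b1, b2⟩ := (run_emb _ _ _).1 a0
    obtain rfl := (e1 _).1 b1
    obtain rfl := (e2 _).1 b2
    have inv : ∃ e d1 d0, s = (2 ^ e, cs F 0 0 d1 d0 0) ∧ 2 ^ e ≤ n ∧ e + (d1 * F 3 + d0) = r := by
      clear a4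
      induction a3 with
      | refl =>
        simp only at a1 a2
        exact ⟨0, F 4, F 5, Prod.ext (by simp only; omega) rfl, by omega, by rw [G.hr, zero_add]⟩
      | tail _ a ih =>
        obtain ⟨e, d1, d0, rfl, -, i2⟩ := ih
        obtain ⟨⟨y, _⟩, ⟨rfl, c1, c2⟩, c3⟩ := a
        obtain ⟨c3, c4⟩ := (run_emb _ _ _).1 c3
        obtain ⟨f1, f0, c5, c6⟩ := (run_dp hv).1 c4
        have := c5.sum
        simp only at c1 c2 c3
        exact ⟨e + 1, f1, f0, Prod.ext (by simp only; omega) c6, by omega, by omega⟩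
    obtain ⟨e, d1, d0, rfl, i1, i2⟩ := inv
    obtain ⟨rfl, _, b3, b4⟩ := (run_emb _ _ _).1 a4
    obtain ⟨b7, rfl⟩ := run_zero.1 b3
    obtain ⟨b8, rfl⟩ := run_zero.1 b4
    obtain rfl : d1 = 0 := b7
    obtain rfl : d0 = 0 := b8
    obtain ⟨rfl, -, b5⟩ := (run_shiftX (Or.inr ⟨rfl, rfl⟩) (by omega) ok i1).1 a5
    obtain rfl : e = r := by omega
    have b6 : x5 + 0 * F 1 = 2 ^ e + 1 * F 1 := b5
    simp only at a6 a7 a8
    exact ⟨by omega, Prod.ext (by simp only; omega) a7⟩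
  · rintro ⟨rfl, rfl⟩
    have v0 : 0 < F 3 := by
      have := G.zv
      have := G.idx
      omega
    have inv : ∀ e ≤ r, ∃ d1 d0, (star (seq (atom (.aff 1 0 2 0 0)) (emb dp))).run
        (mact (2 ^ r + F 1) U) (1, cs F 0 0 (F 4) (F 5) 0) (2 ^ e, cs F 0 0 d1 d0 0) ∧
        e + (d1 * F 3 + d0) = r := by
      intro e he
      induction e with
      | zero => exact ⟨F 4, F 5, .refl, by rw [G.hr, zero_add]⟩
      | succ e ih =>
        obtain ⟨d1, d0, i1, i2⟩ := ih (by omega)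
        obtain ⟨f1, f0, c5⟩ := DP.ex (v := F 3) (d1 := d1) (d0 := d0) v0 (by omega)
        have := c5.sum
        have := Nat.pow_le_pow_right (show 0 < 2 by omega) he
        exact ⟨f1, f0, ReflTransGen.tail i1 ⟨(2 ^ (e + 1), cs F 0 0 d1 d0 0),
          ⟨rfl, by simp only; omega, by simp only; omega⟩,
          (run_emb _ _ _).2 ⟨rfl, (run_dp hv).2 ⟨f1, f0, c5, rfl⟩⟩⟩, by omega⟩
    obtain ⟨d1, d0, i1, i2⟩ := inv r le_rfl
    obtain ⟨rfl, rfl⟩ : d1 = 0 ∧ d0 = 0 := by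
      rcases Nat.eq_zero_or_pos d1 with rfl | h1
      · exact ⟨rfl, by omega⟩
      · have := Nat.mul_le_mul_right (F 3) h1
        omega
    have := Nat.one_le_two_pow (n := r)
    exact ⟨(0, cs F 0 0 (F 4) (F 5) 0), (run_emb _ _ _).2 ⟨rfl, _, (e1 _).2 rfl, (e2 _).2 rfl⟩,
      (1, cs F 0 0 (F 4) (F 5) 0), ⟨rfl, by simp only; omega, by simp⟩, _, i1,
      (2 ^ r, cs F 0 0 0 0 0), (run_emb _ _ _).2 ⟨rfl, _, run_zero.2 ⟨rfl, rfl⟩,
        run_zero.2 ⟨rfl, rfl⟩⟩, (2 ^ r + F 1, cs F 0 0 0 0 0),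
      (run_shiftX (Or.inr ⟨rfl, rfl⟩) (by omega) ok (Nat.le_add_right _ _)).2
        ⟨rfl, le_rfl, by simp [cs]⟩, _, ⟨rfl, rfl⟩, rfl, Nat.zero_le _, by simp⟩

def cd (r P q p x : ℕ) : ℕ := (q * (r + 2) + p) * P + x

def cnb (n r P C q p x j : ℕ) : ℕ :=
  if p = r + 1 then (if N.tbit n C q j 4 = 0 then cd r P q p x else cd r P j 0 x)
  else if N.tbit n C q j (2 * (x % 2) + n / 2 ^ p % 2) = 0 then cd r P q p x
  else cd r P j (p + 1) (x / 2 + q % 2 * (P / 2))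

def Clo (S n r P C q p x j : ℕ) : Prop := q ≤ C → p ≤ r + 1 → x < P → j < C →
  ¬ S / 2 ^ cd r P q p x % 2 = 0 → ¬ q = 1 ∧ ¬ S / 2 ^ cnb n r P C q p x j % 2 = 0

def Cert (u z C : ℕ) : Prop := ∃ S ≤ u, ∃ r ≤ u, ∃ P ≤ u, ∃ n ≤ u, r = z * z ∧ P = 2 ^ r ∧
  n = P + z ∧ ¬ S / 2 ^ cd r P 0 (r + 1) 0 % 2 = 0 ∧
    ∀ q ≤ u, ∀ p ≤ u, ∀ x ≤ u, ∀ j ≤ u, Clo S n r P C q p x j

def Big (u z : ℕ) : Prop := 2 ^ (z * (z * z + 2) * 2 ^ (z * z)) ≤ u

theorem gr_cd {f1 f2 f3 f4 f5 : (ℕ → ℕ) → ℕ} (h1 : Gr f1) (h2 : Gr f2) (h3 : Gr f3) (h4 : Gr f4)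
    (h5 : Gr f5) : Gr (fun v => cd (f1 v) (f2 v) (f3 v) (f4 v) (f5 v)) :=
  (((h3.mul (h1.add (Gr.const 2))).add h4).mul h2).add h5

theorem gr_cnb : Gr (fun v => cnb (v 4) (v 6) (v 5) (v 10) (v 3) (v 2) (v 1) (v 0)) :=
  Gr.ite (((Gr.var 6).add (Gr.const 1)).var_eq 2)
    (Gr.ite (gr_tbit 4 (Gr.var 10) (Gr.var 3) (Gr.var 0) (Gr.const 4)).eq_zero
      (gr_cd (Gr.var 6) (Gr.var 5) (Gr.var 3) (Gr.var 2) (Gr.var 1))
      (gr_cd (Gr.var 6) (Gr.var 5) (Gr.var 0) (Gr.const 0) (Gr.var 1)))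
    (Gr.ite (gr_tbit 4 (Gr.var 10) (Gr.var 3) (Gr.var 0)
        (((Gr.const 2).mul ((Gr.var 1).par (Sml.var 1))).add (Gr.bit 4 (Gr.var 2)))).eq_zero
      (gr_cd (Gr.var 6) (Gr.var 5) (Gr.var 3) (Gr.var 2) (Gr.var 1))
      (gr_cd (Gr.var 6) (Gr.var 5) (Gr.var 0) ((Gr.var 2).add (Gr.const 1))
        (((Gr.var 1).half (Sml.var 1)).add
          (((Gr.var 3).par (Sml.var 3)).mul ((Gr.var 5).half (Sml.var 5))))))

theorem dec_clo : Dec (fun _ v =>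
    Clo (v 7) (v 4) (v 6) (v 5) (v 10) (v 3) (v 2) (v 1) (v 0)) :=
  (Dec.le 3 10).imp ((((Dec.le 2 6).or (Dec.succ 2 6)).congr fun _ _ _ => by omega).imp
    ((Dec.lt 1 5).imp ((Dec.lt 0 10).imp
      ((Gr.bit 7 (gr_cd (Gr.var 6) (Gr.var 5) (Gr.var 3) (Gr.var 2) (Gr.var 1))).eq_zero.not.imp
        (((Gr.const 1).var_eq 3).not.and (Gr.bit 7 gr_cnb).eq_zero.not)))))

theorem dec_cert : Dec (fun u v => Cert u (v 1) (v 2)) := by
  have h1 : Dec fun u v => ∀ j ≤ u, Clo (v 6) (v 3) (v 5) (v 4) (v 9) (v 2) (v 1) (v 0) j :=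
    Dec.all (P := fun j _ v => Clo (v 6) (v 3) (v 5) (v 4) (v 9) (v 2) (v 1) (v 0) j) dec_clo
  have h2 : Dec fun u v => ∀ x ≤ u, ∀ j ≤ u, Clo (v 5) (v 2) (v 4) (v 3) (v 8) (v 1) (v 0) x j :=
    Dec.all (P := fun x u v => ∀ j ≤ u, Clo (v 5) (v 2) (v 4) (v 3) (v 8) (v 1) (v 0) x j) h1
  have h3 : Dec fun u v => ∀ p ≤ u, ∀ x ≤ u, ∀ j ≤ u,
      Clo (v 4) (v 1) (v 3) (v 2) (v 7) (v 0) p x j :=
    Dec.all (P := fun p u v => ∀ x ≤ u, ∀ j ≤ u, Clo (v 4) (v 1) (v 3) (v 2) (v 7) (v 0) p x j) h2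
  have h4 : Dec fun u v => ∀ q ≤ u, ∀ p ≤ u, ∀ x ≤ u, ∀ j ≤ u,
      Clo (v 3) (v 0) (v 2) (v 1) (v 6) q p x j :=
    Dec.all (P := fun q u v => ∀ p ≤ u, ∀ x ≤ u, ∀ j ≤ u,
      Clo (v 3) (v 0) (v 2) (v 1) (v 6) q p x j) h3
  let B : ℕ → ℕ → ℕ → ℕ → ℕ → ℕ → ℕ → Prop := fun u S r P n z C => r = z * z ∧ P = 2 ^ r ∧
    n = P + z ∧ ¬ S / 2 ^ cd r P 0 (r + 1) 0 % 2 = 0 ∧
      ∀ q ≤ u, ∀ p ≤ u, ∀ x ≤ u, ∀ j ≤ u, Clo S n r P C q p x j
  have h5 : Dec fun u v => B u (v 3) (v 2) (v 1) (v 0) (v 5) (v 6) :=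
    (Dec.mul 2 5 5).and ((Dec.pow 1 2).and ((Dec.add 0 1 5).and
      ((Gr.bit 3 (gr_cd (Gr.var 2) (Gr.var 1) (Gr.const 0) ((Gr.var 2).add (Gr.const 1))
        (Gr.const 0))).eq_zero.not.and h4)))
  have h6 : Dec fun u v => ∃ n ≤ u, B u (v 2) (v 1) (v 0) n (v 4) (v 5) :=
    Dec.ex (P := fun n u v => B u (v 2) (v 1) (v 0) n (v 4) (v 5)) h5
  have h7 : Dec fun u v => ∃ P ≤ u, ∃ n ≤ u, B u (v 1) (v 0) P n (v 3) (v 4) :=
    Dec.ex (P := fun P u v => ∃ n ≤ u, B u (v 1) (v 0) P n (v 3) (v 4)) h6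
  have h8 : Dec fun u v => ∃ r ≤ u, ∃ P ≤ u, ∃ n ≤ u, B u (v 0) r P n (v 2) (v 3) :=
    Dec.ex (P := fun r u v => ∃ P ≤ u, ∃ n ≤ u, B u (v 0) r P n (v 2) (v 3)) h7
  exact Dec.ex (P := fun S u v => ∃ r ≤ u, ∃ P ≤ u, ∃ n ≤ u, B u S r P n (v 1) (v 2)) h8

theorem dec_big : Dec (fun u v => Big u (v 1)) :=
  (((Gr.var 1).mul (((Gr.var 1).mul (Gr.var 1)).add (Gr.const 2))).mul
    ((Gr.var 1).mul (Gr.var 1)).pow).pow.le_top

theorem cnb_eq (n r C j : ℕ) (g : ℕ × ℕ × ℕ) : cnb n r (2 ^ r) C g.1 g.2.1 g.2.2 j =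
    cd r (2 ^ r) (N.nb n r C g j).1 (N.nb n r C g j).2.1 (N.nb n r C g j).2.2 := by
  unfold cnb N.nb
  split_ifs <;> rfl

theorem exists_bits_lt (L : ℕ) (φ : ℕ → Prop) :
    ∃ m < 2 ^ L, ∀ i < L, (¬ m / 2 ^ i % 2 = 0 ↔ φ i) := by
  obtain ⟨m, -, h⟩ := N.exists_bits L 0 φ
  refine ⟨m % 2 ^ L, Nat.mod_lt _ (by positivity), fun i hi => ?_⟩
  rw [← h i hi]
  obtain ⟨k, rfl⟩ := Nat.exists_eq_add_of_lt hi
  rw [add_assoc, pow_add, Nat.mod_mul_right_div_self,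
    Nat.mod_mod_of_dvd _ (Dvd.intro_left _ (pow_succ 2 k).symm)]

theorem cert_iff {u z C : ℕ} (hC : 0 < C) (hz : C < z) (hB : Big u z) :
    Cert u z C ↔ ¬ Acc (2 ^ (z * z) + z) (z * z) C := by
  have hr : z ≤ z * z := Nat.le_mul_self z
  have hP : z * z < 2 ^ (z * z) := Nat.lt_two_pow_self
  have hL : 2 ^ (z * z) + 2 ^ (z * z) ≤ u := by
    refine le_trans ?_ (Nat.lt_two_pow_self.le.trans hB)
    rw [← two_mul]
    exact Nat.mul_le_mul_right _ (by nlinarith)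
  have val : ∀ g, ReflTransGen (N.Edge (2 ^ (z * z) + z) (z * z) C) (0, z * z + 1, 0) g →
      g.1 ≤ C ∧ g.2.1 ≤ z * z + 1 ∧ g.2.2 < 2 ^ (z * z) := by
    intro g hg
    induction hg with
    | refl => exact ⟨Nat.zero_le _, le_rfl, by positivity⟩
    | tail _ a ih =>
      obtain ⟨j, hj, rfl⟩ := a
      exact N.nb_val (by omega) _ ih j hj
  constructor
  · rintro ⟨S, -, _, -, _, -, _, -, rfl, rfl, rfl, h0, h⟩ ⟨g, hg, h1⟩
    have : ¬ S / 2 ^ cd (z * z) (2 ^ (z * z)) g.1 g.2.1 g.2.2 % 2 = 0 := by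
      clear h1
      induction hg with
      | refl => exact h0
      | tail b a ih =>
        obtain ⟨j, hj, rfl⟩ := a
        obtain ⟨v1, v2, v3⟩ := val _ b
        rw [← cnb_eq]
        exact (h _ (by omega) _ (by omega) _ (by omega) j (by omega) v1 v2 v3 hj ih).2
    obtain ⟨v1, v2, v3⟩ := val _ hg
    exact (h _ (by omega) _ (by omega) _ (by omega) 0 (by omega) v1 v2 v3 hC this).1 h1
  · intro h
    obtain ⟨S, hS, hb⟩ := exists_bits_lt (z * (z * z + 2) * 2 ^ (z * z)) fun i =>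
      ReflTransGen (N.Edge (2 ^ (z * z) + z) (z * z) C) (0, z * z + 1, 0)
        (i / 2 ^ (z * z) / (z * z + 2), i / 2 ^ (z * z) % (z * z + 2), i % 2 ^ (z * z))
    have key : ∀ g : ℕ × ℕ × ℕ, g.1 ≤ C ∧ g.2.1 ≤ z * z + 1 ∧ g.2.2 < 2 ^ (z * z) →
        (¬ S / 2 ^ cd (z * z) (2 ^ (z * z)) g.1 g.2.1 g.2.2 % 2 = 0 ↔
          ReflTransGen (N.Edge (2 ^ (z * z) + z) (z * z) C) (0, z * z + 1, 0) g) := by
      rintro ⟨q, p, x⟩ ⟨v1, v2, v3⟩
      simp only at v1 v2 v3 ⊢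
      have a1 : cd (z * z) (2 ^ (z * z)) q p x / 2 ^ (z * z) = q * (z * z + 2) + p ∧
          cd (z * z) (2 ^ (z * z)) q p x % 2 ^ (z * z) = x :=
        (Nat.div_mod_unique (by omega)).2 ⟨by unfold cd; ring, v3⟩
      have a2 : (q * (z * z + 2) + p) / (z * z + 2) = q ∧ (q * (z * z + 2) + p) % (z * z + 2) = p :=
        (Nat.div_mod_unique (by omega)).2 ⟨by ring, by omega⟩
      have a3 : cd (z * z) (2 ^ (z * z)) q p x < z * (z * z + 2) * 2 ^ (z * z) := by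
        rw [← Nat.div_lt_iff_lt_mul (by omega), a1.1, ← Nat.div_lt_iff_lt_mul (by omega), a2.1]
        omega
      rw [hb _ a3, a1.1, a1.2, a2.1, a2.2]
    refine ⟨S, hS.le.trans hB, _, by omega, _, by omega, _, by omega, rfl, rfl, rfl,
      (key (0, z * z + 1, 0) (val _ .refl)).2 .refl, fun q _ p _ x _ j _ v1 v2 v3 hj hq => ?_⟩
    have := (key (q, p, x) ⟨v1, v2, v3⟩).1 hq
    refine ⟨fun e => h ⟨_, this, e⟩, ?_⟩
    have a := this.tail ⟨j, hj, rfl⟩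
    rw [cnb_eq _ _ _ _ (q, p, x)]
    exact (key _ (val _ a)).2 a

theorem exists_main : ∃ p : Prog MA, ∀ n U, ((∃ t, p.run (mact n U) (0, fun _ => 0) t) ↔
    ∃ F r, Good F r ∧ F 0 ≤ U ∧ n = 2 ^ r + F 1 ∧
      (Big (F 0) (F 1) ∧ ¬ Acc (2 ^ (F 1 * F 1) + F 1) (F 1 * F 1) (F 2) ∨
        ¬ Big (F 0) (F 1) ∧ Acc (2 ^ (r + 1) + F 1) (r + 1) (F 2))) := by
  obtain ⟨p1, h1⟩ := exists_init
  obtain ⟨p2, h2⟩ := exists_decode
  obtain ⟨p3, h3⟩ := (dec_big.and dec_cert).1.tst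
  obtain ⟨p4, h4⟩ := dec_big.2.tst
  obtain ⟨p5, h5⟩ := exists_sim
  have e3 : ∀ U F r c', Good F r → F 0 ≤ U → (p3.run (cact U) (cs F 0 0 0 0 0) c' ↔
      c' = cs F 0 0 0 0 0 ∧ Big (F 0) (F 1) ∧
        ¬ Acc (2 ^ (F 1 * F 1) + F 1) (F 1 * F 1) (F 2)) := by
    intro U F r c' G hU
    have z := Nat.zero_le (F 0)
    have := G.idx
    exact (h3 U _ c' (ok_cs G.le hU z z z z z)).trans (and_congr_right' (and_congr_right
      fun hB => cert_iff (u := F 0) (z := F 1) (C := F 2) G.pos (by omega) hB))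
  have e4 : ∀ U F r c', Good F r → F 0 ≤ U → (p4.run (cact U) (cs F 0 0 0 0 0) c' ↔
      c' = cs F 0 0 0 0 0 ∧ ¬ Big (F 0) (F 1)) := by
    intro U F r c' G hU
    have z := Nat.zero_le (F 0)
    exact h4 U _ c' (ok_cs G.le hU z z z z z)
  refine ⟨seq (emb p1) (seq p2 (alt (emb p3) (seq (emb p4) p5))), fun n U => ⟨?_, ?_⟩⟩
  · rintro ⟨t, ⟨x, c⟩, a1, s, a2, a3⟩
    obtain ⟨rfl, a1⟩ := (run_emb _ _ _).1 a1
    obtain ⟨F, r, G, hU, rfl⟩ := (h1 U _).1 a1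
    obtain ⟨rfl, rfl⟩ := (h2 n U F r s G hU).1 a2
    refine ⟨F, r, G, hU, rfl, ?_⟩
    rcases a3 with a3 | ⟨⟨y, c⟩, a3, a4⟩
    · exact Or.inl ((e3 U F r _ G hU).1 ((run_emb _ _ _).1 a3).2).2
    · obtain ⟨rfl, a3⟩ := (run_emb _ _ _).1 a3
      obtain ⟨rfl, a5⟩ := (e4 U F r _ G hU).1 a3
      exact Or.inr ⟨a5, (h5 U F r G hU).1 ⟨t, a4⟩⟩
  · rintro ⟨F, r, G, hU, rfl, h⟩
    have a1 : (emb p1).run (mact (2 ^ r + F 1) U) (0, fun _ => 0) (0, cs F 0 0 0 0 0) :=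
      (run_emb _ _ _).2 ⟨rfl, (h1 U _).2 ⟨F, r, G, hU, rfl⟩⟩
    have a2 := (h2 _ U F r _ G hU).2 ⟨rfl, rfl⟩
    rcases h with h | h
    · exact ⟨(0, cs F 0 0 0 0 0), _, a1, _, a2,
        Or.inl ((run_emb _ _ _).2 ⟨rfl, (e3 U F r _ G hU).2 ⟨rfl, h⟩⟩)⟩
    · obtain ⟨t, a4⟩ := (h5 U F r G hU).2 h.2
      exact ⟨t, _, a1, _, a2, Or.inr ⟨(0, cs F 0 0 0 0 0),
        (run_emb _ _ _).2 ⟨rfl, (e4 U F r _ G hU).2 ⟨rfl, h.1⟩⟩, a4⟩⟩

theorem separation : ∃ P : HeadsPDA Unit 1, ∀ M : HeadsFA Unit 2, M.lang ≠ P.lang := by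
  obtain ⟨p, hp⟩ := exists_main
  obtain ⟨P, K, hP⟩ := two_pass p
  refine ⟨P, fun M e => ?_⟩
  obtain ⟨C, τ, hC, hM⟩ := N.sweeps M
  obtain ⟨m, hm, ht⟩ := N.exists_table C (K + 2 + (C + 6 + 8 * (C * C))) τ
  have z1 : 2 * m + 1 ≤ 2 ^ C * (2 * m + 1) := Nat.le_mul_of_pos_left _ (by positivity)
  have z2 : 2 ^ C * (2 * m + 1) / 2 ^ C % 2 = 1 := by
    rw [Nat.mul_div_cancel_left _ (by positivity)]
    omega
  have z3 : ∀ i < C, 2 ^ C * (2 * m + 1) / 2 ^ i % 2 = 0 := by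
    intro i hi
    obtain ⟨k, rfl⟩ := Nat.exists_eq_add_of_lt hi
    rw [add_assoc, pow_add, mul_assoc, Nat.mul_div_cancel_left _ (by positivity), pow_succ',
      mul_assoc, Nat.mul_mod_right]
  generalize 2 ^ C * (2 * m + 1) = z at ht z1 z2 z3
  have zz : z ≤ z * z := Nat.le_mul_self z
  have len : ∀ r, (List.replicate (2 ^ r + z - 1) ()).length + 1 = 2 ^ r + z := fun r => by
    rw [List.length_replicate, Nat.sub_add_cancel (Nat.le_add_left_of_le (by omega))]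
  have acc : ∀ r, z * z ≤ r → (List.replicate (2 ^ r + z - 1) () ∈ P.lang ↔ Acc (2 ^ r + z) r C) := by
    intro r hr
    have := Nat.lt_two_pow_self (n := r)
    rw [← e]
    exact hM _ r _ (len r) (by omega) (by omega) fun q hq j hj κ hκ => by
      rw [tbit_low (by omega) hq hj hκ]
      exact ht q hq j hj κ hκ
  have sound : ∀ r, z * z ≤ r → Acc (2 ^ r + z) r C → ∃ u, r ≤ u * u + u ∧
      (¬ Acc (2 ^ (z * z) + z) (z * z) C ∨ ¬ Big u z ∧ Acc (2 ^ (r + 1) + z) (r + 1) C) := by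
    intro r hr h
    obtain ⟨F, r', G, -, h1, h2⟩ := (hp _ _).1 ((hP _).1 ((acc r hr).2 h))
    rw [len] at h1
    have := G.zr
    obtain rfl : r = r' := by
      have a1 := Nat.lt_two_pow_self (n := r)
      have a2 := Nat.lt_two_pow_self (n := r')
      rcases lt_trichotomy r r' with a | a | a
      · have := Nat.pow_le_pow_right (show 0 < 2 by omega) (Nat.succ_le_of_lt a)
        omega
      · exact a
      · have := Nat.pow_le_pow_right (show 0 < 2 by omega) (Nat.succ_le_of_lt a)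
        omega
    obtain rfl : z = F 1 := by omega
    obtain rfl : C = F 2 := by
      rcases lt_trichotomy C (F 2) with a | a | a
      · have := G.low C a
        omega
      · exact a
      · exact absurd (z3 _ a) G.val
    refine ⟨F 0, ?_, h2.imp_left And.right⟩
    rw [G.hr]
    exact Nat.add_le_add (Nat.mul_le_mul (G.le 4 (by omega)) (G.le 3 (by omega)))
      (G.le 5 (by omega))
  have compl : ∀ r, z * z ≤ r → (Big (r.sqrt + 2) z ∧ ¬ Acc (2 ^ (z * z) + z) (z * z) C ∨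
      ¬ Big (r.sqrt + 2) z ∧ Acc (2 ^ (r + 1) + z) (r + 1) C) → Acc (2 ^ r + z) r C := by
    intro r hr h
    have v1 : z ≤ r.sqrt := Nat.le_sqrt.2 hr
    have v2 := Nat.sqrt_le r
    have v3 := Nat.lt_succ_sqrt r
    generalize r.sqrt = v at h v1 v2 v3
    have v0 : 0 < v := by omega
    have v4 : r / v ≤ v + 2 := Nat.div_le_of_le_mul (by rw [Nat.succ_eq_add_one] at v3; nlinarith)
    have v5 := Nat.mod_lt r v0
    have z4 := z3 0 hC
    refine (acc r hr).1 ((hP _).2 (v + 2) ?_ ((hp _ _).2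
      ⟨vc (v + 2) (vc z (vc C (vc v (vc (r / v) (vc (r % v) fun _ => z / 2))))), r,
        ⟨fun i hi => ?_, v1, ?_, ?_, ?_, ?_, ?_, z3, ?_⟩, le_rfl, len r, h⟩))
    · rw [len]
      calc K ^ (v + 2) ≤ (2 ^ K) ^ (v + 2) := Nat.pow_le_pow_left Nat.lt_two_pow_self.le _
        _ ≤ 2 ^ r := by
          rw [← pow_mul]
          exact Nat.pow_le_pow_right (by omega) (by nlinarith)
        _ ≤ _ := Nat.le_add_right _ _
    · interval_cases i <;> simp only [vc] <;> omega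
    · exact Nat.div_pos (by nlinarith) v0
    all_goals simp only [vc]
    any_goals omega
    exact (Nat.div_add_mod' r v).symm
  obtain ⟨B, hB⟩ : ∃ B, ∀ u, Big u z ↔ B ≤ u := ⟨_, fun _ => Iff.rfl⟩
  by_cases h0 : Acc (2 ^ (z * z) + z) (z * z) C
  · have all : ∀ r, z * z ≤ r → Acc (2 ^ r + z) r C := by
      intro r hr
      induction r, hr using Nat.le_induction with
      | base => exact h0
      | succ r hr ih =>
        obtain ⟨u, -, h⟩ := sound r hr ih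
        exact (h.resolve_left (not_not.2 h0)).2
    obtain ⟨u, h1, h2⟩ := sound (z * z + (B * B + B)) (by omega) (all _ (by omega))
    have h3 := (h2.resolve_left (not_not.2 h0)).1
    rw [hB, not_le] at h3
    have := Nat.mul_le_mul h3.le h3.le
    omega
  · have all : ∀ k r, z * z ≤ r → B * B ≤ r + k → Acc (2 ^ r + z) r C := by
      intro k
      induction k with
      | zero =>
        intro r hr h
        exact compl r hr (Or.inl ⟨(hB _).2 ((Nat.le_sqrt.2 h).trans (Nat.le_add_right _ _)), h0⟩)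
      | succ k ih =>
        intro r hr h
        refine compl r hr ?_
        by_cases a : Big (r.sqrt + 2) z
        · exact Or.inl ⟨a, h0⟩
        · exact Or.inr ⟨a, ih (r + 1) (by omega) (by omega)⟩
    exact h0 (all (B * B) _ le_rfl (by omega))

end Pool.Agent.P.MP_d0a708_lc.K
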