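import Mathlib
import Pool.Agent.P.MP_d0a708_lc.Defs

/-!
Regular programs over a set of basic instructions, and their execution by a nondeterministic
two-way one-head pushdown automaton on a unary input.
-/

namespace Pool.Agent.P.MP_d0a708_lc.K

open Pool.Agent.P.MP_d0a708_lc Relation

inductive Prog (A : Type) : Type
  | atom : A → Prog A
  | skip : Prog A
  | fail : Prog A
  | seq : Prog A → Prog A → Prog A
  | alt : Prog A → Prog A → Prog A
  | star : Prog A → Prog A

namespace Prog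

variable {A B S T : Type}

def run (act : A → S → S → Prop) : Prog A → S → S → Prop
  | atom a => act a
  | skip => fun s t => t = s
  | fail => fun _ _ => False
  | seq p q => fun s t => ∃ m, run act p s m ∧ run act q m t
  | alt p q => fun s t => run act p s t ∨ run act q s t
  | star p => ReflTransGen (run act p)

def bind (f : A → Prog B) : Prog A → Prog B
  | atom a => f a
  | skip => skip
  | fail => fail
  | seq p q => seq (bind f p) (bind f q)
  | alt p q => alt (bind f p) (bind f q)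
  | star p => star (bind f p)

def All (Q : A → Prop) : Prog A → Prop
  | atom a => Q a
  | skip => True
  | fail => True
  | seq p q => All Q p ∧ All Q q
  | alt p q => All Q p ∧ All Q q
  | star p => All Q p

theorem All.mono {Q Q' : A → Prop} (h : ∀ a, Q a → Q' a) : ∀ {p : Prog A}, All Q p → All Q' p
  | atom _, hp => h _ hp
  | skip, _ => trivial
  | fail, _ => trivial
  | seq _ _, hp => ⟨hp.1.mono h, hp.2.mono h⟩
  | alt _ _, hp => ⟨hp.1.mono h, hp.2.mono h⟩
  | star p, hp => All.mono (p := p) h hp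

theorem exists_all (f : A → ℕ) (p : Prog A) : ∃ m, p.All (fun a => f a < m) := by
  induction p with
  | atom a => exact ⟨f a + 1, Nat.lt_succ_self _⟩
  | skip => exact ⟨0, trivial⟩
  | fail => exact ⟨0, trivial⟩
  | seq p q h1 h2 =>
    obtain ⟨a, h1⟩ := h1
    obtain ⟨b, h2⟩ := h2
    exact ⟨a + b, h1.mono fun _ _ => by omega, h2.mono fun _ _ => by omega⟩
  | alt p q h1 h2 =>
    obtain ⟨a, h1⟩ := h1
    obtain ⟨b, h2⟩ := h2
    exact ⟨a + b, h1.mono fun _ _ => by omega, h2.mono fun _ _ => by omega⟩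
  | star p h => exact h

theorem sim_fwd {act : A → S → S → Prop} {act' : B → T → T → Prop} (f : A → Prog B)
    (R : S → T → Prop) {Q : A → Prop}
    (h : ∀ a, Q a → ∀ s s' t, act a s s' → R s t → ∃ t', (f a).run act' t t' ∧ R s' t')
    (p : Prog A) (hp : p.All Q) :
    ∀ s s' t, p.run act s s' → R s t → ∃ t', (p.bind f).run act' t t' ∧ R s' t' := by
  induction p with
  | atom a => exact h a hp
  | skip =>
    rintro s s' t rfl hr
    exact ⟨t, rfl, hr⟩
  | fail => exact fun _ _ _ h => h.elim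
  | seq p q h1 h2 =>
    rintro s s' t ⟨m, a1, a2⟩ hr
    obtain ⟨t1, b1, b2⟩ := h1 hp.1 _ _ _ a1 hr
    obtain ⟨t2, c1, c2⟩ := h2 hp.2 _ _ _ a2 b2
    exact ⟨t2, ⟨t1, b1, c1⟩, c2⟩
  | alt p q h1 h2 =>
    rintro s s' t (a | a) hr
    · obtain ⟨t1, b1, b2⟩ := h1 hp.1 _ _ _ a hr
      exact ⟨t1, Or.inl b1, b2⟩
    · obtain ⟨t1, b1, b2⟩ := h2 hp.2 _ _ _ a hr
      exact ⟨t1, Or.inr b1, b2⟩
  | star p h1 =>
    intro s s' t a hr
    induction a with
    | refl => exact ⟨t, .refl, hr⟩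
    | tail _ a ih =>
      obtain ⟨t1, b1, b2⟩ := ih
      obtain ⟨t2, c1, c2⟩ := h1 hp _ _ _ a b2
      exact ⟨t2, ReflTransGen.tail b1 c1, c2⟩

theorem sim_bwd {act : A → S → S → Prop} {act' : B → T → T → Prop} (f : A → Prog B)
    (I : T → Prop) (R : S → T → Prop)
    (h : ∀ a t t', (f a).run act' t t' → I t →
      I t' ∧ ∀ s', R s' t' → ∃ s, act a s s' ∧ R s t) (p : Prog A) :
    ∀ t t', (p.bind f).run act' t t' → I t →
      I t' ∧ ∀ s', R s' t' → ∃ s, p.run act s s' ∧ R s t := by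
  induction p with
  | atom a => exact h a
  | skip =>
    rintro t t' rfl hi
    exact ⟨hi, fun s hs => ⟨s, rfl, hs⟩⟩
  | fail => exact fun _ _ h => h.elim
  | seq p q h1 h2 =>
    rintro t t' ⟨m, a1, a2⟩ hi
    obtain ⟨b1, b2⟩ := h1 _ _ a1 hi
    obtain ⟨c1, c2⟩ := h2 _ _ a2 b1
    refine ⟨c1, fun s' hs => ?_⟩
    obtain ⟨s1, d1, d2⟩ := c2 s' hs
    obtain ⟨s2, e1, e2⟩ := b2 s1 d2
    exact ⟨s2, ⟨s1, e1, d1⟩, e2⟩
  | alt p q h1 h2 =>
    rintro t t' (a | a) hi
    · obtain ⟨b1, b2⟩ := h1 _ _ a hi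
      refine ⟨b1, fun s' hs => ?_⟩
      obtain ⟨s1, d1, d2⟩ := b2 s' hs
      exact ⟨s1, Or.inl d1, d2⟩
    · obtain ⟨b1, b2⟩ := h2 _ _ a hi
      refine ⟨b1, fun s' hs => ?_⟩
      obtain ⟨s1, d1, d2⟩ := b2 s' hs
      exact ⟨s1, Or.inr d1, d2⟩
  | star p h1 =>
    intro t t' a hi
    induction a with
    | refl => exact ⟨hi, fun s hs => ⟨s, .refl, hs⟩⟩
    | tail _ a ih =>
      obtain ⟨b1, b2⟩ := ih
      obtain ⟨c1, c2⟩ := h1 _ _ a b1
      refine ⟨c1, fun s' hs => ?_⟩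
      obtain ⟨s1, d1, d2⟩ := c2 s' hs
      obtain ⟨s2, e1, e2⟩ := b2 s1 d2
      exact ⟨s2, ReflTransGen.tail e1 d1, e2⟩

def alts : List (Prog A) → Prog A
  | [] => fail
  | p :: l => alt p (alts l)

theorem run_alts (act : A → S → S → Prop) (l : List (Prog A)) (s t : S) :
    (alts l).run act s t ↔ ∃ p ∈ l, p.run act s t := by
  induction l with
  | nil => simp [alts, run]
  | cons p l ih => simp [alts, run, ih]

def seqs : List (Prog A) → Prog A
  | [] => skip
  | p :: l => seq p (seqs l)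

/-- One step of the control: the list is the continuation. -/
inductive Ctl : List (Prog A) → Option A → List (Prog A) → Prop
  | atom (a r) : Ctl (atom a :: r) (some a) r
  | skip (r) : Ctl (skip :: r) none r
  | seq (p q r) : Ctl (seq p q :: r) none (p :: q :: r)
  | inl (p q r) : Ctl (alt p q :: r) none (p :: r)
  | inr (p q r) : Ctl (alt p q :: r) none (q :: r)
  | stop (p r) : Ctl (star p :: r) none r
  | go (p r) : Ctl (star p :: r) none (p :: star p :: r)

def oact (act : A → S → S → Prop) : Option A → S → S → Prop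
  | none => fun s t => t = s
  | some a => act a

def Small (act : A → S → S → Prop) (c c' : List (Prog A) × S) : Prop :=
  ∃ o, Ctl c.1 o c'.1 ∧ oact act o c.2 c'.2

theorem small_of_run {act : A → S → S → Prop} (p : Prog A) :
    ∀ s t r, p.run act s t → ReflTransGen (Small act) (p :: r, s) (r, t) := by
  induction p with
  | atom a => exact fun s t r h => .single ⟨some a, .atom _ _, h⟩
  | skip => exact fun s t r h => .single ⟨none, .skip _, h⟩
  | fail => exact fun _ _ _ h => h.elim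
  | seq p q h1 h2 =>
    rintro s t r ⟨m, a1, a2⟩
    exact .head (b := (p :: q :: r, s)) ⟨none, .seq _ _ _, rfl⟩ ((h1 _ _ _ a1).trans (h2 _ _ _ a2))
  | alt p q h1 h2 =>
    rintro s t r (a | a)
    · exact .head (b := (p :: r, s)) ⟨none, .inl _ _ _, rfl⟩ (h1 _ _ _ a)
    · exact .head (b := (q :: r, s)) ⟨none, .inr _ _ _, rfl⟩ (h2 _ _ _ a)
  | star p h1 =>
    intro s t r a
    have : ReflTransGen (Small act) (star p :: r, s) (star p :: r, t) := by
      induction a with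
      | refl => exact .refl
      | @tail b _ _ a ih =>
        exact ih.trans (.head (b := (p :: star p :: r, b)) ⟨none, .go _ _, rfl⟩ (h1 _ _ _ a))
    exact this.tail ⟨none, .stop _ _, rfl⟩

theorem run_of_small {act : A → S → S → Prop} {c c' : List (Prog A) × S}
    (h : ReflTransGen (Small act) c c') (t : S) :
    (seqs c'.1).run act c'.2 t → (seqs c.1).run act c.2 t := by
  induction h with
  | refl => exact id
  | @tail b c _ a ih =>
    intro h
    apply ih
    obtain ⟨k, s⟩ := b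
    obtain ⟨k', s'⟩ := c
    obtain ⟨o, a1, a2⟩ := a
    simp only at a1 a2 h ⊢
    cases a1 with
    | atom => exact ⟨_, a2, h⟩
    | skip => exact ⟨_, a2, h⟩
    | seq =>
      obtain rfl : s' = s := a2
      obtain ⟨m, b1, m', b2, b3⟩ := h
      exact ⟨m', ⟨m, b1, b2⟩, b3⟩
    | inl =>
      obtain rfl : s' = s := a2
      obtain ⟨m, b1, b2⟩ := h
      exact ⟨m, Or.inl b1, b2⟩
    | inr =>
      obtain rfl : s' = s := a2
      obtain ⟨m, b1, b2⟩ := h
      exact ⟨m, Or.inr b1, b2⟩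
    | stop =>
      obtain rfl : s' = s := a2
      exact ⟨_, .refl, h⟩
    | go =>
      obtain rfl : s' = s := a2
      obtain ⟨m, b1, m', b2, b3⟩ := h
      exact ⟨m', ReflTransGen.head b1 b2, b3⟩

def sub : Prog A → Set (List (Prog A))
  | atom a => {[atom a], []}
  | skip => {[skip], []}
  | fail => {[fail], []}
  | seq p q => insert [seq p q] ((· ++ [q]) '' sub p ∪ sub q)
  | alt p q => insert [alt p q] (sub p ∪ sub q)
  | star p => insert [] ((· ++ [star p]) '' sub p)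

theorem sub_finite (p : Prog A) : p.sub.Finite := by
  induction p with
  | atom a => exact (Set.finite_singleton _).insert _
  | skip => exact (Set.finite_singleton _).insert _
  | fail => exact (Set.finite_singleton _).insert _
  | seq p q h1 h2 => exact ((h1.image _).union h2).insert _
  | alt p q h1 h2 => exact (h1.union h2).insert _
  | star p h => exact (h.image _).insert _

theorem nil_mem_sub (p : Prog A) : [] ∈ p.sub := by
  induction p with
  | atom a => simp [sub]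
  | skip => simp [sub]
  | fail => simp [sub]
  | seq p q h1 h2 => exact Or.inr (Or.inr h2)
  | alt p q h1 h2 => exact Or.inr (Or.inr h2)
  | star p h => exact Or.inl rfl

theorem self_mem_sub (p : Prog A) : [p] ∈ p.sub := by
  cases p with
  | star p => exact Or.inr ⟨[], nil_mem_sub p, rfl⟩
  | _ => exact Or.inl rfl

theorem sub_closed (p : Prog A) : ∀ k ∈ p.sub, k ≠ [] → ∀ r o k', Ctl (k ++ r) o k' →
    ∃ k'' ∈ p.sub, k' = k'' ++ r := by
  induction p with
  | atom a =>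
    rintro k (rfl | rfl) hk r o k' h
    · cases h
      exact ⟨[], nil_mem_sub _, rfl⟩
    · exact (hk rfl).elim
  | skip =>
    rintro k (rfl | rfl) hk r o k' h
    · cases h
      exact ⟨[], nil_mem_sub _, rfl⟩
    · exact (hk rfl).elim
  | fail =>
    rintro k (rfl | rfl) hk r o k' h
    · cases h
    · exact (hk rfl).elim
  | seq p q h1 h2 =>
    rintro k (rfl | ⟨k, h3, rfl⟩ | h3) hk r o k' h
    · cases h
      exact ⟨[p, q], Or.inr (Or.inl ⟨[p], self_mem_sub p, rfl⟩), rfl⟩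
    · by_cases e : k = []
      · subst e
        obtain ⟨k2, a1, a2⟩ := h2 _ (self_mem_sub q) (by simp) r o k' h
        exact ⟨k2, Or.inr (Or.inr a1), a2⟩
      · simp only [List.append_assoc] at h
        obtain ⟨k2, a1, a2⟩ := h1 _ h3 e _ o k' h
        exact ⟨k2 ++ [q], Or.inr (Or.inl ⟨k2, a1, rfl⟩), by simp [a2]⟩
    · obtain ⟨k2, a1, a2⟩ := h2 _ h3 hk r o k' h
      exact ⟨k2, Or.inr (Or.inr a1), a2⟩
  | alt p q h1 h2 =>
    rintro k (rfl | h3 | h3) hk r o k' h
    · cases h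
      · exact ⟨[p], Or.inr (Or.inl (self_mem_sub p)), rfl⟩
      · exact ⟨[q], Or.inr (Or.inr (self_mem_sub q)), rfl⟩
    · obtain ⟨k2, a1, a2⟩ := h1 _ h3 hk r o k' h
      exact ⟨k2, Or.inr (Or.inl a1), a2⟩
    · obtain ⟨k2, a1, a2⟩ := h2 _ h3 hk r o k' h
      exact ⟨k2, Or.inr (Or.inr a1), a2⟩
  | star p h1 =>
    rintro k (rfl | ⟨k, h3, rfl⟩) hk r o k' h
    · exact (hk rfl).elim
    · by_cases e : k = []
      · subst e
        cases h
        · exact ⟨[], Or.inl rfl, rfl⟩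
        · exact ⟨[p, star p], Or.inr ⟨[p], self_mem_sub p, rfl⟩, rfl⟩
      · simp only [List.append_assoc] at h
        obtain ⟨k2, a1, a2⟩ := h1 _ h3 e _ o k' h
        exact ⟨k2 ++ [star p], Or.inr ⟨k2, a1, rfl⟩, by simp [a2]⟩

theorem sub_step {p : Prog A} {k k' : List (Prog A)} {o : Option A} (hk : k ∈ p.sub)
    (h : Ctl k o k') : k' ∈ p.sub := by
  have e : k ≠ [] := by
    rintro rfl
    cases h
  obtain ⟨k2, a1, a2⟩ := sub_closed p k hk e [] o k' (by simpa using h)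
  simpa [a2] using a1

end Prog

/-- Instructions of the pushdown automaton. -/
inductive PA (Γ : Type) : Type
  | L : PA Γ
  | R : PA Γ
  | atL : PA Γ
  | atR : PA Γ
  | emp : PA Γ
  | push : Γ → PA Γ
  | pop : Γ → PA Γ
  | nt : Γ → PA Γ

def pact {Γ : Type} (n : ℕ) : PA Γ → ℕ × List Γ → ℕ × List Γ → Prop
  | .L => fun s t => s.1 = t.1 + 1 ∧ t.2 = s.2
  | .R => fun s t => t.1 = s.1 + 1 ∧ t.1 ≤ n ∧ t.2 = s.2
  | .atL => fun s t => s.1 = 0 ∧ t = s
  | .atR => fun s t => s.1 = n ∧ t = s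
  | .emp => fun s t => s.2 = [] ∧ t = s
  | .push g => fun s t => t = (s.1, g :: s.2)
  | .pop g => fun s t => s = (t.1, g :: t.2)
  | .nt g => fun s t => s.2.head? ≠ some g ∧ t = s

def pdel {Γ : Type} (o : Option (PA Γ)) (s : Tape Unit) (g : Option Γ) (m : SignType)
    (v : List (Option Γ)) : Prop :=
  match o with
  | none => m = 0 ∧ v = [g]
  | some .L => m = -1 ∧ v = [g]
  | some .R => m = 1 ∧ v = [g]
  | some .atL => s = .left ∧ m = 0 ∧ v = [g]
  | some .atR => s = .right ∧ m = 0 ∧ v = [g]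
  | some .emp => g = none ∧ m = 0 ∧ v = [g]
  | some (.push a) => m = 0 ∧ v = [some a, g]
  | some (.pop a) => g = some a ∧ m = 0 ∧ v = []
  | some (.nt a) => g ≠ some a ∧ m = 0 ∧ v = [g]

theorem cell_left (w : List Unit) (x : ℕ) : cell w x = .left ↔ x = 0 := by
  cases x with
  | zero => simp [cell]
  | succ x =>
    simp only [cell]
    cases w[x]? <;> simp

theorem cell_right (w : List Unit) {x : ℕ} (h : x ≤ w.length + 1) :
    cell w x = .right ↔ x = w.length + 1 := by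
  cases x with
  | zero => simp [cell]
  | succ x =>
    simp only [cell]
    by_cases e : x < w.length
    · rw [List.getElem?_eq_getElem e]
      simp
      omega
    · rw [List.getElem?_eq_none (by omega)]
      simp
      omega

def stk {Γ : Type} (l : List Γ) : List (Option Γ) := l.map some ++ [none]

theorem stk_head {Γ : Type} (l : List Γ) : stk l = l.head? :: (stk l).tail := by
  cases l <;> simp [stk]

theorem pdel_of {Γ : Type} (w : List Unit) (o : Option (PA Γ)) (s t : ℕ × List Γ)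
    (hs : s.1 ≤ w.length + 1) (h : Prog.oact (pact (w.length + 1)) o s t) :
    ∃ m v, pdel o (cell w s.1) s.2.head? m v ∧ stk t.2 = v ++ (stk s.2).tail ∧
      (t.1 : ℤ) = s.1 + (m : ℤ) ∧ t.1 ≤ w.length + 1 := by
  obtain ⟨x, l⟩ := s
  obtain ⟨y, l'⟩ := t
  have e := stk_head l
  rcases o with _ | _ | _ | _ | _ | _ | a | a | a <;> simp only [Prog.oact, pact, Prod.mk.injEq] at h hs
  · obtain ⟨rfl, rfl⟩ := h
    exact ⟨0, _, ⟨rfl, rfl⟩, e, by simp, hs⟩
  · obtain ⟨rfl, rfl⟩ := h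
    exact ⟨-1, _, ⟨rfl, rfl⟩, e, by simp, by simp only; omega⟩
  · obtain ⟨rfl, h, rfl⟩ := h
    exact ⟨1, _, ⟨rfl, rfl⟩, e, by simp, h⟩
  · obtain ⟨h, rfl, rfl⟩ := h
    exact ⟨0, _, ⟨(cell_left w _).2 h, rfl, rfl⟩, e, by simp, hs⟩
  · obtain ⟨h, rfl, rfl⟩ := h
    exact ⟨0, _, ⟨(cell_right w hs).2 h, rfl, rfl⟩, e, by simp, hs⟩
  · obtain ⟨h, rfl, rfl⟩ := h
    exact ⟨0, _, ⟨by simp [h], rfl, rfl⟩, e, by simp, hs⟩
  · obtain ⟨rfl, rfl⟩ := h
    exact ⟨0, _, ⟨rfl, rfl⟩, congrArg (some a :: ·) e, by simp, hs⟩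
  · obtain ⟨rfl, rfl⟩ := h
    exact ⟨0, _, ⟨rfl, rfl, rfl⟩, rfl, by simp, hs⟩
  · obtain ⟨h, rfl, rfl⟩ := h
    exact ⟨0, _, ⟨h, rfl, rfl⟩, e, by simp, hs⟩

theorem of_pdel {Γ : Type} (w : List Unit) (o : Option (PA Γ)) (s : ℕ × List Γ) (y : ℕ)
    (hs : s.1 ≤ w.length + 1) (m : SignType) (v : List (Option Γ))
    (h : pdel o (cell w s.1) s.2.head? m v) (h1 : (y : ℤ) = s.1 + (m : ℤ))
    (h2 : y ≤ w.length + 1) :
    ∃ l, Prog.oact (pact (w.length + 1)) o s (y, l) ∧ stk l = v ++ (stk s.2).tail := by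
  obtain ⟨x, l⟩ := s
  have e := stk_head l
  rcases o with _ | _ | _ | _ | _ | _ | a | a | a <;> simp only [pdel] at h hs h1 <;>
    simp only [Prog.oact, pact, Prod.mk.injEq]
  · obtain ⟨rfl, rfl⟩ := h
    exact ⟨l, ⟨by simpa using h1, rfl⟩, e⟩
  · obtain ⟨rfl, rfl⟩ := h
    exact ⟨l, ⟨by simp at h1; omega, rfl⟩, e⟩
  · obtain ⟨rfl, rfl⟩ := h
    exact ⟨l, ⟨by simp at h1; omega, h2, rfl⟩, e⟩
  · obtain ⟨h, rfl, rfl⟩ := h
    exact ⟨l, ⟨(cell_left w _).1 h, by simpa using h1, rfl⟩, e⟩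
  · obtain ⟨h, rfl, rfl⟩ := h
    exact ⟨l, ⟨(cell_right w hs).1 h, by simpa using h1, rfl⟩, e⟩
  · obtain ⟨h, rfl, rfl⟩ := h
    exact ⟨l, ⟨by simpa using h, by simpa using h1, rfl⟩, e⟩
  · obtain ⟨rfl, rfl⟩ := h
    exact ⟨a :: l, ⟨by simpa using h1, rfl⟩, congrArg (some a :: ·) e⟩
  · obtain ⟨h, rfl, rfl⟩ := h
    obtain _ | ⟨b, l⟩ := l
    · simp at h
    · obtain rfl : b = a := by simpa using h
      exact ⟨l, ⟨by simpa using h1.symm, rfl⟩, rfl⟩
  · obtain ⟨h, rfl, rfl⟩ := h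
    exact ⟨l, ⟨h, by simpa using h1, rfl⟩, e⟩

theorem pda_of_prog {Γ : Type} [Finite Γ] (p : Prog (PA Γ)) :
    ∃ P : HeadsPDA Unit 1, ∀ w : List Unit,
      w ∈ P.lang ↔ ∃ t, p.run (pact (w.length + 1)) (0, []) t := by
  let P : HeadsPDA Unit 1 :=
    { Q := p.sub, Γ := Option Γ, finQ := p.sub_finite, finΓ := inferInstance,
      start := ⟨[p], p.self_mem_sub⟩, bottom := none, accept := {k | k.1 = []},
      δ := fun k s g => {x | ∃ o, Prog.Ctl k.1 o x.1.1 ∧ pdel o (s 0) g (x.2.1 0) x.2.2},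
      finδ := fun k s g => by
        have := p.sub_finite.to_subtype
        refine (Set.finite_univ.prod (Set.finite_univ.prod
          (List.finite_length_le (Option Γ) 2))).subset ?_
        rintro x ⟨o, -, h⟩
        refine ⟨trivial, trivial, ?_⟩
        rcases o with _ | _ | _ | _ | _ | _ | a | a | a <;> simp only [pdel] at h <;>
          simp [h] }
  refine ⟨P, fun w => ⟨?_, ?_⟩⟩
  · rintro ⟨c, hc, ha⟩
    have : c.2.1 0 ≤ w.length + 1 ∧ ∃ l, c.2.2 = stk l ∧
        ReflTransGen (Prog.Small (pact (w.length + 1))) ([p], (0, [])) (c.1.1, (c.2.1 0, l)) := by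
      clear ha
      induction hc with
      | refl => exact ⟨Nat.zero_le _, [], rfl, .refl⟩
      | @tail b c _ h ih =>
        obtain ⟨i1, l, i2, i3⟩ := ih
        obtain ⟨g, rest, m, v, a1, a2, ⟨o, a3, a4⟩, a5⟩ := h
        rw [i2, stk_head] at a1
        obtain ⟨rfl, rfl⟩ := List.cons.inj a1
        obtain ⟨l', b1, b2⟩ := of_pdel w o (b.2.1 0, l) (c.2.1 0) i1 _ _ a4 (a5 0).1 (a5 0).2
        exact ⟨(a5 0).2, l', a2.trans b2.symm, i3.tail ⟨o, a3, b1⟩⟩
    obtain ⟨-, l, -, h⟩ := this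
    have h2 := Prog.run_of_small h (c.2.1 0, l) (by
      have : c.1.1 = [] := ha
      simp only [this]
      rfl)
    obtain ⟨m, h3, -⟩ := h2
    exact ⟨m, h3⟩
  · rintro ⟨t, ht⟩
    have key : ∀ c, ReflTransGen (Prog.Small (pact (w.length + 1))) ([p], (0, [])) c →
        c.2.1 ≤ w.length + 1 ∧ ∃ h : c.1 ∈ p.sub, ReflTransGen (P.Step w)
          (P.start, fun _ => 0, [P.bottom]) (⟨c.1, h⟩, fun _ => c.2.1, stk c.2.2) := by
      intro c hc
      induction hc with
      | refl => exact ⟨Nat.zero_le _, p.self_mem_sub, .refl⟩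
      | @tail b c _ h ih =>
        obtain ⟨i1, i2, i3⟩ := ih
        obtain ⟨o, a1, a2⟩ := h
        obtain ⟨m, v, b1, b2, b3, b4⟩ := pdel_of w o _ _ i1 a2
        exact ⟨b4, Prog.sub_step i2 a1, i3.tail ⟨_, _, fun _ => m, v, stk_head _, b2,
          ⟨o, a1, b1⟩, fun _ => ⟨b3, b4⟩⟩⟩
    obtain ⟨-, h, h2⟩ := key _ (Prog.small_of_run p _ _ [] ht)
    exact ⟨_, h2, rfl⟩

end Pool.Agent.P.MP_d0a708_lc.K
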