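import Pool.Agent.P.MP_d0a708_lc.KDec
import Pool.Agent.P.MP_d0a708_lc.NSweep

/-!
The machine with one register and counters follows the graph of sweeps of a longer input.
-/

namespace Pool.Agent.P.MP_d0a708_lc.K

open Pool.Agent.P.MP_d0a708_lc Relation Prog Function

def emb (p : CP) : Prog MA := p.bind fun a => atom (.cnt a)

theorem run_emb {n U : ℕ} (p : CP) (s t : ℕ × (ℕ → ℕ)) :
    (emb p).run (mact n U) s t ↔ t.1 = s.1 ∧ p.run (cact U) s.2 t.2 := by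
  induction p generalizing s t with
  | atom a => rfl
  | skip => exact Prod.ext_iff
  | fail => exact ⟨fun h => h.elim, fun h => h.2⟩
  | seq p q h1 h2 =>
    constructor
    · rintro ⟨m, a, b⟩
      obtain ⟨a1, a2⟩ := (h1 _ _).1 a
      obtain ⟨b1, b2⟩ := (h2 _ _).1 b
      exact ⟨b1.trans a1, _, a2, b2⟩
    · rintro ⟨h, m, a, b⟩
      exact ⟨(s.1, m), (h1 _ _).2 ⟨rfl, a⟩, (h2 _ _).2 ⟨h, b⟩⟩
  | alt p q h1 h2 => exact (or_congr (h1 _ _) (h2 _ _)).trans and_or_left.symm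
  | star p h1 =>
    constructor
    · intro h
      induction h with
      | refl => exact ⟨rfl, .refl⟩
      | tail _ a ih =>
        obtain ⟨a1, a2⟩ := (h1 _ _).1 a
        exact ⟨a1.trans ih.1, ReflTransGen.tail ih.2 a2⟩
    · obtain ⟨x, c⟩ := s
      obtain ⟨y, c'⟩ := t
      rintro ⟨rfl, h⟩
      simp only at h
      induction h with
      | refl => exact .refl
      | tail _ a ih => exact ReflTransGen.tail ih ((h1 _ _).2 ⟨rfl, a⟩)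

/-- Add the value of counter `i` to the register, or subtract it. -/
def shiftX (a b i : ℕ) : Prog MA :=
  seqs [emb (cpy i 12 13), star (seq (atom (.aff 1 a 1 b 0)) (emb (dec 12))), emb (zero 12)]

theorem run_shiftX {n U a b i : ℕ} (hab : a = 1 ∧ b = 0 ∨ a = 0 ∧ b = 1) (hi : i < 12)
    {s t : ℕ × (ℕ → ℕ)} (hs : Ok U 12 s.2) (hn : s.1 ≤ n) :
    (shiftX a b i).run (mact n U) s t ↔
      t.2 = s.2 ∧ t.1 ≤ n ∧ t.1 + a * s.2 i = s.1 + b * s.2 i := by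
  have key : ∀ s t : ℕ × (ℕ → ℕ),
      (star (seq (atom (.aff 1 a 1 b 0)) (emb (dec 12)))).run (mact n U) s t ↔
      ∃ e, e ≤ s.2 12 ∧ t.2 = update s.2 12 (s.2 12 - e) ∧ t.1 + a * e = s.1 + b * e ∧
        (e = 0 ∨ t.1 + a * (e - 1) ≤ n) := by
    refine star_iff _ (fun s t => by simp [Prod.ext_iff, and_comm]) ?_
    rintro e ⟨x, c⟩ ⟨y, c'⟩
    simp only [run_seq, run_emb, run_dec, Prod.exists]
    simp only [run, mact]
    constructor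
    · rintro ⟨h1, rfl, h2, h3⟩
      refine ⟨y + a - b, _, ⟨by omega, rfl, ?_, ?_⟩, y, _, ⟨rfl, ?_, ?_⟩, rfl, by simp; omega,
        by simp [Nat.sub_sub]⟩ <;> rcases hab with ⟨rfl, rfl⟩ | ⟨rfl, rfl⟩ <;> omega
    · rintro ⟨x1, _, ⟨h1, rfl, h2, h3⟩, _, _, ⟨rfl, h4, h5⟩, rfl, h6, rfl⟩
      refine ⟨by simp at h6; omega, by simp [Nat.sub_sub], ?_, ?_⟩ <;>
        rcases hab with ⟨rfl, rfl⟩ | ⟨rfl, rfl⟩ <;> omega
  obtain ⟨x, c⟩ := s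
  obtain ⟨y, c'⟩ := t
  have e1 : ∀ c', (cpy i 12 13).run (cact U) c c' ↔ c' = update c 12 (c i) := fun _ =>
    run_cpy (by omega) (by omega) (by omega) (hs.leU i) (hs.z _ le_rfl) (hs.z _ (by omega))
  have e2 : update c 12 0 = c := by rw [← hs.z 12 le_rfl, update_eq_self]
  simp only [shiftX, seqs, run_seq, run_emb, key, run_zero, run_skip, Prod.exists, e1,
    Prod.mk.injEq] at hn ⊢
  constructor
  · rintro ⟨_, _, ⟨rfl, rfl⟩, _, _, ⟨e, h1, rfl, h2, h3⟩, _, _, ⟨rfl, h4, rfl⟩, rfl, rfl⟩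
    simp only [update_self, update_idem] at h1 h4 ⊢
    obtain rfl : e = c i := by omega
    refine ⟨by rw [h4, e2], ?_, h2⟩
    rcases hab with ⟨rfl, rfl⟩ | ⟨rfl, rfl⟩ <;> omega
  · rintro ⟨rfl, h1, h2⟩
    refine ⟨_, _, ⟨rfl, rfl⟩, y, _, ⟨c' i, by simp, rfl, h2, ?_⟩, _, _, ⟨rfl, by simp, rfl⟩, rfl,
      by simp [e2]⟩
    rcases hab with ⟨rfl, rfl⟩ | ⟨rfl, rfl⟩ <;> omega

def cs (F : ℕ → ℕ) (q h d1 d0 w : ℕ) (i : ℕ) : ℕ :=
  if i < 7 then F i else if i = 7 then q else if i = 8 then h else if i = 9 then d1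
  else if i = 10 then d0 else if i = 11 then w else 0

section

variable {F : ℕ → ℕ} {q h d1 d0 w a U : ℕ}

theorem cs7 : update (cs F q h d1 d0 w) 7 a = cs F a h d1 d0 w := by
  funext i
  simp only [update_apply, cs]
  split_ifs <;> omega

theorem cs8 : update (cs F q h d1 d0 w) 8 a = cs F q a d1 d0 w := by
  funext i
  simp only [update_apply, cs]
  split_ifs <;> omega

theorem cs9 : update (cs F q h d1 d0 w) 9 a = cs F q h a d0 w := by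
  funext i
  simp only [update_apply, cs]
  split_ifs <;> omega

theorem cs10 : update (cs F q h d1 d0 w) 10 a = cs F q h d1 a w := by
  funext i
  simp only [update_apply, cs]
  split_ifs <;> omega

theorem cs11 : update (cs F q h d1 d0 w) 11 a = cs F q h d1 d0 a := by
  funext i
  simp only [update_apply, cs]
  split_ifs <;> omega

theorem ok_cs (hF : ∀ i < 7, F i ≤ F 0) (hU : F 0 ≤ U) (h1 : q ≤ F 0) (h2 : h ≤ F 0)
    (h3 : d1 ≤ F 0) (h4 : d0 ≤ F 0) (h5 : w ≤ F 0) : Ok U 12 (cs F q h d1 d0 w) := by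
  refine ⟨hU, fun i => ?_, fun i hi => ?_⟩
  · have := hF i
    simp only [cs]
    split_ifs <;> omega
  · simp only [cs]
    split_ifs <;> omega

end

theorem Pos.tst {P : Pr} (h : Pos P) : ∃ p : CP, ∀ U c c', Ok U 12 c →
    (p.run (cact U) c c' ↔ c' = c ∧ P (c 0) (fun i => c (i % 12))) :=
  h 12 (fun i => i % 12) fun _ => Nat.mod_lt _ (by omega)

theorem Pos.upd {P : ℕ → Pr} (h : Pos (fun u v => P (v 0) u (fun i => v (i + 1)))) {i : ℕ}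
    (hi : 0 < i) (hi' : i < 12) : ∃ p : CP, ∀ U c c', Ok U 12 c →
    (p.run (cact U) c c' ↔ ∃ a ≤ c 0, P a (c 0) (fun i => c (i % 12)) ∧ c' = update c i a) := by
  obtain ⟨p, hp⟩ := (h 13 (vc 12 fun i => i % 12)
    (vc_lt (fun i => by omega) (by omega))).upd hi hi'
  refine ⟨p, fun U c c' hc => (hp U c c' hc).trans ?_⟩
  have : ∀ i : ℕ, i % 12 ≠ 12 := fun i => by omega
  simp [vc, this]

theorem Gr.upd {f : (ℕ → ℕ) → ℕ} (h : Gr f) {i : ℕ} (hi : 0 < i) (hi' : i < 12) :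
    ∃ p : CP, ∀ U c c', Ok U 12 c → f (fun i => c (i % 12)) ≤ c 0 →
    (p.run (cact U) c c' ↔ c' = update c i (f fun i => c (i % 12))) := by
  obtain ⟨p, hp⟩ := Pos.upd (P := fun a _ v => a = f v) h.1 hi hi'
  refine ⟨p, fun U c c' hc h => (hp U c c' hc).trans ?_⟩
  simp [h]

theorem gr_tbit (i : ℕ) {f1 f2 f3 f4 : (ℕ → ℕ) → ℕ} (h1 : Gr f1) (h2 : Gr f2) (h3 : Gr f3)
    (h4 : Gr f4) : Gr (fun v => N.tbit (v i) (f1 v) (f2 v) (f3 v) (f4 v)) :=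
  Gr.bit i (((h1.add (Gr.const 1)).add h4).add ((Gr.const 8).mul ((h2.mul h1).add h3)))

def DP (v d1 d0 e1 e0 : ℕ) : Prop := e1 = d1 ∧ d0 = e0 + 1 ∨ d0 = 0 ∧ d1 = e1 + 1 ∧ v = e0 + 1

def dp : CP := alt (dec 10) (seqs [zero 10, dec 9, cpy 3 10 12, dec 10])

theorem run_dp {F : ℕ → ℕ} {q h d1 d0 w U : ℕ} (hU : F 3 ≤ U) {c' : ℕ → ℕ} :
    dp.run (cact U) (cs F q h d1 d0 w) c' ↔
      ∃ e1 e0, DP (F 3) d1 d0 e1 e0 ∧ c' = cs F q h e1 e0 w := by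
  have e1 : ∀ d c', (cpy 3 10 12).run (cact U) (cs F q h d 0 w) c' ↔ c' = cs F q h d (F 3) w :=
    fun d _ => (run_cpy (i := 3) (j := 10) (t := 12) (c := cs F q h d 0 w) (by omega) (by omega)
      (by omega) hU rfl rfl).trans (by rw [cs10]; rfl)
  simp only [dp, seqs, run_alt, run_seq, run_dec, run_zero, run_skip]
  constructor
  · rintro (⟨h1, rfl⟩ | ⟨_, ⟨h1, rfl⟩, _, ⟨h2, rfl⟩, _, h3, _, ⟨h4, rfl⟩, rfl⟩)
    · have h1 : d0 ≠ 0 := h1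
      exact ⟨d1, d0 - 1, Or.inl ⟨rfl, by omega⟩, cs10⟩
    · obtain rfl : d0 = 0 := h1
      have h2 : d1 ≠ 0 := h2
      rw [cs9, e1] at h3
      subst h3
      have h4 : F 3 ≠ 0 := h4
      exact ⟨d1 - 1, F 3 - 1, Or.inr ⟨rfl, by omega, by omega⟩, cs10⟩
  · rintro ⟨e1', e0, ⟨rfl, rfl⟩ | ⟨rfl, rfl, h1⟩, rfl⟩
    · exact Or.inl ⟨Nat.succ_ne_zero _, cs10.symm⟩
    · refine Or.inr ⟨_, ⟨rfl, rfl⟩, _, ⟨Nat.succ_ne_zero _, rfl⟩, _, by
        rw [cs9]; exact (e1 _ _).2 rfl, _, ⟨show F 3 ≠ 0 by omega, rfl⟩, ?_⟩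
      rw [cs10]
      congr 1
      exact (by omega : e0 = F 3 - 1)

theorem DP.sum {v d1 d0 e1 e0 : ℕ} (h : DP v d1 d0 e1 e0) : e1 * v + e0 + 1 = d1 * v + d0 := by
  rcases h with ⟨rfl, rfl⟩ | ⟨rfl, rfl, rfl⟩ <;> ring

theorem DP.le {v d1 d0 e1 e0 u : ℕ} (h : DP v d1 d0 e1 e0) (h1 : v ≤ u) (h2 : d1 ≤ u)
    (h3 : d0 ≤ u) : e1 ≤ u ∧ e0 ≤ u := by
  unfold DP at h
  omega

theorem DP.ex {v d1 d0 : ℕ} (hv : 0 < v) (h : d1 * v + d0 ≠ 0) : ∃ e1 e0, DP v d1 d0 e1 e0 := by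
  cases d0 with
  | succ d => exact ⟨d1, d, Or.inl ⟨rfl, rfl⟩⟩
  | zero =>
    cases d1 with
    | zero => simp at h
    | succ d => exact ⟨d, v - 1, Or.inr ⟨rfl, rfl, by omega⟩⟩

structure Good (F : ℕ → ℕ) (r : ℕ) : Prop where
  le : ∀ i < 7, F i ≤ F 0
  zv : F 1 ≤ F 3
  r1 : 1 ≤ F 4
  r0 : F 5 + 2 ≤ F 0
  zh : F 1 = F 6 + F 6
  idx : F 2 + 6 + 8 * (F 2 * F 2) ≤ F 1
  val : F 1 / 2 ^ F 2 % 2 ≠ 0
  low : ∀ i < F 2, F 1 / 2 ^ i % 2 = 0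
  hr : r = F 4 * F 3 + F 5

theorem Good.zr {F : ℕ → ℕ} {r : ℕ} (G : Good F r) : F 1 ≤ r := by
  have := G.zv
  have := Nat.mul_le_mul_right (F 3) G.r1
  rw [G.hr]
  omega

theorem Good.pos {F : ℕ → ℕ} {r : ℕ} (G : Good F r) : 0 < F 2 := by
  refine Nat.pos_of_ne_zero fun e => G.val ?_
  rw [e, G.zh]
  omega

theorem exists_pick {f : (ℕ → ℕ) → ℕ} (hf : Gr fun v => f fun i => v (i + 1)) :
    ∃ p : CP, ∀ U F q h d1 d0 w c', Ok U 12 (cs F q h d1 d0 w) → F 2 ≤ F 0 →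
    (p.run (cact U) (cs F q h d1 d0 w) c' ↔ ∃ j, j < F 2 ∧
      N.tbit (F 1) (F 2) q j (f fun i => cs F q h d1 d0 w (i % 12)) ≠ 0 ∧
      c' = cs F j h d1 d0 w) := by
  obtain ⟨p, hp⟩ := Pos.upd (P := fun a _ v => a < v 2 ∧ ¬ N.tbit (v 1) (v 2) (v 7) a (f v) = 0)
    (i := 7) ((Dec.lt 0 3).and
      (gr_tbit 2 (Gr.var 3) (Gr.var 8) (Gr.var 0) hf).eq_zero.not).1 (by omega) (by omega)
  refine ⟨p, fun U F q h d1 d0 w c' ok hC => ?_⟩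
  rw [hp U _ c' ok]
  simp only [cs7]
  exact exists_congr fun j => ⟨fun h => ⟨h.2.1.1, h.2.1.2, h.2.2⟩,
    fun h => ⟨h.1.le.trans hC, ⟨h.1, h.2.1⟩, h.2.2⟩⟩

theorem exists_tail (b : ℕ) : ∃ p : CP, ∀ U F r q h d1 d0 w c',
    Good F r → F 0 ≤ U → q ≤ F 0 → h ≤ 1 → d1 ≤ F 0 → d0 ≤ F 0 → w ≤ F 0 →
    (p.run (cact U) (cs F q h d1 d0 w) c' ↔ ∃ j e1 e0, j < F 2 ∧
      N.tbit (F 1) (F 2) q j (2 * b + if d1 = 0 ∧ d0 = 1 then 1 else w % 2) ≠ 0 ∧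
      DP (F 3) d1 d0 e1 e0 ∧ c' = cs F j (q % 2) e1 e0 (w / 2)) := by
  obtain ⟨p2, h2⟩ := ((Gr.var 7).par (Sml.var 7)).upd (i := 8) (by omega) (by omega)
  obtain ⟨p3, h3⟩ := exists_pick (f := fun v => 2 * b + if v 9 = 0 ∧ v 10 = 1 then 1 else v 11 % 2)
    ((Gr.const (2 * b)).add (Gr.ite (((Gr.const 0).var_eq 10).and ((Gr.const 1).var_eq 11))
      (Gr.const 1) ((Gr.var 12).par (Sml.var 12))))
  obtain ⟨p4, h4⟩ := ((Gr.var 11).half (Sml.var 11)).upd (i := 11) (by omega) (by omega)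
  refine ⟨seq p2 (seq p3 (seq p4 dp)), fun U F r q h d1 d0 w c' G hU a1 a2 a3 a4 a5 => ?_⟩
  have u2 : 2 ≤ F 0 := le_of_add_le_right G.r0
  have ok : ∀ {q h w}, q ≤ F 0 → h ≤ 1 → w ≤ F 0 → Ok U 12 (cs F q h d1 d0 w) :=
    fun b1 b2 b3 => ok_cs G.le hU b1 (by omega) a3 a4 b3
  have hC := G.le 2 (by omega)
  have e2 : ∀ c', p2.run (cact U) (cs F q h d1 d0 w) c' ↔ c' = cs F q (q % 2) d1 d0 w :=
    fun c' => (h2 U _ c' (ok a1 a2 a5) (show q % 2 ≤ F 0 by omega)).trans (by rw [cs8]; rfl)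
  have e3 : ∀ c', p3.run (cact U) (cs F q (q % 2) d1 d0 w) c' ↔ ∃ j, j < F 2 ∧
      N.tbit (F 1) (F 2) q j (2 * b + if d1 = 0 ∧ d0 = 1 then 1 else w % 2) ≠ 0 ∧
      c' = cs F j (q % 2) d1 d0 w := fun c' => h3 U F _ _ _ _ _ c' (ok a1 (by omega) a5) hC
  have e4 : ∀ j < F 2, ∀ c', p4.run (cact U) (cs F j (q % 2) d1 d0 w) c' ↔
      c' = cs F j (q % 2) d1 d0 (w / 2) := fun j hj c' =>
    (h4 U _ c' (ok (by omega) (by omega) a5) (show w / 2 ≤ F 0 by omega)).trans (by rw [cs11]; rfl)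
  have hv := (G.le 3 (by omega)).trans hU
  simp only [run_seq, e2, exists_eq_left, e3]
  constructor
  · rintro ⟨_, ⟨j, c1, c2, rfl⟩, _, b7, b8⟩
    obtain rfl := (e4 j c1 _).1 b7
    obtain ⟨f1, f0, c3, rfl⟩ := (run_dp hv).1 b8
    exact ⟨j, f1, f0, c1, c2, c3, rfl⟩
  · rintro ⟨j, f1, f0, c3, c4, c5, rfl⟩
    exact ⟨_, ⟨j, c3, c4, rfl⟩, _, (e4 j c3 _).2 rfl, (run_dp hv).2 ⟨f1, f0, c5, rfl⟩⟩

theorem exists_cell (b : ℕ) {k : ℕ} (hk : k ≤ 1) : ∃ p : Prog MA, ∀ n U F r x q h d1 d0 w t,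
    Good F r → F 0 ≤ U → q ≤ F 0 → h ≤ 1 → d1 ≤ F 0 → d0 ≤ F 0 → w ≤ F 0 →
    (p.run (mact n U) (x, cs F q h d1 d0 w) t ↔ h = k ∧ ∃ y j e1 e0,
      2 * (y + k * F 6) + b = x + k * n ∧ y + k * F 6 ≤ n ∧ j < F 2 ∧
      N.tbit (F 1) (F 2) q j (2 * b + if d1 = 0 ∧ d0 = 1 then 1 else w % 2) ≠ 0 ∧
      DP (F 3) d1 d0 e1 e0 ∧ t = (y, cs F j (q % 2) e1 e0 (w / 2))) := by
  obtain ⟨p1, h1⟩ := ((Gr.const k).var_eq 8).1.tst
  obtain ⟨p2, h2⟩ := exists_tail b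
  refine ⟨seq (emb p1) (seq (atom (.aff 2 b 1 0 k)) (seq (pw (shiftX 1 0 6) k) (emb p2))),
    fun n U F r x q h d1 d0 w t G hU a1 a2 a3 a4 a5 => ?_⟩
  have u2 : 2 ≤ F 0 := le_of_add_le_right G.r0
  have ok : Ok U 12 (cs F q h d1 d0 w) := ok_cs G.le hU a1 (by omega) a3 a4 a5
  have e0 : ∀ c', p1.run (cact U) (cs F q h d1 d0 w) c' ↔ c' = cs F q h d1 d0 w ∧ h = k :=
    fun c' => h1 U _ c' ok
  have e1 : ∀ y t, y ≤ n → ((pw (shiftX 1 0 6) k).run (mact n U) (y, cs F q h d1 d0 w) t ↔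
      t.2 = cs F q h d1 d0 w ∧ t.1 + k * F 6 = y) := by
    intro y t hy
    obtain rfl | rfl : k = 0 ∨ k = 1 := by omega
    · simp [pw, run_skip, Prod.ext_iff, and_comm]
    · simp only [pw, run_seq, run_skip, exists_eq_right']
      rw [run_shiftX (Or.inl ⟨rfl, rfl⟩) (by omega) ok hy]
      simp only [cs, Nat.reduceLT, if_true]
      exact and_congr_right' (by omega)
  have e2 := fun c' => h2 U F r q h d1 d0 w c' G hU a1 a2 a3 a4 a5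
  constructor
  · rintro ⟨⟨_, _⟩, b0, ⟨y1, _⟩, ⟨rfl, b2, b3⟩, ⟨y, _⟩, b4, b5⟩
    obtain ⟨rfl, b0⟩ := (run_emb _ _ _).1 b0
    obtain ⟨rfl, b1⟩ := (e0 _).1 b0
    obtain ⟨rfl, b4⟩ := (e1 _ _ b2).1 b4
    obtain ⟨b5, b6⟩ := (run_emb _ _ _).1 b5
    obtain ⟨j, f1, f0, c1, c2, c3, c4⟩ := (e2 _).1 b6
    simp only at b2 b3 b4
    exact ⟨b1, y, j, f1, f0, by omega, by omega, c1, c2, c3, Prod.ext b5 c4⟩
  · rintro ⟨b1, y, j, f1, f0, c1, c2, c3, c4, c5, rfl⟩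
    exact ⟨(x, cs F q h d1 d0 w), (run_emb _ _ _).2 ⟨rfl, (e0 _).2 ⟨rfl, b1⟩⟩,
      (y + k * F 6, cs F q h d1 d0 w), ⟨rfl, c2, by simpa using c1⟩, (y, cs F q h d1 d0 w),
      (e1 _ _ c2).2 ⟨rfl, rfl⟩, (run_emb _ _ _).2 ⟨rfl, (e2 _).2 ⟨j, f1, f0, c3, c4, c5, rfl⟩⟩⟩

theorem exists_end : ∃ p : CP, ∀ U F r q h d1 d0 w c',
    Good F r → F 0 ≤ U → q ≤ F 0 → h ≤ 1 → w ≤ F 0 →
    (p.run (cact U) (cs F q h d1 d0 w) c' ↔ d1 = 0 ∧ d0 = 0 ∧ ∃ j, j < F 2 ∧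
      N.tbit (F 1) (F 2) q j 4 ≠ 0 ∧ c' = cs F j h (F 4) (F 5 + 2) (F 1)) := by
  obtain ⟨p1, h1⟩ := exists_pick (f := fun _ => 4) (Gr.const 4)
  obtain ⟨p2, h2⟩ := (Gr.var 4).upd (i := 9) (by omega) (by omega)
  obtain ⟨p3, h3⟩ := ((Gr.var 5).add (Gr.const 2)).upd (i := 10) (by omega) (by omega)
  obtain ⟨p4, h4⟩ := (Gr.var 1).upd (i := 11) (by omega) (by omega)
  refine ⟨seqs [zero 9, zero 10, p1, p2, p3, p4], fun U F r q h d1 d0 w c' G hU a1 a2 a5 => ?_⟩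
  have u2 : 2 ≤ F 0 := le_of_add_le_right G.r0
  have ok : ∀ {q d1 d0}, q ≤ F 0 → d1 ≤ F 0 → d0 ≤ F 0 → Ok U 12 (cs F q h d1 d0 w) :=
    fun b1 b2 b3 => ok_cs G.le hU b1 (by omega) b2 b3 a5
  have hC := G.le 2 (by omega)
  have h4' := G.le 4 (by omega)
  have e1 : ∀ c', p1.run (cact U) (cs F q h 0 0 w) c' ↔ ∃ j, j < F 2 ∧
      N.tbit (F 1) (F 2) q j 4 ≠ 0 ∧ c' = cs F j h 0 0 w :=
    fun c' => h1 U F _ _ _ _ _ c' (ok a1 (by omega) (by omega)) hC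
  have e2 : ∀ j < F 2, ∀ c', p2.run (cact U) (cs F j h 0 0 w) c' ↔ c' = cs F j h (F 4) 0 w :=
    fun j hj c' => (h2 U _ c' (ok (by omega) (by omega) (by omega)) h4').trans (by rw [cs9]; rfl)
  have e3 : ∀ j < F 2, ∀ c', p3.run (cact U) (cs F j h (F 4) 0 w) c' ↔
      c' = cs F j h (F 4) (F 5 + 2) w :=
    fun j hj c' => (h3 U _ c' (ok (by omega) h4' (by omega)) G.r0).trans (by rw [cs10]; rfl)
  have e4 : ∀ j < F 2, ∀ c', p4.run (cact U) (cs F j h (F 4) (F 5 + 2) w) c' ↔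
      c' = cs F j h (F 4) (F 5 + 2) (F 1) :=
    fun j hj c' => (h4 U _ c' (ok (by omega) h4' G.r0) (G.le 1 (by omega))).trans
      (by rw [cs11]; rfl)
  simp only [seqs, run_seq, run_skip, run_zero]
  constructor
  · rintro ⟨_, ⟨b1, rfl⟩, _, ⟨b2, rfl⟩, _, b3, _, b4, _, b5, _, b6, rfl⟩
    obtain rfl : d1 = 0 := b1
    obtain rfl : d0 = 0 := b2
    obtain ⟨j, c1, c2, rfl⟩ := (e1 _).1 b3
    obtain rfl := (e2 j c1 _).1 b4
    obtain rfl := (e3 j c1 _).1 b5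
    exact ⟨rfl, rfl, j, c1, c2, (e4 j c1 _).1 b6⟩
  · rintro ⟨rfl, rfl, j, c1, c2, rfl⟩
    exact ⟨_, ⟨rfl, rfl⟩, _, ⟨rfl, rfl⟩, _, (e1 _).2 ⟨j, c1, c2, rfl⟩, _, (e2 j c1 _).2 rfl, _,
      (e3 j c1 _).2 rfl, _, (e4 j c1 _).2 rfl, rfl⟩

theorem bit_low {r i : ℕ} (z : ℕ) (h : i < r) : (2 ^ r + z) / 2 ^ i % 2 = z / 2 ^ i % 2 := by
  obtain ⟨m, rfl⟩ := Nat.exists_eq_add_of_lt h
  rw [add_assoc, pow_add, Nat.mul_add_div (by positivity), pow_succ]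
  omega

theorem bit_top {r z : ℕ} (h : z < 2 ^ r) : (2 ^ r + z) / 2 ^ r % 2 = 1 := by
  rw [Nat.add_div_left _ (by positivity), Nat.div_eq_of_lt h]

theorem tbit_low {r z C q j κ : ℕ} (h : C + 6 + 8 * (C * C) ≤ r) (hq : q < C) (hj : j < C)
    (hκ : κ ≤ 4) : N.tbit (2 ^ r + z) C q j κ = N.tbit z C q j κ := by
  refine bit_low z ?_
  have := Nat.mul_le_mul_right C (show q + 1 ≤ C from hq)
  rw [add_mul] at this
  omega

def Acc (n r C : ℕ) : Prop := ∃ u, ReflTransGen (N.Edge n r C) (0, r + 1, 0) u ∧ u.1 = 1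

def Abs (F : ℕ → ℕ) (r : ℕ) (g : ℕ × ℕ × ℕ) (s : ℕ × (ℕ → ℕ)) : Prop :=
  ∃ h d1 d0, s.2 = cs F g.1 h d1 d0 (F 1 / 2 ^ g.2.1) ∧ s.1 < 2 ^ r ∧ h ≤ 1 ∧
    g.2.2 = s.1 + 2 ^ r * h ∧ g.2.1 + (d1 * F 3 + d0) = r + 2 ∧ g.1 < F 2 ∧ d1 ≤ F 0 ∧ d0 ≤ F 0

theorem exists_step : ∃ p : Prog MA, ∀ U F r g s, Good F r → F 0 ≤ U → Abs F r g s →
    (∀ t, p.run (mact (2 ^ r + F 1) U) s t →
      ∃ g', N.Edge (2 ^ (r + 1) + F 1) (r + 1) (F 2) g g' ∧ Abs F r g' t) ∧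
    ∀ g', N.Edge (2 ^ (r + 1) + F 1) (r + 1) (F 2) g g' → g' = g ∨
      ∃ t, p.run (mact (2 ^ r + F 1) U) s t ∧ Abs F r g' t := by
  choose P hP using fun (b : ℕ) (k : Fin 2) => exists_cell b (k := k) (by omega)
  obtain ⟨E, hE⟩ := exists_end
  refine ⟨alts [P 0 0, P 0 1, P 1 0, P 1 1, emb E], ?_⟩
  rintro U F r ⟨q, p, X⟩ ⟨x, _⟩ G hU ⟨h, d1, d0, rfl, a1, a2, a3, a4, a5, a6, a7⟩
  simp only at a1 a3 a4 a5 ⊢
  have hC := G.le 2 (by omega)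
  have hz := G.le 1 (by omega)
  have hw : F 1 / 2 ^ p ≤ F 0 := (Nat.div_le_self _ _).trans hz
  have zr := G.zr
  have idx := G.idx
  have zv := G.zv
  have zh := G.zh
  have z2 : F 1 < 2 ^ (r + 1) := (Nat.lt_succ_of_le zr).trans Nat.lt_two_pow_self
  obtain ⟨R, hR⟩ : ∃ R, 2 ^ r = 2 * R := ⟨2 ^ (r - 1), by
    rw [← pow_succ']; congr 1; omega⟩
  have hH : 2 ^ (r + 1) / 2 = 2 ^ r := by rw [pow_succ]; omega
  have tb : ∀ j < F 2, ∀ κ ≤ 4, N.tbit (2 ^ (r + 1) + F 1) (F 2) q j κ =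
      N.tbit (F 1) (F 2) q j κ := fun j hj κ hκ => tbit_low (by omega) a5 hj hκ
  have nu : p ≠ r + 2 → (2 ^ (r + 1) + F 1) / 2 ^ p % 2 =
      if d1 = 0 ∧ d0 = 1 then 1 else F 1 / 2 ^ p % 2 := by
    intro hp
    split_ifs with e
    · obtain rfl : p = r + 1 := by
        rw [e.1, e.2] at a4
        omega
      exact bit_top z2
    · refine bit_low _ (lt_of_le_of_ne (by omega) ?_)
      rintro rfl
      refine e ?_
      rcases Nat.eq_zero_or_pos d1 with rfl | h1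
      · exact ⟨rfl, by omega⟩
      · have := Nat.mul_le_mul_right (F 3) h1
        omega
  have cell : ∀ (b : ℕ) (k : Fin 2) t, b ≤ 1 →
      (P b k).run (mact (2 ^ r + F 1) U) (x, cs F q h d1 d0 (F 1 / 2 ^ p)) t →
      ∃ g', N.Edge (2 ^ (r + 1) + F 1) (r + 1) (F 2) (q, p, X) g' ∧ Abs F r g' t := by
    intro b k t hb ht
    obtain ⟨rfl, y, j, e1, e0, b1, b2, b3, b4, b5, rfl⟩ :=
      (hP b k _ U F r x q h d1 d0 _ t G hU (by omega) a2 a6 a7 hw).1 ht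
    have b6 := b5.sum
    have b7 := b5.le (G.le 3 (by omega)) a6 a7
    have hp : p ≠ r + 2 := by omega
    have b8 : X % 2 = b ∧ X / 2 = y ∧ y < 2 ^ r := by
      obtain e | e : (k : ℕ) = 0 ∨ (k : ℕ) = 1 := by omega
      all_goals
        rw [e] at b1 a3
        omega
    refine ⟨_, N.edge_cell b3 hp ?_, q % 2, e1, e0, ?_, b8.2.2, by omega, ?_, ?_, b3, b7.1, b7.2⟩
    · rw [tb j b3 _ (by omega), b8.1, nu hp]
      exact b4
    · simp only [pow_succ, Nat.div_div_eq_div_mul]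
    · simp only [hH, b8.2.1, mul_comm]
    · simp only
      omega
  constructor
  · intro t ht
    simp only [alts, run_alt] at ht
    rcases ht with ht | ht | ht | ht | ht | ht
    · exact cell 0 0 t (by omega) ht
    · exact cell 0 1 t (by omega) ht
    · exact cell 1 0 t (by omega) ht
    · exact cell 1 1 t (by omega) ht
    · obtain ⟨y, c'⟩ := t
      obtain ⟨rfl, ht⟩ := (run_emb _ _ _).1 ht
      obtain ⟨rfl, rfl, j, b1, b2, rfl⟩ := (hE U F r q h d1 d0 _ c' G hU (by omega) a2 hw).1 ht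
      obtain rfl : p = r + 2 := by omega
      refine ⟨_, N.edge_end b1 (by rwa [tb j b1 4 le_rfl]), h, F 4, F 5 + 2, by simp, a1, a2, a3,
        ?_, b1, G.le 4 (by omega), G.r0⟩
      simp only [G.hr]
      omega
    · exact ht.elim
  · rintro _ ⟨j, hj, rfl⟩
    simp only [N.nb]
    split_ifs with e1 e2 e3
    · exact Or.inl rfl
    · obtain ⟨rfl, rfl⟩ : d1 = 0 ∧ d0 = 0 := by
        rcases Nat.eq_zero_or_pos d1 with rfl | h1
        · exact ⟨rfl, by omega⟩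
        · have := Nat.mul_le_mul_right (F 3) h1
          omega
      refine Or.inr ⟨(x, cs F j h (F 4) (F 5 + 2) (F 1)), (run_alts _ _ _ _).2 ⟨emb E, by simp, (run_emb _ _ _).2 ⟨rfl,
        (hE U F r q h 0 0 _ _ G hU (by omega) a2 hw).2 ⟨rfl, rfl, j, hj, ?_, rfl⟩⟩⟩, h, F 4,
        F 5 + 2, by simp, a1, a2, a3, ?_, hj, G.le 4 (by omega), G.r0⟩
      · rwa [tb j hj 4 le_rfl] at e2
      · simp only [G.hr]
        omega
    · exact Or.inl rfl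
    · obtain ⟨f1, f0, b1⟩ := DP.ex (v := F 3) (d1 := d1) (d0 := d0) (by omega) (by omega)
      have b6 := b1.sum
      have b7 := b1.le (G.le 3 (by omega)) a6 a7
      rw [tb j hj _ (by omega), nu e1] at e3
      refine Or.inr ⟨(X / 2, _), (run_alts _ _ _ _).2 ⟨P (X % 2) ⟨h, by omega⟩, ?_,
        (hP _ _ _ U F r x q h d1 d0 _ _ G hU (by omega) a2 a6 a7 hw).2
          ⟨rfl, X / 2, j, f1, f0, ?_, ?_, hj, e3, b1, rfl⟩⟩, q % 2, f1, f0, ?_, ?_, by omega, ?_, ?_,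
        hj, b7.1, b7.2⟩
      · obtain e | e : X % 2 = 0 ∨ X % 2 = 1 := by omega
        all_goals
          rw [e]
          obtain rfl | rfl : h = 0 ∨ h = 1 := by omega
          all_goals simp
      · obtain rfl | rfl : h = 0 ∨ h = 1 := by omega
        all_goals
          simp only
          omega
      · obtain rfl | rfl : h = 0 ∨ h = 1 := by omega
        all_goals
          simp only
          omega
      · simp only [pow_succ, Nat.div_div_eq_div_mul]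
      · obtain rfl | rfl : h = 0 ∨ h = 1 := by omega
        all_goals
          simp only
          omega
      · simp only [hH, mul_comm]
      · simp only
        omega

theorem exists_sim : ∃ p : Prog MA, ∀ U F r, Good F r → F 0 ≤ U →
    ((∃ t, p.run (mact (2 ^ r + F 1) U) (0, cs F 0 0 0 0 0) t) ↔
      Acc (2 ^ (r + 1) + F 1) (r + 1) (F 2)) := by
  obtain ⟨p, hp⟩ := exists_step
  refine ⟨seq (star p) (emb (seq (dec 7) (zero 7))), fun U F r G hU => ?_⟩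
  have z2 : F 1 < 2 ^ (r + 2) := (show F 1 < r + 2 by have := G.zr; omega).trans Nat.lt_two_pow_self
  have h0 : Abs F r (0, r + 1 + 1, 0) (0, cs F 0 0 0 0 0) :=
    ⟨0, 0, 0, by simp [Nat.div_eq_of_lt z2], by positivity, by omega, rfl, by simp, G.pos,
      Nat.zero_le _, Nat.zero_le _⟩
  constructor
  · rintro ⟨t, s, h1, h2⟩
    have : ∃ g, ReflTransGen (N.Edge (2 ^ (r + 1) + F 1) (r + 1) (F 2)) (0, r + 1 + 1, 0) g ∧
        Abs F r g s := by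
      clear h2
      induction h1 with
      | refl => exact ⟨_, .refl, h0⟩
      | tail _ a ih =>
        obtain ⟨g, b1, b2⟩ := ih
        obtain ⟨g', c1, c2⟩ := (hp U F r g _ G hU b2).1 _ a
        exact ⟨g', b1.tail c1, c2⟩
    obtain ⟨g, b1, h, d1, d0, b2, -⟩ := this
    obtain ⟨-, _, h3, h4⟩ := (run_emb _ _ _).1 h2
    obtain ⟨h5, rfl⟩ := run_dec.1 h3
    have h6 := (run_zero.1 h4).1
    rw [update_self] at h6
    rw [b2] at h5 h6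
    exact ⟨g, b1, (by omega : cs F g.1 h d1 d0 (F 1 / 2 ^ g.2.1) 7 = 1)⟩
  · rintro ⟨g, h1, h2⟩
    have : ∃ s, (star p).run (mact (2 ^ r + F 1) U) (0, cs F 0 0 0 0 0) s ∧ Abs F r g s := by
      clear h2
      induction h1 with
      | refl => exact ⟨_, .refl, h0⟩
      | tail _ a ih =>
        obtain ⟨s, b1, b2⟩ := ih
        rcases (hp U F r _ _ G hU b2).2 _ a with rfl | ⟨t, c1, c2⟩
        · exact ⟨s, b1, b2⟩
        · exact ⟨t, ReflTransGen.tail b1 c1, c2⟩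
    obtain ⟨s, b1, h, d1, d0, b2, -⟩ := this
    have e : s.2 7 = 1 := by
      rw [b2]
      exact h2
    exact ⟨(s.1, update s.2 7 (s.2 7 - 1)), s, b1, (run_emb _ _ _).2 ⟨rfl, _, run_dec.2 ⟨by omega, rfl⟩,
      run_zero.2 ⟨by simp [e], rfl⟩⟩⟩

end Pool.Agent.P.MP_d0a708_lc.K
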