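import Pool.Agent.P.MP_d0a708_lc.KProg

/-!
One register and finitely many counters: the register is simulated while the pushdown grows, the
counters (coded in one number) are simulated backwards while it shrinks.
-/

namespace Pool.Agent.P.MP_d0a708_lc.K

open Pool.Agent.P.MP_d0a708_lc Relation Prog Function

theorem star_iff {S : Type} {r : S → S → Prop} (φ : ℕ → S → S → Prop)
    (h0 : ∀ s t, φ 0 s t ↔ t = s) (h1 : ∀ j s t, φ (j + 1) s t ↔ ∃ m, φ j s m ∧ r m t) (s t : S) :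
    ReflTransGen r s t ↔ ∃ j, φ j s t := by
  constructor
  · intro h
    induction h with
    | refl => exact ⟨0, (h0 _ _).2 rfl⟩
    | tail _ a ih =>
      obtain ⟨j, hj⟩ := ih
      exact ⟨j + 1, (h1 _ _ _).2 ⟨_, hj, a⟩⟩
  · rintro ⟨j, h⟩
    induction j generalizing t with
    | zero =>
      rw [(h0 _ _).1 h]
    | succ j ih =>
      obtain ⟨m, a, b⟩ := (h1 _ _ _).1 h
      exact (ih _ a).tail b

section aff

variable {Λ : Type} (n : ℕ)

def pw {A : Type} (p : Prog A) : ℕ → Prog A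
  | 0 => skip
  | k + 1 => seq p (pw p k)

abbrev tk (Λ : Type) (k : ℕ) : List (Option Λ) := List.replicate k none

theorem run_pushes (k : ℕ) (s t : ℕ × List (Option Λ)) :
    (pw (atom (.push none)) k).run (pact n) s t ↔ t = (s.1, tk Λ k ++ s.2) := by
  induction k generalizing s with
  | zero => simp [pw, run]
  | succ k ih => simp [pw, run, pact, ih, List.replicate_succ']

theorem run_pops (k : ℕ) (s t : ℕ × List (Option Λ)) :
    (pw (atom (.pop none)) k).run (pact n) s t ↔ s = (t.1, tk Λ k ++ t.2) := by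
  induction k generalizing s with
  | zero => simp [pw, run, eq_comm]
  | succ k ih => simp [pw, run, pact, ih, List.replicate_succ]

theorem run_left (k : ℕ) (s t : ℕ × List (Option Λ)) :
    (star (seq (atom .L) (pw (atom (.push none)) k))).run (pact n) s t ↔
      ∃ j, s.1 = t.1 + j ∧ t.2 = tk Λ (k * j) ++ s.2 := by
  refine star_iff (fun j s t => s.1 = t.1 + j ∧ t.2 = tk Λ (k * j) ++ s.2) ?_ ?_ s t
  · rintro ⟨x, l⟩ ⟨y, l'⟩
    simp [eq_comm]
  · rintro j ⟨x, l⟩ ⟨y, l'⟩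
    simp only [run, pact, run_pushes, Prod.exists, Prod.mk.injEq]
    constructor
    · rintro ⟨rfl, rfl⟩
      refine ⟨y + 1, _, ⟨by omega, rfl⟩, y, _, ⟨rfl, rfl⟩, rfl, ?_⟩
      rw [← List.append_assoc, ← List.replicate_add, mul_add, mul_one, add_comm]
    · rintro ⟨a, _, ⟨rfl, rfl⟩, b, _, ⟨rfl, rfl⟩, rfl, rfl⟩
      refine ⟨by omega, ?_⟩
      rw [← List.append_assoc, ← List.replicate_add, mul_add, mul_one, add_comm]

theorem run_right (k : ℕ) (s t : ℕ × List (Option Λ)) (hs : s.1 ≤ n) :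
    (star (seq (atom .R) (pw (atom (.push none)) k))).run (pact n) s t ↔
      ∃ j, t.1 = s.1 + j ∧ t.1 ≤ n ∧ t.2 = tk Λ (k * j) ++ s.2 := by
  refine (star_iff (fun j s t => t.1 = s.1 + j ∧ (j = 0 ∨ t.1 ≤ n) ∧
    t.2 = tk Λ (k * j) ++ s.2) ?_ ?_ s t).trans (exists_congr fun j => ?_)
  · rintro ⟨x, l⟩ ⟨y, l'⟩
    simp
  · rintro j ⟨x, l⟩ ⟨y, l'⟩
    simp only [run, pact, run_pushes, Prod.exists, Prod.mk.injEq]
    constructor
    · rintro ⟨rfl, h, rfl⟩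
      refine ⟨x + j, _, ⟨rfl, by omega, rfl⟩, x + j + 1, _, ⟨rfl, by omega, rfl⟩, rfl, ?_⟩
      rw [← List.append_assoc, ← List.replicate_add, mul_add, mul_one, add_comm]
    · rintro ⟨a, _, ⟨rfl, h, rfl⟩, b, _, ⟨rfl, h', rfl⟩, rfl, rfl⟩
      refine ⟨by omega, by omega, ?_⟩
      rw [← List.append_assoc, ← List.replicate_add, mul_add, mul_one, add_comm]
  · exact and_congr_right fun h => and_congr_left' (by omega)

theorem run_out (k : ℕ) (s t : ℕ × List (Option Λ)) (hs : s.1 ≤ n) :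
    (star (seq (pw (atom (.pop none)) k) (atom .R))).run (pact n) s t ↔
      ∃ j, t.1 = s.1 + j ∧ t.1 ≤ n ∧ s.2 = tk Λ (k * j) ++ t.2 := by
  refine (star_iff (fun j s t => t.1 = s.1 + j ∧ (j = 0 ∨ t.1 ≤ n) ∧
    s.2 = tk Λ (k * j) ++ t.2) ?_ ?_ s t).trans (exists_congr fun j => ?_)
  · rintro ⟨x, l⟩ ⟨y, l'⟩
    simp [eq_comm]
  · rintro j ⟨x, l⟩ ⟨y, l'⟩
    simp only [run, pact, run_pops, Prod.exists, Prod.mk.injEq]
    constructor
    · rintro ⟨rfl, h, rfl⟩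
      refine ⟨x + j, _, ⟨rfl, by omega, ?_⟩, x + j, _, ⟨rfl, rfl⟩, rfl, by omega, rfl⟩
      rw [← List.append_assoc, ← List.replicate_add, mul_add, mul_one]
    · rintro ⟨a, _, ⟨rfl, h, rfl⟩, b, _, ⟨rfl, rfl⟩, rfl, h', rfl⟩
      refine ⟨by omega, by omega, ?_⟩
      rw [← List.append_assoc, ← List.replicate_add, mul_add, mul_one]
  · exact and_congr_right fun h => and_congr_left' (by omega)

theorem tk_inj {a b : ℕ} {l l' : List (Option Λ)} (h : l.head? ≠ some none)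
    (h' : l'.head? ≠ some none) (e : tk Λ a ++ l = tk Λ b ++ l') : a = b ∧ l = l' := by
  induction a generalizing b with
  | zero =>
    cases b with
    | zero => exact ⟨rfl, by simpa using e⟩
    | succ b =>
      simp only [List.replicate_zero, List.nil_append] at e
      simp [e, List.replicate_succ] at h
  | succ a ih =>
    cases b with
    | zero =>
      simp only [List.replicate_zero, List.nil_append] at e
      simp [← e, List.replicate_succ] at h'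
    | succ b =>
      obtain ⟨h1, h2⟩ := ih (b := b) (by simpa [List.replicate_succ] using e)
      exact ⟨by omega, h2⟩

def affP (Λ : Type) (α a β b h : ℕ) : Prog (PA (Option Λ)) :=
  seqs [star (seq (atom .L) (pw (atom (.push none)) β)), atom .atL, pw (atom (.push none)) b,
    star (seq (atom .R) (pw (atom (.push none)) h)), atom .atR,
    star (seq (atom .L) (pw (atom (.push none)) 0)), atom .atL, pw (atom (.pop none)) a,
    star (seq (pw (atom (.pop none)) α) (atom .R)), atom (.nt none)]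

theorem run_affP (α a β b h : ℕ) (s t : ℕ × List (Option Λ)) (hs : s.2.head? ≠ some none) :
    (affP Λ α a β b h).run (pact n) s t ↔
      t.2 = s.2 ∧ t.1 ≤ n ∧ α * t.1 + a = β * s.1 + b + h * n := by
  obtain ⟨x, l⟩ := s
  obtain ⟨y, l'⟩ := t
  constructor
  · rintro ⟨⟨x1, l1⟩, h1, _, ⟨e1, rfl⟩, _, h2, ⟨x3, l3⟩, h3, _, ⟨e3, rfl⟩, ⟨x4, l4⟩, h4, _,
      ⟨e4, rfl⟩, ⟨x5, l5⟩, h5, ⟨x6, l6⟩, h6, _, ⟨e6, rfl⟩, e7⟩
    obtain ⟨j1, a1, a2⟩ := (run_left n _ _ _).1 h1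
    obtain rfl := (run_pushes n _ _ _).1 h2
    simp only at e1 e3 e4 e6 a1 a2 hs
    subst e1 e3 e4
    obtain ⟨j3, b1, -, b2⟩ := (run_right _ _ _ _ (Nat.zero_le _)).1 h3
    obtain ⟨j4, -, c2⟩ := (run_left _ _ _ _).1 h4
    obtain ⟨rfl, d2⟩ := Prod.mk.inj ((run_pops _ _ _ _).1 h5)
    obtain ⟨j6, f1, f2, f3⟩ := (run_out _ _ _ _ (Nat.zero_le _)).1 h6
    obtain ⟨rfl, rfl⟩ := Prod.mk.inj e7
    simp only [zero_add, zero_mul, List.replicate_zero, List.nil_append] at a1 b1 b2 c2 d2 f1 f2 f3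
    subst a1 b1 f1 a2 b2 f3 c2
    simp only [← List.append_assoc, ← List.replicate_add] at d2
    obtain ⟨g1, g2⟩ := tk_inj hs e6 d2
    exact ⟨g2.symm, f2, by simp only; omega⟩
  · rintro ⟨rfl, h1, h2⟩
    simp only at h1 h2 hs
    refine ⟨(0, _), (run_left n _ _ _).2 ⟨x, by simp, rfl⟩, _, ⟨rfl, rfl⟩, _,
      (run_pushes n _ _ _).2 rfl, (n, _), (run_right n _ _ _ (Nat.zero_le _)).2
        ⟨n, by simp, le_rfl, rfl⟩, _, ⟨rfl, rfl⟩, (0, _), (run_left n _ _ _).2 ⟨n, by simp, rfl⟩, _,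
      ⟨rfl, rfl⟩, (0, tk Λ (α * y) ++ l'), (run_pops n _ _ _).2 ?_, (y, l'),
      (run_out n _ _ _ (Nat.zero_le _)).2 ⟨y, by simp, h1, rfl⟩, _, ⟨hs, rfl⟩, rfl⟩
    simp only [← List.append_assoc, ← List.replicate_add]
    congr 3
    omega

end aff

def cact (U : ℕ) (a : ℕ × Fin 3) (c c' : ℕ → ℕ) : Prop :=
  if a.2 = 0 then c a.1 < U ∧ c' = update c a.1 (c a.1 + 1)
  else if a.2 = 1 then c a.1 ≠ 0 ∧ c' = update c a.1 (c a.1 - 1)
  else c a.1 = 0 ∧ c' = c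

/-- Instructions of the machine with one register and counters. -/
inductive MA : Type
  | aff : ℕ → ℕ → ℕ → ℕ → ℕ → MA
  | atR : MA
  | cnt : ℕ × Fin 3 → MA

def mact (n U : ℕ) : MA → ℕ × (ℕ → ℕ) → ℕ × (ℕ → ℕ) → Prop
  | .aff α a β b h => fun s t => t.2 = s.2 ∧ t.1 ≤ n ∧ α * t.1 + a = β * s.1 + b + h * n
  | .atR => fun s t => s.1 = n ∧ t = s
  | .cnt a => fun s t => t.1 = s.1 ∧ cact U a s.2 t.2

noncomputable def pr (i : ℕ) : ℕ := Nat.nth Nat.Prime i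

theorem pr_prime (i : ℕ) : (pr i).Prime := Nat.prime_nth_prime i

noncomputable def enc (m : ℕ) (c : ℕ → ℕ) : ℕ := ∏ i ∈ Finset.range m, pr i ^ c i

theorem enc_split {m i : ℕ} (hi : i < m) (c : ℕ → ℕ) (a : ℕ) :
    enc m (update c i a) = pr i ^ a * ∏ j ∈ (Finset.range m).erase i, pr j ^ c j := by
  rw [enc, ← Finset.mul_prod_erase _ _ (Finset.mem_range.2 hi), update_self]
  congr 1
  exact Finset.prod_congr rfl fun j hj => by rw [update_of_ne (Finset.ne_of_mem_erase hj)]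

theorem enc_inc {m i : ℕ} (hi : i < m) (c : ℕ → ℕ) :
    enc m (update c i (c i + 1)) = pr i * enc m c := by
  conv_rhs => rw [← update_eq_self i c]
  rw [enc_split hi, enc_split hi]
  ring

theorem enc_dec {m i : ℕ} (hi : i < m) (c : ℕ → ℕ) (h : c i ≠ 0) :
    enc m c = pr i * enc m (update c i (c i - 1)) := by
  rw [← enc_inc hi]
  simp [Nat.sub_add_cancel (Nat.one_le_iff_ne_zero.2 h)]

theorem enc_dvd {m i : ℕ} (hi : i < m) (c : ℕ → ℕ) : pr i ∣ enc m c ↔ c i ≠ 0 := by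
  refine ⟨fun h e => ?_, fun h => ⟨_, enc_dec hi c h⟩⟩
  rw [enc, (pr_prime i).prime.dvd_finsetProd_iff] at h
  obtain ⟨j, -, h⟩ := h
  have h2 := (Nat.prime_dvd_prime_iff_eq (pr_prime i) (pr_prime j)).1
    ((pr_prime i).dvd_of_dvd_pow h)
  obtain rfl := Nat.nth_injective Nat.infinite_setOfPred_prime h2
  rw [e, pow_zero, Nat.dvd_one] at h
  exact (pr_prime i).ne_one h

theorem enc_pos (m : ℕ) (c : ℕ → ℕ) : 0 < enc m c :=
  Finset.prod_pos fun i _ => pow_pos (pr_prime i).pos _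

theorem lt_enc {m i : ℕ} (hi : i < m) (c : ℕ → ℕ) : c i < enc m c :=
  (Nat.lt_pow_self (pr_prime i).one_lt).trans_le (Nat.le_of_dvd (enc_pos m c)
    (Finset.dvd_prod_of_mem (fun i => pr i ^ c i) (Finset.mem_range.2 hi)))

theorem enc_le (m U : ℕ) (c : ℕ → ℕ) (h : ∀ i, c i ≤ U) : enc m c ≤ enc m (fun _ => 1) ^ U := by
  rw [enc, enc, ← Finset.prod_pow]
  refine Finset.prod_le_prod' fun i _ => ?_
  rw [pow_one]
  exact Nat.pow_le_pow_right (pr_prime i).pos (h i)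

abbrev Lab (m : ℕ) : Type := Fin m × Fin 3

def Hist (U : ℕ) {m : ℕ} : List (Lab m) → (ℕ → ℕ) → Prop
  | [] => fun c => c = fun _ => 0
  | l :: ls => fun c => ∃ c0, Hist U ls c0 ∧ cact U (l.1, l.2) c0 c

theorem cact_le {U : ℕ} {a : ℕ × Fin 3} {c c' : ℕ → ℕ} (h : cact U a c c') (hc : ∀ i, c i ≤ U)
    (i : ℕ) : c' i ≤ U := by
  have := hc i
  have := hc a.1
  unfold cact at h
  split_ifs at h <;> obtain ⟨h, rfl⟩ := h
  · rw [update_apply]
    split_ifs <;> omega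
  · rw [update_apply]
    split_ifs <;> omega
  · exact hc i

theorem Hist.le {U m : ℕ} {ls : List (Lab m)} {c : ℕ → ℕ} (h : Hist U ls c) (i : ℕ) : c i ≤ U := by
  induction ls generalizing c i with
  | nil =>
    obtain rfl := h
    exact Nat.zero_le _
  | cons l ls ih =>
    obtain ⟨c0, a, b⟩ := h
    exact cact_le b (fun i => ih a i) i

def fwd (m : ℕ) : MA → Prog (PA (Option (Lab m)))
  | .aff α a β b h => affP _ α a β b h
  | .atR => atom .atR
  | .cnt a => if h : a.1 < m then atom (.push (some (⟨a.1, h⟩, a.2))) else fail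

noncomputable def bwd {m : ℕ} (l : Lab m) : Prog (PA (Option (Lab m))) :=
  if l.2 = 0 then affP _ (pr l.1) 0 1 0 0 else if l.2 = 1 then affP _ 1 0 (pr l.1) 0 0
  else alts ((List.range (pr l.1 - 1)).map fun a =>
    seq (affP _ (pr l.1) (a + 1) 1 0 0) (affP _ 1 0 (pr l.1) (a + 1) 0))

theorem head_map {m : ℕ} (ls : List (Lab m)) : (ls.map some).head? ≠ some none := by
  cases ls <;> simp

theorem bwd_sound {m n : ℕ} (l : Lab m) (y : ℕ) (ls : List (Lab m))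
    (t : ℕ × List (Option (Lab m))) (h : (bwd l).run (pact n) (y, ls.map some) t) :
    t.2 = ls.map some ∧ t.1 ≤ n ∧ ∀ c, t.1 = enc m c →
      ∃ c', cact n (l.1, l.2) c c' ∧ y = enc m c' := by
  have hp := (pr_prime l.1).pos
  unfold bwd at h
  unfold cact
  split_ifs at h ⊢
  · obtain ⟨a1, a2, a3⟩ := (run_affP n _ _ _ _ _ _ _ (head_map ls)).1 h
    refine ⟨a1, a2, fun c hc => ⟨_, ⟨?_, rfl⟩, ?_⟩⟩
    · exact (lt_enc l.1.2 c).trans_le (hc ▸ a2)
    · rw [enc_inc l.1.2, ← hc]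
      simpa using a3.symm
  · obtain ⟨a1, a2, a3⟩ := (run_affP n _ _ _ _ _ _ _ (head_map ls)).1 h
    refine ⟨a1, a2, fun c hc => ?_⟩
    simp only [one_mul, add_zero, zero_mul, hc] at a3
    have e := (enc_dvd l.1.2 c).1 ⟨_, a3⟩
    refine ⟨_, ⟨e, rfl⟩, Nat.eq_of_mul_eq_mul_left hp ?_⟩
    rw [← a3, ← enc_dec l.1.2 c e]
  · obtain ⟨_, h1, h2⟩ := (run_alts _ _ _ _).1 h
    obtain ⟨a, h3, rfl⟩ := List.mem_map.1 h1
    obtain ⟨⟨y1, l1⟩, h4, h5⟩ := h2
    obtain ⟨rfl, a2, a3⟩ := (run_affP n _ _ _ _ _ _ _ (head_map ls)).1 h4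
    obtain ⟨b1, b2, b3⟩ := (run_affP n _ _ _ _ _ _ _ (head_map ls)).1 h5
    simp only [one_mul, add_zero, zero_mul] at a3 b3
    refine ⟨b1, b2, fun c hc => ⟨c, ⟨?_, rfl⟩, by omega⟩⟩
    by_contra e
    have h6 := (enc_dvd l.1.2 c).2 e
    rw [← hc, b3, Nat.dvd_add_right (dvd_mul_right _ _)] at h6
    have := Nat.le_of_dvd (by omega) h6
    have := List.mem_range.1 h3
    omega

theorem bwd_complete {m n U : ℕ} (l : Lab m) (ls : List (Lab m)) (c c' : ℕ → ℕ)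
    (h : cact U (l.1, l.2) c c') (hc : enc m c ≤ n) :
    (bwd l).run (pact n) (enc m c', ls.map some) (enc m c, ls.map some) := by
  have hp := (pr_prime l.1).pos
  unfold cact at h
  unfold bwd
  split_ifs at h ⊢ <;> obtain ⟨h, rfl⟩ := h
  · exact (run_affP n _ _ _ _ _ _ _ (head_map ls)).2 ⟨rfl, hc, by simp [enc_inc l.1.2]⟩
  · exact (run_affP n _ _ _ _ _ _ _ (head_map ls)).2
      ⟨rfl, hc, by simpa using enc_dec l.1.2 c h⟩
  · have h1 : enc m c' % pr l.1 ≠ 0 := fun e =>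
      (enc_dvd l.1.2 c').1 (Nat.dvd_of_mod_eq_zero e) h
    have h2 := Nat.mod_lt (enc m c') hp
    have h3 := Nat.div_add_mod (enc m c') (pr l.1)
    refine (run_alts _ _ _ _).2 ⟨_, List.mem_map.2 ⟨enc m c' % pr l.1 - 1,
      List.mem_range.2 (by omega), rfl⟩, (enc m c' / pr l.1, ls.map some),
      (run_affP n _ _ _ _ _ _ _ (head_map ls)).2 ⟨rfl, (Nat.div_le_self _ _).trans hc, ?_⟩,
      (run_affP n _ _ _ _ _ _ _ (head_map ls)).2 ⟨rfl, hc, ?_⟩⟩ <;> simp only <;> omega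

noncomputable def back (m : ℕ) : Prog (PA (Option (Lab m))) :=
  star (alts ((Finset.univ : Finset (Lab m)).toList.map fun l =>
    seq (atom (.pop (some l))) (bwd l)))

theorem back_sound {m n : ℕ} (s : ℕ × List (Option (Lab m)))
    (h : (back m).run (pact n) s (1, [])) (hs : s.1 ≤ n) (ls : List (Lab m))
    (e : s.2 = ls.map some) : ∃ c, Hist n ls c ∧ s.1 = enc m c := by
  induction h using ReflTransGen.head_induction_on generalizing ls with
  | refl =>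
    obtain rfl : ls = [] := by simpa using e.symm
    exact ⟨_, rfl, by simp [enc]⟩
  | @head a b h _ ih =>
    obtain ⟨_, h1, h2⟩ := (run_alts _ _ _ _).1 h
    obtain ⟨l, -, rfl⟩ := List.mem_map.1 h1
    obtain ⟨⟨y, l1⟩, rfl, h3⟩ := h2
    obtain ⟨l', ls, rfl, h4, rfl⟩ := List.map_eq_cons_iff.1 e.symm
    obtain rfl := Option.some.inj h4
    obtain ⟨a1, a2, a3⟩ := bwd_sound _ y ls b h3
    obtain ⟨c, b1, b2⟩ := ih a2 ls a1
    obtain ⟨c', d1, d2⟩ := a3 c b2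
    exact ⟨c', ⟨c, b1, d1⟩, d2⟩

theorem back_complete {m n U : ℕ} (hU : enc m (fun _ => 1) ^ U ≤ n) (ls : List (Lab m))
    (c : ℕ → ℕ) (h : Hist U ls c) : (back m).run (pact n) (enc m c, ls.map some) (1, []) := by
  induction ls generalizing c with
  | nil =>
    obtain rfl := h
    simp only [enc, pow_zero, Finset.prod_const_one]
    exact .refl
  | cons l ls ih =>
    obtain ⟨c0, a, b⟩ := h
    refine ReflTransGen.head ((run_alts _ _ _ _).2 ⟨_, List.mem_map.2 ⟨l, by simp, rfl⟩,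
      (_, ls.map some), rfl, ?_⟩) (ih c0 a)
    exact bwd_complete l ls c0 c b ((enc_le m U c0 a.le).trans hU)

def MA.idx : MA → ℕ
  | .cnt a => a.1
  | _ => 0

theorem two_pass (p : Prog MA) : ∃ (P : HeadsPDA Unit 1) (K : ℕ), ∀ w : List Unit,
    (w ∈ P.lang → ∃ t, p.run (mact (w.length + 1) (w.length + 1)) (0, fun _ => 0) t) ∧
    ∀ U, K ^ U ≤ w.length + 1 → (∃ t, p.run (mact (w.length + 1) U) (0, fun _ => 0) t) →
      w ∈ P.lang := by
  obtain ⟨m, hm⟩ := p.exists_all MA.idx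
  obtain ⟨P, hP⟩ := pda_of_prog (seqs [p.bind (fwd m), affP _ 0 0 0 0 0, back m, atom .emp,
    atom .L, atom .atL])
  refine ⟨P, enc m (fun _ => 1), fun w => ?_⟩
  rw [hP]
  generalize w.length + 1 = n
  constructor
  · rintro ⟨t, t1, h1, t2, h2, ⟨y, l3⟩, h3, _, ⟨e4, rfl⟩, ⟨y5, l5⟩, ⟨e5, -⟩, _, ⟨e6, rfl⟩, -⟩
    simp only at e4 e5 e6
    subst e4 e6 e5
    obtain ⟨⟨ls, a1⟩, a2⟩ := sim_bwd (act := mact n n) (fwd m)
      (fun t => ∃ ls : List (Lab m), t.2 = ls.map some)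
      (fun s t => s.1 = t.1 ∧ ∃ ls : List (Lab m), t.2 = ls.map some ∧ Hist n ls s.2) (by
        rintro a ⟨x, _⟩ ⟨x', l'⟩ h ⟨ls, rfl⟩
        cases a with
        | aff α a β b k =>
          obtain ⟨rfl, b2, b3⟩ := (run_affP n _ _ _ _ _ _ _ (head_map ls)).1 h
          refine ⟨⟨ls, rfl⟩, ?_⟩
          rintro ⟨_, c⟩ ⟨rfl, h⟩
          exact ⟨(x, c), ⟨rfl, b2, b3⟩, rfl, h⟩
        | atR =>
          obtain ⟨b1, b2⟩ := h
          rw [b2]
          exact ⟨⟨ls, rfl⟩, fun s hs => ⟨s, ⟨hs.1.trans b1, rfl⟩, hs⟩⟩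
        | cnt a =>
          simp only [fwd] at h
          split_ifs at h with e
          · obtain ⟨rfl, rfl⟩ := Prod.mk.inj h
            refine ⟨⟨(⟨a.1, e⟩, a.2) :: ls, rfl⟩, ?_⟩
            rintro ⟨_, c⟩ ⟨rfl, ls', h1, h2⟩
            obtain rfl : (⟨a.1, e⟩, a.2) :: ls = ls' :=
              List.map_injective_iff.2 (Option.some_injective _) h1
            obtain ⟨c0, h3, h4⟩ := h2
            exact ⟨(_, c0), ⟨rfl, h4⟩, rfl, ls, rfl, h3⟩
          · exact h.elim) p _ _ h1 ⟨[], rfl⟩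
    obtain ⟨b1, b2, -⟩ := (run_affP n _ _ _ _ _ _ _ (a1 ▸ head_map ls)).1 h2
    obtain ⟨c, c1, -⟩ := back_sound t2 h3 b2 ls (b1.trans a1)
    obtain ⟨⟨x, c0⟩, d1, rfl, ls', d2, d3⟩ := a2 (t1.1, c) ⟨rfl, ls, a1, c1⟩
    obtain rfl : ls' = [] := by simpa using d2.symm
    obtain rfl := d3
    exact ⟨_, d1⟩
  · rintro U hU ⟨t, ht⟩
    obtain ⟨⟨x, _⟩, a1, -, ls, rfl, a2⟩ := sim_fwd (act' := pact n) (fwd m)
      (fun (s : ℕ × (ℕ → ℕ)) (t : ℕ × List (Option (Lab m))) =>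
        s.1 = t.1 ∧ ∃ ls : List (Lab m), t.2 = ls.map some ∧ Hist U ls s.2) (by
        rintro a ha ⟨x, c⟩ ⟨x', c'⟩ ⟨_, _⟩ h ⟨rfl, ls, rfl, h2⟩
        cases a with
        | aff α a β b k =>
          obtain ⟨rfl, b2, b3⟩ := h
          exact ⟨(x', _), (run_affP n _ _ _ _ _ _ _ (head_map ls)).2 ⟨rfl, b2, b3⟩, rfl, ls, rfl, h2⟩
        | atR =>
          obtain ⟨b1, b2⟩ := h
          rw [b2]
          exact ⟨_, ⟨b1, rfl⟩, rfl, ls, rfl, h2⟩
        | cnt a =>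
          have e : a.1 < m := ha
          simp only [fwd, dif_pos e]
          exact ⟨_, rfl, h.1, (⟨a.1, e⟩, a.2) :: ls, rfl, c, h2, h.2⟩) p hm _ _ (0, []) ht
      (And.intro rfl ⟨[], rfl, show (fun _ => 0) = fun _ => 0 from rfl⟩)
    exact ⟨(0, []), _, a1, (enc m t.2, _), (run_affP n _ _ _ _ _ _ _ (head_map ls)).2
      ⟨rfl, (enc_le m U _ a2.le).trans hU, by simp⟩, _, back_complete hU ls _ a2, _, ⟨rfl, rfl⟩,
      (0, []), ⟨rfl, rfl⟩, _, ⟨rfl, rfl⟩, rfl⟩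

end Pool.Agent.P.MP_d0a708_lc.K
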