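import Pool.Agent.P.MP_d0a708_lc.Trans

/-!
A deterministic two-way pushdown automaton that reads the bit of the block length addressed by
the short word.
-/

namespace Pool.Agent.P.MP_d0a708_lc

/-- States. -/
inductive St : Type
  | I | R | L (b : Bool) | U (b : Bool) | U' (b : Bool) | Y | G | H | A (b : Bool) | V
  | E (b : Bool) | Fin
  deriving DecidableEq, Fintype

/-- Pushdown symbols. -/
inductive Sk : Type
  | Z | B (b : Bool) | X | M
  deriving DecidableEq, Fintype

/-- The symbol is the block letter. -/
def isA : Tape (Fin 3) → Bool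
  | .letter x => x = 2
  | _ => false

/-- The table. -/
def δf : St → Tape (Fin 3) → Sk → Option (St × SignType × List Sk)
  | .I, .left, g => some (.I, 1, [g])
  | .I, .right, g => some (.R, -1, [g])
  | .I, .letter x, g => if x = 2 then some (.R, -1, [g]) else some (.I, 1, [.B (x = 1), g])
  | .R, _, .B b => some (.L b, 0, [])
  | .R, _, g => some (.Y, 0, [g])
  | .L b, s, g => if isA s then some (.L b, -1, [.X, g]) else some (.U b, 0, [g])
  | .U b, _, g => if g = .X then some (.U' b, 1, []) else some (.R, if b then 1 else 0, [g])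
  | .U' b, _, g => some (.U b, 1, [g])
  | .Y, s, g => if isA s then some (.Y, -1, [.M, g]) else some (.G, 0, [g])
  | .G, .right, g => some (.H, -1, [g])
  | .G, _, g => some (.G, 1, [g])
  | .H, _, g => if g = .M then some (.A false, 0, []) else some (.E false, 0, [g])
  | .A b, s, g => if isA s then some (.A (!b), -1, if b then [.X, g] else [g])
      else some (.V, 0, [g])
  | .V, _, g => if g = .X then some (.V, 1, []) else some (.H, 0, [g])
  | .E b, s, g => if isA s then some (.E (!b), -1, [g]) else if b then some (.Fin, 0, [g]) else none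
  | .Fin, _, _ => none

lemma table_subsingleton (q : St) (s : Fin 1 → Tape (Fin 3)) (g : Sk) :
    {r : St × (Fin 1 → SignType) × List Sk | δf q (s 0) g = some (r.1, r.2.1 0, r.2.2)}.Subsingleton := by
  rintro ⟨a, b, c⟩ h ⟨a', b', c'⟩ h'
  simp only [Set.mem_setOf_eq] at h h'
  rw [h] at h'
  simp only [Option.some.injEq, Prod.mk.injEq] at h' ⊢
  exact ⟨h'.1, funext fun i => by rw [Subsingleton.elim i 0]; exact h'.2.1, h'.2.2⟩

/-- The automaton. -/
def pda : HeadsPDA (Fin 3) 1 where
  Q := St
  Γ := Sk
  finQ := inferInstance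
  finΓ := inferInstance
  start := .I
  bottom := .Z
  accept := {.Fin}
  δ q s g := {r | δf q (s 0) g = some (r.1, r.2.1 0, r.2.2)}
  finδ q s g := (table_subsingleton q s g).finite

lemma pda_unique (w : List (Fin 3)) : Relator.RightUnique (pda.Step w) := by
  rintro ⟨q, p, st⟩ ⟨q₁, p₁, st₁⟩ ⟨q₂, p₂, st₂⟩ ⟨g, r, m, v, h1, h2, h3, h4⟩
    ⟨g', r', m', v', h1', h2', h3', h4'⟩
  simp only at h1 h2 h3 h4 h1' h2' h3' h4'
  rw [h1] at h1'
  obtain ⟨rfl, rfl⟩ := List.cons.inj h1'
  have h := table_subsingleton q (fun i => cell w (p i)) g h3 h3'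
  simp only [Prod.mk.injEq] at h ⊢
  obtain ⟨rfl, rfl, rfl⟩ := h
  refine ⟨rfl, funext fun i => ?_, h2.trans h2'.symm⟩
  have := (h4 i).1
  have := (h4' i).1
  omega

lemma pda_det : pda.Det := fun w _ _ _ _ h1 h2 => pda_unique w h1 h2

/-- Reachability between configurations. -/
def Re (w : List (Fin 3)) (q : St) (p : ℕ) (st : List Sk) (q' : St) (p' : ℕ) (st' : List Sk) :
    Prop :=
  Relation.ReflTransGen (pda.Step w) (q, fun _ => p, st) (q', fun _ => p', st')

variable {w : List (Fin 3)}

lemma Re.refl {q p st} : Re w q p st q p st := Relation.ReflTransGen.refl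

lemma Re.trans {q p st q' p' st' q'' p'' st''} (h : Re w q p st q' p' st')
    (h' : Re w q' p' st' q'' p'' st'') : Re w q p st q'' p'' st'' :=
  Relation.ReflTransGen.trans h h'

lemma Re.step {q p g rest q' q'' p'' st''} (m : SignType) (v : List Sk) (p' : ℕ)
    (h : δf q (cell w p) g = some (q', m, v)) (h1 : (p' : ℤ) = p + (m : ℤ))
    (h2 : p' ≤ w.length + 1) (h' : Re w q' p' (v ++ rest) q'' p'' st'') :
    Re w q p (g :: rest) q'' p'' st'' :=
  Relation.ReflTransGen.head (b := (q', fun _ => p', v ++ rest))
    ⟨g, rest, fun _ => m, v, rfl, rfl, h, fun _ => ⟨h1, h2⟩⟩ h'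

/-- Binary value, most significant bit first. -/
def val : ℕ → List Bool → ℕ
  | c, [] => c
  | c, b :: cs => val (2 * c + b.toNat) cs

lemma le_val (cs : List Bool) : ∀ c, c ≤ val c cs := by
  induction cs with
  | nil => exact fun _ => le_rfl
  | cons b cs ih => exact fun c => le_trans (by omega) (ih _)

lemma val_inj (cs : List Bool) : ∀ (cs' : List Bool) (c c' : ℕ), cs.length = cs'.length →
    val c cs = val c' cs' → c = c' ∧ cs = cs' := by
  induction cs with
  | nil =>
    intro cs' c c' h1 h2
    obtain rfl : cs' = [] := List.length_eq_zero_iff.1 h1.symm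
    exact ⟨h2, rfl⟩
  | cons b cs ih =>
    intro cs' c c' h1 h2
    cases cs' with
    | nil => simp at h1
    | cons b' cs' =>
      obtain ⟨h3, rfl⟩ := ih cs' _ _ (by simpa using h1) h2
      cases b <;> cases b' <;> simp at h3 ⊢ <;> omega

section

variable {l n : ℕ} (hA : ∀ c, c < n → cell w (l + (c + 1)) = .letter 2)
  (hl : isA (cell w l) = false) (hlen : w.length = l + n)
include hA hl hlen

lemma re_L (b : Bool) (c : ℕ) (hc : c ≤ n) : ∀ g rest,
    Re w (.L b) (l + c) (g :: rest) (.U b) l (List.replicate c .X ++ g :: rest) := by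
  induction c with
  | zero => exact fun g rest => .step 0 [g] l (by simp [δf, hl]) (by simp) (by omega) .refl
  | succ c ih =>
    intro g rest
    refine .step (-1) [.X, g] (l + c) (by simp [δf, hA c hc, isA]; rfl) (by simp; ring) (by omega) ?_
    rw [List.replicate_succ', List.append_assoc]
    exact ih (by omega) _ _

lemma re_Y (c : ℕ) (hc : c ≤ n) : ∀ g rest,
    Re w .Y (l + c) (g :: rest) .G l (List.replicate c .M ++ g :: rest) := by
  induction c with
  | zero => exact fun g rest => .step 0 [g] l (by simp [δf, hl]) (by simp) (by omega) .refl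
  | succ c ih =>
    intro g rest
    refine .step (-1) [.M, g] (l + c) (by simp [δf, hA c hc, isA]; rfl) (by simp; ring) (by omega) ?_
    rw [List.replicate_succ', List.append_assoc]
    exact ih (by omega) _ _

lemma re_A (c : ℕ) (hc : c ≤ n) : ∀ (b : Bool) g rest,
    Re w (.A b) (l + c) (g :: rest) .V l (List.replicate ((c + b.toNat) / 2) .X ++ g :: rest) := by
  induction c with
  | zero =>
    intro b g rest
    have : (0 + b.toNat) / 2 = 0 := by cases b <;> rfl
    rw [this]
    exact .step 0 [g] l (by simp [δf, hl]) (by simp) (by omega) .refl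
  | succ c ih =>
    intro b g rest
    cases b
    · exact .step (-1) [g] (l + c) (by simp [δf, hA c hc, isA]) (by simp; ring) (by omega)
        (ih (by omega) true _ _)
    · refine .step (-1) [.X, g] (l + c) (by simp [δf, hA c hc, isA]; rfl) (by simp; ring)
        (by omega) ?_
      have : (c + 1 + true.toNat) / 2 = (c + false.toNat) / 2 + 1 := by simp; omega
      rw [this, List.replicate_succ', List.append_assoc]
      exact ih (by omega) false _ _

omit hl in
lemma re_E (c : ℕ) (hc : c ≤ n) : ∀ (b : Bool) g rest,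
    Re w (.E b) (l + c) (g :: rest) (.E (decide ((c + b.toNat) % 2 = 1))) l (g :: rest) := by
  induction c with
  | zero =>
    intro b g rest
    cases b <;> exact .refl
  | succ c ih =>
    intro b g rest
    have : decide ((c + 1 + b.toNat) % 2 = 1) = decide ((c + (!b).toNat) % 2 = 1) := by
      cases b <;> simp
      omega
    rw [this]
    exact .step (-1) [g] (l + c) (by simp [δf, hA c hc, isA]) (by simp; ring) (by omega)
      (ih (by omega) _ _ _)

omit hA hl hlen in
lemma re_U (b : Bool) {g : Sk} (hg : g ≠ .X) (rest : List Sk) (k : ℕ) : ∀ p,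
    p + (2 * k + b.toNat) ≤ w.length + 1 →
    Re w (.U b) p (List.replicate k .X ++ g :: rest) .R (p + (2 * k + b.toNat)) (g :: rest) := by
  induction k with
  | zero =>
    intro p hp
    refine .step (if b then 1 else 0) [g] _ (by simp [δf, hg]) ?_ hp .refl
    cases b <;> simp
  | succ k ih =>
    intro p hp
    refine .step 1 [] (p + 1) (by simp [δf]; rfl) (by simp) (by omega) ?_
    obtain ⟨g', r', e⟩ : ∃ g' r', List.replicate k Sk.X ++ g :: rest = g' :: r' := by
      cases k <;> exact ⟨_, _, rfl⟩
    have h := ih (p + 2) (by omega)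
    rw [show p + 2 + (2 * k + b.toNat) = p + (2 * (k + 1) + b.toNat) by ring, e] at h
    change Re w _ _ (List.replicate k Sk.X ++ g :: rest) _ _ _
    rw [e]
    exact .step 1 [g'] (p + 2) (by simp [δf]) (by simp; ring) (by omega) h

omit hA hl hlen in
lemma re_V {g : Sk} (hg : g ≠ .X) (rest : List Sk) (k : ℕ) : ∀ p, p + k ≤ w.length + 1 →
    Re w .V p (List.replicate k .X ++ g :: rest) .H (p + k) (g :: rest) := by
  induction k with
  | zero => exact fun p hp => .step 0 [g] _ (by simp [δf, hg]) (by simp) hp .refl
  | succ k ih =>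
    intro p hp
    refine .step 1 [] (p + 1) (by simp [δf]; rfl) (by simp) (by omega) ?_
    have h := ih (p + 1) (by omega)
    rwa [show p + 1 + k = p + (k + 1) by ring] at h

omit hA hl hlen in
lemma re_G (g : Sk) (rest : List Sk) (k : ℕ) : ∀ p, p + k = w.length + 1 →
    Re w .G p (g :: rest) .H w.length (g :: rest) := by
  induction k with
  | zero =>
    intro p hp
    have : cell w p = .right := cell_right.2 (by omega)
    exact .step (-1) [g] _ (by simp [δf, this]) (by simp; omega) (by omega) .refl
  | succ k ih =>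
    intro p hp
    have : cell w p ≠ .right := by
      rw [Ne, cell_right]
      omega
    refine .step 1 [g] (p + 1) ?_ (by simp) (by omega) (ih _ (by omega))
    cases h : cell w p with
    | right => exact absurd h this
    | left => rfl
    | letter x => rfl

lemma re_R (cs : List Bool) : ∀ c, val c cs ≤ n →
    Re w .R (l + c) (cs.map .B ++ [.Z]) .Y (l + val c cs) [.Z] := by
  induction cs with
  | nil => exact fun c hc => .step 0 [.Z] _ rfl (by simp [val]) (by simp [val] at hc ⊢; omega) .refl
  | cons b cs ih =>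
    intro c hc
    have h1 := le_val cs (2 * c + b.toNat)
    rw [val] at hc
    obtain ⟨g, r, e, hg⟩ : ∃ g r, cs.map Sk.B ++ [.Z] = g :: r ∧ g ≠ .X := by
      cases cs <;> exact ⟨_, _, rfl, by simp⟩
    have h2 := ih _ hc
    refine .step 0 [] (l + c) rfl (by simp) (by omega) ?_
    change Re w _ _ (cs.map Sk.B ++ [.Z]) _ _ _
    rw [e] at h2 ⊢
    exact (re_L hA hl hlen b c (by omega) g r).trans ((re_U b hg r c l (by omega)).trans h2)

lemma re_H (k : ℕ) : ∀ c, c ≤ n →
    Re w .H (l + c) (List.replicate k .M ++ [.Z]) (.E false) (l + c / 2 ^ k) [.Z] := by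
  induction k with
  | zero => exact fun c hc => .step 0 [.Z] _ rfl (by simp) (by simp; omega) .refl
  | succ k ih =>
    intro c hc
    obtain ⟨g, r, e, hg⟩ : ∃ g r, List.replicate k Sk.M ++ [.Z] = g :: r ∧ g ≠ .X := by
      cases k <;> exact ⟨_, _, rfl, by simp⟩
    have h2 := ih (c / 2) (by omega)
    refine .step 0 [] (l + c) rfl (by simp) (by omega) ?_
    change Re w _ _ (List.replicate k Sk.M ++ [.Z]) _ _ _
    rw [e] at h2 ⊢
    rw [Nat.div_div_eq_div_mul, ← pow_succ'] at h2
    exact (re_A hA hl hlen c hc false g r).trans ((re_V hg r _ l (by simp; omega)).trans h2)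

end

/-- Letter of a bit. -/
def enc (b : Bool) : Fin 3 := if b then 1 else 0

lemma re_P (n : ℕ) (suf : List Bool) : ∀ (pre : List Bool) g rest,
    Re ((pre ++ suf).map enc ++ List.replicate n 2) .I (pre.length + 1) (g :: rest) .R
      (pre ++ suf).length (suf.reverse.map .B ++ g :: rest) := by
  induction suf with
  | nil =>
    intro pre g rest
    refine .step (-1) [g] _ ?_ (by simp) (by simp; omega) .refl
    cases n <;> simp [cell, δf, List.replicate_succ]
  | cons b suf ih =>
    intro pre g rest
    have h := ih (pre ++ [b]) (.B b) (g :: rest)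
    simp only [List.append_assoc, List.singleton_append, List.length_append, List.length_singleton,
      List.reverse_cons, List.map_append, List.map_cons, List.map_nil] at h ⊢
    refine .step 1 [.B b, g] (pre.length + 1 + 1) ?_ (by simp) (by simp) h
    cases b <;> simp [cell, δf, enc]

theorem pda_spec (bs : List Bool) (n : ℕ) (hn : val 0 bs.reverse ≤ n) :
    bs.map enc ++ List.replicate n 2 ∈ pda.lang ↔ n.testBit (val 0 bs.reverse) = true := by
  set w := bs.map enc ++ List.replicate n (2 : Fin 3) with hw
  have hlen : w.length = bs.length + n := by simp [hw]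
  have hA : ∀ c, c < n → cell w (bs.length + (c + 1)) = .letter 2 := by
    intro c hc
    rw [← add_assoc, cell, hw, List.getElem?_append_right (by simp), List.getElem?_replicate,
      if_pos (by simpa using hc)]
    rfl
  have hl : isA (cell w bs.length) = false := by
    rcases List.eq_nil_or_concat bs with rfl | ⟨cs, b, rfl⟩
    · rfl
    · cases b <;> simp [hw, cell, isA, enc]
  have h1 : Re w .I 0 [.Z] (.E (n.testBit (val 0 bs.reverse))) bs.length [.Z] := by
    refine .step 1 [.Z] 1 rfl (by simp) (by omega) ?_
    refine (re_P n bs [] .Z []).trans ((re_R hA hl hlen bs.reverse 0 hn).trans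
      ((re_Y hA hl hlen _ hn _ _).trans ?_))
    obtain ⟨g, r, e⟩ : ∃ g r, List.replicate (val 0 bs.reverse) Sk.M ++ [.Z] = g :: r := by
      cases val 0 bs.reverse <;> exact ⟨_, _, rfl⟩
    have h2 := re_G (w := w) g r (n + 1) bs.length (by omega)
    rw [← e, hlen] at h2
    refine h2.trans ((re_H hA hl hlen _ n le_rfl).trans ?_)
    rw [Nat.testBit_eq_decide_div_mod_eq]
    exact re_E hA hlen _ (Nat.div_le_self _ _) false _ _
  constructor
  · rintro ⟨⟨q, p, st⟩, h2, h3⟩
    obtain rfl : q = St.Fin := h3
    by_contra h4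
    rw [Bool.not_eq_true] at h4
    rw [h4] at h1
    rcases Relation.ReflTransGen.total_of_right_unique (pda_unique w) h1 h2 with h | h
    · rcases h.cases_head with h | ⟨c, ⟨g, r, m, v, -, -, h5, -⟩, -⟩
      · cases (Prod.mk.inj h).1
      · simp [pda, δf, hl] at h5
        exact h5
    · rcases h.cases_head with h | ⟨c, ⟨g, r, m, v, -, -, h5, -⟩, -⟩
      · cases (Prod.mk.inj h).1
      · simp [pda, δf] at h5
        exact h5
  · intro h
    rw [h] at h1
    exact ⟨_, h1.trans (.step (q' := .Fin) 0 [.Z] bs.length (by simp [δf, hl]) (by simp)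
      (by omega) .refl), rfl⟩

end Pool.Agent.P.MP_d0a708_lc
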