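import Pool.Agent.P.MP_d0a708_lc.Defs
import Pool.Agent.P.MP_d0a708_lc.Count

/-!
From deterministic two-head automata to total transition tables.
-/

namespace Pool.Agent.P.MP_d0a708_lc

variable {α : Type}

lemma cell_left {w : List α} {p : ℕ} : cell w p = Tape.left ↔ p = 0 := by
  cases p with
  | zero => simp [cell]
  | succ p =>
    simp only [cell]
    cases w[p]? <;> simp

lemma cell_right {w : List α} {p : ℕ} : cell w p = Tape.right ↔ w.length + 1 ≤ p := by
  cases p with
  | zero => simp [cell]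
  | succ p =>
    simp only [cell]
    cases h : w[p]? with
    | none => simpa using h
    | some x =>
      have := (List.getElem?_eq_some_iff.1 h).1
      simp
      omega

lemma sign_bd (m : SignType) : -1 ≤ (m : ℤ) ∧ (m : ℤ) ≤ 1 := by
  cases m <;> simp

/-- Moves of the table that stay on the tape. -/
def Legal (M : HeadsFA α 2) (q : M.Q) (s : Fin 2 → Tape α) (r : M.Q × (Fin 2 → SignType)) : Prop :=
  r ∈ M.δ q s ∧ ∀ i, (s i = Tape.left → 0 ≤ (r.2 i : ℤ)) ∧ (s i = Tape.right → (r.2 i : ℤ) ≤ 0)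

open Classical in
/-- The chosen move. -/
noncomputable def pick (M : HeadsFA α 2) (q : M.Q) (s : Fin 2 → Tape α) :
    M.Q × (Fin 2 → SignType) :=
  if h : q ∉ M.accept ∧ ∃ r, Legal M q s r then h.2.choose else (q, fun _ => 0)

lemma pick_spec (M : HeadsFA α 2) (q : M.Q) (s : Fin 2 → Tape α) :
    (Legal M q s (pick M q s) ∨ pick M q s = (q, fun _ => 0)) ∧
      (q ∉ M.accept → (∃ r, Legal M q s r) → Legal M q s (pick M q s)) ∧
      (q ∈ M.accept → pick M q s = (q, fun _ => 0)) := by
  unfold pick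
  split_ifs with h
  · exact ⟨Or.inl h.2.choose_spec, fun _ _ => h.2.choose_spec, fun h' => absurd h' h.1⟩
  · exact ⟨Or.inr rfl, fun h1 h2 => absurd ⟨h1, h2⟩ h, fun _ => rfl⟩

lemma pick_end (M : HeadsFA α 2) (q : M.Q) (s : Fin 2 → Tape α) (i : Fin 2) :
    (s i = Tape.left → 0 ≤ ((pick M q s).2 i : ℤ)) ∧
      (s i = Tape.right → ((pick M q s).2 i : ℤ) ≤ 0) := by
  rcases (pick_spec M q s).1 with h | h
  · exact h.2 i
  · simp [h]

/-- The total table of a two-head automaton. -/
noncomputable def toSys (M : HeadsFA α 2) (a : α) : Sys M.Q (Tape α) where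
  nx q s s' := ((pick M q ![s, s']).1, ((pick M q ![s, s']).2 0 : ℤ), ((pick M q ![s, s']).2 1 : ℤ))
  acc q := q ∈ M.accept
  a := Tape.letter a
  lf := Tape.left
  rt := Tape.right
  abs q s s' h := by simp [(pick_spec M q ![s, s']).2.2 h]
  mv1 _ _ _ := sign_bd _
  mv2 _ _ _ := sign_bd _
  lf1 q s' := (pick_end M q _ 0).1 rfl
  lf2 q s := (pick_end M q _ 1).1 rfl
  rt1 q s' := (pick_end M q _ 0).2 rfl
  rt2 q s := (pick_end M q _ 1).2 rfl

/-- Integer form of a configuration. -/
def toZ {Q : Type} (c : Q × (Fin 2 → ℕ)) : Q × ℤ × ℤ := (c.1, c.2 0, c.2 1)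

lemma acc_iff (M : HeadsFA α 2) (hM : M.Det) (a : α) (w : List α) {l n : ℕ} {z : ℤ → Tape α}
    (hs : ∀ p : ℕ, p ≤ w.length + 1 → (toSys M a).sym l z n p = cell w p) :
    (toSys M a).Acc l z n (M.start, 0, 0) ↔ w ∈ M.lang := by
  have hf : ∀ c : M.Q × (Fin 2 → ℕ), (∀ i, c.2 i ≤ w.length + 1) →
      (toSys M a).f l z n (toZ c) = ((pick M c.1 fun i => cell w (c.2 i)).1,
        (c.2 0 : ℤ) + ((pick M c.1 fun i => cell w (c.2 i)).2 0 : ℤ),
        (c.2 1 : ℤ) + ((pick M c.1 fun i => cell w (c.2 i)).2 1 : ℤ)) := by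
    intro c hc
    have e : ![cell w (c.2 0), cell w (c.2 1)] = fun i => cell w (c.2 i) := by
      funext i
      fin_cases i <;> rfl
    simp only [Sys.f, toZ, hs _ (hc 0), hs _ (hc 1)]
    simp only [toSys, e]
  have hstep : ∀ c : M.Q × (Fin 2 → ℕ), (∀ i, c.2 i ≤ w.length + 1) →
      Legal M c.1 (fun i => cell w (c.2 i)) (pick M c.1 fun i => cell w (c.2 i)) →
      ∃ c', M.Step w c c' ∧ (toSys M a).f l z n (toZ c) = toZ c' := by
    intro c hc hL
    set r := pick M c.1 fun i => cell w (c.2 i) with hr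
    have h1 : ∀ i, 0 ≤ (c.2 i : ℤ) + (r.2 i : ℤ) ∧ (c.2 i : ℤ) + (r.2 i : ℤ) ≤ w.length + 1 := by
      intro i
      obtain ⟨h2, h3⟩ := hL.2 i
      rw [cell_left] at h2
      rw [cell_right] at h3
      have h4 := sign_bd (r.2 i)
      have h5 := hc i
      omega
    refine ⟨(r.1, fun i => ((c.2 i : ℤ) + (r.2 i : ℤ)).toNat), ⟨r.2, hL.1, fun i => ?_⟩, ?_⟩
    · have := h1 i
      simp only
      omega
    · rw [hf c hc, ← hr]
      simp only [toZ, Int.toNat_of_nonneg (h1 _).1]
  constructor
  · rintro ⟨t, ht⟩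
    have : ∀ t, ∃ c, Relation.ReflTransGen (M.Step w) (M.start, fun _ => 0) c ∧
        (∀ i, c.2 i ≤ w.length + 1) ∧ ((toSys M a).f l z n)^[t] (M.start, 0, 0) = toZ c := by
      intro t
      induction t with
      | zero => exact ⟨_, .refl, fun _ => Nat.zero_le _, rfl⟩
      | succ t ih =>
        obtain ⟨c, h1, h2, h3⟩ := ih
        rw [Function.iterate_succ_apply', h3]
        rcases (pick_spec M c.1 fun i => cell w (c.2 i)).1 with h | h
        · obtain ⟨c', h4, h5⟩ := hstep c h2 h
          exact ⟨c', h1.tail h4, fun i => (h4.choose_spec.2 i).2, h5⟩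
        · refine ⟨c, h1, h2, ?_⟩
          rw [hf c h2, h]
          simp [toZ]
    obtain ⟨c, h1, -, h3⟩ := this t
    rw [Sys.AccIn, h3] at ht
    exact ⟨c, h1, ht⟩
  · rintro ⟨c, h1, h2⟩
    have : ∀ c0, Relation.ReflTransGen (M.Step w) c0 c → (∀ i, c0.2 i ≤ w.length + 1) →
        (toSys M a).Acc l z n (toZ c0) := by
      intro c0 h
      induction h using Relation.ReflTransGen.head_induction_on with
      | refl => exact fun _ => ⟨0, h2⟩
      | @head c0 c1 h3 _ ih =>
        intro hc
        by_cases ha : c0.1 ∈ M.accept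
        · exact ⟨0, ha⟩
        obtain ⟨m, hm1, hm2⟩ := id h3
        obtain ⟨c', h4, h5⟩ := hstep c0 hc ((pick_spec M _ _).2.1 ha ⟨(c1.1, m), hm1, fun i => by
          have h6 := hm2 i
          have h7 := hc i
          simp only [cell_left, cell_right]
          omega⟩)
        refine Sys.Acc.of_iter (u := 1) ?_
        rw [Function.iterate_one, h5, hM w c0 c' c1 hc h4 h3]
        exact ih fun i => (hm2 i).2
    exact this _ h1 fun _ => Nat.zero_le _

lemma sym_word (M : HeadsFA α 2) (a : α) (zs : List α) (n p : ℕ) :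
    (toSys M a).sym zs.length (fun x => cell zs x.toNat) n p =
      cell (zs ++ List.replicate n a) p := by
  unfold Sys.sym
  cases p with
  | zero => simp [cell]
  | succ p =>
    split_ifs with h1 h2
    · simp only [Int.toNat_natCast, cell]
      rw [List.getElem?_append_left (by omega)]
    · simp only [cell, toSys]
      rw [List.getElem?_append_right (by omega), List.getElem?_replicate, if_pos (by omega)]
      rfl
    · refine (cell_right.2 ?_).symm
      simp only [List.length_append, List.length_replicate]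
      omega

end Pool.Agent.P.MP_d0a708_lc
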